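import Pool.Agent.Work.MP_80156a_core7.GD00
import Pool.Agent.Work.MP_80156a_core7.GD01
import Pool.Agent.Work.MP_80156a_core7.GD02
import Pool.Agent.Work.MP_80156a_core7.GD03
import Pool.Agent.Work.MP_80156a_core7.GD04
import Pool.Agent.Work.MP_80156a_core7.GD05
import Pool.Agent.Work.MP_80156a_core7.GD06
import Pool.Agent.Work.MP_80156a_core7.GD07
import Pool.Agent.Work.MP_80156a_core7.GD08
import Pool.Agent.Work.MP_80156a_core7.GD09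
import Pool.Agent.Work.MP_80156a_core7.GD10
import Pool.Agent.Work.MP_80156a_core7.GD11
import Pool.Agent.Work.MP_80156a_core7.GD12
import Pool.Agent.Work.MP_80156a_core7.GD13
import Pool.Agent.Work.MP_80156a_core7.GD14
import Pool.Agent.Work.MP_80156a_core7.GD15
import Pool.Agent.Work.MP_80156a_core7.GD16
import Pool.Agent.Work.MP_80156a_core7.GD17
import Pool.Agent.Work.MP_80156a_core7.GD18
import Pool.Agent.Work.MP_80156a_core7.GD19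
import Pool.Agent.Work.MP_80156a_core7.GD20
import Pool.Agent.Work.MP_80156a_core7.GD21
import Pool.Agent.Work.MP_80156a_core7.GD22
import Pool.Agent.Work.MP_80156a_core7.GD23
import Pool.Agent.Work.MP_80156a_core7.GD24
import Pool.Agent.Work.MP_80156a_core7.GD25
import Pool.Agent.Work.MP_80156a_core7.GD26
import Pool.Agent.Work.MP_80156a_core7.GD27
import Pool.Agent.Work.MP_80156a_core7.GD28
import Pool.Agent.Work.MP_80156a_core7.GD29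
import Pool.Agent.Work.MP_80156a_core7.GD30
import Pool.Agent.Work.MP_80156a_core7.GD31
import Pool.Agent.Work.MP_80156a_core7.GD32
import Pool.Agent.Work.MP_80156a_core7.GD33

/-!
# MP_80156a, CORE7: the far regime is proved
-/

set_option autoImplicit false

namespace Pool.Agent.Core7.G

open Pool.Agent.Core7.Far Pool.Agent.Core7.Pk

theorem gt0 : Good4P ConclF ⟨512, 512, 0⟩ ⟨768, 256, 0⟩ ⟨1024, 512, 0⟩ ⟨768, 256, 256⟩ :=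
  gsplit1 (by decide) gd1 gd2

theorem gt1 : Good4P ConclF ⟨768, 256, 0⟩ ⟨1024, 0, 0⟩ ⟨1024, 512, 0⟩ ⟨768, 256, 256⟩ :=
  gsplit3 (by decide) gd3 gd4

theorem gt2 : Good4P ConclF ⟨512, 512, 0⟩ ⟨1024, 0, 0⟩ ⟨1024, 512, 0⟩ ⟨768, 256, 256⟩ :=
  gsplit0 (by decide) gt0 gt1

theorem gt3 : Good4P ConclF ⟨512, 512, 0⟩ ⟨1024, 0, 0⟩ ⟨1024, 512, 0⟩ ⟨512, 512, 512⟩ :=
  gsplit4 (by decide) gt2 gd5

theorem gt4 : Good4P ConclF ⟨512, 512, 0⟩ ⟨1024, 512, 0⟩ ⟨1024, 1024, 0⟩ ⟨768, 768, 256⟩ :=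
  gsplit1 (by decide) gd6 gd7

theorem gt5 : Good4P ConclF ⟨512, 512, 0⟩ ⟨1024, 512, 0⟩ ⟨768, 768, 256⟩ ⟨512, 512, 512⟩ :=
  gsplit4 (by decide) gd8 gd9

theorem gt6 : Good4P ConclF ⟨512, 512, 0⟩ ⟨1024, 512, 0⟩ ⟨1024, 1024, 0⟩ ⟨512, 512, 512⟩ :=
  gsplit5 (by decide) gt4 gt5

theorem gt7 : Good4P ConclF ⟨512, 512, 0⟩ ⟨1024, 0, 0⟩ ⟨1024, 1024, 0⟩ ⟨512, 512, 512⟩ :=
  gsplit3 (by decide) gt3 gt6

theorem gt8 : Good4P ConclF ⟨0, 0, 0⟩ ⟨1024, 0, 0⟩ ⟨1024, 1024, 0⟩ ⟨512, 512, 512⟩ :=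
  gsplit1 (by decide) gd0 gt7

theorem gt9 : Good4P ConclF ⟨512, 512, 512⟩ ⟨768, 256, 256⟩ ⟨1024, 512, 0⟩ ⟨1024, 512, 512⟩ :=
  gsplit1 (by decide) gd10 gd11

theorem gt10 : Good4P ConclF ⟨768, 256, 256⟩ ⟨896, 128, 128⟩ ⟨1024, 256, 0⟩ ⟨1024, 256, 256⟩ :=
  gsplit1 (by decide) gd12 gd13

theorem gt11 : Good4P ConclF ⟨768, 256, 256⟩ ⟨1024, 0, 0⟩ ⟨1024, 256, 0⟩ ⟨1024, 256, 256⟩ :=
  gsplit0 (by decide) gt10 gd14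

theorem gt12 : Good4P ConclF ⟨768, 256, 256⟩ ⟨1024, 0, 0⟩ ⟨1024, 512, 0⟩ ⟨1024, 256, 256⟩ :=
  gsplit3 (by decide) gt11 gd15

theorem gt13 : Good4P ConclF ⟨768, 256, 256⟩ ⟨1024, 0, 0⟩ ⟨1024, 512, 0⟩ ⟨1024, 512, 512⟩ :=
  gsplit4 (by decide) gt12 gd16

theorem gt14 : Good4P ConclF ⟨512, 512, 512⟩ ⟨1024, 0, 0⟩ ⟨1024, 512, 0⟩ ⟨1024, 512, 512⟩ :=
  gsplit0 (by decide) gt9 gt13

theorem gt15 : Good4P ConclF ⟨768, 768, 256⟩ ⟨1024, 512, 0⟩ ⟨1024, 1024, 0⟩ ⟨1024, 768, 256⟩ :=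
  gsplit3 (by decide) gd18 gd19

theorem gt16 : Good4P ConclF ⟨768, 768, 256⟩ ⟨1024, 512, 0⟩ ⟨1024, 768, 256⟩ ⟨1024, 512, 512⟩ :=
  gsplit4 (by decide) gd20 gd21

theorem gt17 : Good4P ConclF ⟨768, 768, 256⟩ ⟨1024, 512, 0⟩ ⟨1024, 1024, 0⟩ ⟨1024, 512, 512⟩ :=
  gsplit5 (by decide) gt15 gt16

theorem gt18 : Good4P ConclF ⟨512, 512, 512⟩ ⟨1024, 512, 0⟩ ⟨1024, 1024, 0⟩ ⟨1024, 512, 512⟩ :=
  gsplit1 (by decide) gd17 gt17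

theorem gt19 : Good4P ConclF ⟨512, 512, 512⟩ ⟨1024, 0, 0⟩ ⟨1024, 1024, 0⟩ ⟨1024, 512, 512⟩ :=
  gsplit3 (by decide) gt14 gt18

theorem gt20 : Good4P ConclF ⟨768, 768, 512⟩ ⟨1024, 768, 512⟩ ⟨768, 768, 256⟩ ⟨1024, 1024, 512⟩ :=
  gsplit5 (by decide) gd24 gd25

theorem gt21 : Good4P ConclF ⟨768, 768, 512⟩ ⟨1024, 512, 512⟩ ⟨768, 768, 256⟩ ⟨1024, 1024, 512⟩ :=
  gsplit4 (by decide) gd23 gt20

theorem gt22 : Good4P ConclF ⟨512, 512, 512⟩ ⟨1024, 512, 512⟩ ⟨768, 768, 256⟩ ⟨1024, 1024, 512⟩ :=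
  gsplit2 (by decide) gd22 gt21

theorem gt23 : Good4P ConclF ⟨768, 768, 256⟩ ⟨1024, 768, 512⟩ ⟨1024, 768, 256⟩ ⟨1024, 1024, 512⟩ :=
  gsplit2 (by decide) gd27 gd28

theorem gt24 : Good4P ConclF ⟨768, 768, 256⟩ ⟨1024, 512, 512⟩ ⟨1024, 768, 256⟩ ⟨1024, 1024, 512⟩ :=
  gsplit4 (by decide) gd26 gt23

theorem gt25 : Good4P ConclF ⟨768, 768, 256⟩ ⟨1024, 768, 256⟩ ⟨1024, 1024, 0⟩ ⟨1024, 1024, 512⟩ :=
  gsplit5 (by decide) gd29 gd30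

theorem gt26 : Good4P ConclF ⟨768, 768, 256⟩ ⟨1024, 512, 512⟩ ⟨1024, 1024, 0⟩ ⟨1024, 1024, 512⟩ :=
  gsplit3 (by decide) gt24 gt25

theorem gt27 : Good4P ConclF ⟨512, 512, 512⟩ ⟨1024, 512, 512⟩ ⟨1024, 1024, 0⟩ ⟨1024, 1024, 512⟩ :=
  gsplit1 (by decide) gt22 gt26

theorem gt28 : Good4P ConclF ⟨896, 896, 640⟩ ⟨1024, 768, 512⟩ ⟨1024, 1024, 512⟩ ⟨1024, 768, 768⟩ :=
  gsplit5 (by decide) gd34 gd35

theorem gt29 : Good4P ConclF ⟨768, 768, 768⟩ ⟨1024, 768, 512⟩ ⟨1024, 1024, 512⟩ ⟨1024, 768, 768⟩ :=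
  gsplit1 (by decide) gd33 gt28

theorem gt30 : Good4P ConclF ⟨768, 768, 768⟩ ⟨1024, 512, 512⟩ ⟨1024, 1024, 512⟩ ⟨1024, 768, 768⟩ :=
  gsplit3 (by decide) gd32 gt29

theorem gt31 : Good4P ConclF ⟨768, 768, 768⟩ ⟨1024, 512, 512⟩ ⟨1024, 1024, 512⟩ ⟨1024, 1024, 1024⟩ :=
  gsplit4 (by decide) gt30 gd36

theorem gt32 : Good4P ConclF ⟨512, 512, 512⟩ ⟨1024, 512, 512⟩ ⟨1024, 1024, 512⟩ ⟨1024, 1024, 1024⟩ :=
  gsplit2 (by decide) gd31 gt31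

theorem gt33 : Good4P ConclF ⟨512, 512, 512⟩ ⟨1024, 512, 512⟩ ⟨1024, 1024, 0⟩ ⟨1024, 1024, 1024⟩ :=
  gsplit5 (by decide) gt27 gt32

theorem gt34 : Good4P ConclF ⟨512, 512, 512⟩ ⟨1024, 0, 0⟩ ⟨1024, 1024, 0⟩ ⟨1024, 1024, 1024⟩ :=
  gsplit4 (by decide) gt19 gt33

theorem gt35 : Good4P ConclF ⟨0, 0, 0⟩ ⟨1024, 0, 0⟩ ⟨1024, 1024, 0⟩ ⟨1024, 1024, 1024⟩ :=
  gsplit2 (by decide) gt8 gt34

/-- CORE7 -/
theorem core7 : Core7Stmt := core7_of_good4 gt35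

end Pool.Agent.Core7.G
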