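import Pool.Agent.Work.MP_80156a_core7.Polar

/-!
# MP_80156a, CORE7: a closed fan of positively oriented cones covers the space
-/

set_option autoImplicit false

namespace Pool.Agent.Core7

open scoped Topology

/-- The directed edges of a triangle. -/
def Edge (t : ℕ × ℕ × ℕ) (i j : ℕ) : Prop :=
  (t.1 = i ∧ t.2.1 = j) ∨ (t.2.1 = i ∧ t.2.2 = j) ∨ (t.2.2 = i ∧ t.1 = j)

/-- The closed cone of a positively oriented triangle, by its three edge functionals. -/
def InCone (r : ℕ → Fin 3 → ℝ) (t : ℕ × ℕ × ℕ) (z : Fin 3 → ℝ) : Prop :=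
  ∀ i j, Edge t i j → 0 ≤ det3 (r i) (r j) z

theorem inCone_iff (r : ℕ → Fin 3 → ℝ) (t : ℕ × ℕ × ℕ) (z : Fin 3 → ℝ) :
    InCone r t z ↔ 0 ≤ det3 (r t.1) (r t.2.1) z ∧ 0 ≤ det3 (r t.2.1) (r t.2.2) z ∧
      0 ≤ det3 (r t.2.2) (r t.1) z := by
  constructor
  · intro h
    exact ⟨h _ _ (Or.inl ⟨rfl, rfl⟩), h _ _ (Or.inr (Or.inl ⟨rfl, rfl⟩)),
      h _ _ (Or.inr (Or.inr ⟨rfl, rfl⟩))⟩
  · rintro ⟨h1, h2, h3⟩ i j (⟨rfl, rfl⟩ | ⟨rfl, rfl⟩ | ⟨rfl, rfl⟩) <;> assumption

theorem det3_add_smul (a b z v : Fin 3 → ℝ) (s : ℝ) :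
    det3 a b (z + s • v) = det3 a b z + s * det3 a b v := by
  simp only [det3, Pi.add_apply, Pi.smul_apply, smul_eq_mul]; ring

theorem det3_swap (a b z : Fin 3 → ℝ) : det3 b a z = -det3 a b z := by
  simp only [det3]; ring

theorem det3_rot (a b c : Fin 3 → ℝ) : det3 b c a = det3 a b c := by
  simp only [det3]; ring

/-- Cramer's rule. -/
theorem cramer3 (a b c z : Fin 3 → ℝ) :
    det3 a b c • z = det3 b c z • a + det3 c a z • b + det3 a b z • c := by
  ext i
  fin_cases i <;> simp [det3] <;> ring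

theorem edge_small (r : ℕ → Fin 3 → ℝ) (i j : ℕ) (z v : Fin 3 → ℝ)
    (h : 0 < det3 (r i) (r j) z ∨ (0 ≤ det3 (r i) (r j) z ∧ 0 ≤ det3 (r i) (r j) v)) :
    ∃ ε > 0, ∀ s : ℝ, 0 ≤ s → s ≤ ε → 0 ≤ det3 (r i) (r j) (z + s • v) := by
  rcases h with h | ⟨h1, h2⟩
  · refine ⟨det3 (r i) (r j) z / (|det3 (r i) (r j) v| + 1), by positivity, fun s hs hs' => ?_⟩
    rw [det3_add_smul]
    rw [le_div_iff₀ (by positivity)] at hs'
    have := neg_abs_le (det3 (r i) (r j) v)
    nlinarith [abs_nonneg (det3 (r i) (r j) v)]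
  · refine ⟨1, one_pos, fun s hs _ => ?_⟩
    rw [det3_add_smul]
    positivity

theorem cone_small (r : ℕ → Fin 3 → ℝ) (t : ℕ × ℕ × ℕ) (z v : Fin 3 → ℝ)
    (h : ∀ i j, Edge t i j →
      0 < det3 (r i) (r j) z ∨ (0 ≤ det3 (r i) (r j) z ∧ 0 ≤ det3 (r i) (r j) v)) :
    ∃ ε > 0, ∀ s : ℝ, 0 ≤ s → s ≤ ε → InCone r t (z + s • v) := by
  obtain ⟨e1, h1, H1⟩ := edge_small r _ _ z v (h _ _ (Or.inl ⟨rfl, rfl⟩))
  obtain ⟨e2, h2, H2⟩ := edge_small r _ _ z v (h _ _ (Or.inr (Or.inl ⟨rfl, rfl⟩)))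
  obtain ⟨e3, h3, H3⟩ := edge_small r _ _ z v (h _ _ (Or.inr (Or.inr ⟨rfl, rfl⟩)))
  refine ⟨min e1 (min e2 e3), by positivity, fun s hs hs' => ?_⟩
  rw [inCone_iff]
  exact ⟨H1 s hs (hs'.trans (min_le_left _ _)),
    H2 s hs (hs'.trans ((min_le_right _ _).trans (min_le_left _ _))),
    H3 s hs (hs'.trans ((min_le_right _ _).trans (min_le_right _ _)))⟩

/-- The vertices of a triangle. -/
def Vert (t : ℕ × ℕ × ℕ) (i : ℕ) : Prop := t.1 = i ∨ t.2.1 = i ∨ t.2.2 = i

/-- A triangle with a given edge, rotated so that the edge comes first. -/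
theorem edge_third (r : ℕ → Fin 3 → ℝ) {t : ℕ × ℕ × ℕ} {i j : ℕ} (h : Edge t i j) :
    ∃ k, Vert t i ∧ Vert t j ∧
      det3 (r i) (r j) (r k) = det3 (r t.1) (r t.2.1) (r t.2.2) ∧
      (∀ a b, Edge t a b ↔ (a = i ∧ b = j) ∨ (a = j ∧ b = k) ∨ (a = k ∧ b = i)) := by
  obtain ⟨x, y, w⟩ := t
  simp only [Edge, Vert] at h ⊢
  rcases h with ⟨rfl, rfl⟩ | ⟨rfl, rfl⟩ | ⟨rfl, rfl⟩
  · refine ⟨w, by simp, by simp, rfl, fun a b => ?_⟩
    constructor <;> (rintro (⟨rfl, rfl⟩ | ⟨rfl, rfl⟩ | ⟨rfl, rfl⟩) <;> simp)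
  · refine ⟨x, by simp, by simp, det3_rot _ _ _, fun a b => ?_⟩
    constructor <;> (rintro (⟨rfl, rfl⟩ | ⟨rfl, rfl⟩ | ⟨rfl, rfl⟩) <;> simp)
  · refine ⟨y, by simp, by simp, ?_, fun a b => ?_⟩
    · rw [← det3_rot, ← det3_rot]
    · constructor <;> (rintro (⟨rfl, rfl⟩ | ⟨rfl, rfl⟩ | ⟨rfl, rfl⟩) <;> simp)

/-- Local extension: from a point of the fan which is on no line of a vertex one can move a
little in any direction inside the fan. -/
theorem fan_local (r : ℕ → Fin 3 → ℝ) (T : List (ℕ × ℕ × ℕ))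
    (hpos : ∀ t ∈ T, 0 < det3 (r t.1) (r t.2.1) (r t.2.2))
    (hadj : ∀ t ∈ T, ∀ i j, Edge t i j → ∃ t' ∈ T, Edge t' j i)
    {t : ℕ × ℕ × ℕ} (ht : t ∈ T) (z v : Fin 3 → ℝ) (hz : InCone r t z)
    (hgen : ∀ t ∈ T, ∀ i, Vert t i → ∀ c : ℝ, z ≠ c • r i) :
    ∃ ε > 0, ∀ s : ℝ, 0 ≤ s → s ≤ ε → ∃ t' ∈ T, InCone r t' (z + s • v) := by
  by_cases h : ∀ i j, Edge t i j →
      0 < det3 (r i) (r j) z ∨ (0 ≤ det3 (r i) (r j) z ∧ 0 ≤ det3 (r i) (r j) v)
  · obtain ⟨ε, hε, H⟩ := cone_small r t z v h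
    exact ⟨ε, hε, fun s hs hs' => ⟨t, ht, H s hs hs'⟩⟩
  · push Not at h
    obtain ⟨i, j, hij, h1, h2⟩ := h
    have hz0 : det3 (r i) (r j) z = 0 := le_antisymm h1 (hz i j hij)
    have hv0 : det3 (r i) (r j) v < 0 := h2 hz0.ge
    obtain ⟨k, hvi, hvj, hdet, hedge⟩ := edge_third r hij
    have hD : 0 < det3 (r i) (r j) (r k) := by rw [hdet]; exact hpos t ht
    have hα := hz j k ((hedge j k).2 (Or.inr (Or.inl ⟨rfl, rfl⟩)))
    have hβ := hz k i ((hedge k i).2 (Or.inr (Or.inr ⟨rfl, rfl⟩)))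
    have hcr := cramer3 (r i) (r j) (r k) z
    rw [hz0, zero_smul, add_zero] at hcr
    set D := det3 (r i) (r j) (r k) with hDdef
    set A := det3 (r j) (r k) z with hA
    set B := det3 (r k) (r i) z with hB
    have hzeq : z = (A / D) • r i + (B / D) • r j := by
      have : z = D⁻¹ • (D • z) := by rw [smul_smul, inv_mul_cancel₀ hD.ne', one_smul]
      rw [this, hcr, smul_add, smul_smul, smul_smul, div_eq_inv_mul, div_eq_inv_mul]
    have hApos : 0 < A / D := by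
      rcases (div_nonneg hα hD.le).lt_or_eq with h | h
      · exact h
      · exfalso
        rw [← h, zero_smul, zero_add] at hzeq
        exact hgen t ht j hvj _ hzeq
    have hBpos : 0 < B / D := by
      rcases (div_nonneg hβ hD.le).lt_or_eq with h | h
      · exact h
      · exfalso
        rw [← h, zero_smul, add_zero] at hzeq
        exact hgen t ht i hvi _ hzeq
    obtain ⟨t', ht', hji⟩ := hadj t ht i j hij
    obtain ⟨d, -, -, hdet', hedge'⟩ := edge_third r hji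
    have hD' : 0 < det3 (r j) (r i) (r d) := by rw [hdet']; exact hpos t' ht'
    have hcone : ∀ a b, Edge t' a b →
        0 < det3 (r a) (r b) z ∨ (0 ≤ det3 (r a) (r b) z ∧ 0 ≤ det3 (r a) (r b) v) := by
      intro a b hab
      rcases (hedge' a b).1 hab with ⟨rfl, rfl⟩ | ⟨rfl, rfl⟩ | ⟨rfl, rfl⟩
      · right
        rw [det3_swap, det3_swap (r b) (r a) v, hz0]
        constructor
        · simp
        · linarith
      · left
        rw [hzeq]
        have : det3 (r a) (r b) ((A / D) • r a + (B / D) • r j) =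
            (B / D) * det3 (r j) (r a) (r b) := by
          simp only [det3, Pi.add_apply, Pi.smul_apply, smul_eq_mul]; ring
        rw [this]
        positivity
      · left
        rw [hzeq]
        have : det3 (r a) (r b) ((A / D) • r i + (B / D) • r b) =
            (A / D) * det3 (r b) (r i) (r a) := by
          simp only [det3, Pi.add_apply, Pi.smul_apply, smul_eq_mul]; ring
        rw [this]
        positivity
    obtain ⟨ε, hε, H⟩ := cone_small r t' z v hcone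
    exact ⟨ε, hε, fun s hs hs' => ⟨t', ht', H s hs hs'⟩⟩

/-- A generic point of the interior of the cone of a triangle. -/
theorem exists_generic (r : ℕ → Fin 3 → ℝ) (t : ℕ × ℕ × ℕ)
    (hpos : 0 < det3 (r t.1) (r t.2.1) (r t.2.2)) (q : Fin 3 → ℝ) :
    ∃ p, InCone r t p ∧ ∀ i, p ∉ Submodule.span ℝ {r i, q} := by
  set O : Set (Fin 3 → ℝ) := {z | 0 < det3 (r t.1) (r t.2.1) z} ∩
    ({z | 0 < det3 (r t.2.1) (r t.2.2) z} ∩ {z | 0 < det3 (r t.2.2) (r t.1) z}) with hO
  have hcont : ∀ a b : Fin 3 → ℝ, Continuous (fun z => det3 a b z) := by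
    intro a b; unfold det3; fun_prop
  have hopen : IsOpen O := by
    refine IsOpen.inter ?_ (IsOpen.inter ?_ ?_)
    · exact isOpen_lt continuous_const (hcont _ _)
    · exact isOpen_lt continuous_const (hcont _ _)
    · exact isOpen_lt continuous_const (hcont _ _)
  have hne : O.Nonempty := by
    refine ⟨r t.1 + r t.2.1 + r t.2.2, ?_, ?_, ?_⟩
    · show 0 < det3 _ _ _
      have : det3 (r t.1) (r t.2.1) (r t.1 + r t.2.1 + r t.2.2) =
          det3 (r t.1) (r t.2.1) (r t.2.2) := by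
        simp only [det3, Pi.add_apply]; ring
      rw [this]; exact hpos
    · show 0 < det3 _ _ _
      have : det3 (r t.2.1) (r t.2.2) (r t.1 + r t.2.1 + r t.2.2) =
          det3 (r t.1) (r t.2.1) (r t.2.2) := by
        simp only [det3, Pi.add_apply]; ring
      rw [this]; exact hpos
    · show 0 < det3 _ _ _
      have : det3 (r t.2.2) (r t.1) (r t.1 + r t.2.1 + r t.2.2) =
          det3 (r t.1) (r t.2.1) (r t.2.2) := by
        simp only [det3, Pi.add_apply]; ring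
      rw [this]; exact hpos
  have hmeas : 0 < MeasureTheory.volume O := hopen.measure_pos _ hne
  have hnull : MeasureTheory.volume (⋃ i, (Submodule.span ℝ {r i, q} : Set (Fin 3 → ℝ))) = 0 := by
    refine MeasureTheory.measure_iUnion_null fun i => ?_
    refine MeasureTheory.Measure.addHaar_submodule _ _ ?_
    intro htop
    have h3 : Module.finrank ℝ (Submodule.span ℝ ({r i, q} : Set (Fin 3 → ℝ))) = 3 := by
      rw [htop, finrank_top]; simp
    have h2 : Module.finrank ℝ (Submodule.span ℝ (({r i, q} : Finset (Fin 3 → ℝ)) : Set (Fin 3 → ℝ)))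
        ≤ ({r i, q} : Finset (Fin 3 → ℝ)).card := finrank_span_finset_le_card _
    have h2' : ({r i, q} : Finset (Fin 3 → ℝ)).card ≤ 2 := Finset.card_le_two
    rw [Finset.coe_pair] at h2
    omega
  have : ¬ O ⊆ ⋃ i, (Submodule.span ℝ {r i, q} : Set (Fin 3 → ℝ)) := by
    intro hsub
    have := MeasureTheory.measure_mono_null hsub hnull
    exact hmeas.ne' this
  obtain ⟨p, hp, hp'⟩ := Set.not_subset.1 this
  refine ⟨p, ?_, ?_⟩
  · rw [inCone_iff]
    exact ⟨le_of_lt hp.1, le_of_lt hp.2.1, le_of_lt hp.2.2⟩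
  · intro i hi
    exact hp' (Set.mem_iUnion.2 ⟨i, hi⟩)

/-- **Covering lemma.** A nonempty finite family of positively oriented triangular cones in which
every directed edge occurs also in the opposite direction covers the space. -/
theorem fan_cover (r : ℕ → Fin 3 → ℝ) (T : List (ℕ × ℕ × ℕ)) (hne : T ≠ [])
    (hpos : ∀ t ∈ T, 0 < det3 (r t.1) (r t.2.1) (r t.2.2))
    (hadj : ∀ t ∈ T, ∀ i j, Edge t i j → ∃ t' ∈ T, Edge t' j i) (q : Fin 3 → ℝ) :
    ∃ t ∈ T, ∃ a b c : ℝ, 0 ≤ a ∧ 0 ≤ b ∧ 0 ≤ c ∧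
      q = a • r t.1 + b • r t.2.1 + c • r t.2.2 := by
  obtain ⟨t0, ht0⟩ := List.exists_mem_of_ne_nil T hne
  obtain ⟨p, hp, hgen⟩ := exists_generic r t0 (hpos t0 ht0) q
  set S : Set ℝ := {s | ∃ t ∈ T, InCone r t (p + s • (q - p))} with hS
  have hcont : ∀ a b : Fin 3 → ℝ, Continuous (fun s : ℝ => det3 a b (p + s • (q - p))) := by
    intro a b; unfold det3; fun_prop
  have hclosed : IsClosed S := by
    have : S = ⋃ t ∈ {t | t ∈ T}, {s | InCone r t (p + s • (q - p))} := by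
      ext s; simp [hS]
    rw [this]
    refine Set.Finite.isClosed_biUnion (List.finite_toSet T) fun t _ => ?_
    have : {s : ℝ | InCone r t (p + s • (q - p))} =
        {s | 0 ≤ det3 (r t.1) (r t.2.1) (p + s • (q - p))} ∩
        ({s | 0 ≤ det3 (r t.2.1) (r t.2.2) (p + s • (q - p))} ∩
        {s | 0 ≤ det3 (r t.2.2) (r t.1) (p + s • (q - p))}) := by
      ext s; simp [inCone_iff]
    rw [this]
    exact (isClosed_le continuous_const (hcont _ _)).inter
      ((isClosed_le continuous_const (hcont _ _)).inter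
        (isClosed_le continuous_const (hcont _ _)))
  have hsub : Set.Icc (0 : ℝ) 1 ⊆ S := by
    refine IsClosed.Icc_subset_of_forall_exists_gt (hclosed.inter isClosed_Icc) ?_ ?_
    · exact ⟨t0, ht0, by simpa using hp⟩
    · rintro x ⟨⟨t, ht, hx⟩, hx0, hx1⟩ y hy
      have hgen' : ∀ t ∈ T, ∀ i, Vert t i → ∀ c : ℝ, p + x • (q - p) ≠ c • r i := by
        intro t _ i _ c hc
        refine hgen i ?_
        rw [Submodule.mem_span_pair]
        refine ⟨c / (1 - x), -(x / (1 - x)), ?_⟩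
        have h1x : (1 - x) ≠ 0 := by linarith
        have : (1 - x) • p = c • r i - x • q := by
          rw [← hc]; module
        have hp2 : p = (1 - x)⁻¹ • ((1 - x) • p) := by
          rw [smul_smul, inv_mul_cancel₀ h1x, one_smul]
        rw [hp2, this, div_eq_inv_mul, div_eq_inv_mul]
        module
      obtain ⟨ε, hε, H⟩ := fan_local r T hpos hadj ht (p + x • (q - p)) (q - p) hx hgen'
      have hy' : x < y := hy
      have hδ : 0 < min ε (y - x) := lt_min hε (by linarith)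
      refine ⟨x + min ε (y - x), ?_, ?_, ?_⟩
      · obtain ⟨t', ht', h'⟩ := H (min ε (y - x)) hδ.le (min_le_left _ _)
        refine ⟨t', ht', ?_⟩
        have : p + (x + min ε (y - x)) • (q - p) =
            p + x • (q - p) + min ε (y - x) • (q - p) := by module
        rw [this]
        exact h'
      · linarith
      · have := min_le_right ε (y - x)
        linarith
  obtain ⟨t, ht, h⟩ := hsub (Set.right_mem_Icc.2 zero_le_one)
  have hq : p + (1 : ℝ) • (q - p) = q := by module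
  rw [hq, inCone_iff] at h
  obtain ⟨h1, h2, h3⟩ := h
  have hD := hpos t ht
  refine ⟨t, ht, det3 (r t.2.1) (r t.2.2) q / det3 (r t.1) (r t.2.1) (r t.2.2),
    det3 (r t.2.2) (r t.1) q / det3 (r t.1) (r t.2.1) (r t.2.2),
    det3 (r t.1) (r t.2.1) q / det3 (r t.1) (r t.2.1) (r t.2.2),
    div_nonneg h2 hD.le, div_nonneg h3 hD.le, div_nonneg h1 hD.le, ?_⟩
  have hcr := cramer3 (r t.1) (r t.2.1) (r t.2.2) q
  set D := det3 (r t.1) (r t.2.1) (r t.2.2) with hDdef
  calc q = D⁻¹ • (D • q) := by rw [smul_smul, inv_mul_cancel₀ hD.ne', one_smul]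
    _ = _ := by
      rw [hcr, smul_add, smul_add, smul_smul, smul_smul, smul_smul, div_eq_inv_mul,
        div_eq_inv_mul, div_eq_inv_mul]

end Pool.Agent.Core7
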