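import Pool.Agent.Work.MP_80156a_core7.Frame

/-!
# MP_80156a, CORE7: the checker of the far table and its soundness

All numbers are natural numbers; signed numbers are stored with the offset `65536`.
-/

set_option autoImplicit false

namespace Pool.Agent.Core7.Far

/-- absolute difference -/
def ad (a b : ℕ) : ℕ := Nat.add (Nat.sub a b) (Nat.sub b a)

/-- maximum -/
def mx (a b : ℕ) : ℕ := Nat.add a (Nat.sub b a)

/-- a vector -/
structure V3 where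
  x : ℕ
  y : ℕ
  z : ℕ

/-- seven vectors -/
structure D7 where
  d0 : V3
  d1 : V3
  d2 : V3
  d3 : V3
  d4 : V3
  d5 : V3
  d6 : V3

/-- certificate of a ray -/
structure C7 where
  t : ℕ
  a : ℕ
  b : ℕ
  c : ℕ
  p : ℕ
  q : ℕ
  r : ℕ

/-- number `k` of seven vectors -/
def sel (D : D7) (k : ℕ) : V3 :=
  match k with
  | 0 => D.d0
  | 1 => D.d1
  | 2 => D.d2
  | 3 => D.d3
  | 4 => D.d4
  | 5 => D.d5
  | _ => D.d6

/-- coordinate number `ax` -/
def crd (v : V3) (ax : ℕ) : ℕ :=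
  match ax with
  | 0 => v.x
  | 1 => v.y
  | _ => v.z

/-- the cost of a certificate at a vertex (16 times) -/
def cost (r : V3) (c : C7) (W d : V3) : ℕ :=
  Nat.add (Nat.add (Nat.mul 160 (Nat.add (Nat.add
      (ad (Nat.add (Nat.mul 1024 r.x) (Nat.mul 65536 (Nat.add c.t (Nat.add W.y W.z))))
        (Nat.add (Nat.add (Nat.mul c.t d.x) (Nat.mul 1024 c.p))
          (Nat.add (Nat.mul c.a W.y) (Nat.mul c.b W.z))))
      (ad (Nat.add (Nat.add (Nat.mul 1024 r.y) (Nat.mul 65536 (Nat.add c.t W.z))) (Nat.mul c.a W.x))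
        (Nat.add (Nat.add (Nat.mul c.t d.y) (Nat.mul 1024 c.q))
          (Nat.add (Nat.mul c.c W.z) (Nat.mul 65536 W.x)))))
      (ad (Nat.add (Nat.add (Nat.mul 1024 r.z) (Nat.mul 65536 c.t))
          (Nat.add (Nat.mul c.b W.x) (Nat.mul c.c W.y)))
        (Nat.add (Nat.add (Nat.mul c.t d.z) (Nat.mul 1024 c.r)) (Nat.mul 65536 (Nat.add W.x W.y))))))
    (Nat.mul 163840 (Nat.add (Nat.add (ad c.a 65536) (ad c.b 65536)) (ad c.c 65536))))
    (Nat.mul (Nat.mul 16 (Nat.add (Nat.mul 2 (Nat.add W.x W.y)) W.z))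
      (mx (Nat.mul 5 (mx (ad c.p 65536) (mx (ad c.q 65536) (ad c.r 65536))))
        (Nat.mul 2 (Nat.add (Nat.add (ad c.p 65536) (ad c.q 65536)) (ad c.r 65536)))))

/-- the check at one vertex -/
def chkV (sg ss : Bool) (th rax : ℕ) (r : V3) (c : C7) (W d : V3) : Bool :=
  Nat.ble
    (Nat.add (Nat.add (cost r c W d) (Nat.mul (Nat.mul 10240 (Nat.sub 16 th)) (cond sg 65536 rax)))
      (Nat.succ (Nat.mul (Nat.mul 10 th)
        (cond ss (Nat.mul 65536 (Nat.add (Nat.add W.x W.y) W.z))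
          (Nat.add (Nat.add (Nat.mul W.x r.x) (Nat.mul W.y r.y)) (Nat.mul W.z r.z))))))
    (Nat.add (Nat.mul (Nat.mul 10240 (Nat.sub 16 th)) (cond sg rax 65536))
      (Nat.mul (Nat.mul 10 th)
        (cond ss (Nat.add (Nat.add (Nat.mul W.x r.x) (Nat.mul W.y r.y)) (Nat.mul W.z r.z))
          (Nat.mul 65536 (Nat.add (Nat.add W.x W.y) W.z)))))

/-- a tetrahedron with the seven directions at the vertices -/
structure Cell where
  w0 : V3
  w1 : V3
  w2 : V3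
  w3 : V3
  D0 : D7
  D1 : D7
  D2 : D7
  D3 : D7

/-- the check of a ray -/
def chkR (T : Cell) (k th ax : ℕ) (sg ss : Bool) (r : V3) (c : C7) : Bool :=
  and (chkV sg ss th (crd r ax) r c T.w0 (sel T.D0 k))
    (and (chkV sg ss th (crd r ax) r c T.w1 (sel T.D1 k))
      (and (chkV sg ss th (crd r ax) r c T.w2 (sel T.D2 k))
        (chkV sg ss th (crd r ax) r c T.w3 (sel T.D3 k))))

/-- cone trees -/
inductive QT where
  | L (k th ax : ℕ) (sg ss : Bool) (c0 c1 c2 : C7)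
  | S (e i j g : ℕ) (m : V3) (l r : QT)

/-- `g m = i a + j b` for one coordinate -/
def cmb1 (i j g m a b : ℕ) : Bool :=
  Nat.beq (Nat.add (Nat.mul g m) (Nat.mul 65536 (Nat.add i j)))
    (Nat.add (Nat.add (Nat.mul i a) (Nat.mul j b)) (Nat.mul 65536 g))

/-- `g m = i a + j b`, `i, j, g > 0` -/
def cmb (i j g : ℕ) (m a b : V3) : Bool :=
  and (and (Nat.ble 1 i) (and (Nat.ble 1 j) (Nat.ble 1 g)))
    (and (cmb1 i j g m.x a.x b.x) (and (cmb1 i j g m.y a.y b.y) (cmb1 i j g m.z a.z b.z)))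

/-- the check of a cone tree -/
def chkQ (T : Cell) : QT → V3 → V3 → V3 → Bool
  | .L k th ax sg ss c0 c1 c2, a, b, c =>
    and (Nat.ble th 16) (and (chkR T k th ax sg ss a c0)
      (and (chkR T k th ax sg ss b c1) (chkR T k th ax sg ss c c2)))
  | .S e i j g m l r, a, b, c =>
    match e with
    | 0 => and (cmb i j g m a b) (and (chkQ T l a m c) (chkQ T r m b c))
    | 1 => and (cmb i j g m b c) (and (chkQ T l a b m) (chkQ T r a m c))
    | _ => and (cmb i j g m a c) (and (chkQ T l a b m) (chkQ T r m b c))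

/-- the twelve root cones of a cell -/
structure Q12 where
  q0 : QT
  q1 : QT
  q2 : QT
  q3 : QT
  q4 : QT
  q5 : QT
  q6 : QT
  q7 : QT
  q8 : QT
  q9 : QT
  q10 : QT
  q11 : QT

/-- the check of a cell; `64512 = 65536 - 1024`, `66560 = 65536 + 1024` -/
def chkCell (T : Cell) (Q : Q12) : Bool :=
  and (chkQ T Q.q0 ⟨66560, 64512, 64512⟩ ⟨66560, 64512, 66560⟩ ⟨66560, 66560, 66560⟩)
  (and (chkQ T Q.q1 ⟨66560, 64512, 64512⟩ ⟨66560, 66560, 64512⟩ ⟨66560, 66560, 66560⟩)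
  (and (chkQ T Q.q2 ⟨64512, 64512, 64512⟩ ⟨64512, 64512, 66560⟩ ⟨64512, 66560, 66560⟩)
  (and (chkQ T Q.q3 ⟨64512, 64512, 64512⟩ ⟨64512, 66560, 64512⟩ ⟨64512, 66560, 66560⟩)
  (and (chkQ T Q.q4 ⟨64512, 66560, 64512⟩ ⟨64512, 66560, 66560⟩ ⟨66560, 66560, 66560⟩)
  (and (chkQ T Q.q5 ⟨64512, 66560, 64512⟩ ⟨66560, 66560, 64512⟩ ⟨66560, 66560, 66560⟩)
  (and (chkQ T Q.q6 ⟨64512, 64512, 64512⟩ ⟨64512, 64512, 66560⟩ ⟨66560, 64512, 66560⟩)
  (and (chkQ T Q.q7 ⟨64512, 64512, 64512⟩ ⟨66560, 64512, 64512⟩ ⟨66560, 64512, 66560⟩)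
  (and (chkQ T Q.q8 ⟨64512, 64512, 66560⟩ ⟨64512, 66560, 66560⟩ ⟨66560, 66560, 66560⟩)
  (and (chkQ T Q.q9 ⟨64512, 64512, 66560⟩ ⟨66560, 64512, 66560⟩ ⟨66560, 66560, 66560⟩)
  (and (chkQ T Q.q10 ⟨64512, 64512, 64512⟩ ⟨64512, 66560, 64512⟩ ⟨66560, 66560, 64512⟩)
    (chkQ T Q.q11 ⟨64512, 64512, 64512⟩ ⟨66560, 64512, 64512⟩ ⟨66560, 66560, 64512⟩)))))))))))

/-- trees of tetrahedra -/
inductive WT where
  | O
  | S (e : ℕ) (l r : WT)
  | C (D0 D1 D2 D3 : D7) (Q : Q12)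

/-- `Φ < 13/10` -/
def outV (w : V3) : Bool :=
  Nat.ble (Nat.succ (Nat.mul 10 (Nat.add (Nat.mul 2 (Nat.add w.x w.y)) w.z))) 26624

/-- midpoint -/
def mid (v w : V3) : V3 :=
  ⟨Nat.div (Nat.add v.x w.x) 2, Nat.div (Nat.add v.y w.y) 2, Nat.div (Nat.add v.z w.z) 2⟩

/-- the coordinates of the midpoint are integers -/
def evn (v w : V3) : Bool :=
  and (Nat.beq (Nat.mod (Nat.add v.x w.x) 2) 0)
    (and (Nat.beq (Nat.mod (Nat.add v.y w.y) 2) 0) (Nat.beq (Nat.mod (Nat.add v.z w.z) 2) 0))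

/-- the check of a tree of tetrahedra -/
def chkW : WT → V3 → V3 → V3 → V3 → Bool
  | .O, v0, v1, v2, v3 => and (outV v0) (and (outV v1) (and (outV v2) (outV v3)))
  | .C D0 D1 D2 D3 Q, v0, v1, v2, v3 => chkCell ⟨v0, v1, v2, v3, D0, D1, D2, D3⟩ Q
  | .S e l r, v0, v1, v2, v3 =>
    match e with
    | 0 => and (evn v0 v1) (and (chkW l v0 (mid v0 v1) v2 v3) (chkW r (mid v0 v1) v1 v2 v3))
    | 1 => and (evn v0 v2) (and (chkW l v0 v1 (mid v0 v2) v3) (chkW r (mid v0 v2) v1 v2 v3))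
    | 2 => and (evn v0 v3) (and (chkW l v0 v1 v2 (mid v0 v3)) (chkW r (mid v0 v3) v1 v2 v3))
    | 3 => and (evn v1 v2) (and (chkW l v0 v1 (mid v1 v2) v3) (chkW r v0 (mid v1 v2) v2 v3))
    | 4 => and (evn v1 v3) (and (chkW l v0 v1 v2 (mid v1 v3)) (chkW r v0 (mid v1 v3) v2 v3))
    | _ => and (evn v2 v3) (and (chkW l v0 v1 v2 (mid v2 v3)) (chkW r v0 v1 (mid v2 v3) v3))

/-! ## Soundness -/

theorem ad_cast (a b : ℕ) : ((ad a b : ℕ) : ℝ) = |(a : ℝ) - b| := by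
  unfold ad
  simp only [Nat.add_eq, Nat.sub_eq]
  rcases le_total a b with h | h
  · rw [Nat.sub_eq_zero_of_le h, zero_add, Nat.cast_sub h, abs_sub_comm, abs_of_nonneg]
    have : (a : ℝ) ≤ b := by exact_mod_cast h
    linarith
  · rw [Nat.sub_eq_zero_of_le h, add_zero, Nat.cast_sub h, abs_of_nonneg]
    have : (b : ℝ) ≤ a := by exact_mod_cast h
    linarith

theorem mx_cast (a b : ℕ) : ((mx a b : ℕ) : ℝ) = max (a : ℝ) b := by
  unfold mx
  simp only [Nat.add_eq, Nat.sub_eq]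
  rcases le_total a b with h | h
  · rw [Nat.cast_add, Nat.cast_sub h, max_eq_right (by exact_mod_cast h)]; ring
  · rw [Nat.sub_eq_zero_of_le h, add_zero, max_eq_left (by exact_mod_cast h)]

/-- a vector with offset -/
def V3.val (v : V3) : Fin 3 → ℝ := ![(v.x : ℝ) - 65536, (v.y : ℝ) - 65536, (v.z : ℝ) - 65536]

/-- a vector without offset -/
def V3.pos (v : V3) : Fin 3 → ℝ := ![(v.x : ℝ), (v.y : ℝ), (v.z : ℝ)]

/-- the residual of a certificate, functional of `x` -/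
def res (r p d W : Fin 3 → ℝ) (t a b c : ℝ) : Fin 3 → ℝ :=
  ![1024 * r 0 - t * d 0 - 1024 * p 0 - (a * W 1 + b * W 2),
    1024 * r 1 - t * d 1 - 1024 * p 1 - (-a * W 0 + c * W 2),
    1024 * r 2 - t * d 2 - 1024 * p 2 - (-b * W 0 - c * W 1)]

/-- the real inequality -/
def Ineq (r p d W : Fin 3 → ℝ) (t a b c θ σ s rax : ℝ) : Prop :=
  160 * (|res r p d W t a b c 0| + |res r p d W t a b c 1| + |res r p d W t a b c 2|) +
    163840 * (|a| + |b| + |c|) + 16 * (2 * (W 0 + W 1) + W 2) *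
      max (5 * max |p 0| (max |p 1| |p 2|)) (2 * (|p 0| + |p 1| + |p 2|)) <
    10 * ((16 - θ) * 1024 * σ * rax + θ * s * dot W r)

/-- sign of a boolean -/
def sgn (b : Bool) : ℝ := cond b 1 (-1)

theorem chkV_sound {sg ss : Bool} {th rax : ℕ} {r : V3} {c : C7} {W d : V3} (hth : th ≤ 16)
    (h : chkV sg ss th rax r c W d = true) :
    Ineq r.val (V3.val ⟨c.p, c.q, c.r⟩) d.val W.pos c.t ((c.a : ℝ) - 65536) ((c.b : ℝ) - 65536)
      ((c.c : ℝ) - 65536) th (sgn sg) (sgn ss) ((rax : ℝ) - 65536) := by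
  unfold chkV at h
  rw [Nat.ble_eq] at h
  have h1 : (1 : ℝ) + (cost r c W d : ℕ) + 10240 * (16 - th) * (cond sg 65536 (rax : ℝ)) +
      10 * th * (cond ss (65536 * ((W.x : ℝ) + W.y + W.z)) (W.x * r.x + W.y * r.y + W.z * r.z)) ≤
      10240 * (16 - th) * (cond sg (rax : ℝ) 65536) +
      10 * th * (cond ss ((W.x : ℝ) * r.x + W.y * r.y + W.z * r.z)
        (65536 * ((W.x : ℝ) + W.y + W.z))) := by
    have h2 : ((16 - th : ℕ) : ℝ) = 16 - th := by
      rw [Nat.cast_sub hth]; norm_num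
    have h3 := (Nat.cast_le (α := ℝ)).2 h
    simp only [Nat.add_eq, Nat.mul_eq, Nat.sub_eq, Nat.succ_eq_add_one] at h3
    cases sg <;> cases ss <;> simp only [cond_true, cond_false] at h3 ⊢ <;> push_cast [h2] at h3 <;>
      linarith
  have h4 : ((cost r c W d : ℕ) : ℝ) =
      160 * (|res r.val (V3.val ⟨c.p, c.q, c.r⟩) d.val W.pos c.t ((c.a : ℝ) - 65536)
        ((c.b : ℝ) - 65536) ((c.c : ℝ) - 65536) 0| +
        |res r.val (V3.val ⟨c.p, c.q, c.r⟩) d.val W.pos c.t ((c.a : ℝ) - 65536)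
        ((c.b : ℝ) - 65536) ((c.c : ℝ) - 65536) 1| +
        |res r.val (V3.val ⟨c.p, c.q, c.r⟩) d.val W.pos c.t ((c.a : ℝ) - 65536)
        ((c.b : ℝ) - 65536) ((c.c : ℝ) - 65536) 2|) +
      163840 * (|(c.a : ℝ) - 65536| + |(c.b : ℝ) - 65536| + |(c.c : ℝ) - 65536|) +
      16 * (2 * ((W.x : ℝ) + W.y) + W.z) *
        max (5 * max |(c.p : ℝ) - 65536| (max |(c.q : ℝ) - 65536| |(c.r : ℝ) - 65536|))
          (2 * (|(c.p : ℝ) - 65536| + |(c.q : ℝ) - 65536| + |(c.r : ℝ) - 65536|)) := by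
    unfold cost
    simp only [Nat.add_eq, Nat.mul_eq]
    push_cast [ad_cast, mx_cast]
    have e0 : ∀ x y : ℝ, x = y → |x| = |y| := fun x y h => by rw [h]
    congr 1
    congr 1
    congr 1
    congr 1
    · congr 1
      · refine e0 _ _ ?_
        simp only [res, V3.val, V3.pos, Matrix.cons_val_zero, Matrix.cons_val_one,
          Matrix.cons_val]
        ring
      · refine e0 _ _ ?_
        simp only [res, V3.val, V3.pos, Matrix.cons_val_zero, Matrix.cons_val_one,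
          Matrix.cons_val]
        ring
    · refine e0 _ _ ?_
      simp only [res, V3.val, V3.pos, Matrix.cons_val_zero, Matrix.cons_val_one,
        Matrix.cons_val]
      ring
  unfold Ineq
  have h5 : dot W.pos r.val = (W.x * r.x + W.y * r.y + W.z * r.z) -
      65536 * ((W.x : ℝ) + W.y + W.z) := by
    simp only [dot, V3.val, V3.pos, Matrix.cons_val_zero, Matrix.cons_val_one, Matrix.cons_val]
    ring
  rw [h5]
  have h6 : ∀ i, W.pos i = ![(W.x : ℝ), (W.y : ℝ), (W.z : ℝ)] i := fun _ => rfl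
  have h7 : (V3.val ⟨c.p, c.q, c.r⟩) 0 = (c.p : ℝ) - 65536 := rfl
  have h8 : (V3.val ⟨c.p, c.q, c.r⟩) 1 = (c.q : ℝ) - 65536 := rfl
  have h9 : (V3.val ⟨c.p, c.q, c.r⟩) 2 = (c.r : ℝ) - 65536 := rfl
  have h10 : W.pos 0 = (W.x : ℝ) := rfl
  have h11 : W.pos 1 = (W.y : ℝ) := rfl
  have h12 : W.pos 2 = (W.z : ℝ) := rfl
  rw [h7, h8, h9, h10, h11, h12, ← h4]
  cases sg <;> cases ss <;> simp only [cond_true, cond_false, sgn] at h1 ⊢ <;> linarith

end Pool.Agent.Core7.Far
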