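import Pool.Agent.Work.MP_80156a_core7.Far

/-!
# MP_80156a, CORE7: soundness of the far table
-/

set_option autoImplicit false

namespace Pool.Agent.Core7.Far

/-- the constraints on `x` -/
def Cons (w x : Fin 3 → ℝ) : Prop :=
  (∀ i, |x i| ≤ 1) ∧ (∀ i j, |x i * w j - x j * w i| ≤ 1) ∧
    ∀ i, |x 0| + |x 1| + |x 2| - |x i| / 2 ≤ w 0 + w 1 + w 2 / 2

/-- a ray is good for the direction `D` -/
def RayOK (w D : Fin 3 → ℝ) (θ σ s : ℝ) (ax : Fin 3) (r : Fin 3 → ℝ) : Prop :=
  ∀ x, Cons w x → dot D x ≤ 0 → 16 * dot r x < (16 - θ) * σ * r ax + θ * s * dot w r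

/-- the conclusion for one functional `q` -/
def Kill (w : Fin 3 → ℝ) (D : Fin 7 → Fin 3 → ℝ) (q : Fin 3 → ℝ) : Prop :=
  ∃ k, ∀ x, Cons w x → dot q x = 1 → 0 < dot (D k) x

/-- dual norm estimate -/
theorem dual_norm {w x p : Fin 3 → ℝ} (hx : Cons w x) :
    5 * dot p x ≤ max (5 * max |p 0| (max |p 1| |p 2|)) (2 * (|p 0| + |p 1| + |p 2|)) *
      (w 0 + w 1 + w 2 / 2) := by
  obtain ⟨-, -, h3⟩ := hx
  have a0 := h3 0
  have a1 := h3 1
  have a2 := h3 2
  set P := max (5 * max |p 0| (max |p 1| |p 2|)) (2 * (|p 0| + |p 1| + |p 2|)) with hP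
  have p0 : 5 * |p 0| ≤ P :=
    (mul_le_mul_of_nonneg_left (le_max_left _ _) (by norm_num)).trans (le_max_left _ _)
  have p1 : 5 * |p 1| ≤ P :=
    (mul_le_mul_of_nonneg_left ((le_max_left _ _).trans (le_max_right _ _)) (by norm_num)).trans
      (le_max_left _ _)
  have p2 : 5 * |p 2| ≤ P :=
    (mul_le_mul_of_nonneg_left ((le_max_right _ _).trans (le_max_right _ _)) (by norm_num)).trans
      (le_max_left _ _)
  have ps : 2 * (|p 0| + |p 1| + |p 2|) ≤ P := le_max_right _ _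
  have hP0 : 0 ≤ P := le_trans (by positivity) ps
  have x0 := abs_nonneg (x 0)
  have x1 := abs_nonneg (x 1)
  have x2 := abs_nonneg (x 2)
  have b0 : p 0 * x 0 ≤ |p 0| * |x 0| := by rw [← abs_mul]; exact le_abs_self _
  have b1 : p 1 * x 1 ≤ |p 1| * |x 1| := by rw [← abs_mul]; exact le_abs_self _
  have b2 : p 2 * x 2 ≤ |p 2| * |x 2| := by rw [← abs_mul]; exact le_abs_self _
  have key : ∀ m : ℝ, 0 ≤ m → m ≤ |x 0| → m ≤ |x 1| → m ≤ |x 2| →
      5 * (|p 0| * |x 0| + |p 1| * |x 1| + |p 2| * |x 2|) ≤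
        P * (|x 0| + |x 1| + |x 2| - m / 2) := by
    intro m hm h0 h1 h2
    have c0 := mul_le_mul_of_nonneg_right p0 (sub_nonneg.2 h0)
    have c1 := mul_le_mul_of_nonneg_right p1 (sub_nonneg.2 h1)
    have c2 := mul_le_mul_of_nonneg_right p2 (sub_nonneg.2 h2)
    have c3 := mul_le_mul_of_nonneg_right ps hm
    nlinarith
  have hfin : ∀ i : Fin 3, 5 * (|p 0| * |x 0| + |p 1| * |x 1| + |p 2| * |x 2|) ≤
      P * (|x 0| + |x 1| + |x 2| - |x i| / 2) →
      5 * dot p x ≤ P * (w 0 + w 1 + w 2 / 2) := by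
    intro i hi
    have := mul_le_mul_of_nonneg_left (h3 i) hP0
    simp only [dot]
    linarith
  rcases le_total |x 0| |x 1| with h | h
  · rcases le_total |x 0| |x 2| with h' | h'
    · exact hfin 0 (key _ x0 le_rfl h h')
    · exact hfin 2 (key _ x2 h' (h'.trans h) le_rfl)
  · rcases le_total |x 1| |x 2| with h' | h'
    · exact hfin 1 (key _ x1 h le_rfl h')
    · exact hfin 2 (key _ x2 (h'.trans h) h' le_rfl)

/-- convex combination of four numbers -/
def comb (l : Fin 4 → ℝ) (f : Fin 4 → ℝ) : ℝ := l 0 * f 0 + l 1 * f 1 + l 2 * f 2 + l 3 * f 3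

theorem comb_lt {l : Fin 4 → ℝ} (hl : ∀ v, 0 ≤ l v) (hs : l 0 + l 1 + l 2 + l 3 = 1)
    {f g : Fin 4 → ℝ} (h : ∀ v, f v < g v) : comb l f < comb l g := by
  unfold comb
  have h0 := mul_le_mul_of_nonneg_left (h 0).le (hl 0)
  have h1 := mul_le_mul_of_nonneg_left (h 1).le (hl 1)
  have h2 := mul_le_mul_of_nonneg_left (h 2).le (hl 2)
  have h3 := mul_le_mul_of_nonneg_left (h 3).le (hl 3)
  by_contra hcon
  push Not at hcon
  have k0 : l 0 * (g 0 - f 0) ≤ 0 := by nlinarith
  have k1 : l 1 * (g 1 - f 1) ≤ 0 := by nlinarith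
  have k2 : l 2 * (g 2 - f 2) ≤ 0 := by nlinarith
  have k3 : l 3 * (g 3 - f 3) ≤ 0 := by nlinarith
  have m : ∀ v, l v * (g v - f v) ≤ 0 → l v = 0 := by
    intro v hv
    by_contra hne
    have : 0 < l v := lt_of_le_of_ne (hl v) (Ne.symm hne)
    have := mul_pos this (sub_pos.2 (h v))
    linarith
  have := m 0 k0
  have := m 1 k1
  have := m 2 k2
  have := m 3 k3
  linarith

theorem comb_le {l : Fin 4 → ℝ} (hl : ∀ v, 0 ≤ l v) {f g : Fin 4 → ℝ} (h : ∀ v, f v ≤ g v) :
    comb l f ≤ comb l g := by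
  unfold comb
  have h0 := mul_le_mul_of_nonneg_left (h 0) (hl 0)
  have h1 := mul_le_mul_of_nonneg_left (h 1) (hl 1)
  have h2 := mul_le_mul_of_nonneg_left (h 2) (hl 2)
  have h3 := mul_le_mul_of_nonneg_left (h 3) (hl 3)
  linarith

theorem abs_comb_le {l : Fin 4 → ℝ} (hl : ∀ v, 0 ≤ l v) (f : Fin 4 → ℝ) :
    |comb l f| ≤ comb l (fun v => |f v|) := by
  rw [abs_le]
  constructor
  · have h : ∀ v, -|f v| ≤ f v := fun v => neg_abs_le _
    have := comb_le hl (f := fun v => -|f v|) (g := f) h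
    unfold comb at this ⊢
    linarith
  · exact comb_le hl fun v => le_abs_self _

/-- the ray lemma -/
theorem ray_ok {l : Fin 4 → ℝ} (hl : ∀ v, 0 ≤ l v) (hs : l 0 + l 1 + l 2 + l 3 = 1)
    {W d : Fin 4 → Fin 3 → ℝ} {r p : Fin 3 → ℝ} {t a b c θ σ s : ℝ} {ax : Fin 3} (ht : 0 ≤ t)
    (h : ∀ v, Ineq r p (d v) (W v) t a b c θ σ s (r ax)) :
    RayOK (fun i => comb l (fun v => W v i) / 1024) (fun i => comb l (fun v => d v i)) θ σ s ax
      r := by
  intro x hx hD
  set w : Fin 3 → ℝ := fun i => comb l (fun v => W v i) / 1024 with hw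
  have hsum := comb_lt hl hs h
  -- the residual
  set R : Fin 4 → Fin 3 → ℝ := fun v => res r p (d v) (W v) t a b c with hR
  have hres : ∀ i : Fin 3, comb l (fun v => R v i) =
      res r p (fun i => comb l (fun v => d v i)) (fun i => comb l (fun v => W v i)) t a b c i := by
    have h3 : l 3 = 1 - l 0 - l 1 - l 2 := by linarith
    intro i
    fin_cases i <;>
      simp only [hR, res, comb, Matrix.cons_val_zero, Matrix.cons_val_one, Matrix.cons_val,
        Fin.zero_eta, Fin.mk_one, Fin.reduceFinMk, h3] <;> ring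
  set Rb : Fin 3 → ℝ := fun i => comb l (fun v => R v i) with hRb
  have hW : ∀ i, comb l (fun v => W v i) = 1024 * w i := fun i => by rw [hw]; field_simp
  have e1 : 1024 * dot r x = dot Rb x + t * dot (fun i => comb l (fun v => d v i)) x +
      1024 * dot p x + 1024 * (a * (x 0 * w 1 - x 1 * w 0) + b * (x 0 * w 2 - x 2 * w 0) +
        c * (x 1 * w 2 - x 2 * w 1)) := by
    have k0 := hres 0
    have k1 := hres 1
    have k2 := hres 2
    simp only [res, Matrix.cons_val_zero, Matrix.cons_val_one, Matrix.cons_val, hW] at k0 k1 k2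
    simp only [dot, hRb, k0, k1, k2]
    ring
  -- the pieces
  have f1 : dot Rb x ≤ |Rb 0| + |Rb 1| + |Rb 2| := by
    have g : ∀ i, Rb i * x i ≤ |Rb i| := fun i => by
      calc Rb i * x i ≤ |Rb i * x i| := le_abs_self _
        _ = |Rb i| * |x i| := abs_mul _ _
        _ ≤ |Rb i| * 1 := mul_le_mul_of_nonneg_left (hx.1 i) (abs_nonneg _)
        _ = |Rb i| := mul_one _
    have := g 0
    have := g 1
    have := g 2
    simp only [dot]
    linarith
  have f2 : |Rb 0| + |Rb 1| + |Rb 2| ≤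
      comb l (fun v => |R v 0| + |R v 1| + |R v 2|) := by
    have g0 := abs_comb_le hl (fun v => R v 0)
    have g1 := abs_comb_le hl (fun v => R v 1)
    have g2 := abs_comb_le hl (fun v => R v 2)
    have : comb l (fun v => |R v 0| + |R v 1| + |R v 2|) =
        comb l (fun v => |R v 0|) + comb l (fun v => |R v 1|) + comb l (fun v => |R v 2|) := by
      simp only [comb]; ring
    rw [this]
    simp only [hRb]
    linarith
  have f3 : a * (x 0 * w 1 - x 1 * w 0) + b * (x 0 * w 2 - x 2 * w 0) +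
        c * (x 1 * w 2 - x 2 * w 1) ≤ |a| + |b| + |c| := by
    have g : ∀ u m : ℝ, |m| ≤ 1 → u * m ≤ |u| := fun u m hm => by
      calc u * m ≤ |u * m| := le_abs_self _
        _ = |u| * |m| := abs_mul _ _
        _ ≤ |u| * 1 := mul_le_mul_of_nonneg_left hm (abs_nonneg _)
        _ = |u| := mul_one _
    have := g a _ (hx.2.1 0 1)
    have := g b _ (hx.2.1 0 2)
    have := g c _ (hx.2.1 1 2)
    linarith
  have f4 := dual_norm (p := p) hx
  set P := max (5 * max |p 0| (max |p 1| |p 2|)) (2 * (|p 0| + |p 1| + |p 2|)) with hP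
  have f5 : t * dot (fun i => comb l (fun v => d v i)) x ≤ 0 :=
    mul_nonpos_of_nonneg_of_nonpos ht hD
  have f6 : comb l (fun v => 160 * (|R v 0| + |R v 1| + |R v 2|) + 163840 * (|a| + |b| + |c|) +
      16 * (2 * (W v 0 + W v 1) + W v 2) * P) =
      160 * comb l (fun v => |R v 0| + |R v 1| + |R v 2|) + 163840 * (|a| + |b| + |c|) +
        32768 * (w 0 + w 1 + w 2 / 2) * P := by
    have h3 : l 3 = 1 - l 0 - l 1 - l 2 := by linarith
    have g0 := hW 0
    have g1 := hW 1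
    have g2 := hW 2
    simp only [comb] at g0 g1 g2 ⊢
    have : 32768 * (w 0 + w 1 + w 2 / 2) * P = 16 * (2 * (1024 * w 0 + 1024 * w 1) + 1024 * w 2) *
      P := by ring
    rw [this, ← g0, ← g1, ← g2, h3]
    ring
  have f7 : comb l (fun v => 10 * ((16 - θ) * 1024 * σ * r ax + θ * s * dot (W v) r)) =
      10240 * ((16 - θ) * σ * r ax + θ * s * dot w r) := by
    have h3 : l 3 = 1 - l 0 - l 1 - l 2 := by linarith
    have g0 := hW 0
    have g1 := hW 1
    have g2 := hW 2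
    simp only [comb, dot] at g0 g1 g2 ⊢
    have : 10240 * ((16 - θ) * σ * r ax + θ * s * (w 0 * r 0 + w 1 * r 1 + w 2 * r 2)) =
      10240 * ((16 - θ) * σ * r ax) + 10 * (θ * s * ((1024 * w 0) * r 0 + (1024 * w 1) * r 1 +
        (1024 * w 2) * r 2)) := by ring
    rw [this, ← g0, ← g1, ← g2, h3]
    ring
  have hsum' : comb l (fun v => 160 * (|R v 0| + |R v 1| + |R v 2|) +
      163840 * (|a| + |b| + |c|) + 16 * (2 * (W v 0 + W v 1) + W v 2) * P) <
      comb l (fun v => 10 * ((16 - θ) * 1024 * σ * r ax + θ * s * dot (W v) r)) := hsum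
  rw [f6, f7] at hsum'
  have hcomm : P * (w 0 + w 1 + w 2 / 2) = (w 0 + w 1 + w 2 / 2) * P := mul_comm _ _
  nlinarith

theorem leaf_ok {w D : Fin 3 → ℝ} {θ σ s : ℝ} {ax : Fin 3} {ra rb rc : Fin 3 → ℝ}
    (hθ : 0 ≤ θ) (hθ' : θ ≤ 16) (hσ : |σ| ≤ 1) (hs : |s| ≤ 1)
    (ha : RayOK w D θ σ s ax ra) (hb : RayOK w D θ σ s ax rb) (hc : RayOK w D θ σ s ax rc)
    {q : Fin 3 → ℝ} {α β γ : ℝ} (hα : 0 ≤ α) (hβ : 0 ≤ β) (hγ : 0 ≤ γ)
    (hq : q = fun i => α * ra i + β * rb i + γ * rc i) (hq1 : ∀ i, |q i| ≤ 1)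
    (hqw : |dot q w| ≤ 1) {x : Fin 3 → ℝ} (hx : Cons w x) (hqx : dot q x = 1) : 0 < dot D x := by
  by_contra hcon
  have hD : dot D x ≤ 0 := not_lt.1 hcon
  have h1 := ha x hx hD
  have h2 := hb x hx hD
  have h3 := hc x hx hD
  -- `ℓ (q) ≤ 16`
  have hσq : σ * q ax ≤ 1 := by
    calc σ * q ax ≤ |σ * q ax| := le_abs_self _
      _ = |σ| * |q ax| := abs_mul _ _
      _ ≤ 1 * 1 := mul_le_mul hσ (hq1 ax) (abs_nonneg _) (by norm_num)
      _ = 1 := one_mul _
  have hsq : s * dot w q ≤ 1 := by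
    have : dot w q = dot q w := by simp only [dot]; ring
    rw [this]
    calc s * dot q w ≤ |s * dot q w| := le_abs_self _
      _ = |s| * |dot q w| := abs_mul _ _
      _ ≤ 1 * 1 := mul_le_mul hs hqw (abs_nonneg _) (by norm_num)
      _ = 1 := one_mul _
  have hl : (16 - θ) * σ * q ax + θ * s * dot w q ≤ 16 := by
    have e1 := mul_le_mul_of_nonneg_left hσq (sub_nonneg.2 hθ')
    have e2 := mul_le_mul_of_nonneg_left hsq hθ
    linarith
  have hlin : (16 - θ) * σ * q ax + θ * s * dot w q =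
      α * ((16 - θ) * σ * ra ax + θ * s * dot w ra) +
      β * ((16 - θ) * σ * rb ax + θ * s * dot w rb) +
      γ * ((16 - θ) * σ * rc ax + θ * s * dot w rc) := by
    rw [hq]; simp only [dot]; ring
  have hx16 : 16 * dot q x = α * (16 * dot ra x) + β * (16 * dot rb x) + γ * (16 * dot rc x) := by
    rw [hq]; simp only [dot]; ring
  have k1 := mul_le_mul_of_nonneg_left h1.le hα
  have k2 := mul_le_mul_of_nonneg_left h2.le hβ
  have k3 := mul_le_mul_of_nonneg_left h3.le hγ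
  have z : ∀ u A B : ℝ, 0 ≤ u → A < B → u * B ≤ u * A → u = 0 := by
    intro u A B hu hAB h
    by_contra hne
    have : 0 < u := lt_of_le_of_ne hu (Ne.symm hne)
    nlinarith
  have z1 := z α _ _ hα h1 (by linarith)
  have z2 := z β _ _ hβ h2 (by linarith)
  have z3 := z γ _ _ hγ h3 (by linarith)
  rw [z1, z2, z3] at hx16
  linarith

/-! ### Cells -/

/-- the point with barycentric coordinates `l` -/
noncomputable def Cell.w (T : Cell) (l : Fin 4 → ℝ) : Fin 3 → ℝ :=
  fun i => comb l (fun v => (![T.w0.pos, T.w1.pos, T.w2.pos, T.w3.pos] : Fin 4 → Fin 3 → ℝ) v i) /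
    1024

/-- direction number `k` -/
noncomputable def Cell.D (T : Cell) (l : Fin 4 → ℝ) (k : ℕ) : Fin 3 → ℝ :=
  fun i => comb l (fun v => (![(sel T.D0 k).val, (sel T.D1 k).val, (sel T.D2 k).val,
    (sel T.D3 k).val] : Fin 4 → Fin 3 → ℝ) v i)

theorem sel_fin (k : ℕ) : ∃ k' : Fin 7, ∀ D : D7, sel D k = sel D k' := by
  rcases Nat.lt_or_ge k 7 with h | h
  · exact ⟨⟨k, h⟩, fun D => rfl⟩
  · refine ⟨6, fun D => ?_⟩
    obtain ⟨n, rfl⟩ : ∃ n, k = n + 7 := ⟨k - 7, by omega⟩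
    rfl

/-- axis number -/
def axf (ax : ℕ) : Fin 3 :=
  match ax with
  | 0 => 0
  | 1 => 1
  | _ => 2

theorem crd_val (r : V3) (ax : ℕ) : ((crd r ax : ℕ) : ℝ) - 65536 = r.val (axf ax) := by
  match ax with
  | 0 => rfl
  | 1 => rfl
  | (n + 2) => rfl

theorem chkR_sound {T : Cell} {k th ax : ℕ} {sg ss : Bool} {r : V3} {c : C7} (hth : th ≤ 16)
    (h : chkR T k th ax sg ss r c = true) {l : Fin 4 → ℝ} (hl : ∀ v, 0 ≤ l v)
    (hs : l 0 + l 1 + l 2 + l 3 = 1) :
    RayOK (T.w l) (T.D l k) th (sgn sg) (sgn ss) (axf ax) r.val := by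
  unfold chkR at h
  simp only [Bool.and_eq_true] at h
  obtain ⟨h0, h1, h2, h3⟩ := h
  have e0 := chkV_sound hth h0
  have e1 := chkV_sound hth h1
  have e2 := chkV_sound hth h2
  have e3 := chkV_sound hth h3
  rw [crd_val] at e0 e1 e2 e3
  refine ray_ok hl hs (p := V3.val ⟨c.p, c.q, c.r⟩) (a := (c.a : ℝ) - 65536)
    (b := (c.b : ℝ) - 65536) (c := (c.c : ℝ) - 65536) (Nat.cast_nonneg c.t) (fun v => ?_)
  fin_cases v
  · exact e0
  · exact e1
  · exact e2
  · exact e3

/-- `q` is in the cone of the three rays -/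
def InCone (q : Fin 3 → ℝ) (a b c : V3) : Prop :=
  ∃ α β γ : ℝ, 0 ≤ α ∧ 0 ≤ β ∧ 0 ≤ γ ∧ q = fun i => α * a.val i + β * b.val i + γ * c.val i

theorem abs_sgn (b : Bool) : |sgn b| ≤ 1 := by
  cases b <;> simp [sgn]

theorem cmb_sound {i j g : ℕ} {m a b : V3} (h : cmb i j g m a b = true) :
    (1 : ℝ) ≤ i ∧ (1 : ℝ) ≤ j ∧ (1 : ℝ) ≤ g ∧
      ∀ u, (g : ℝ) * m.val u = i * a.val u + j * b.val u := by
  unfold cmb cmb1 at h
  simp only [Bool.and_eq_true, Nat.ble_eq] at h
  obtain ⟨⟨hi, hj, hg⟩, hx, hy, hz⟩ := h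
  replace hx := Nat.eq_of_beq_eq_true hx
  replace hy := Nat.eq_of_beq_eq_true hy
  replace hz := Nat.eq_of_beq_eq_true hz
  refine ⟨by exact_mod_cast hi, by exact_mod_cast hj, by exact_mod_cast hg, ?_⟩
  have hx' := congrArg (Nat.cast (R := ℝ)) hx
  have hy' := congrArg (Nat.cast (R := ℝ)) hy
  have hz' := congrArg (Nat.cast (R := ℝ)) hz
  simp only [Nat.add_eq, Nat.mul_eq] at hx' hy' hz'
  push_cast at hx' hy' hz'
  intro u
  fin_cases u
  · simp only [V3.val, Fin.zero_eta, Matrix.cons_val_zero]; linarith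
  · simp only [V3.val, Fin.mk_one, Matrix.cons_val_one, Matrix.cons_val]; linarith
  · simp only [V3.val, Fin.reduceFinMk, Matrix.cons_val]; linarith

theorem cone_split {i j g : ℕ} {m a b c : V3} (h : cmb i j g m a b = true) {q : Fin 3 → ℝ}
    (hq : InCone q a b c) : InCone q a m c ∨ InCone q m b c := by
  obtain ⟨hi, hj, hg, hm⟩ := cmb_sound h
  obtain ⟨α, β, γ, hα, hβ, hγ, rfl⟩ := hq
  have hi0 : (0 : ℝ) < i := by linarith
  have hj0 : (0 : ℝ) < j := by linarith
  have hg0 : (0 : ℝ) < g := by linarith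
  have hmu : ∀ u, m.val u = (i * a.val u + j * b.val u) / g := fun u => by
    rw [eq_div_iff hg0.ne', ← hm u]; ring
  rcases le_total (β * i) (α * j) with h1 | h1
  · left
    refine ⟨α - β * i / j, β * g / j, γ, ?_, by positivity, hγ, ?_⟩
    · rw [sub_nonneg, div_le_iff₀ hj0]; exact h1
    · funext u
      rw [hmu u]
      field_simp
      ring
  · right
    refine ⟨α * g / i, β - α * j / i, γ, by positivity, ?_, hγ, ?_⟩
    · rw [sub_nonneg, div_le_iff₀ hi0]; exact h1
    · funext u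
      rw [hmu u]
      field_simp
      ring

theorem InCone.perm1 {q : Fin 3 → ℝ} {a b c : V3} (h : InCone q a b c) : InCone q b c a := by
  obtain ⟨α, β, γ, hα, hβ, hγ, rfl⟩ := h
  exact ⟨β, γ, α, hβ, hγ, hα, by funext u; ring⟩

theorem InCone.swap {q : Fin 3 → ℝ} {a b c : V3} (h : InCone q a b c) : InCone q a c b := by
  obtain ⟨α, β, γ, hα, hβ, hγ, rfl⟩ := h
  exact ⟨α, γ, β, hα, hγ, hβ, by funext u; ring⟩

theorem chkQ_sound {T : Cell} {l : Fin 4 → ℝ} (hl : ∀ v, 0 ≤ l v)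
    (hs : l 0 + l 1 + l 2 + l 3 = 1) {q : Fin 3 → ℝ} (hq1 : ∀ i, |q i| ≤ 1)
    (hqw : |dot q (T.w l)| ≤ 1) : ∀ (t : QT) (a b c : V3), chkQ T t a b c = true →
      InCone q a b c → Kill (T.w l) (fun k : Fin 7 => T.D l k) q := by
  intro t
  induction t with
  | L k th ax sg ss c0 c1 c2 =>
    intro a b c h hq
    unfold chkQ at h
    simp only [Bool.and_eq_true, Nat.ble_eq] at h
    obtain ⟨hth, h0, h1, h2⟩ := h
    obtain ⟨k', hk'⟩ := sel_fin k
    have hDk : T.D l k = T.D l k' := by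
      unfold Cell.D
      rw [hk' T.D0, hk' T.D1, hk' T.D2, hk' T.D3]
    obtain ⟨α, β, γ, hα, hβ, hγ, hqe⟩ := hq
    refine ⟨k', fun x hx hqx => ?_⟩
    have e0 := chkR_sound hth h0 hl hs
    have e1 := chkR_sound hth h1 hl hs
    have e2 := chkR_sound hth h2 hl hs
    rw [hDk] at e0 e1 e2
    exact leaf_ok (Nat.cast_nonneg th) (by exact_mod_cast hth) (abs_sgn sg) (abs_sgn ss) e0 e1 e2
      hα hβ hγ hqe hq1 hqw hx hqx
  | S e i j g m tl tr ihl ihr =>
    intro a b c h hq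
    unfold chkQ at h
    match e, h with
    | 0, h =>
      simp only [Bool.and_eq_true] at h
      rcases cone_split h.1 hq with h1 | h1
      · exact ihl _ _ _ h.2.1 h1
      · exact ihr _ _ _ h.2.2 h1
    | 1, h =>
      simp only [Bool.and_eq_true] at h
      rcases cone_split h.1 hq.perm1 with h1 | h1
      · exact ihl _ _ _ h.2.1 h1.perm1.perm1
      · exact ihr _ _ _ h.2.2 h1.perm1.perm1
    | (n + 2), h =>
      simp only [Bool.and_eq_true] at h
      rcases cone_split h.1 hq.swap with h1 | h1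
      · exact ihl _ _ _ h.2.1 h1.swap
      · exact ihr _ _ _ h.2.2 h1.swap

/-- the conclusion for all `q` -/
def Concl (w : Fin 3 → ℝ) : Prop :=
  ∃ D : Fin 7 → Fin 3 → ℝ, ∀ q : Fin 3 → ℝ, (∀ i, |q i| ≤ 1) → |dot q w| ≤ 1 → Kill w D q

theorem val3 (x y z : ℕ) (i : Fin 3) : (V3.val ⟨x, y, z⟩) i =
    ![(x : ℝ) - 65536, (y : ℝ) - 65536, (z : ℝ) - 65536] i := rfl

theorem chkCell_sound {T : Cell} {Q : Q12} (h : chkCell T Q = true) {l : Fin 4 → ℝ}
    (hl : ∀ v, 0 ≤ l v) (hs : l 0 + l 1 + l 2 + l 3 = 1) : Concl (T.w l) := by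
  unfold chkCell at h
  simp only [Bool.and_eq_true] at h
  obtain ⟨c0, c1, c2, c3, c4, c5, c6, c7, c8, c9, c10, c11⟩ := h
  refine ⟨fun k : Fin 7 => T.D l k, fun q hq1 hqw => ?_⟩
  have K := fun (t : QT) (a b c : V3) (h : chkQ T t a b c = true) (h' : InCone q a b c) =>
    chkQ_sound hl hs hq1 hqw t a b c h h'
  -- the largest coordinate
  have mk : ∀ (a b c : V3) (α β γ : ℝ), 0 ≤ α → 0 ≤ β → 0 ≤ γ →
      q 0 = α * a.val 0 + β * b.val 0 + γ * c.val 0 →
      q 1 = α * a.val 1 + β * b.val 1 + γ * c.val 1 →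
      q 2 = α * a.val 2 + β * b.val 2 + γ * c.val 2 → InCone q a b c := by
    intro a b c α β γ h1 h2 h3 e0 e1 e2
    refine ⟨α, β, γ, h1, h2, h3, ?_⟩
    funext i
    fin_cases i
    · exact e0
    · exact e1
    · exact e2
  have ex : ∃ ax : Fin 3, ∀ i, |q i| ≤ |q ax| := by
    rcases le_total |q 0| |q 1| with h | h
    · rcases le_total |q 1| |q 2| with h' | h'
      · exact ⟨2, fun i => by fin_cases i; exacts [h.trans h', h', le_rfl]⟩
      · exact ⟨1, fun i => by fin_cases i; exacts [h, le_rfl, h']⟩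
    · rcases le_total |q 0| |q 2| with h' | h'
      · exact ⟨2, fun i => by fin_cases i; exacts [h', h.trans h', le_rfl]⟩
      · exact ⟨0, fun i => by fin_cases i; exacts [le_rfl, h, h']⟩
  obtain ⟨ax, hax⟩ := ex
  fin_cases ax
  · have b1 := hax 1
    have b2 := hax 2
    simp only [Fin.zero_eta] at b1 b2
    rcases le_total 0 (q 0) with hp | hp
    · rw [abs_of_nonneg hp, abs_le] at b1 b2
      rcases le_total (q 1) (q 2) with h12 | h12
      · refine K _ _ _ _ c0 (mk _ _ _ ((q 0 - q 2) / 2048) ((q 2 - q 1) / 2048)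
          ((q 0 + q 1) / 2048) (by linarith) (by linarith) (by linarith) ?_ ?_ ?_) <;>
          simp only [val3, Matrix.cons_val_zero, Matrix.cons_val_one, Matrix.cons_val] <;>
          push_cast <;> ring
      · refine K _ _ _ _ c1 (mk _ _ _ ((q 0 - q 1) / 2048) ((q 1 - q 2) / 2048)
          ((q 0 + q 2) / 2048) (by linarith) (by linarith) (by linarith) ?_ ?_ ?_) <;>
          simp only [val3, Matrix.cons_val_zero, Matrix.cons_val_one, Matrix.cons_val] <;>
          push_cast <;> ring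
    · rw [abs_of_nonpos hp, abs_le] at b1 b2
      rcases le_total (q 1) (q 2) with h12 | h12
      · refine K _ _ _ _ c2 (mk _ _ _ ((-q 0 - q 2) / 2048) ((q 2 - q 1) / 2048)
          ((-q 0 + q 1) / 2048) (by linarith) (by linarith) (by linarith) ?_ ?_ ?_) <;>
          simp only [val3, Matrix.cons_val_zero, Matrix.cons_val_one, Matrix.cons_val] <;>
          push_cast <;> ring
      · refine K _ _ _ _ c3 (mk _ _ _ ((-q 0 - q 1) / 2048) ((q 1 - q 2) / 2048)
          ((-q 0 + q 2) / 2048) (by linarith) (by linarith) (by linarith) ?_ ?_ ?_) <;>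
          simp only [val3, Matrix.cons_val_zero, Matrix.cons_val_one, Matrix.cons_val] <;>
          push_cast <;> ring
  · have b0 := hax 0
    have b2 := hax 2
    simp only [Fin.mk_one] at b0 b2
    rcases le_total 0 (q 1) with hp | hp
    · rw [abs_of_nonneg hp, abs_le] at b0 b2
      rcases le_total (q 0) (q 2) with h12 | h12
      · refine K _ _ _ _ c4 (mk _ _ _ ((q 1 - q 2) / 2048) ((q 2 - q 0) / 2048)
          ((q 1 + q 0) / 2048) (by linarith) (by linarith) (by linarith) ?_ ?_ ?_) <;>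
          simp only [val3, Matrix.cons_val_zero, Matrix.cons_val_one, Matrix.cons_val] <;>
          push_cast <;> ring
      · refine K _ _ _ _ c5 (mk _ _ _ ((q 1 - q 0) / 2048) ((q 0 - q 2) / 2048)
          ((q 1 + q 2) / 2048) (by linarith) (by linarith) (by linarith) ?_ ?_ ?_) <;>
          simp only [val3, Matrix.cons_val_zero, Matrix.cons_val_one, Matrix.cons_val] <;>
          push_cast <;> ring
    · rw [abs_of_nonpos hp, abs_le] at b0 b2
      rcases le_total (q 0) (q 2) with h12 | h12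
      · refine K _ _ _ _ c6 (mk _ _ _ ((-q 1 - q 2) / 2048) ((q 2 - q 0) / 2048)
          ((-q 1 + q 0) / 2048) (by linarith) (by linarith) (by linarith) ?_ ?_ ?_) <;>
          simp only [val3, Matrix.cons_val_zero, Matrix.cons_val_one, Matrix.cons_val] <;>
          push_cast <;> ring
      · refine K _ _ _ _ c7 (mk _ _ _ ((-q 1 - q 0) / 2048) ((q 0 - q 2) / 2048)
          ((-q 1 + q 2) / 2048) (by linarith) (by linarith) (by linarith) ?_ ?_ ?_) <;>
          simp only [val3, Matrix.cons_val_zero, Matrix.cons_val_one, Matrix.cons_val] <;>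
          push_cast <;> ring
  · have b0 := hax 0
    have b1 := hax 1
    simp only [Fin.reduceFinMk] at b0 b1
    rcases le_total 0 (q 2) with hp | hp
    · rw [abs_of_nonneg hp, abs_le] at b0 b1
      rcases le_total (q 0) (q 1) with h12 | h12
      · refine K _ _ _ _ c8 (mk _ _ _ ((q 2 - q 1) / 2048) ((q 1 - q 0) / 2048)
          ((q 2 + q 0) / 2048) (by linarith) (by linarith) (by linarith) ?_ ?_ ?_) <;>
          simp only [val3, Matrix.cons_val_zero, Matrix.cons_val_one, Matrix.cons_val] <;>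
          push_cast <;> ring
      · refine K _ _ _ _ c9 (mk _ _ _ ((q 2 - q 0) / 2048) ((q 0 - q 1) / 2048)
          ((q 2 + q 1) / 2048) (by linarith) (by linarith) (by linarith) ?_ ?_ ?_) <;>
          simp only [val3, Matrix.cons_val_zero, Matrix.cons_val_one, Matrix.cons_val] <;>
          push_cast <;> ring
    · rw [abs_of_nonpos hp, abs_le] at b0 b1
      rcases le_total (q 0) (q 1) with h12 | h12
      · refine K _ _ _ _ c10 (mk _ _ _ ((-q 2 - q 1) / 2048) ((q 1 - q 0) / 2048)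
          ((-q 2 + q 0) / 2048) (by linarith) (by linarith) (by linarith) ?_ ?_ ?_) <;>
          simp only [val3, Matrix.cons_val_zero, Matrix.cons_val_one, Matrix.cons_val] <;>
          push_cast <;> ring
      · refine K _ _ _ _ c11 (mk _ _ _ ((-q 2 - q 0) / 2048) ((q 0 - q 1) / 2048)
          ((-q 2 + q 1) / 2048) (by linarith) (by linarith) (by linarith) ?_ ?_ ?_) <;>
          simp only [val3, Matrix.cons_val_zero, Matrix.cons_val_one, Matrix.cons_val] <;>
          push_cast <;> ring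

end Pool.Agent.Core7.Far
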