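import Pool.Agent.Work.MP_80156a_core7.FarSound

/-!
# MP_80156a, CORE7: trees of tetrahedra
-/

set_option autoImplicit false

namespace Pool.Agent.Core7.Far

/-- the point with barycentric coordinates `l` -/
noncomputable def pt (v0 v1 v2 v3 : V3) (l : Fin 4 → ℝ) : Fin 3 → ℝ :=
  fun i => (l 0 * v0.pos i + l 1 * v1.pos i + l 2 * v2.pos i + l 3 * v3.pos i) / 1024

/-- the conclusion holds for all points of the tetrahedron with `Φ ≥ 13/10` -/
def Good4 (v0 v1 v2 v3 : V3) : Prop :=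
  ∀ l : Fin 4 → ℝ, (∀ v, 0 ≤ l v) → l 0 + l 1 + l 2 + l 3 = 1 →
    13 / 10 ≤ pt v0 v1 v2 v3 l 0 + pt v0 v1 v2 v3 l 1 + pt v0 v1 v2 v3 l 2 / 2 →
    Concl (pt v0 v1 v2 v3 l)

theorem good_cell {v0 v1 v2 v3 : V3} (D0 D1 D2 D3 : D7) (Q : Q12)
    (h : chkCell ⟨v0, v1, v2, v3, D0, D1, D2, D3⟩ Q = true) : Good4 v0 v1 v2 v3 := by
  intro l hl hs _
  have h1 := chkCell_sound h hl hs
  have h2 : Cell.w ⟨v0, v1, v2, v3, D0, D1, D2, D3⟩ l = pt v0 v1 v2 v3 l := by
    funext i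
    simp only [Cell.w, pt, comb, Matrix.cons_val_zero, Matrix.cons_val_one, Matrix.cons_val]
  rwa [h2] at h1

theorem outV_sound {w : V3} (h : outV w = true) :
    10 * (2 * (w.pos 0 + w.pos 1) + w.pos 2) < 26624 := by
  unfold outV at h
  rw [Nat.ble_eq] at h
  have h1 := (Nat.cast_le (α := ℝ)).2 h
  simp only [Nat.add_eq, Nat.mul_eq, Nat.succ_eq_add_one] at h1
  push_cast at h1
  simp only [V3.pos, Matrix.cons_val_zero, Matrix.cons_val_one, Matrix.cons_val]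
  linarith

theorem good_out {v0 v1 v2 v3 : V3} (h0 : outV v0 = true) (h1 : outV v1 = true)
    (h2 : outV v2 = true) (h3 : outV v3 = true) : Good4 v0 v1 v2 v3 := by
  intro l hl hs hΦ
  exfalso
  have e := comb_lt hl hs (f := fun v => (![10 * (2 * (v0.pos 0 + v0.pos 1) + v0.pos 2),
    10 * (2 * (v1.pos 0 + v1.pos 1) + v1.pos 2), 10 * (2 * (v2.pos 0 + v2.pos 1) + v2.pos 2),
    10 * (2 * (v3.pos 0 + v3.pos 1) + v3.pos 2)] : Fin 4 → ℝ) v) (g := fun _ => 26624)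
    (fun v => by
      fin_cases v
      · exact outV_sound h0
      · exact outV_sound h1
      · exact outV_sound h2
      · exact outV_sound h3)
  simp only [comb, Matrix.cons_val_zero, Matrix.cons_val_one, Matrix.cons_val] at e
  have e2 : l 0 * 26624 + l 1 * 26624 + l 2 * 26624 + l 3 * 26624 = (26624 : ℝ) := by
    linear_combination 26624 * hs
  simp only [pt] at hΦ
  linarith

theorem mid_pos {v w : V3} (h : evn v w = true) (i : Fin 3) :
    (mid v w).pos i = (v.pos i + w.pos i) / 2 := by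
  unfold evn at h
  simp only [Bool.and_eq_true] at h
  obtain ⟨hx, hy, hz⟩ := h
  replace hx := Nat.eq_of_beq_eq_true hx
  replace hy := Nat.eq_of_beq_eq_true hy
  replace hz := Nat.eq_of_beq_eq_true hz
  have key : ∀ a b : ℕ, (a + b) % 2 = 0 → (((a + b) / 2 : ℕ) : ℝ) = ((a : ℝ) + b) / 2 := by
    intro a b hab
    rw [Nat.cast_div (Nat.dvd_of_mod_eq_zero hab) (by norm_num)]
    push_cast
    ring
  fin_cases i
  · exact key v.x w.x hx
  · exact key v.y w.y hy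
  · exact key v.z w.z hz

theorem good_split0 {v0 v1 v2 v3 : V3} (h : evn v0 v1 = true)
    (h1 : Good4 v0 (mid v0 v1) v2 v3) (h2 : Good4 (mid v0 v1) v1 v2 v3) : Good4 v0 v1 v2 v3 := by
  intro l hl hs hΦ
  have l0 := hl 0
  have l1 := hl 1
  have l2 := hl 2
  have l3 := hl 3
  rcases le_total (l 1) (l 0) with hle | hle
  · have e : pt v0 v1 v2 v3 l = pt v0 (mid v0 v1) v2 v3 ![l 0 - l 1, 2 * l 1, l 2, l 3] := by
      funext i
      simp only [pt, Matrix.cons_val_zero, Matrix.cons_val_one, Matrix.cons_val, mid_pos h i]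
      ring
    rw [e] at hΦ ⊢
    refine h1 _ (fun v => ?_) ?_ hΦ
    · fin_cases v <;> simp <;> linarith
    · simp only [Matrix.cons_val_zero, Matrix.cons_val_one, Matrix.cons_val]; linarith
  · have e : pt v0 v1 v2 v3 l = pt (mid v0 v1) v1 v2 v3 ![2 * l 0, l 1 - l 0, l 2, l 3] := by
      funext i
      simp only [pt, Matrix.cons_val_zero, Matrix.cons_val_one, Matrix.cons_val, mid_pos h i]
      ring
    rw [e] at hΦ ⊢
    refine h2 _ (fun v => ?_) ?_ hΦ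
    · fin_cases v <;> simp <;> linarith
    · simp only [Matrix.cons_val_zero, Matrix.cons_val_one, Matrix.cons_val]; linarith

theorem Good4.perm {v0 v1 v2 v3 w0 w1 w2 w3 : V3} (f : (Fin 4 → ℝ) → (Fin 4 → ℝ))
    (hf : ∀ l, pt w0 w1 w2 w3 l = pt v0 v1 v2 v3 (f l))
    (hp : ∀ l : Fin 4 → ℝ, (∀ v, 0 ≤ l v) → ∀ v, 0 ≤ f l v)
    (hs : ∀ l : Fin 4 → ℝ, f l 0 + f l 1 + f l 2 + f l 3 = l 0 + l 1 + l 2 + l 3)
    (h : Good4 v0 v1 v2 v3) : Good4 w0 w1 w2 w3 := by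
  intro l hl h1 hΦ
  rw [hf] at hΦ ⊢
  exact h _ (hp l hl) ((hs l).trans h1) hΦ

/-- cyclic permutation of the last three vertices -/
theorem Good4.rot {v0 v1 v2 v3 : V3} (h : Good4 v0 v1 v2 v3) : Good4 v0 v2 v3 v1 := by
  refine h.perm (fun l => ![l 0, l 3, l 1, l 2]) (fun l => ?_) (fun l hl v => ?_) (fun l => ?_)
  · funext i
    simp only [pt, Matrix.cons_val_zero, Matrix.cons_val_one, Matrix.cons_val]
    ring
  · fin_cases v
    · exact hl 0
    · exact hl 3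
    · exact hl 1
    · exact hl 2
  · simp only [Matrix.cons_val_zero, Matrix.cons_val_one, Matrix.cons_val]; ring

/-- transposition of the first two vertices -/
theorem Good4.swap {v0 v1 v2 v3 : V3} (h : Good4 v0 v1 v2 v3) : Good4 v1 v0 v2 v3 := by
  refine h.perm (fun l => ![l 1, l 0, l 2, l 3]) (fun l => ?_) (fun l hl v => ?_) (fun l => ?_)
  · funext i
    simp only [pt, Matrix.cons_val_zero, Matrix.cons_val_one, Matrix.cons_val]
    ring
  · fin_cases v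
    · exact hl 1
    · exact hl 0
    · exact hl 2
    · exact hl 3
  · simp only [Matrix.cons_val_zero, Matrix.cons_val_one, Matrix.cons_val]; ring

theorem good_split1 {v0 v1 v2 v3 : V3} (h : evn v0 v2 = true)
    (h1 : Good4 v0 v1 (mid v0 v2) v3) (h2 : Good4 (mid v0 v2) v1 v2 v3) : Good4 v0 v1 v2 v3 :=
  (good_split0 (v0 := v0) (v1 := v2) (v2 := v3) (v3 := v1) h h1.rot h2.rot).rot.rot

theorem good_split2 {v0 v1 v2 v3 : V3} (h : evn v0 v3 = true)
    (h1 : Good4 v0 v1 v2 (mid v0 v3)) (h2 : Good4 (mid v0 v3) v1 v2 v3) : Good4 v0 v1 v2 v3 :=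
  (good_split0 (v0 := v0) (v1 := v3) (v2 := v1) (v3 := v2) h h1.rot.rot h2.rot.rot).rot

theorem good_split3 {v0 v1 v2 v3 : V3} (h : evn v1 v2 = true)
    (h1 : Good4 v0 v1 (mid v1 v2) v3) (h2 : Good4 v0 (mid v1 v2) v2 v3) : Good4 v0 v1 v2 v3 :=
  (good_split1 (v0 := v1) (v1 := v0) (v2 := v2) (v3 := v3) h h1.swap h2.swap).swap

theorem good_split4 {v0 v1 v2 v3 : V3} (h : evn v1 v3 = true)
    (h1 : Good4 v0 v1 v2 (mid v1 v3)) (h2 : Good4 v0 (mid v1 v3) v2 v3) : Good4 v0 v1 v2 v3 :=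
  (good_split2 (v0 := v1) (v1 := v0) (v2 := v2) (v3 := v3) h h1.swap h2.swap).swap

theorem good_split5 {v0 v1 v2 v3 : V3} (h : evn v2 v3 = true)
    (h1 : Good4 v0 v1 v2 (mid v2 v3)) (h2 : Good4 v0 v1 (mid v2 v3) v3) : Good4 v0 v1 v2 v3 :=
  (good_split3 (v0 := v0) (v1 := v2) (v2 := v3) (v3 := v1) h h1.rot h2.rot).rot.rot

theorem good_W (t : WT) : ∀ v0 v1 v2 v3 : V3, chkW t v0 v1 v2 v3 = true → Good4 v0 v1 v2 v3 := by
  induction t with
  | O =>
    intro v0 v1 v2 v3 h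
    unfold chkW at h
    simp only [Bool.and_eq_true] at h
    exact good_out h.1 h.2.1 h.2.2.1 h.2.2.2
  | C D0 D1 D2 D3 Q =>
    intro v0 v1 v2 v3 h
    unfold chkW at h
    exact good_cell D0 D1 D2 D3 Q h
  | S e l r ihl ihr =>
    intro v0 v1 v2 v3 h
    unfold chkW at h
    match e, h with
    | 0, h =>
      simp only [Bool.and_eq_true] at h
      exact good_split0 h.1 (ihl _ _ _ _ h.2.1) (ihr _ _ _ _ h.2.2)
    | 1, h =>
      simp only [Bool.and_eq_true] at h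
      exact good_split1 h.1 (ihl _ _ _ _ h.2.1) (ihr _ _ _ _ h.2.2)
    | 2, h =>
      simp only [Bool.and_eq_true] at h
      exact good_split2 h.1 (ihl _ _ _ _ h.2.1) (ihr _ _ _ _ h.2.2)
    | 3, h =>
      simp only [Bool.and_eq_true] at h
      exact good_split3 h.1 (ihl _ _ _ _ h.2.1) (ihr _ _ _ _ h.2.2)
    | 4, h =>
      simp only [Bool.and_eq_true] at h
      exact good_split4 h.1 (ihl _ _ _ _ h.2.1) (ihr _ _ _ _ h.2.2)
    | (n + 5), h =>
      simp only [Bool.and_eq_true] at h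
      exact good_split5 h.1 (ihl _ _ _ _ h.2.1) (ihr _ _ _ _ h.2.2)

/-- the root tetrahedron gives the far regime -/
theorem far_of_good (h : Good4 ⟨0, 0, 0⟩ ⟨1024, 0, 0⟩ ⟨1024, 1024, 0⟩ ⟨1024, 1024, 1024⟩) :
    FarStmt := by
  intro w hw0 hw1 hw2 hw3 hΦ
  have e : pt ⟨0, 0, 0⟩ ⟨1024, 0, 0⟩ ⟨1024, 1024, 0⟩ ⟨1024, 1024, 1024⟩
      ![1 - w 0, w 0 - w 1, w 1 - w 2, w 2] = w := by
    funext i
    fin_cases i <;> simp [pt, V3.pos] <;> ring
  have h1 := h ![1 - w 0, w 0 - w 1, w 1 - w 2, w 2] (fun v => by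
    fin_cases v <;> simp <;> linarith) (by
      simp only [Matrix.cons_val_zero, Matrix.cons_val_one, Matrix.cons_val]; ring)
    (by rw [e]; exact hΦ)
  rw [e] at h1
  obtain ⟨D, hD⟩ := h1
  refine ⟨D, fun q hq hqw => ?_⟩
  obtain ⟨k, hk⟩ := hD q hq hqw
  exact ⟨k, fun x h1 h2 h3 h4 => hk x ⟨h1, h2, h3⟩ h4⟩

end Pool.Agent.Core7.Far
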