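import Pool.Agent.Work.MP_80156a_core7.Near

/-!
# MP_80156a, CORE7: the frame in dimension 3

`K = -K` a convex body in `R^3`, `L` its polar.  A basis of points of `L` with maximal determinant
puts `L` into the cube with all `2 × 2` minors at most `1`; a maximiser of
`Phi (x) = |x|_(1) + |x|_(2) + |x|_(3) / 2` is sorted by a signed permutation.  The far regime
`FarStmt` (`Phi ≥ 13/10`) is a hypothesis here; the near regime is `Pool.Agent.Core7.near'`.
-/

set_option autoImplicit false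

namespace Pool.Agent.Core7

open scoped Topology

/-- Seven functionals such that every face of `L` lies in the open half space of one of them. -/
def Good {V : Type*} [AddCommGroup V] [Module ℝ V] (L : Set V) : Prop :=
  ∃ D : Fin 7 → V →ₗ[ℝ] ℝ, ∀ q : V →ₗ[ℝ] ℝ, (∀ x ∈ L, q x ≤ 1) →
    ∃ k, ∀ x ∈ L, q x = 1 → 0 < D k x

theorem Good.of_preimage {V W : Type*} [AddCommGroup V] [Module ℝ V] [AddCommGroup W] [Module ℝ W]
    (T : V ≃ₗ[ℝ] W) {L : Set W} (h : Good (T ⁻¹' L)) : Good L := by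
  obtain ⟨D, hD⟩ := h
  refine ⟨fun k => (D k).comp T.symm.toLinearMap, fun q hq => ?_⟩
  obtain ⟨k, hk⟩ := hD (q.comp T.toLinearMap) (fun x hx => hq _ hx)
  refine ⟨k, fun x hx hqx => ?_⟩
  have := hk (T.symm x) (by simpa using hx) (by simpa using hqx)
  simpa using this

/-- The scalar product of `R^3`. -/
def dot (x y : Fin 3 → ℝ) : ℝ := x 0 * y 0 + x 1 * y 1 + x 2 * y 2

/-- The functional with coefficient vector `d`. -/
noncomputable def fn3 (d : Fin 3 → ℝ) : (Fin 3 → ℝ) →ₗ[ℝ] ℝ where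
  toFun x := dot d x
  map_add' x y := by simp only [dot, Pi.add_apply]; ring
  map_smul' c x := by simp only [dot, Pi.smul_apply, smul_eq_mul, RingHom.id_apply]; ring

@[simp] theorem fn3_apply (d x : Fin 3 → ℝ) : fn3 d x = dot d x := rfl

theorem eq_fn3 (q : (Fin 3 → ℝ) →ₗ[ℝ] ℝ) (x : Fin 3 → ℝ) :
    q x = dot (fun i => q (Pi.single i 1)) x := by
  have h : x = x 0 • Pi.single (0 : Fin 3) (1 : ℝ) + x 1 • Pi.single (1 : Fin 3) (1 : ℝ)
      + x 2 • Pi.single (2 : Fin 3) (1 : ℝ) := by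
    ext i
    fin_cases i <;> simp
  conv_lhs => rw [h]
  simp only [map_add, map_smul, smul_eq_mul, dot]
  ring

/-- The far regime (the finite table of helper58). -/
def FarStmt : Prop := ∀ w : Fin 3 → ℝ, w 0 ≤ 1 → w 1 ≤ w 0 → w 2 ≤ w 1 → 0 ≤ w 2 →
  13 / 10 ≤ w 0 + w 1 + w 2 / 2 →
  ∃ D : Fin 7 → Fin 3 → ℝ, ∀ q : Fin 3 → ℝ, (∀ i, |q i| ≤ 1) → |dot q w| ≤ 1 →
    ∃ k, ∀ x : Fin 3 → ℝ, (∀ i, |x i| ≤ 1) → (∀ i j, |x i * w j - x j * w i| ≤ 1) →
      (∀ i, |x 0| + |x 1| + |x 2| - |x i| / 2 ≤ w 0 + w 1 + w 2 / 2) →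
      dot q x = 1 → 0 < dot (D k) x

/-- `L` in the position of a basis with maximal determinant. -/
structure Nice (L : Set (Fin 3 → ℝ)) : Prop where
  comp : IsCompact L
  symm : ∀ x ∈ L, -x ∈ L
  single : ∀ i, Pi.single i 1 ∈ L
  le_one : ∀ x ∈ L, ∀ i, |x i| ≤ 1
  minor : ∀ x ∈ L, ∀ y ∈ L, ∀ i j, |x i * y j - x j * y i| ≤ 1

/-- A signed permutation. -/
noncomputable def sp (σ : Equiv.Perm (Fin 3)) (s : Fin 3 → ℝ) (hs : ∀ i, s i * s i = 1) :
    (Fin 3 → ℝ) ≃ₗ[ℝ] (Fin 3 → ℝ) where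
  toFun x i := s i * x (σ i)
  invFun y j := s (σ.symm j) * y (σ.symm j)
  map_add' x y := by ext i; simp only [Pi.add_apply]; ring
  map_smul' c x := by ext i; simp only [Pi.smul_apply, smul_eq_mul, RingHom.id_apply]; ring
  left_inv x := by
    ext j
    simp only [Equiv.apply_symm_apply]
    rw [← mul_assoc, hs, one_mul]
  right_inv y := by
    ext i
    simp only [Equiv.symm_apply_apply]
    rw [← mul_assoc, hs, one_mul]

theorem sp_apply (σ : Equiv.Perm (Fin 3)) (s : Fin 3 → ℝ) (hs : ∀ i, s i * s i = 1)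
    (x : Fin 3 → ℝ) (i : Fin 3) : sp σ s hs x i = s i * x (σ i) := rfl

theorem abs_of_sq {s : ℝ} (hs : s * s = 1) : |s| = 1 := by
  have : |s| * |s| = 1 := by rw [← abs_mul, hs, abs_one]
  nlinarith [abs_nonneg s]

theorem abs_sp (σ : Equiv.Perm (Fin 3)) (s : Fin 3 → ℝ) (hs : ∀ i, s i * s i = 1)
    (x : Fin 3 → ℝ) (i : Fin 3) : |sp σ s hs x i| = |x (σ i)| := by
  rw [sp_apply, abs_mul, abs_of_sq (hs i), one_mul]

theorem l1_sp (σ : Equiv.Perm (Fin 3)) (s : Fin 3 → ℝ) (hs : ∀ i, s i * s i = 1)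
    (x : Fin 3 → ℝ) : |sp σ s hs x 0| + |sp σ s hs x 1| + |sp σ s hs x 2| =
      |x 0| + |x 1| + |x 2| := by
  have h1 : ∑ i, |sp σ s hs x i| = ∑ i, |x i| := by
    simp only [abs_sp]
    exact Equiv.sum_comp σ (fun i => |x i|)
  simpa [Fin.sum_univ_three] using h1

theorem Nice.signed {L : Set (Fin 3 → ℝ)} (hL : Nice L) (σ : Equiv.Perm (Fin 3)) (s : Fin 3 → ℝ)
    (hs : ∀ i, s i * s i = 1) : Nice ((sp σ s hs).symm ⁻¹' L) where
  comp := by
    have h1 : (sp σ s hs).symm ⁻¹' L = (sp σ s hs) '' L := by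
      ext y
      constructor
      · intro hy; exact ⟨_, hy, by simp⟩
      · rintro ⟨x, hx, rfl⟩; simpa using hx
    rw [h1]
    exact hL.comp.image (sp σ s hs).toLinearMap.continuous_of_finiteDimensional
  symm := fun x hx => by
    rw [Set.mem_preimage, map_neg]; exact hL.symm _ hx
  single := fun i => by
    have h1 : (sp σ s hs).symm (Pi.single i 1) = s i • Pi.single (σ i) 1 := by
      rw [LinearEquiv.symm_apply_eq]
      ext j
      rw [sp_apply]
      by_cases hij : j = i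
      · subst hij; simp [hs]
      · have : σ j ≠ σ i := fun h => hij (σ.injective h)
        simp [hij, this]
    rw [Set.mem_preimage, h1]
    rcases mul_self_eq_one_iff.1 (hs i) with h | h
    · rw [h, one_smul]; exact hL.single _
    · rw [h, neg_one_smul]; exact hL.symm _ (hL.single _)
  le_one := fun x hx i => by
    have h1 : x = sp σ s hs ((sp σ s hs).symm x) := by simp
    rw [h1, abs_sp]
    exact hL.le_one _ hx _
  minor := fun x hx y hy i j => by
    have h1 : x = sp σ s hs ((sp σ s hs).symm x) := by simp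
    have h2 : y = sp σ s hs ((sp σ s hs).symm y) := by simp
    rw [h1, h2]
    simp only [sp_apply]
    have h3 : ∀ a b c d : ℝ, s i * a * (s j * b) - s j * c * (s i * d) =
        s i * (s j * (a * b - c * d)) := by intros; ring
    rw [h3, abs_mul, abs_mul, abs_of_sq (hs i), abs_of_sq (hs j), one_mul, one_mul]
    exact hL.minor _ hx _ hy _ _

/-- Sorting by a signed permutation. -/
theorem exists_sort (w : Fin 3 → ℝ) : ∃ (σ : Equiv.Perm (Fin 3)) (s : Fin 3 → ℝ)
    (hs : ∀ i, s i * s i = 1), sp σ s hs w 1 ≤ sp σ s hs w 0 ∧ sp σ s hs w 2 ≤ sp σ s hs w 1 ∧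
      0 ≤ sp σ s hs w 2 := by
  have hmono := Tuple.monotone_sort (fun i : Fin 3 => -|w i|)
  set σ := Tuple.sort (fun i : Fin 3 => -|w i|) with hσ
  have hsgn : ∀ a : ℝ, (if 0 ≤ a then (1 : ℝ) else -1) * a = |a| := by
    intro a
    split_ifs with h
    · rw [one_mul, abs_of_nonneg h]
    · rw [abs_of_neg (not_le.1 h)]; ring
  refine ⟨σ, fun i => if 0 ≤ w (σ i) then 1 else -1, fun i => by dsimp only; split_ifs <;> norm_num, ?_⟩
  simp only [sp_apply, hsgn]
  have h01 := hmono (show (0 : Fin 3) ≤ 1 by decide)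
  have h12 := hmono (show (1 : Fin 3) ≤ 2 by decide)
  simp only [Function.comp_apply] at h01 h12
  exact ⟨by linarith, by linarith, abs_nonneg _⟩

theorem dual_le {L : Set (Fin 3 → ℝ)} (hL : Nice L) (q : (Fin 3 → ℝ) →ₗ[ℝ] ℝ)
    (hq : ∀ x ∈ L, q x ≤ 1) (i : Fin 3) : |q (Pi.single i 1)| ≤ 1 := by
  rw [abs_le]
  have h1 := hq _ (hL.single i)
  have h2 := hq _ (hL.symm _ (hL.single i))
  rw [map_neg] at h2
  exact ⟨by linarith, h1⟩

/-- The near case. -/
theorem good_near {L : Set (Fin 3 → ℝ)} (hL : Nice L)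
    (h1 : ∀ x ∈ L, |x 0| + |x 1| + |x 2| ≤ 39 / 25) (h2 : ∃ x ∈ L, 1 < |x 0| + |x 1| + |x 2|) :
    Good L := by
  obtain ⟨w', hw'L, hmax⟩ := hL.comp.exists_isMaxOn ⟨_, hL.single 0⟩
    (f := fun x => |x 0| + |x 1| + |x 2|) (by fun_prop)
  obtain ⟨σ, s, hs, hw1, hw2, hw3⟩ := exists_sort w'
  have hN := hL.signed σ s hs
  refine Good.of_preimage (sp σ s hs).symm ?_
  set L2 := (sp σ s hs).symm ⁻¹' L with hL2
  set w := sp σ s hs w' with hw
  have hwL : w ∈ L2 := by
    rw [hL2, Set.mem_preimage, hw]; simpa using hw'L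
  have hl1w : w 0 + w 1 + w 2 = |w' 0| + |w' 1| + |w' 2| := by
    rw [← l1_sp σ s hs, abs_of_nonneg (by linarith), abs_of_nonneg (by linarith),
      abs_of_nonneg hw3]
  have hmax' : ∀ x ∈ L2, |x 0| + |x 1| + |x 2| ≤ w 0 + w 1 + w 2 := by
    intro x hx
    have h3 : x = sp σ s hs ((sp σ s hs).symm x) := by simp
    rw [h3, l1_sp, hl1w]
    exact hmax hx
  obtain ⟨x₀, hx₀, hx₀1⟩ := h2
  have hη1 : 1 < w 0 + w 1 + w 2 := by
    rw [hl1w]; exact lt_of_lt_of_le hx₀1 (hmax hx₀)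
  have hη2 : w 0 + w 1 + w 2 ≤ 39 / 25 := by
    rw [hl1w]; exact h1 _ hw'L
  obtain ⟨D, hD⟩ := near' (η := w 0 + w 1 + w 2 - 1) (by linarith) (by linarith) L2
    hN.le_one (fun x hx => by have := hmax' x hx; linarith) w
    (fun i => by fin_cases i <;> simp <;> linarith)
    (fun i => le_trans (le_abs_self _) (hN.le_one w hwL i)) (by ring)
  refine ⟨fun k => fn3 (D k), fun q hq => ?_⟩
  obtain ⟨k, hk⟩ := hD (fun i => q (Pi.single i 1)) (dual_le hN q hq) (by
    have := hq w hwL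
    rw [eq_fn3, dot] at this
    exact this)
  refine ⟨k, fun x hx hqx => ?_⟩
  rw [fn3_apply, dot]
  refine hk x hx ?_
  rw [eq_fn3, dot] at hqx
  exact hqx

/-- The two regimes together. -/
theorem Nice.good (far : FarStmt) {L : Set (Fin 3 → ℝ)} (hL : Nice L)
    (h2 : ∃ x ∈ L, 1 < |x 0| + |x 1| + |x 2|) : Good L := by
  -- the maximiser of `Phi`
  obtain ⟨w', hw'L, hmax⟩ := hL.comp.exists_isMaxOn ⟨_, hL.single 0⟩
    (f := fun x : Fin 3 → ℝ => max (|x 0| + |x 1| + |x 2| - |x 0| / 2)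
      (max (|x 0| + |x 1| + |x 2| - |x 1| / 2) (|x 0| + |x 1| + |x 2| - |x 2| / 2)))
      (by fun_prop)
  obtain ⟨σ, s, hs, hw1, hw2, hw3⟩ := exists_sort w'
  have hN := hL.signed σ s hs
  set L2 := (sp σ s hs).symm ⁻¹' L with hL2
  set w := sp σ s hs w' with hw
  have hwL : w ∈ L2 := by
    rw [hL2, Set.mem_preimage, hw]; simpa using hw'L
  -- the value of `Phi` at `w`
  have hPhi : ∀ x ∈ L2, ∀ i, |x 0| + |x 1| + |x 2| - |x i| / 2 ≤ w 0 + w 1 + w 2 / 2 := by
    intro x hx i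
    have h3 : x = sp σ s hs ((sp σ s hs).symm x) := by simp
    have hl1w : w 0 + w 1 + w 2 = |w' 0| + |w' 1| + |w' 2| := by
      rw [← l1_sp σ s hs, abs_of_nonneg (by linarith), abs_of_nonneg (by linarith),
        abs_of_nonneg hw3]
    have hw2' : ∀ j, w 2 ≤ |w' j| := by
      intro j
      have h4 : |w' j| = |w (σ.symm j)| := by
        rw [hw, abs_sp, Equiv.apply_symm_apply]
      rw [h4]
      have h5 : ∀ i, w 2 ≤ |w i| := by
        intro i
        refine le_trans ?_ (le_abs_self _)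
        fin_cases i <;> simp <;> linarith
      exact h5 _
    have hval : max (|w' 0| + |w' 1| + |w' 2| - |w' 0| / 2)
      (max (|w' 0| + |w' 1| + |w' 2| - |w' 1| / 2) (|w' 0| + |w' 1| + |w' 2| - |w' 2| / 2)) ≤
        w 0 + w 1 + w 2 / 2 := by
      have a0 := hw2' 0
      have a1 := hw2' 1
      have a2 := hw2' 2
      refine max_le ?_ (max_le ?_ ?_) <;> linarith
    set y := (sp σ s hs).symm x with hy
    have hyL : y ∈ L := hx
    have h6 : |y 0| + |y 1| + |y 2| - |y (σ i)| / 2 ≤ max (|y 0| + |y 1| + |y 2| - |y 0| / 2)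
      (max (|y 0| + |y 1| + |y 2| - |y 1| / 2) (|y 0| + |y 1| + |y 2| - |y 2| / 2)) := by
      have h7 : ∀ j : Fin 3, |y 0| + |y 1| + |y 2| - |y j| / 2 ≤
          max (|y 0| + |y 1| + |y 2| - |y 0| / 2)
            (max (|y 0| + |y 1| + |y 2| - |y 1| / 2) (|y 0| + |y 1| + |y 2| - |y 2| / 2)) := by
        intro j
        fin_cases j
        · exact le_max_left _ _
        · exact (le_max_left _ _).trans (le_max_right _ _)
        · exact (le_max_right _ _).trans (le_max_right _ _)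
      exact h7 _
    rw [h3, l1_sp, abs_sp]
    exact (h6.trans (hmax hyL)).trans hval
  rcases lt_or_ge (w 0 + w 1 + w 2 / 2) (13 / 10) with hcase | hcase
  · refine good_near hL (fun x hx => ?_) h2
    have hx2 : sp σ s hs x ∈ L2 := by
      rw [hL2, Set.mem_preimage]; simpa using hx
    rw [← l1_sp σ s hs]
    have a0 := hPhi _ hx2 0
    have a1 := hPhi _ hx2 1
    have a2 := hPhi _ hx2 2
    linarith
  · refine Good.of_preimage (sp σ s hs).symm ?_
    obtain ⟨D, hD⟩ := far w ((le_abs_self _).trans (hN.le_one w hwL 0)) hw1 hw2 hw3 hcase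
    refine ⟨fun k => fn3 (D k), fun q hq => ?_⟩
    obtain ⟨k, hk⟩ := hD (fun i => q (Pi.single i 1)) (dual_le hN q hq) (by
      have h4 := hq w hwL
      have h5 := hq _ (hN.symm w hwL)
      rw [map_neg] at h5
      rw [← eq_fn3, abs_le]
      exact ⟨by linarith, h4⟩)
    refine ⟨k, fun x hx hqx => ?_⟩
    rw [fn3_apply]
    refine hk x (hN.le_one x hx) (hN.minor x hx w hwL) (hPhi x hx) ?_
    rw [← eq_fn3]
    exact hqx

end Pool.Agent.Core7
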