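import Pool.Agent.Work.MP_80156a_core7.GPot

/-!
# MP_80156a, CORE7: from the far regime of a joint potential to `Core7Stmt`

* `Core7Stmt` : every centrally symmetric convex body in `ℝ³` which is not a parallelepiped is
  illuminated by 7 directions.
* `core7_of_good` : reduction to normalised polar bodies;
* `core7_of_far` : the far regime as a statement on the frame `GNice (potC cs) L w`;
* `core7_of_farG` : the far regime with the information on `w` only (`FarG`).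
-/

set_option autoImplicit false

namespace Pool.Agent.Core7

open scoped Topology

/-- As `exists_nice`, together with the bound for the determinants. -/
theorem exists_nice_det {L : Set (Fin 3 → ℝ)} (hcomp : IsCompact L) (hsymm : ∀ x ∈ L, -x ∈ L)
    {r : ℝ} (hr : 0 < r) (hsing : ∀ i, r • Pi.single i (1 : ℝ) ∈ L) :
    ∃ T : (Fin 3 → ℝ) ≃ₗ[ℝ] (Fin 3 → ℝ), Nice (T ⁻¹' L) ∧
      ∀ x ∈ T ⁻¹' L, ∀ y ∈ T ⁻¹' L, ∀ z ∈ T ⁻¹' L, |det3 x y z| ≤ 1 := by
  obtain ⟨⟨a, b, c⟩, ⟨ha, hb, hc⟩, hmax⟩ := (hcomp.prod (hcomp.prod hcomp)).exists_isMaxOn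
    ⟨(r • Pi.single 0 1, r • Pi.single 1 1, r • Pi.single 2 1), hsing 0, hsing 1, hsing 2⟩
    (f := fun p : (Fin 3 → ℝ) × (Fin 3 → ℝ) × (Fin 3 → ℝ) => det3 p.1 p.2.1 p.2.2)
    (by unfold det3; fun_prop)
  have hmax' : ∀ x ∈ L, ∀ y ∈ L, ∀ z ∈ L, det3 x y z ≤ det3 a b c := fun x hx y hy z hz =>
    hmax (show (x, y, z) ∈ L ×ˢ L ×ˢ L from ⟨hx, hy, hz⟩)
  have hpos : 0 < det3 a b c := by
    refine lt_of_lt_of_le ?_ (hmax' _ (hsing 0) _ (hsing 1) _ (hsing 2))
    simp only [det3, Pi.smul_apply, smul_eq_mul]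
    simp
    positivity
  have habs : ∀ x ∈ L, ∀ y ∈ L, ∀ z ∈ L, |det3 x y z| ≤ det3 a b c := by
    intro x hx y hy z hz
    rw [abs_le]
    have h1 := hmax' _ (hsymm x hx) y hy z hz
    rw [det_neg0] at h1
    exact ⟨by linarith, hmax' x hx y hy z hz⟩
  have hdiv : ∀ t : ℝ, |t * det3 a b c| ≤ det3 a b c → |t| ≤ 1 := by
    intro t ht
    rw [abs_mul, abs_of_pos hpos] at ht
    by_contra hcon
    have := not_le.1 hcon
    nlinarith
  have hinj : Function.Injective (cols a b c) := by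
    rw [← LinearMap.ker_eq_bot, LinearMap.ker_eq_bot']
    intro x hx
    have h0 := det_cols0 a b c x
    have h1 := det_cols1 a b c x
    have h2 := det_cols2 a b c x
    rw [hx] at h0 h1 h2
    have e0 : det3 (0 : Fin 3 → ℝ) b c = 0 := by simp [det3]
    have e1 : det3 a (0 : Fin 3 → ℝ) c = 0 := by simp [det3]
    have e2 : det3 a b (0 : Fin 3 → ℝ) = 0 := by simp [det3]
    rw [e0] at h0
    rw [e1] at h1
    rw [e2] at h2
    have f0 : x 0 = 0 := (mul_eq_zero.1 h0.symm).resolve_right hpos.ne'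
    have f1 : x 1 = 0 := (mul_eq_zero.1 h1.symm).resolve_right hpos.ne'
    have f2 : x 2 = 0 := (mul_eq_zero.1 h2.symm).resolve_right hpos.ne'
    ext i
    fin_cases i
    · exact f0
    · exact f1
    · exact f2
  set T : (Fin 3 → ℝ) ≃ₗ[ℝ] (Fin 3 → ℝ) :=
    LinearEquiv.ofInjectiveEndo (cols a b c) hinj with hT
  have hTa : ∀ x, T x = cols a b c x := fun x => rfl
  refine ⟨T, ⟨?_, ?_, ?_, ?_, ?_⟩, fun x hx y hy z hz => hdiv _ ?_⟩
  · have h1 : T ⁻¹' L = T.symm '' L := by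
      ext y
      constructor
      · intro hy; exact ⟨_, hy, by simp⟩
      · rintro ⟨x, hx, rfl⟩; simpa using hx
    rw [h1]
    exact hcomp.image T.symm.toLinearMap.continuous_of_finiteDimensional
  · intro x hx
    rw [Set.mem_preimage, map_neg]; exact hsymm _ hx
  · intro i
    rw [Set.mem_preimage, hTa, cols_apply]
    fin_cases i
    · simpa using ha
    · simpa using hb
    · simpa using hc
  · intro x hx i
    have hx' : cols a b c x ∈ L := hx
    have m0 : |x 0| ≤ 1 := hdiv _ (by rw [← det_cols0]; exact habs _ hx' _ hb _ hc)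
    have m1 : |x 1| ≤ 1 := hdiv _ (by rw [← det_cols1]; exact habs _ ha _ hx' _ hc)
    have m2 : |x 2| ≤ 1 := hdiv _ (by rw [← det_cols2]; exact habs _ ha _ hb _ hx')
    fin_cases i
    · exact m0
    · exact m1
    · exact m2
  · intro x hx y hy
    have hx' : cols a b c x ∈ L := hx
    have hy' : cols a b c y ∈ L := hy
    have m01 : |x 0 * y 1 - x 1 * y 0| ≤ 1 :=
      hdiv _ (by rw [← det_cols01]; exact habs _ hx' _ hy' _ hc)
    have m02 : |x 0 * y 2 - x 2 * y 0| ≤ 1 :=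
      hdiv _ (by rw [← det_cols02]; exact habs _ hx' _ hb _ hy')
    have m12 : |x 1 * y 2 - x 2 * y 1| ≤ 1 :=
      hdiv _ (by rw [← det_cols12]; exact habs _ ha _ hx' _ hy')
    have hsw : ∀ u v : ℝ, |u - v| = |v - u| := fun u v => abs_sub_comm u v
    intro i j
    fin_cases i <;> fin_cases j <;> simp only [Fin.zero_eta, Fin.mk_one, Fin.reduceFinMk,
      sub_self, abs_zero, zero_le_one] <;>
      first
      | exact m01
      | exact m02
      | exact m12
      | (rw [hsw]; exact m01)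
      | (rw [hsw]; exact m02)
      | (rw [hsw]; exact m12)
  · have h1 := habs _ (show cols a b c x ∈ L from hx) _ (show cols a b c y ∈ L from hy) _
      (show cols a b c z ∈ L from hz)
    rw [det3_cols, mul_comm] at h1
    exact h1

/-- The statement **CORE7**. -/
def Core7Stmt : Prop := ∀ {K : Set (Fin 3 → ℝ)}, Convex ℝ K → IsCompact K →
  (∀ x ∈ K, -x ∈ K) → (interior K).Nonempty →
  (¬ ∃ S : (Fin 3 → ℝ) ≃ₗ[ℝ] (Fin 3 → ℝ), K = {y | ∀ i, |S y i| ≤ 1}) →
  ∃ D : Fin 7 → Fin 3 → ℝ, ∀ y ∈ K, ∃ k, ∃ t : ℝ, 0 < t ∧ y + t • D k ∈ interior K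

/-- **CORE7** from the statement on the normalised polar bodies. -/
theorem core7_of_good (hgood : ∀ L : Set (Fin 3 → ℝ), Nice L →
      (∀ x ∈ L, ∀ y ∈ L, ∀ z ∈ L, |det3 x y z| ≤ 1) →
      (∃ x ∈ L, 1 < |x 0| + |x 1| + |x 2|) → Good L) : Core7Stmt := by
  intro K hc hcomp hs hi hnp
  have h0 := zero_mem_interior hc hs hi
  have hL := isCompact_polar h0
  have hLs := polar_symm hs
  -- a multiple of the standard basis lies in the polar
  obtain ⟨R, hR⟩ := hcomp.isBounded.subset_closedBall (0 : Fin 3 → ℝ)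
  have hR1 : 0 < max R 1 := lt_of_lt_of_le one_pos (le_max_right _ _)
  have hsing : ∀ i, (max R 1)⁻¹ • Pi.single i (1 : ℝ) ∈ polar K := by
    intro i y hy
    rw [dot_smul_left, dot_comm, dot_single, inv_mul_le_iff₀ hR1, mul_one]
    have h1 := hR hy
    rw [mem_closedBall_zero_iff] at h1
    exact (le_abs_self _).trans ((norm_le_pi_norm y i).trans (h1.trans (le_max_left _ _)))
  obtain ⟨T, hT, hTdet⟩ := exists_nice_det hL hLs (inv_pos.2 hR1) hsing
  have hne : ∃ x ∈ T ⁻¹' polar K, 1 < |x 0| + |x 1| + |x 2| := by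
    by_contra hcon
    push Not at hcon
    refine hnp ?_
    -- the map `y ↦ dot (T e_i) y`
    set S₀ : (Fin 3 → ℝ) →ₗ[ℝ] (Fin 3 → ℝ) :=
      LinearMap.pi fun i => fn3 (T (Pi.single i 1)) with hS₀
    have hS₀a : ∀ y i, S₀ y i = dot (T (Pi.single i 1)) y := fun y i => rfl
    have hrep : ∀ x y : Fin 3 → ℝ, dot (T x) y = x 0 * S₀ y 0 + x 1 * S₀ y 1 + x 2 * S₀ y 2 := by
      intro x y
      have h : x = x 0 • Pi.single (0 : Fin 3) (1 : ℝ) + x 1 • Pi.single (1 : Fin 3) (1 : ℝ)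
          + x 2 • Pi.single (2 : Fin 3) (1 : ℝ) := by
        ext i
        fin_cases i <;> simp
      conv_lhs => rw [h]
      simp only [map_add, map_smul, dot_add_left, dot_smul_left, hS₀a]
    have hinj : Function.Injective S₀ := by
      rw [← LinearMap.ker_eq_bot, LinearMap.ker_eq_bot']
      intro y hy
      have h1 : ∀ x, dot x y = 0 := by
        intro x
        have h2 := hrep (T.symm x) y
        rw [hy] at h2
        simpa using h2
      ext i
      rw [← dot_single y i, dot_comm]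
      exact h1 _
    refine ⟨LinearEquiv.ofInjectiveEndo S₀ hinj, ?_⟩
    have hSa : ∀ y, LinearEquiv.ofInjectiveEndo S₀ hinj y = S₀ y := fun y => rfl
    ext y
    simp only [Set.mem_ofPred_eq, hSa]
    constructor
    · intro hy i
      rw [hS₀a, abs_le]
      have h1 : dot (T (Pi.single i 1)) y ≤ 1 := hT.single i y hy
      have h2 : dot (T (Pi.single i 1)) (-y) ≤ 1 := hT.single i _ (hs y hy)
      rw [dot_neg_right] at h2
      exact ⟨by linarith, h1⟩
    · intro hy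
      refine bipolar hc hcomp.isClosed (interior_subset h0) fun x hx => ?_
      have h1 : T (T.symm x) = x := by simp
      rw [← h1, hrep]
      have h2 := hcon (T.symm x) (by rw [Set.mem_preimage, h1]; exact hx)
      have h3 : ∀ a b : ℝ, |b| ≤ 1 → a * b ≤ |a| := by
        intro a b hb
        calc a * b ≤ |a * b| := le_abs_self _
          _ = |a| * |b| := abs_mul _ _
          _ ≤ |a| * 1 := mul_le_mul_of_nonneg_left hb (abs_nonneg _)
          _ = |a| := mul_one _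
      have a0 := h3 (T.symm x 0) _ (hy 0)
      have a1 := h3 (T.symm x 1) _ (hy 1)
      have a2 := h3 (T.symm x 2) _ (hy 2)
      linarith
  obtain ⟨D, hD⟩ := Good.of_preimage T (hgood _ hT hTdet hne)
  refine ⟨fun k => -(fun i => D k (Pi.single i 1)), fun y hy => ?_⟩
  obtain ⟨k, hk⟩ := hD (fn3 y) (fun x hx => by rw [fn3_apply, dot_comm]; exact hx y hy)
  refine ⟨k, ?_⟩
  exact lit_of_pos hc hcomp.isClosed h0 hy fun x hx hxy => by
    rw [← eq_fn3]; exact hk x hx hxy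

variable {ι : Type} [Fintype ι] [Nonempty ι]

/-- **CORE7** from the far regime on the frame of the potential of the weights `cs`. -/
theorem core7_of_far {cs : ι → Fin 4 → ℝ} (hcs : ∀ i, Antitone (cs i)) (hpos : ∀ i, 0 ≤ cs i 3)
    {V₀ : ℝ} (hV₀ : 0 < V₀) (hV : ∃ i, V₀ ≤ cs i 0 + 13 / 25 * (cs i 1 + cs i 2 + cs i 3))
    (far : ∀ (L : Set (Fin 3 → ℝ)) (w : Fin 3 → ℝ), GNice (potC cs) L w → V₀ ≤ Vc cs w →
      ∃ D : Fin 7 → Fin 3 → ℝ, ∀ q : Fin 3 → ℝ, (∀ x ∈ L, dot q x ≤ 1) →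
        ∃ k, ∀ x ∈ L, dot q x = 1 → 0 < dot (D k) x) : Core7Stmt := by
  refine core7_of_good fun L hL hdet hne => ?_
  refine Nice.goodG (pot_potC cs) hV₀ (potC_near hcs hpos hV) ?_ hL hdet hne
  intro L w hG hw
  rw [potC_sorted hcs hG.w0 hG.w1 hG.w2] at hw
  obtain ⟨D, hD⟩ := far L w hG hw
  refine ⟨fun k => fn3 (D k), fun q hq => ?_⟩
  obtain ⟨k, hk⟩ := hD (fun i => q (Pi.single i 1)) (fun x hx => by rw [← eq_fn3]; exact hq x hx)
  refine ⟨k, fun x hx hqx => ?_⟩
  rw [fn3_apply]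
  refine hk x hx ?_
  rw [← eq_fn3]
  exact hqx

/-- The dual bounds, in coordinates. -/
theorem GNice.dual_dot {F : (Fin 4 → ℝ) → ℝ} {L : Set (Fin 3 → ℝ)} {w : Fin 3 → ℝ}
    (h : GNice F L w) {q : Fin 3 → ℝ} (hq : ∀ x ∈ L, dot q x ≤ 1) :
    (∀ i, |q i| ≤ 1) ∧ |dot q w| ≤ 1 := by
  have h3 : ∀ y ∈ L, |dot q y| ≤ 1 := by
    intro y hy
    have h1 := hq _ hy
    have h2 := hq _ (h.symm _ hy)
    rw [dot_neg_right] at h2
    rw [abs_le]
    exact ⟨by linarith, h1⟩
  refine ⟨fun i => ?_, h3 _ h.wL⟩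
  have h4 := h3 _ (h.single i)
  rwa [dot_single] at h4

/-- **CORE7** from the far regime with the information on `w` only. -/
theorem core7_of_farG {cs : ι → Fin 4 → ℝ} (hcs : ∀ i, Antitone (cs i)) (hpos : ∀ i, 0 ≤ cs i 3)
    {V₀ : ℝ} (hV₀ : 0 < V₀) (hV : ∃ i, V₀ ≤ cs i 0 + 13 / 25 * (cs i 1 + cs i 2 + cs i 3))
    (far : FarG cs V₀) : Core7Stmt := by
  refine core7_of_far hcs hpos hV₀ hV fun L w hG hw => ?_
  obtain ⟨D, hD⟩ := far w hG.w0 hG.w1 hG.w2 hG.w3 hw
  refine ⟨D, fun q hq => ?_⟩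
  obtain ⟨hq1, hq2⟩ := hG.dual_dot hq
  obtain ⟨k, hk⟩ := hD q hq1 hq2
  exact ⟨k, fun x hx hqx => hk x (hG.con hcs hx) hqx⟩

end Pool.Agent.Core7
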