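import Pool.Agent.Work.MP_80156a_core7.Red

/-!
# MP_80156a, CORE7: block BAS (coordinates in which the coordinate functionals are regular normals)
-/

set_option autoImplicit false

namespace Pool.Agent.Core7

open Pool.Agent.Work.MP_80156a_co

theorem fnd_single {d : ℕ} (i : Fin d) (x : Fin d → ℝ) : fnd (Pi.single i 1) x = x i := by
  rw [fnd_apply, Finset.sum_eq_single i]
  · simp
  · intro k _ hk
    simp [Pi.single_eq_of_ne hk]
  · intro h
    exact absurd (Finset.mem_univ i) h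

/-- A vector on which all regular normals vanish is zero. -/
theorem BAS_zero {d : ℕ} {K : Set (Fin d → ℝ)} (hK : Body K) (v : Fin d → ℝ)
    (hv : ∀ (w : Fin d → ℝ) (f : (Fin d → ℝ) →ₗ[ℝ] ℝ), Reg K w f → f v = 0) : v = 0 := by
  by_contra hne
  obtain ⟨x, hx⟩ := hK.int
  have hxK : x ∈ K := interior_subset hx
  have hin : ∀ t : ℝ, x + t • v ∈ K := by
    intro t
    by_contra hn
    obtain ⟨w, f, hr, hlt⟩ := exists_reg hK.conv hK.comp.isClosed hK.int hn
    have h1 := hv w f hr
    have h2 := hr.2.1 x hxK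
    rw [map_add, map_smul, h1, smul_zero, add_zero] at hlt
    exact absurd hlt (not_lt.2 h2)
  obtain ⟨C, hC⟩ := hK.comp.isBounded.exists_norm_le
  have hpos : 0 < ‖v‖ := norm_pos_iff.2 hne
  have hC0 : 0 ≤ C := (norm_nonneg x).trans (hC x hxK)
  have h3 := hC _ (hin ((C + ‖x‖ + 1) / ‖v‖))
  have h4 : ‖((C + ‖x‖ + 1) / ‖v‖) • v‖ = C + ‖x‖ + 1 := by
    rw [norm_smul, Real.norm_of_nonneg (by positivity), div_mul_cancel₀ _ hpos.ne']
  have h5 : ‖((C + ‖x‖ + 1) / ‖v‖) • v‖ ≤ ‖x + ((C + ‖x‖ + 1) / ‖v‖) • v‖ + ‖x‖ := by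
    have h6 := norm_sub_le (x + ((C + ‖x‖ + 1) / ‖v‖) • v) x
    rwa [add_sub_cancel_left] at h6
  linarith

theorem blk_BAS : Stmt_BAS := by
  intro d K hK
  classical
  set R : Set (Module.Dual ℝ (Fin d → ℝ)) := {f | ∃ w, Reg K w f} with hR
  have hco : (Submodule.span ℝ R).dualCoannihilator = ⊥ := by
    rw [eq_bot_iff]
    intro v hv
    rw [Submodule.mem_dualCoannihilator] at hv
    rw [Submodule.mem_bot]
    refine BAS_zero hK v ?_
    intro w f hr
    exact hv f (Submodule.subset_span ⟨w, hr⟩)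
  have hfr := Subspace.finrank_add_finrank_dualCoannihilator_eq (Submodule.span ℝ R)
  rw [hco, finrank_bot, add_zero] at hfr
  have htop : Submodule.span ℝ R = ⊤ := by
    apply Submodule.eq_top_of_finrank_eq
    rw [hfr, Subspace.dual_finrank_eq]
  let b0 := Module.Basis.ofSpan htop.ge
  have hb0 : ∀ j, b0 j ∈ R := by
    intro j
    have h1 := Module.Basis.ofSpan_subset htop.ge
    exact h1 ⟨j, rfl⟩
  have hcard := Module.finrank_eq_nat_card_basis b0
  have hfd : Module.finrank ℝ (Module.Dual ℝ (Fin d → ℝ)) = d := by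
    rw [Subspace.dual_finrank_eq, Module.finrank_fin_fun]
  have hfin : Finite ((linearIndepOn_empty ℝ (id : Module.Dual ℝ (Fin d → ℝ) → _)).extend
      (Set.empty_subset R)) := Module.Finite.finite_basis b0
  have hcard2 : Nat.card ((linearIndepOn_empty ℝ (id : Module.Dual ℝ (Fin d → ℝ) → _)).extend
      (Set.empty_subset R)) = d := by
    rw [← hcard, hfd]
  let e := Finite.equivFinOfCardEq hcard2
  let b := b0.reindex e
  have hb : ∀ i, b i ∈ R := by
    intro i
    have h1 : b i = b0 (e.symm i) := Module.Basis.reindex_apply b0 e i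
    rw [h1]
    exact hb0 _
  let S₀ : (Fin d → ℝ) →ₗ[ℝ] (Fin d → ℝ) := LinearMap.pi (fun i => b i)
  have hS₀ : ∀ x i, S₀ x i = b i x := fun x i => rfl
  have hinj : Function.Injective S₀ := by
    rw [← LinearMap.ker_eq_bot, eq_bot_iff]
    intro x hx
    rw [LinearMap.mem_ker] at hx
    rw [Submodule.mem_bot]
    have h1 : ∀ φ : Module.Dual ℝ (Fin d → ℝ), φ x = 0 := by
      intro φ
      rw [← b.sum_repr φ, LinearMap.sum_apply]
      refine Finset.sum_eq_zero ?_
      intro i _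
      have h2 : b i x = 0 := by
        rw [← hS₀, hx]
        rfl
      rw [LinearMap.smul_apply, h2, smul_zero]
    exact (Module.forall_dual_apply_eq_zero_iff ℝ x).1 h1
  let S := LinearEquiv.ofInjectiveEndo S₀ hinj
  have hS : ∀ x i, S x i = b i x := fun x i => rfl
  refine ⟨S.symm, fun i => ?_⟩
  obtain ⟨w, hw⟩ := hb i
  have hbs : ∀ y : Fin d → ℝ, b i (S.symm y) = y i := by
    intro y
    rw [← hS, LinearEquiv.apply_symm_apply]
  refine ⟨S w, ?_, ?_, ?_⟩
  · change S.symm (S w) ∈ K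
    rw [LinearEquiv.symm_apply_apply]
    exact hw.1
  · intro z hz
    rw [fnd_single, fnd_single, hS, ← hbs z]
    exact hw.2.1 _ hz
  · intro ζ hζ
    rw [fnd_single, ← hbs ζ] at hζ
    obtain ⟨τ, hτ, h1⟩ := hw.2.2 _ hζ
    refine ⟨τ, hτ, fun t ht htτ => ?_⟩
    change S.symm (S w + t • ζ) ∈ K
    rw [map_add, map_smul, LinearEquiv.symm_apply_apply]
    exact h1 t ht htτ

end Pool.Agent.Core7
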