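import Pool.Agent.Work.MP_80156a_core7.Red

/-!
# MP_80156a, CORE7: block CIR, circuits of regular normals
-/

set_option autoImplicit false

namespace Pool.Agent.Core7

open Pool.Agent.Work.MP_80156a_co

namespace CIR

/-- a linear functional with prescribed values on a linearly independent family. -/
theorem exists_point {d : ℕ} {β : Type*} (F : β → (Fin d → ℝ)) (hF : LinearIndependent ℝ F)
    (t : β → ℝ) : ∃ ζ : Fin d → ℝ, ∀ b, fnd (F b) ζ = t b := by
  let g : Submodule.span ℝ (Set.range F) →ₗ[ℝ] ℝ :=
    (Finsupp.linearCombination ℝ t).comp hF.repr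
  obtain ⟨φ, hφ⟩ := LinearMap.exists_extend g
  refine ⟨fun k => φ (Pi.single k 1), fun b => ?_⟩
  have h1 : φ (F b) = t b := by
    have h2 : φ (F b) = g ⟨F b, Submodule.subset_span ⟨b, rfl⟩⟩ := by
      rw [← hφ]; rfl
    rw [h2]
    show Finsupp.linearCombination ℝ t (hF.repr ⟨F b, _⟩) = t b
    rw [hF.repr_eq_single b _ rfl]
    simp
  rw [fnd_apply, ← h1]
  conv_rhs => rw [← Finset.univ_sum_single (F b), map_sum]
  refine Finset.sum_congr rfl fun k _ => ?_
  have h3 : Pi.single k (F b k) = F b k • (Pi.single k 1 : Fin d → ℝ) := by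
    rw [← Pi.single_smul, smul_eq_mul, mul_one]
  rw [h3, map_smul, smul_eq_mul]

theorem fnd_neg {d : ℕ} (u : Fin d → ℝ) : fnd (-u) = -fnd u := by
  ext x
  simp [fnd_apply]

theorem fnd_smul {d : ℕ} (s : ℝ) (u x : Fin d → ℝ) : fnd (s • u) x = s * fnd u x := by
  simp only [fnd_apply, Pi.smul_apply, smul_eq_mul, Finset.mul_sum]
  exact Finset.sum_congr rfl fun k _ => by ring

theorem nor_neg {d : ℕ} {K : Set (Fin d → ℝ)} (hK : Body K) {u : Fin d → ℝ} (hu : u ∈ Nor K) :
    -u ∈ Nor K := by
  obtain ⟨w, hw, hm, ht⟩ := hu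
  refine ⟨-w, hK.symm w hw, ?_, ?_⟩
  · intro z hz
    have := hm (-z) (hK.symm z hz)
    rw [fnd_neg]
    simp only [LinearMap.neg_apply, map_neg] at this ⊢
    linarith
  · intro ζ hζ
    rw [fnd_neg] at hζ
    have h1 : fnd u (-ζ) < 0 := by
      simp only [LinearMap.neg_apply] at hζ
      rw [map_neg]; exact hζ
    obtain ⟨τ, hτ, h2⟩ := ht (-ζ) h1
    refine ⟨τ, hτ, fun t ht0 htτ => ?_⟩
    have h3 := hK.symm _ (h2 t ht0 htτ)
    have h4 : -(w + t • -ζ) = -w + t • ζ := by
      rw [neg_add, smul_neg, neg_neg]
    rwa [h4] at h3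

/-- circuits with coefficients of any sign. -/
theorem circ {d : ℕ} {K : Set (Fin d → ℝ)} (hK : Body K) (hP : HP K 4) {α : Type*} [Fintype α]
    [DecidableEq α] (F : α → (Fin d → ℝ)) (hF : ∀ a, F a ∈ Nor K) (c : α → ℝ) (hc : ∀ a, c a ≠ 0)
    (h0 : ∀ k, ∑ a, c a * F a k = 0)
    (hmin : ∀ c' : α → ℝ, (∀ k, ∑ a, c' a * F a k = 0) → (∃ a, c' a = 0) → ∀ a, c' a = 0) :
    Fintype.card α ≤ 4 := by
  classical
  by_cases hsub : Subsingleton α
  · have := Fintype.card_le_one_iff_subsingleton.2 hsub
    omega
  rw [not_subsingleton_iff_nontrivial] at hsub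
  obtain ⟨i, j, hij⟩ := exists_pair_ne α
  let G : α → (Fin d → ℝ) := fun a => if 0 < c a then F a else -F a
  have hG : ∀ a, G a ∈ Nor K := by
    intro a
    by_cases h : 0 < c a
    · simp only [G, if_pos h]; exact hF a
    · simp only [G, if_neg h]; exact nor_neg hK (hF a)
  choose w hw using hG
  have hcG : ∀ a k, |c a| * G a k = c a * F a k := by
    intro a k
    by_cases h : 0 < c a
    · simp only [G, if_pos h, abs_of_pos h]
    · have h' : c a < 0 := lt_of_le_of_ne (not_lt.1 h) (hc a)
      simp only [G, if_neg h, abs_of_neg h', Pi.neg_apply]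
      ring
  -- the points
  have hpt : ∀ a, ∃ ζ : Fin d → ℝ, ∀ b, b ≠ a → fnd (G b) ζ < 0 := by
    intro a
    have hli : LinearIndependent ℝ (fun b : {b // b ≠ a} => F b) := by
      rw [Fintype.linearIndependent_iff]
      intro g hg b
      let c' : α → ℝ := fun b => if h : b ≠ a then g ⟨b, h⟩ else 0
      have h1 : ∀ k, ∑ b, c' b * F b k = 0 := by
        intro k
        have h2 := congrFun hg k
        simp only [Finset.sum_apply, Pi.smul_apply, smul_eq_mul, Pi.zero_apply] at h2
        rw [← h2]
        rw [Fintype.sum_eq_add_sum_subtype_ne (fun b => c' b * F b k) a]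
        have h4 : c' a = 0 := by simp [c']
        rw [h4, zero_mul, zero_add]
        refine Finset.sum_congr rfl fun b _ => ?_
        simp [c', b.2]
      have h3 := hmin c' h1 ⟨a, by simp [c']⟩ b
      simpa [c', b.2] using h3
    obtain ⟨ζ, hζ⟩ := exists_point _ hli (fun b => if 0 < c b.1 then -1 else 1)
    refine ⟨ζ, fun b hb => ?_⟩
    have h1 := hζ ⟨b, hb⟩
    by_cases h : 0 < c b
    · simp only [G, if_pos h] at h1 ⊢
      rw [h1]; norm_num
    · simp only [G, if_neg h] at h1 ⊢
      rw [fnd_neg, LinearMap.neg_apply, h1]; norm_num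
  choose ζ hζ using hpt
  refine circuit hP w (fun a => fnd (G a)) hw (fun a => |c a|) (fun a => abs_pos.2 (hc a)) ?_ ζ
    (fun a b hb => hζ a b hb) i j hij
  intro x
  have h1 : ∑ a, |c a| * fnd (G a) x = ∑ k, (∑ a, c a * F a k) * x k := by
    simp only [fnd_apply, Finset.mul_sum, Finset.sum_mul]
    rw [Finset.sum_comm]
    refine Finset.sum_congr rfl fun k _ => Finset.sum_congr rfl fun a _ => ?_
    rw [← hcG a k]; ring
  rw [h1]
  exact Finset.sum_eq_zero fun k _ => by rw [h0 k, zero_mul]

/-- the common form of the three statements. -/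
theorem key {d : ℕ} {K : Set (Fin d → ℝ)} (hK : Body K) (hP : HP K 4)
    (hstd : ∀ i, Pi.single i 1 ∈ Nor K) {β : Type*} [Fintype β] [DecidableEq β] [Nonempty β]
    (F : β → (Fin d → ℝ)) (hF : ∀ s, F s ∈ Nor K) (γ : β → ℝ) (hγ : ∀ s, γ s ≠ 0)
    (hH : ∀ δ : β → ℝ, (∀ k, ∑ s, γ s * F s k = 0 → ∑ s, δ s * F s k = 0) →
      ∃ t, ∀ s, δ s = t * γ s) :
    Fintype.card β + {l | ∑ s, γ s * F s l ≠ 0}.ncard ≤ 4 := by
  classical
  let m : Fin d → ℝ := fun l => ∑ s, γ s * F s l
  let L := {l : Fin d // m l ≠ 0}
  let G : β ⊕ L → (Fin d → ℝ) := Sum.elim F (fun l => Pi.single l.1 1)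
  let c : β ⊕ L → ℝ := Sum.elim γ (fun l => -m l.1)
  have hsum : ∀ (c' : β ⊕ L → ℝ) (k : Fin d), ∑ a, c' a * G a k =
      ∑ s, c' (Sum.inl s) * F s k + (if h : m k ≠ 0 then c' (Sum.inr ⟨k, h⟩) else 0) := by
    intro c' k
    rw [Fintype.sum_sum_type]
    congr 1
    show ∑ l : L, c' (Sum.inr l) * (Pi.single l.1 (1 : ℝ) : Fin d → ℝ) k = _
    by_cases h : m k ≠ 0
    · rw [dif_pos h, Finset.sum_eq_single (⟨k, h⟩ : L)]
      · simp
      · intro l _ hl
        have : k ≠ l.1 := fun h' => hl (Subtype.ext h'.symm)
        rw [Pi.single_eq_of_ne this, mul_zero]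
      · intro h'; exact absurd (Finset.mem_univ _) h'
    · rw [dif_neg h]
      refine Finset.sum_eq_zero fun l _ => ?_
      have : k ≠ l.1 := fun h' => h (h' ▸ l.2)
      rw [Pi.single_eq_of_ne this, mul_zero]
  have hcard : Fintype.card (β ⊕ L) ≤ 4 := by
    refine circ hK hP G ?_ c ?_ ?_ ?_
    · rintro (s | l)
      · exact hF s
      · exact hstd l.1
    · rintro (s | l)
      · exact hγ s
      · exact neg_ne_zero.2 l.2
    · intro k
      rw [hsum]
      by_cases h : m k ≠ 0
      · rw [dif_pos h]
        show m k + -m k = 0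
        ring
      · rw [dif_neg h]
        show m k + 0 = 0
        rw [add_zero]
        exact not_not.1 h
    · intro c' hc' hex
      obtain ⟨t, ht⟩ := hH (fun s => c' (Sum.inl s)) (by
        intro k hk
        have h1 := hc' k
        rw [hsum, dif_neg (not_not.2 hk), add_zero] at h1
        exact h1)
      have hl : ∀ l : L, c' (Sum.inr l) = -(t * m l.1) := by
        intro l
        have h1 := hc' l.1
        rw [hsum, dif_pos l.2] at h1
        have h2 : ∑ s, c' (Sum.inl s) * F s l.1 = t * m l.1 := by
          show _ = t * ∑ s, γ s * F s l.1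
          rw [Finset.mul_sum]
          refine Finset.sum_congr rfl fun s _ => ?_
          rw [show c' (Sum.inl s) = t * γ s from ht s]; ring
        rw [h2] at h1
        have h3 : (⟨l.1, l.2⟩ : L) = l := rfl
        rw [h3] at h1
        linarith
      have ht0 : t = 0 := by
        obtain ⟨a, ha⟩ := hex
        rcases a with s | l
        · have := ht s
          rw [show c' (Sum.inl s) = 0 from ha] at this
          rcases mul_eq_zero.1 this.symm with h | h
          · exact h
          · exact absurd h (hγ s)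
        · rw [hl l] at ha
          rcases mul_eq_zero.1 (neg_eq_zero.1 ha) with h | h
          · exact h
          · exact absurd h l.2
      rintro (s | l)
      · rw [show c' (Sum.inl s) = t * γ s from ht s, ht0, zero_mul]
      · rw [hl l, ht0, zero_mul, neg_zero]
  rw [Fintype.card_sum] at hcard
  have h5 : {l | ∑ s, γ s * F s l ≠ 0}.ncard = Fintype.card L := by
    rw [← Nat.card_eq_fintype_card]
    rfl
  rw [h5]
  exact hcard

end CIR

/-- **block CIR** -/
theorem blk_CIR : Stmt_CIR := by
  intro d K hK hP hstd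
  refine ⟨?_, ?_, ?_⟩
  · intro f hf
    have := CIR.key hK hP hstd (fun _ : Fin 1 => f) (fun _ => hf) (fun _ => 1)
      (fun _ => one_ne_zero) (fun δ _ => ⟨δ 0, fun s => by
        rw [Subsingleton.elim s 0, mul_one]⟩)
    simp only [Fintype.card_fin, Finset.univ_unique, Finset.sum_const, Finset.card_singleton,
      one_smul, one_mul] at this
    omega
  · intro f hf g hg i hfi hgi
    have := CIR.key hK hP hstd ![f, g] (by
        intro s
        fin_cases s
        · exact hf
        · exact hg) ![g i, -f i] (by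
        intro s
        fin_cases s
        · exact hgi
        · exact neg_ne_zero.2 hfi) (by
        intro δ hδ
        have h1 := hδ i (by
          simp only [Fin.sum_univ_two, Matrix.cons_val_zero, Matrix.cons_val_one]
          ring)
        simp only [Fin.sum_univ_two, Matrix.cons_val_zero, Matrix.cons_val_one] at h1
        refine ⟨δ 0 / g i, fun s => ?_⟩
        fin_cases s
        · show δ 0 = δ 0 / g i * g i
          field_simp
        · show δ 1 = δ 0 / g i * -f i
          field_simp
          linarith)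
    have h2 : {l | ∑ s, (![g i, -f i] : Fin 2 → ℝ) s * (![f, g] : Fin 2 → (Fin d → ℝ)) s l ≠ 0} =
        {l | g i * f l - f i * g l ≠ 0} := by
      ext l
      simp only [Set.mem_setOf_eq, Fin.sum_univ_two, Matrix.cons_val_zero, Matrix.cons_val_one]
      constructor
      · intro h h'; apply h; linarith
      · intro h h'; apply h; linarith
    rw [h2, Fintype.card_fin] at this
    omega
  · intro f hf g hg h hh i j hc0 hc1 hc2
    have := CIR.key hK hP hstd ![f, g, h] (by
        intro s
        fin_cases s
        · exact hf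
        · exact hg
        · exact hh) ![g i * h j - g j * h i, h i * f j - h j * f i, f i * g j - f j * g i] (by
        intro s
        fin_cases s
        · exact hc0
        · exact hc1
        · exact hc2) (by
        intro δ hδ
        have h1 := hδ i (by
          simp only [Fin.sum_univ_three, Matrix.cons_val_zero, Matrix.cons_val_one,
            Matrix.cons_val_two, Matrix.head_cons, Matrix.tail_cons]
          ring)
        have h2 := hδ j (by
          simp only [Fin.sum_univ_three, Matrix.cons_val_zero, Matrix.cons_val_one,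
            Matrix.cons_val_two, Matrix.head_cons, Matrix.tail_cons]
          ring)
        simp only [Fin.sum_univ_three, Matrix.cons_val_zero, Matrix.cons_val_one,
            Matrix.cons_val_two, Matrix.head_cons, Matrix.tail_cons] at h1 h2
        refine ⟨δ 0 / (g i * h j - g j * h i), fun s => ?_⟩
        fin_cases s
        · show δ 0 = δ 0 / (g i * h j - g j * h i) * (g i * h j - g j * h i)
          field_simp
        · show δ 1 = δ 0 / (g i * h j - g j * h i) * (h i * f j - h j * f i)
          rw [div_mul_eq_mul_div, eq_div_iff hc0]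
          linear_combination h j * h1 - h i * h2
        · show δ 2 = δ 0 / (g i * h j - g j * h i) * (f i * g j - f j * g i)
          rw [div_mul_eq_mul_div, eq_div_iff hc0]
          linear_combination g i * h2 - g j * h1)
    have h2 : {l | ∑ s, (![g i * h j - g j * h i, h i * f j - h j * f i, f i * g j - f j * g i] :
        Fin 3 → ℝ) s * (![f, g, h] : Fin 3 → (Fin d → ℝ)) s l ≠ 0} =
        {l | (g i * h j - g j * h i) * f l + (h i * f j - h j * f i) * g l +
          (f i * g j - f j * g i) * h l ≠ 0} := by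
      ext l
      simp only [Set.mem_setOf_eq, Fin.sum_univ_three, Matrix.cons_val_zero, Matrix.cons_val_one,
            Matrix.cons_val_two, Matrix.head_cons, Matrix.tail_cons]
    rw [h2, Fintype.card_fin] at this
    omega

end Pool.Agent.Core7
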