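import Pool.Agent.Work.MP_80156a_core7.Red

/-!
# MP_80156a, CORE7: block CON
-/

set_option autoImplicit false

namespace Pool.Agent.Core7

open Pool.Agent.Work.MP_80156a_co

namespace CON

theorem fnd_coeff {d : ℕ} (f : (Fin d → ℝ) →ₗ[ℝ] ℝ) : fnd (fun i => f (Pi.single i 1)) = f := by
  refine LinearMap.pi_ext' fun i => ?_
  refine LinearMap.ext_ring ?_
  simp only [LinearMap.comp_apply, LinearMap.single_apply, fnd_apply]
  rw [Finset.sum_eq_single i]
  · simp
  · intro j _ hj
    rw [Pi.single_eq_of_ne hj, mul_zero]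
  · intro h; exact absurd (Finset.mem_univ i) h

end CON

open CON in
theorem blk_CON : Stmt_CON := by
  intro d K hK hD J hJ hJu
  by_contra hcon
  push Not at hcon
  refine hD ⟨LinearEquiv.refl ℝ _, J, hJ, hJu, ?_⟩
  intro x hx y hy z h1 h2
  simp only [LinearEquiv.refl_apply] at h1 h2
  by_contra hz
  obtain ⟨w, f, hreg, hlt⟩ := exists_reg hK.conv hK.comp.isClosed hK.int hz
  set u : Fin d → ℝ := fun i => f (Pi.single i 1) with hu
  have hfu : fnd u = f := fnd_coeff f
  have huN : u ∈ Nor K := ⟨w, by rw [hfu]; exact hreg⟩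
  have hf : ∀ v, f v = ∑ k, u k * v k := fun v => by rw [← hfu, fnd_apply]
  by_cases hc : ∃ i ∈ J, u i ≠ 0
  · have h3 := hcon u huN hc
    have : f z = f x := by
      rw [hf, hf]
      refine Finset.sum_congr rfl fun k _ => ?_
      by_cases hk : k ∈ J
      · rw [h1 k hk]
      · rw [h3 k hk, zero_mul, zero_mul]
    have h4 := hreg.2.1 x hx
    linarith
  · push Not at hc
    have : f z = f y := by
      rw [hf, hf]
      refine Finset.sum_congr rfl fun k _ => ?_
      by_cases hk : k ∈ J
      · rw [hc k hk, zero_mul, zero_mul]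
      · rw [h2 k hk]
    have h4 := hreg.2.1 y hy
    linarith

end Pool.Agent.Core7
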