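import Pool.Agent.Work.MP_80156a_core7.Red

/-!
# MP_80156a, CORE7: the factors of a decomposable body
-/

set_option autoImplicit false

namespace Pool.Agent.Core7

open Pool.Agent.Work.MP_80156a_co

theorem body_image {d m : ℕ} {K : Set (Fin d → ℝ)} (hK : Body K)
    (f : (Fin d → ℝ) →ₗ[ℝ] (Fin m → ℝ)) (hf : IsOpenMap f) : Body (f '' K) where
  conv := hK.conv.is_linear_image f.isLinear
  comp := hK.comp.image f.continuous_of_finiteDimensional
  int := (hK.int.image f).mono (hf.image_interior_subset K)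
  symm := by
    rintro _ ⟨x, hx, rfl⟩
    exact ⟨-x, hK.symm x hx, map_neg f x⟩

theorem blk_DEC : Stmt_DEC := by
  classical
  rintro d K hK ⟨T, J, hJ, hJ', hmix⟩
  have hlt : J.card < d := by
    have h1 := Finset.card_lt_card (Finset.ssubset_univ_iff.2 hJ')
    simpa using h1
  have hc₁ : Fintype.card {i // i ∈ J} = J.card := Fintype.card_coe J
  have hc₂ : Fintype.card {i // ¬ i ∈ J} = d - J.card := by
    rw [Fintype.card_subtype_compl, Fintype.card_fin, hc₁]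
  let e₁ : Fin J.card ≃ {i // i ∈ J} := (Fintype.equivFinOfCardEq hc₁).symm
  let e₂ : Fin (d - J.card) ≃ {i // ¬ i ∈ J} := (Fintype.equivFinOfCardEq hc₂).symm
  let e₀ : Fin J.card ⊕ Fin (d - J.card) ≃ Fin d :=
    (Equiv.sumCongr e₁ e₂).trans (Equiv.sumCompl (· ∈ J))
  let T' : (Fin d → ℝ) ≃ₗ[ℝ] (Fin J.card → ℝ) × (Fin (d - J.card) → ℝ) :=
    T.trans ((LinearEquiv.funCongrLeft ℝ ℝ e₀).trans
      (LinearEquiv.sumArrowLequivProdArrow (Fin J.card) (Fin (d - J.card)) ℝ ℝ))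
  have hT1 : ∀ x k, (T' x).1 k = T x (e₁ k) := fun x k => rfl
  have hT2 : ∀ x k, (T' x).2 k = T x (e₂ k) := fun x k => rfl
  have ho : IsOpenMap T' := T'.toContinuousLinearEquiv.toHomeomorph.isOpenMap
  let f₁ : (Fin d → ℝ) →ₗ[ℝ] (Fin J.card → ℝ) := (LinearMap.fst ℝ _ _).comp T'.toLinearMap
  let f₂ : (Fin d → ℝ) →ₗ[ℝ] (Fin (d - J.card) → ℝ) := (LinearMap.snd ℝ _ _).comp T'.toLinearMap
  have ho₁ : IsOpenMap f₁ := isOpenMap_fst.comp ho
  have ho₂ : IsOpenMap f₂ := isOpenMap_snd.comp ho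
  refine ⟨J.card, d - J.card, by omega, T', f₁ '' K, f₂ '' K, hJ.card_pos, by omega,
    body_image hK f₁ ho₁, body_image hK f₂ ho₂, ?_⟩
  ext z
  constructor
  · intro hz
    exact ⟨⟨z, hz, rfl⟩, ⟨z, hz, rfl⟩⟩
  · rintro ⟨⟨x, hx, hx'⟩, ⟨y, hy, hy'⟩⟩
    refine hmix x hx y hy z (fun i hi => ?_) fun i hi => ?_
    · have h1 := congrFun hx' (e₁.symm ⟨i, hi⟩)
      have h2 : (T' x).1 (e₁.symm ⟨i, hi⟩) = (T' z).1 (e₁.symm ⟨i, hi⟩) := h1
      rw [hT1, hT1, Equiv.apply_symm_apply] at h2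
      exact h2.symm
    · have h1 := congrFun hy' (e₂.symm ⟨i, hi⟩)
      have h2 : (T' y).2 (e₂.symm ⟨i, hi⟩) = (T' z).2 (e₂.symm ⟨i, hi⟩) := h1
      rw [hT2, hT2, Equiv.apply_symm_apply] at h2
      exact h2.symm

end Pool.Agent.Core7
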