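import Pool.Agent.Work.MP_80156a_core7.Red

/-!
# MP_80156a, CORE7: block FINAL (Euclidean space)
-/

set_option autoImplicit false

namespace Pool.Agent.Core7

open Pool.Agent.Work.MP_80156a_co

theorem final_q1 (hRED : Stmt_RED) (hPARL : Stmt_PARL) {d : ℕ} (hd : 3 ≤ d)
    {K : Set (EuclideanSpace ℝ (Fin d))} (hconv : Convex ℝ K) (hcomp : IsCompact K)
    (hint : (interior K).Nonempty) (o : EuclideanSpace ℝ (Fin d)) (hsymm : ∀ x ∈ K, o + o - x ∈ K)
    (hHP : HP K 4) (hnHP : ¬ HP K 3) :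
    ∃ L : Finset (EuclideanSpace ℝ (Fin d)), L.card ≤ 2 ^ d - 2 ^ (d - 3) ∧
      ∀ x ∈ K, ∃ v ∈ L, ∃ t : ℝ, 0 < t ∧ x + t • v ∈ interior K := by
  classical
  set e : (Fin d → ℝ) ≃L[ℝ] EuclideanSpace ℝ (Fin d) := (EuclideanSpace.equiv (Fin d) ℝ).symm
    with he
  set φ : (Fin d → ℝ) ≃ₜ EuclideanSpace ℝ (Fin d) :=
    e.toHomeomorph.trans (Homeomorph.addLeft o) with hφ
  have hφa : ∀ x, φ x = o + e x := fun x => rfl
  set K' : Set (Fin d → ℝ) := φ ⁻¹' K with hK'
  have hmem : ∀ x, x ∈ K' ↔ o + e x ∈ K := fun x => Iff.rfl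
  have hBody : Body K' := by
    refine ⟨?_, φ.isCompact_preimage.2 hcomp, ?_, ?_⟩
    · intro x hx y hy α β hα hβ hαβ
      have h1 := hconv hx hy hα hβ hαβ
      rw [hmem]
      have h2 : o + e (α • x + β • y) = α • φ x + β • φ y := by
        rw [hφa, hφa, map_add, map_smul, map_smul, smul_add, smul_add]
        have : o = α • o + β • o := by rw [← add_smul, hαβ, one_smul]
        conv_lhs => rw [this]
        abel
      rw [h2]
      exact h1
    · rw [hK', ← φ.preimage_interior]
      obtain ⟨x, hx⟩ := hint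
      exact ⟨φ.symm x, by simpa using hx⟩
    · intro x hx
      rw [hmem] at hx ⊢
      have h1 := hsymm _ hx
      rw [map_neg]
      have h2 : o + o - (o + e x) = o + -e x := by abel
      rwa [h2] at h1
  have hHP' : HP K' 4 := hHP.transfer e.toLinearEquiv.toAddEquiv o
  have hnHP' : ¬ HP K' 3 := by
    intro h
    apply hnHP
    have h1 := h.transfer e.symm.toLinearEquiv.toAddEquiv (-e.symm o)
    have h2 : {x : EuclideanSpace ℝ (Fin d) | -e.symm o + e.symm.toLinearEquiv.toAddEquiv x ∈ K'}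
        = K := by
      ext x
      rw [Set.mem_ofPred_eq, hmem]
      have h3 : o + e (-e.symm o + e.symm.toLinearEquiv.toAddEquiv x) = x := by
        change o + e (-e.symm o + e.symm x) = x
        rw [map_add, map_neg, ContinuousLinearEquiv.apply_symm_apply,
          ContinuousLinearEquiv.apply_symm_apply]
        abel
      rw [h3]
    rwa [h2] at h1
  have hPar : ¬ Par K' := fun h => hnHP' ((hPARL d K' h).2.mono (by norm_num))
  rcases hRED d K' hBody hHP' with h | ⟨m, hm, D, hD, hlit⟩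
  · exact absurd h hPar
  refine ⟨D.image e, Finset.card_image_le.trans (hD.trans ?_), fun x hx => ?_⟩
  · obtain ⟨n, rfl⟩ : ∃ n, d = n + 3 := ⟨d - 3, by omega⟩
    have h1 : n + 3 - 3 = n := by omega
    rw [h1]
    rw [pow_add] at hm ⊢
    omega
  · obtain ⟨v, hv, t, ht, h1⟩ := hlit (φ.symm x) (by
      rw [hK', Set.mem_preimage, Homeomorph.apply_symm_apply]; exact hx)
    refine ⟨e v, Finset.mem_image_of_mem _ hv, t, ht, ?_⟩
    rw [hK', ← φ.preimage_interior, Set.mem_preimage, hφa, map_add, map_smul] at h1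
    have h2 : o + e (φ.symm x) = x := by
      rw [← hφa, Homeomorph.apply_symm_apply]
    rwa [← add_assoc, h2] at h1

end Pool.Agent.Core7
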