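import Pool.Agent.Work.MP_80156a_core7.Red

/-!
# MP_80156a, CORE7: block MAT (note 2611)
-/

set_option autoImplicit false

namespace Pool.Agent.Core7

open Pool.Agent.Work.MP_80156a_co

section MAT

variable {d : ℕ} {N : Set (Fin d → ℝ)}

/-- no four different indices in a support -/
theorem mat_four (hN : Small N) {f : Fin d → ℝ} (hf : f ∈ N) {a b c e : Fin d} (hab : a ≠ b)
    (hac : a ≠ c) (hae : a ≠ e) (hbc : b ≠ c) (hbe : b ≠ e) (hce : c ≠ e) (ha : f a ≠ 0)
    (hb : f b ≠ 0) (hc : f c ≠ 0) : f e = 0 := by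
  classical
  by_contra he
  have h1 := hN.supp f hf
  have h2 : (({a, b, c, e} : Finset (Fin d)) : Set (Fin d)) ⊆ {l | f l ≠ 0} := by
    intro x hx
    simp only [Finset.coe_insert, Finset.coe_singleton, Set.mem_insert_iff,
      Set.mem_singleton_iff] at hx
    rcases hx with rfl | rfl | rfl | rfl <;> assumption
  have h3 := Set.ncard_le_ncard h2 (Set.toFinite _)
  rw [Set.ncard_coe_finset, Finset.card_insert_of_notMem, Finset.card_insert_of_notMem,
    Finset.card_insert_of_notMem, Finset.card_singleton] at h3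
  · omega
  · simpa using hce
  · simp [hbc, hbe]
  · simp [hab, hac, hae]

/-- pivot with one coordinate: not three different indices -/
theorem mat_piv (hN : Small N) {f g : Fin d → ℝ} (hf : f ∈ N) (hg : g ∈ N) {i x y z : Fin d}
    (hfi : f i ≠ 0) (hgi : g i ≠ 0) (hxy : x ≠ y) (hxz : x ≠ z) (hyz : y ≠ z)
    (hx : g i * f x - f i * g x ≠ 0) (hy : g i * f y - f i * g y ≠ 0) :
    g i * f z = f i * g z := by
  classical
  by_contra hz
  have hz' : g i * f z - f i * g z ≠ 0 := fun h => hz (by linarith)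
  have h1 := hN.piv f hf g hg i hfi hgi
  have h2 : (({x, y, z} : Finset (Fin d)) : Set (Fin d)) ⊆ {l | g i * f l - f i * g l ≠ 0} := by
    intro u hu
    simp only [Finset.coe_insert, Finset.coe_singleton, Set.mem_insert_iff,
      Set.mem_singleton_iff] at hu
    rcases hu with rfl | rfl | rfl <;> assumption
  have h3 := Set.ncard_le_ncard h2 (Set.toFinite _)
  rw [Set.ncard_coe_finset, Finset.card_insert_of_notMem, Finset.card_insert_of_notMem,
    Finset.card_singleton] at h3
  · omega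
  · simpa using hyz
  · simp [hxy, hxz]

/-- pivot with two coordinates: not two different indices -/
theorem mat_piv2 (hN : Small N) {f g h : Fin d → ℝ} (hf : f ∈ N) (hg : g ∈ N) (hh : h ∈ N)
    {i j x y : Fin d} (h1 : g i * h j - g j * h i ≠ 0) (h2 : h i * f j - h j * f i ≠ 0)
    (h3 : f i * g j - f j * g i ≠ 0) (hxy : x ≠ y)
    (hx : (g i * h j - g j * h i) * f x + (h i * f j - h j * f i) * g x +
      (f i * g j - f j * g i) * h x ≠ 0)
    (hy : (g i * h j - g j * h i) * f y + (h i * f j - h j * f i) * g y +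
      (f i * g j - f j * g i) * h y ≠ 0) : False := by
  classical
  have h4 := hN.piv2 f hf g hg h hh i j h1 h2 h3
  have h5 : (({x, y} : Finset (Fin d)) : Set (Fin d)) ⊆
      {l | (g i * h j - g j * h i) * f l + (h i * f j - h j * f i) * g l +
        (f i * g j - f j * g i) * h l ≠ 0} := by
    intro u hu
    simp only [Finset.coe_insert, Finset.coe_singleton, Set.mem_insert_iff,
      Set.mem_singleton_iff] at hu
    rcases hu with rfl | rfl <;> assumption
  have h6 := Set.ncard_le_ncard h5 (Set.toFinite _)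
  rw [Set.ncard_coe_finset, Finset.card_pair hxy] at h6
  omega

/-- the conclusion of the block -/
def Star (N : Set (Fin d → ℝ)) : Prop :=
  ∃ (i₀ : Fin d) (p : Fin d → ℝ), p i₀ ≠ 0 ∧ ∀ f ∈ N, ∃ j, j ≠ i₀ ∧ ∃ s t : ℝ,
    f = s • p + t • Pi.single j 1

/-- three supports `{a,b,c}`, `{b,c,e}`, `{a,b,e}` are impossible; more generally the third vector
`k` with `k b ≠ 0`, `k c = 0` has its support in `{b}` -/
theorem mat_tri (hN : Small N) {g h k : Fin d → ℝ} (hg : g ∈ N) (hh : h ∈ N) (hk : k ∈ N)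
    {a b c e : Fin d} (hab : a ≠ b) (hac : a ≠ c) (hae : a ≠ e) (hbc : b ≠ c) (hbe : b ≠ e)
    (hce : c ≠ e) (ga : g a ≠ 0) (gb : g b ≠ 0) (gc : g c ≠ 0) (h0 : h a = 0) (hb : h b ≠ 0)
    (hc : h c ≠ 0) (he : h e ≠ 0) (kb : k b ≠ 0) (kc : k c = 0) {x : Fin d} (hxb : x ≠ b)
    (hxc : x ≠ c) : k x = 0 := by
  by_contra kx
  have g0 : ∀ l, l ≠ a → l ≠ b → l ≠ c → g l = 0 := fun l h1 h2 h3 =>
    mat_four hN hg hab hac h1.symm hbc h2.symm h3.symm ga gb gc
  have h0' : ∀ l, l ≠ b → l ≠ c → l ≠ e → h l = 0 := fun l h1 h2 h3 =>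
    mat_four hN hh hbc hbe h1.symm hce h2.symm h3.symm hb hc he
  have ge : g e = 0 := g0 e hae.symm hbe.symm hce.symm
  -- proportionality of `g` and `h` on `{b, c}`
  have r1 : h c * g b = g c * h b := by
    refine mat_piv hN hg hh gc hc hae hab hbe.symm ?_ ?_
    · rw [h0]; simp [hc, ga]
    · rw [ge]; simp [gc, he]
  -- `k a ≠ 0`
  have r2 : k b * g a = g b * k a := by
    by_cases hxa : x = a
    · subst hxa
      by_contra hne
      -- compare with `h` first
      have ke : k b * h e = h b * k e := by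
        refine mat_piv hN hh hk hb kb (x := c) (y := x) hxc.symm hce hae ?_ ?_
        · rw [kc]; simp [kb, hc]
        · rw [h0]; simp [hb, kx]
      have ke' : k e ≠ 0 := by
        intro h1
        rw [h1, mul_zero] at ke
        exact mul_ne_zero kb he ke
      exact hne (mat_piv hN hg hk gb kb (x := c) (y := e) hce hxc.symm hae.symm
        (by rw [kc]; simp [kb, gc]) (by rw [ge]; simp [gb, ke']))
    · refine mat_piv hN hg hk gb kb (x := c) (y := x) hxc.symm hac.symm hxa ?_ ?_
      · rw [kc]; simp [kb, gc]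
      · rw [g0 x hxa hxb hxc]; simp [gb, kx]
  have ka : k a ≠ 0 := by
    intro h1
    rw [h1, mul_zero] at r2
    exact mul_ne_zero kb ga r2
  have r3 : k b * h e = h b * k e := by
    refine mat_piv hN hh hk hb kb (x := c) (y := a) hac.symm hce hae ?_ ?_
    · rw [kc]; simp [kb, hc]
    · rw [h0]; simp [hb, ka]
  have ke : k e ≠ 0 := by
    intro h1
    rw [h1, mul_zero] at r3
    exact mul_ne_zero kb he r3
  refine mat_piv2 hN hg hh hk (i := c) (j := e) (x := a) (y := b) ?_ ?_ ?_ hab ?_ ?_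
  · rw [kc]; simp [hc, ke]
  · rw [kc, ge]; simp [gc, ke]
  · rw [ge]; simp [gc, he]
  · rw [kc, ge, h0]
    simp only [mul_zero, sub_zero, zero_mul, add_zero, zero_sub]
    intro h1
    have h2 : g b * (h c * k e * g a + g c * h e * k a) = 2 * (g a * k e * g b * h c) := by
      linear_combination (-(g c * h e)) * r2 + (g a * g c) * r3 - (g a * k e) * r1
    rw [h1, mul_zero] at h2
    have h3 : g a * k e * g b * h c ≠ 0 := mul_ne_zero (mul_ne_zero (mul_ne_zero ga ke) gb) hc
    exact h3 (by linarith)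
  · rw [kc, ge]
    simp only [mul_zero, sub_zero, zero_mul, zero_sub]
    intro h1
    have h2 : g c * h e * k b = 0 := by
      linear_combination h1 - k e * r1
    exact mul_ne_zero (mul_ne_zero gc he) kb h2

/-- Case I. -/
theorem mat_caseI (hN : Small N) (hC : Conn N) {g h : Fin d → ℝ} (hg : g ∈ N) (hh : h ∈ N)
    {a b c e : Fin d} (hab : a ≠ b) (hac : a ≠ c) (hae : a ≠ e) (hbc : b ≠ c) (hbe : b ≠ e)
    (hce : c ≠ e) (ga : g a ≠ 0) (gb : g b ≠ 0) (gc : g c ≠ 0) (h0 : h a = 0) (hb : h b ≠ 0)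
    (hc : h c ≠ 0) (he : h e ≠ 0) : Star N := by
  classical
  have g0 : ∀ l, l ≠ a → l ≠ b → l ≠ c → g l = 0 := fun l h1 h2 h3 =>
    mat_four hN hg hab hac h1.symm hbc h2.symm h3.symm ga gb gc
  have ge : g e = 0 := g0 e hae.symm hbe.symm hce.symm
  have r1 : h c * g b = g c * h b := by
    refine mat_piv hN hg hh gc hc hae hab hbe.symm ?_ ?_
    · rw [h0]; simp [hc, ga]
    · rw [ge]; simp [gc, he]
  -- all indices outside `{b, c}` are reached
  have hT : ∀ j, j ≠ b → j ≠ c → ∃ k ∈ N, k b ≠ 0 ∧ k c ≠ 0 ∧ k j ≠ 0 := by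
    by_contra hcon
    push Not at hcon
    obtain ⟨j, hjb, hjc, hj⟩ := hcon
    set T : Finset (Fin d) := Finset.univ.filter
      (fun j => j ≠ b ∧ j ≠ c ∧ ∃ k ∈ N, k b ≠ 0 ∧ k c ≠ 0 ∧ k j ≠ 0) with hTdef
    have hJ : insert b (insert c T) ≠ Finset.univ := by
      intro h1
      have h2 : j ∈ insert b (insert c T) := by rw [h1]; exact Finset.mem_univ _
      rw [Finset.mem_insert, Finset.mem_insert, hTdef, Finset.mem_filter] at h2
      rcases h2 with h2 | h2 | h2
      · exact hjb h2
      · exact hjc h2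
      · obtain ⟨-, -, -, k, hk, h3, h4, h5⟩ := h2
        exact h5 (hj k hk h3 h4)
    obtain ⟨k, hk, ⟨i, hi, ki⟩, x, hx, kx⟩ := hC _ (Finset.insert_nonempty _ _) hJ
    rw [Finset.mem_insert, Finset.mem_insert, not_or, not_or] at hx
    obtain ⟨hxb, hxc, hxT⟩ := hx
    have hxT' : ∀ k ∈ N, k b ≠ 0 → k c ≠ 0 → k x = 0 := by
      intro k hk h1 h2
      by_contra h3
      exact hxT (by rw [hTdef, Finset.mem_filter]; exact ⟨Finset.mem_univ _, hxb, hxc, k, hk,
        h1, h2, h3⟩)
    by_cases kb : k b = 0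
    · by_cases kc : k c = 0
      · -- `i ∈ T`
        have hiT : i ∈ T := by
          rw [Finset.mem_insert, Finset.mem_insert] at hi
          rcases hi with h1 | h1 | h1
          · rw [h1] at ki; exact absurd kb ki
          · rw [h1] at ki; exact absurd kc ki
          · exact h1
        rw [hTdef, Finset.mem_filter] at hiT
        obtain ⟨-, hib, hic, m, hm, mb, mc, mi⟩ := hiT
        have hmx : m x = 0 := hxT' m hm mb mc
        have h1 : k i * m x = m i * k x := by
          refine mat_piv hN hm hk mi ki (x := b) (y := c) hbc (Ne.symm hxb) (Ne.symm hxc) ?_ ?_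
          · rw [kb]; simp [ki, mb]
          · rw [kc]; simp [ki, mc]
        rw [hmx, mul_zero] at h1
        exact mul_ne_zero mi kx h1.symm
      · -- `k c ≠ 0`, `k b = 0`
        exact kx (mat_tri hN hg hh hk hac hab hae hbc.symm hce hbe ga gc gb h0 hc hb he kc kb
          hxc hxb)
    · by_cases kc : k c = 0
      · exact kx (mat_tri hN hg hh hk hab hac hae hbc hbe hce ga gb gc h0 hb hc he kb kc hxb hxc)
      · exact kx (hxT' k hk kb kc)
  -- proportionality
  have hratio : ∀ k ∈ N, k b ≠ 0 → k c ≠ 0 → ∀ j, j ≠ b → j ≠ c → k j ≠ 0 →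
      k c * g b = g c * k b := by
    intro k hk kb kc j hjb hjc kj
    by_cases hja : j = a
    · subst hja
      have ke : k e = 0 := mat_four hN hk hbc (Ne.symm hjb) hbe (Ne.symm hjc) hce hae kb kc kj
      have h1 : k c * h b = h c * k b := by
        refine mat_piv hN hh hk hc kc (x := j) (y := e) hae hjb hbe.symm ?_ ?_
        · rw [h0]; simp [hc, kj]
        · rw [ke]; simp [kc, he]
      have h2 : h c * (k c * g b - g c * k b) = 0 := by
        linear_combination k c * r1 + g c * h1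
      rcases mul_eq_zero.1 h2 with h3 | h3
      · exact absurd h3 hc
      · linarith
    · have ka : k a = 0 := mat_four hN hk hbc (Ne.symm hjb) hab.symm (Ne.symm hjc) hac.symm hja
        kb kc kj
      refine mat_piv hN hg hk gc kc (x := a) (y := j) (Ne.symm hja) hab hjb ?_ ?_
      · rw [ka]; simp [kc, ga]
      · rw [g0 j hja hjb hjc]; simp [gc, kj]
  refine ⟨c, g b • Pi.single b 1 + g c • Pi.single c 1, ?_, ?_⟩
  · simp [hbc.symm, gc]
  intro k hk
  by_cases hS : ∀ l, l ≠ b → l ≠ c → k l = 0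
  · -- support in `{b, c}`
    refine ⟨b, hbc, k c / g c, k b - k c / g c * g b, ?_⟩
    ext l
    by_cases hlb : l = b
    · subst hlb; simp [hbc]
    · by_cases hlc : l = c
      · subst hlc; simp [hbc.symm]; field_simp
      · simp [hlb, hlc, hS l hlb hlc]
  push Not at hS
  obtain ⟨x, hxb, hxc, kx⟩ := hS
  by_cases kb : k b = 0
  · by_cases kc : k c = 0
    · -- support `{x}`
      have hone : ∀ l, l ≠ x → k l = 0 := by
        intro l hlx
        by_contra kl
        have hlb : l ≠ b := fun h => kl (by rw [h]; exact kb)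
        have hlc : l ≠ c := fun h => kl (by rw [h]; exact kc)
        obtain ⟨m, hm, mb, mc, mx⟩ := hT x hxb hxc
        have ml : m l = 0 := mat_four hN hm hbc (Ne.symm hxb) (Ne.symm hlb) (Ne.symm hxc)
          (Ne.symm hlc) (Ne.symm hlx) mb mc mx
        have h1 : k x * m l = m x * k l := by
          refine mat_piv hN hm hk mx kx (x := b) (y := c) hbc (Ne.symm hlb) (Ne.symm hlc) ?_ ?_
          · rw [kb]; simp [kx, mb]
          · rw [kc]; simp [kx, mc]
        rw [ml, mul_zero] at h1
        exact mul_ne_zero mx kl h1.symm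
      refine ⟨x, hxc, 0, k x, ?_⟩
      ext l
      by_cases hlx : l = x
      · subst hlx; simp
      · simp [hlx, hone l hlx]
    · exact absurd (mat_tri hN hg hh hk hac hab hae hbc.symm hce hbe ga gc gb h0 hc hb he kc kb
        hxc hxb) kx
  · by_cases kc : k c = 0
    · exact absurd (mat_tri hN hg hh hk hab hac hae hbc hbe hce ga gb gc h0 hb hc he kb kc hxb
        hxc) kx
    · have hr := hratio k hk kb kc x hxb hxc kx
      refine ⟨x, hxc, k c / g c, k x, ?_⟩
      ext l
      by_cases hlb : l = b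
      · subst hlb
        simp [hbc, Ne.symm hxb]
        field_simp
        linarith
      · by_cases hlc : l = c
        · subst hlc; simp [hbc.symm, Ne.symm hxc]; field_simp
        · by_cases hlx : l = x
          · subst hlx; simp [hlb, hlc]
          · have kl : k l = 0 := mat_four hN hk hbc (Ne.symm hxb) (Ne.symm hlb) (Ne.symm hxc)
              (Ne.symm hlc) (Ne.symm hlx) kb kc kx
            simp [hlb, hlc, hlx, kl]

/-- no path with three edges -/
theorem mat_path (hN : Small N)
    (h3 : ∀ f ∈ N, ∀ a b c : Fin d, a ≠ b → a ≠ c → b ≠ c → f a ≠ 0 → f b ≠ 0 → f c = 0)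
    {f g h : Fin d → ℝ} (hf : f ∈ N) (hg : g ∈ N) (hh : h ∈ N) {x y z u : Fin d} (hxy : x ≠ y)
    (hxz : x ≠ z) (hxu : x ≠ u) (hyz : y ≠ z) (hyu : y ≠ u) (hzu : z ≠ u) (fx : f x ≠ 0)
    (fy : f y ≠ 0) (gy : g y ≠ 0) (gz : g z ≠ 0) (hz : h z ≠ 0) (hu : h u ≠ 0) : False := by
  have fz : f z = 0 := h3 f hf x y z hxy hxz hyz fx fy
  have fu : f u = 0 := h3 f hf x y u hxy hxu hyu fx fy
  have gx : g x = 0 := h3 g hg y z x hyz hxy.symm hxz.symm gy gz
  have gu : g u = 0 := h3 g hg y z u hyz hyu hzu gy gz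
  have hx : h x = 0 := h3 h hh z u x hzu hxz.symm hxu.symm hz hu
  have hy : h y = 0 := h3 h hh z u y hzu hyz.symm hyu.symm hz hu
  refine mat_piv2 hN hf hg hh (i := y) (j := z) (x := x) (y := u) ?_ ?_ ?_ hxu ?_ ?_
  · rw [hy]; simp [gy, hz]
  · rw [hy, fz]; simp [fy, hz]
  · rw [fz]; simp [fy, gz]
  · rw [hy, fz, gx, hx]; simp [gy, hz, fx]
  · rw [hy, fz, gu, fu]; simp [fy, gz, hu]

/-- Case II. -/
theorem mat_caseII (hd : 4 ≤ d) (hN : Small N) (hC : Conn N)
    (h3 : ∀ f ∈ N, ∀ a b c : Fin d, a ≠ b → a ≠ c → b ≠ c → f a ≠ 0 → f b ≠ 0 → f c = 0)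
    {f g : Fin d → ℝ} (hf : f ∈ N) (hg : g ∈ N) {a b c : Fin d} (hab : a ≠ b) (hac : a ≠ c)
    (hbc : b ≠ c) (fa : f a ≠ 0) (fb : f b ≠ 0) (gb : g b ≠ 0) (gc : g c ≠ 0) : Star N := by
  classical
  have hT : ∀ j, j ≠ b → ∃ k ∈ N, k b ≠ 0 ∧ k j ≠ 0 := by
    by_contra hcon
    push Not at hcon
    obtain ⟨j, hjb, hj⟩ := hcon
    set T : Finset (Fin d) := Finset.univ.filter
      (fun j => j ≠ b ∧ ∃ k ∈ N, k b ≠ 0 ∧ k j ≠ 0) with hTdef
    have hJ : insert b T ≠ Finset.univ := by
      intro h1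
      have h2 : j ∈ insert b T := by rw [h1]; exact Finset.mem_univ _
      rw [Finset.mem_insert, hTdef, Finset.mem_filter] at h2
      rcases h2 with h2 | h2
      · exact hjb h2
      · obtain ⟨-, -, k, hk, h4, h5⟩ := h2
        exact h5 (hj k hk h4)
    obtain ⟨k, hk, ⟨i, hi, ki⟩, x, hx, kx⟩ := hC _ (Finset.insert_nonempty _ _) hJ
    rw [Finset.mem_insert, not_or] at hx
    obtain ⟨hxb, hxT⟩ := hx
    have hxT' : ∀ k ∈ N, k b ≠ 0 → k x = 0 := by
      intro k hk h1
      by_contra h4
      exact hxT (by rw [hTdef, Finset.mem_filter]; exact ⟨Finset.mem_univ _, hxb, k, hk, h1, h4⟩)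
    rw [Finset.mem_insert] at hi
    rcases hi with hi | hi
    · rw [hi] at ki
      exact kx (hxT' k hk ki)
    · rw [hTdef, Finset.mem_filter] at hi
      obtain ⟨-, hib, m, hm, mb, mi⟩ := hi
      have hix : i ≠ x := by
        intro h1
        rw [h1] at mi
        exact mi (hxT' m hm mb)
      have hax : a ≠ x := by
        intro h1
        rw [h1] at fa
        exact fa (hxT' f hf fb)
      have hcx : c ≠ x := by
        intro h1
        rw [h1] at gc
        exact gc (hxT' g hg gb)
      by_cases hia : i = a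
      · have hci : c ≠ i := by rw [hia]; exact hac.symm
        exact mat_path hN h3 hg hm hk hbc.symm hci hcx (Ne.symm hib) (Ne.symm hxb) hix gc gb
          mb mi ki kx
      · exact mat_path hN h3 hf hm hk hab (Ne.symm hia) hax (Ne.symm hib) (Ne.symm hxb) hix fa fb
          mb mi ki kx
  refine ⟨b, Pi.single b 1, by simp, fun k hk => ?_⟩
  by_cases kb : k b = 0
  · by_cases hz : ∀ l, k l = 0
    · refine ⟨a, hab, 0, 0, ?_⟩
      ext l; simp [hz l]
    · push Not at hz
      obtain ⟨x, kx⟩ := hz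
      have hxb : x ≠ b := fun h => kx (by rw [h]; exact kb)
      have hone : ∀ l, l ≠ x → k l = 0 := by
        intro l hlx
        by_contra kl
        have hlb : l ≠ b := fun h => kl (by rw [h]; exact kb)
        obtain ⟨z, hz⟩ : ∃ z : Fin d, z ∉ ({b, x, l} : Finset (Fin d)) := by
          by_contra hcon
          push Not at hcon
          have h1 : ({b, x, l} : Finset (Fin d)) = Finset.univ := Finset.eq_univ_iff_forall.2 hcon
          have h2 : ({b, x, l} : Finset (Fin d)).card ≤ 3 := Finset.card_le_three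
          rw [h1, Finset.card_univ, Fintype.card_fin] at h2
          omega
        simp only [Finset.mem_insert, Finset.mem_singleton, not_or] at hz
        obtain ⟨hzb, hzx, hzl⟩ := hz
        obtain ⟨m, hm, mb, mz⟩ := hT z hzb
        obtain ⟨m', hm', mb', mx'⟩ := hT x hxb
        exact mat_path hN h3 hm hm' hk hzb hzx hzl (Ne.symm hxb) (Ne.symm hlb) (Ne.symm hlx)
          mz mb mb' mx' kx kl
      refine ⟨x, hxb, 0, k x, ?_⟩
      ext l
      by_cases hlx : l = x
      · subst hlx; simp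
      · simp [hlx, hone l hlx]
  · by_cases hz : ∀ l, l ≠ b → k l = 0
    · refine ⟨a, hab, k b, 0, ?_⟩
      ext l
      by_cases hlb : l = b
      · subst hlb; simp
      · simp [hlb, hz l hlb]
    · push Not at hz
      obtain ⟨x, hxb, kx⟩ := hz
      refine ⟨x, hxb, k b, k x, ?_⟩
      ext l
      by_cases hlb : l = b
      · subst hlb; simp [Ne.symm hxb]
      · by_cases hlx : l = x
        · subst hlx; simp [hlb]
        · have kl := h3 k hk b x l (Ne.symm hxb) (Ne.symm hlb) (Ne.symm hlx) kb kx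
          simp [hlb, hlx, kl]

end MAT

theorem blk_MAT : Stmt_MAT := by
  classical
  intro d N hd hN hC
  change Star N
  by_cases hI : ∃ g ∈ N, ∃ a b c : Fin d, a ≠ b ∧ a ≠ c ∧ b ≠ c ∧ g a ≠ 0 ∧ g b ≠ 0 ∧ g c ≠ 0
  · obtain ⟨g, hg, a, b, c, hab, hac, hbc, ga, gb, gc⟩ := hI
    have hJ : ({a, b, c} : Finset (Fin d)) ≠ Finset.univ := by
      intro h1
      have h2 : ({a, b, c} : Finset (Fin d)).card ≤ 3 := Finset.card_le_three
      rw [h1, Finset.card_univ, Fintype.card_fin] at h2
      omega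
    obtain ⟨h, hh, ⟨i, hi, hhi⟩, e, he, hhe⟩ := hC _ ⟨a, by simp⟩ hJ
    simp only [Finset.mem_insert, Finset.mem_singleton, not_or] at he
    obtain ⟨hea, heb, hec⟩ := he
    have ge : g e = 0 := mat_four hN hg hab hac (Ne.symm hea) hbc (Ne.symm heb) (Ne.symm hec)
      ga gb gc
    -- one of the three values vanishes, not two
    have hnot : ∀ x y z : Fin d, x ≠ y → x ≠ z → y ≠ z → e ≠ y → e ≠ z → g x ≠ 0 → g y ≠ 0 →
        g z ≠ 0 → h x ≠ 0 → h y = 0 → h z ≠ 0 := by
      intro x y z hxy hxz hyz hey hez gx gy gz hx hy hz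
      have h1 : h x * g z = g x * h z := by
        refine mat_piv hN hg hh gx hx (x := e) (y := y) hey hez hyz ?_ ?_
        · rw [ge]; simp [gx, hhe]
        · rw [hy]; simp [hx, gy]
      rw [hz, mul_zero] at h1
      exact mul_ne_zero hx gz h1
    by_cases ha : h a = 0
    · by_cases hb : h b = 0
      · have hc : h c ≠ 0 := by
          simp only [Finset.mem_insert, Finset.mem_singleton] at hi
          rcases hi with h1 | h1 | h1
          · rw [h1] at hhi; exact absurd ha hhi
          · rw [h1] at hhi; exact absurd hb hhi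
          · rwa [h1] at hhi
        exact absurd hb (hnot c a b hac.symm hbc.symm hab hea heb gc ga gb hc ha)
      · by_cases hc : h c = 0
        · exact absurd hc (hnot b a c hab.symm hbc hac hea hec gb ga gc hb ha)
        · exact mat_caseI hN hC hg hh hab hac (Ne.symm hea) hbc (Ne.symm heb) (Ne.symm hec)
            ga gb gc ha hb hc hhe
    · by_cases hb : h b = 0
      · by_cases hc : h c = 0
        · exact absurd hc (hnot a b c hab hac hbc heb hec ga gb gc ha hb)
        · exact mat_caseI hN hC hg hh hab.symm hbc (Ne.symm heb) hac (Ne.symm hea) (Ne.symm hec)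
            gb ga gc hb ha hc hhe
      · by_cases hc : h c = 0
        · exact mat_caseI hN hC hg hh hbc.symm hac.symm (Ne.symm hec) hab.symm (Ne.symm heb)
            (Ne.symm hea) gc gb ga hc hb ha hhe
        · exact absurd (mat_four hN hh hab hac (Ne.symm hea) hbc (Ne.symm heb) (Ne.symm hec)
            ha hb hc) hhe
  · have h3 : ∀ f ∈ N, ∀ a b c : Fin d, a ≠ b → a ≠ c → b ≠ c → f a ≠ 0 → f b ≠ 0 → f c = 0 := by
      intro f hf a b c h1 h2 h4 fa fb
      by_contra fc
      exact hI ⟨f, hf, a, b, c, h1, h2, h4, fa, fb, fc⟩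
    set a : Fin d := ⟨0, by omega⟩
    have hJ1 : ({a} : Finset (Fin d)) ≠ Finset.univ := by
      intro h1
      have h2 : ({a} : Finset (Fin d)).card = 1 := Finset.card_singleton a
      rw [h1, Finset.card_univ, Fintype.card_fin] at h2
      omega
    obtain ⟨f, hf, ⟨i, hi, fi⟩, b, hb, fb⟩ := hC _ ⟨a, by simp⟩ hJ1
    rw [Finset.mem_singleton] at hi hb
    rw [hi] at fi
    have hJ2 : ({a, b} : Finset (Fin d)) ≠ Finset.univ := by
      intro h1
      have h2 : ({a, b} : Finset (Fin d)).card ≤ 2 := Finset.card_le_two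
      rw [h1, Finset.card_univ, Fintype.card_fin] at h2
      omega
    obtain ⟨g, hg, ⟨k, hk, gk⟩, c, hc, gc⟩ := hC _ ⟨a, by simp⟩ hJ2
    simp only [Finset.mem_insert, Finset.mem_singleton, not_or] at hk hc
    rcases hk with hk | hk
    · rw [hk] at gk
      exact mat_caseII hd hN hC h3 hf hg hb (Ne.symm hc.2) (Ne.symm hc.1) fb fi gk gc
    · rw [hk] at gk
      exact mat_caseII hd hN hC h3 hf hg (Ne.symm hb) (Ne.symm hc.1) (Ne.symm hc.2) fi fb gk gc

end Pool.Agent.Core7
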