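import Pool.Agent.Work.MP_80156a_core7.Red

/-!
# MP_80156a, CORE7-R, block ONE: dimension one
-/

set_option autoImplicit false

namespace Pool.Agent.Core7

open Pool.Agent.Work.MP_80156a_co

theorem blk_ONE : Stmt_ONE := by
  intro K hK
  have hKne : K.Nonempty := hK.int.mono interior_subset
  obtain ⟨y, hy, hmax⟩ := hK.comp.exists_isMaxOn hKne
    (continuous_apply (0 : Fin 1)).continuousOn
  have hmax' : ∀ z ∈ K, z 0 ≤ y 0 := fun z hz => hmax hz
  have hpos : 0 < y 0 := by
    obtain ⟨x, hx⟩ := hK.int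
    have h1 : Filter.Tendsto (fun t : ℝ => x + t • (1 : Fin 1 → ℝ)) (nhds 0)
        (nhds (x + (0 : ℝ) • (1 : Fin 1 → ℝ))) :=
      (continuous_const.add (continuous_id.smul continuous_const)).tendsto 0
    rw [zero_smul, add_zero] at h1
    have h2 := h1.eventually (isOpen_interior.mem_nhds hx)
    obtain ⟨ε, hε, h3⟩ := Metric.eventually_nhds_iff.1 h2
    have h4 : x + (ε / 2) • (1 : Fin 1 → ℝ) ∈ K := interior_subset (h3 (by
      rw [Real.dist_eq, sub_zero, abs_of_pos (by positivity)]; linarith))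
    have h5 := hmax' _ h4
    have h6 := hmax' _ (hK.symm x (interior_subset hx))
    simp only [Pi.add_apply, Pi.smul_apply, Pi.one_apply, smul_eq_mul, mul_one, Pi.neg_apply]
      at h5 h6
    linarith
  refine ⟨LinearEquiv.smulOfNeZero ℝ (Fin 1 → ℝ) ((y 0)⁻¹) (inv_ne_zero hpos.ne'), ?_⟩
  ext z
  have hS : ∀ i, (LinearEquiv.smulOfNeZero ℝ (Fin 1 → ℝ) ((y 0)⁻¹) (inv_ne_zero hpos.ne')) z i
      = (y 0)⁻¹ * z i := fun i => rfl
  simp only [Set.mem_ofPred_eq, hS]
  constructor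
  · intro hz i
    have h1 := hmax' z hz
    have h2 := hmax' _ (hK.symm z hz)
    simp only [Pi.neg_apply] at h2
    rw [Subsingleton.elim i 0, abs_mul, abs_of_pos (inv_pos.2 hpos), inv_mul_le_iff₀ hpos, mul_one]
    exact abs_le.2 ⟨by linarith, h1⟩
  · intro h
    have h1 := h 0
    rw [abs_mul, abs_of_pos (inv_pos.2 hpos), inv_mul_le_iff₀ hpos, mul_one] at h1
    have h2 := abs_le.1 h1
    have hs : z 0 / y 0 * y 0 = z 0 := div_mul_cancel₀ _ hpos.ne'
    have h3 : z = ((1 + z 0 / y 0) / 2) • y + ((1 - z 0 / y 0) / 2) • (-y) := by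
      ext i
      rw [Subsingleton.elim i 0]
      simp only [Pi.add_apply, Pi.smul_apply, Pi.neg_apply, smul_eq_mul]
      linarith
    rw [h3]
    have h4 : -1 ≤ z 0 / y 0 := by rw [le_div_iff₀ hpos]; linarith
    have h5 : z 0 / y 0 ≤ 1 := by rw [div_le_iff₀ hpos]; linarith
    exact hK.conv hy (hK.symm y hy) (by linarith) (by linarith) (by ring)

end Pool.Agent.Core7
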