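import Pool.Agent.Work.MP_80156a_core7.Red

/-!
# MP_80156a, CORE7-R, block PARL: parallelotopes
-/

set_option autoImplicit false

namespace Pool.Agent.Core7

open Pool.Agent.Work.MP_80156a_co

theorem blk_PARL : Stmt_PARL := by
  classical
  rintro d K ⟨S, rfl⟩
  constructor
  · refine ⟨(Finset.univ : Finset (Fin d → Bool)).image
      (fun e => S.symm (fun i => if e i then (1 : ℝ) else -1)), ?_, ?_⟩
    · refine Finset.card_image_le.trans ?_
      simp
    · intro z hz
      refine ⟨_, Finset.mem_image_of_mem _ (Finset.mem_univ (fun i => decide (S z i ≤ 0))),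
        1 / 2, by norm_num, ?_⟩
      have hopen : IsOpen {y : Fin d → ℝ | ∀ i, |S y i| < 1} := by
        have h1 : {y : Fin d → ℝ | ∀ i, |S y i| < 1} =
            ⋂ i, {y : Fin d → ℝ | |S y i| < 1} := by
          ext y
          simp
        rw [h1]
        refine isOpen_iInter_of_finite fun i => ?_
        have hc : Continuous fun y : Fin d → ℝ => |S y i| :=
          ((continuous_apply i).comp S.toContinuousLinearEquiv.continuous).abs
        exact isOpen_lt hc continuous_const
      refine interior_maximal (t := {y : Fin d → ℝ | ∀ i, |S y i| < 1}) ?_ hopen ?_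
      · intro y hy i
        exact (hy i).le
      · intro i
        have h1 := abs_le.1 (hz i)
        rw [map_add, map_smul, LinearEquiv.apply_symm_apply]
        simp only [Pi.add_apply, Pi.smul_apply, smul_eq_mul, decide_eq_true_eq]
        rw [abs_lt]
        split_ifs with h
        · constructor <;> linarith
        · rw [not_le] at h
          constructor <;> linarith
  · have hb : HP {z : Fin d → ℝ | ∀ i, 0 ≤ z i ∧ z i ≤ 1} 2 :=
      hp_box (fun z hz i => hz i) (fun z h0 h1 i => ⟨h0 i, h1 i⟩)
    have h2 := hb.transfer (S.trans (LinearEquiv.smulOfNeZero ℝ (Fin d → ℝ) ((1 : ℝ) / 2)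
      (by norm_num))).toAddEquiv (fun _ => (1 : ℝ) / 2)
    have h3 : {x : Fin d → ℝ | (fun _ => (1 : ℝ) / 2) +
        (S.trans (LinearEquiv.smulOfNeZero ℝ (Fin d → ℝ) ((1 : ℝ) / 2)
          (by norm_num))).toAddEquiv x ∈ {z : Fin d → ℝ | ∀ i, 0 ≤ z i ∧ z i ≤ 1}} =
        {y : Fin d → ℝ | ∀ i, |S y i| ≤ 1} := by
      ext x
      have hS : ∀ i, ((fun _ => (1 : ℝ) / 2) +
        (S.trans (LinearEquiv.smulOfNeZero ℝ (Fin d → ℝ) ((1 : ℝ) / 2)
          (by norm_num))).toAddEquiv x : Fin d → ℝ) i = 1 / 2 + 1 / 2 * S x i := fun i => rfl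
      simp only [Set.mem_ofPred_eq, hS, abs_le]
      refine forall_congr' fun i => ?_
      constructor
      · rintro ⟨h4, h5⟩
        constructor <;> linarith
      · rintro ⟨h4, h5⟩
        constructor <;> linarith
    rwa [h3] at h2

end Pool.Agent.Core7
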