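import Pool.Agent.Work.MP_80156a_core7.Red

/-!
# MP_80156a, CORE7: block PLANE, planar bodies
-/

set_option autoImplicit false

namespace Pool.Agent.Core7

open Pool.Agent.Work.MP_80156a_co

namespace PLANE

open scoped Topology

/-- The scalar product of the plane. -/
def dt (x y : Fin 2 → ℝ) : ℝ := x 0 * y 0 + x 1 * y 1

/-- The functional with coefficient vector `d`. -/
noncomputable def fn2 (d : Fin 2 → ℝ) : (Fin 2 → ℝ) →ₗ[ℝ] ℝ where
  toFun x := dt d x
  map_add' x y := by simp only [dt, Pi.add_apply]; ring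
  map_smul' c x := by simp only [dt, Pi.smul_apply, smul_eq_mul, RingHom.id_apply]; ring

@[simp] theorem fn2_apply (d x : Fin 2 → ℝ) : fn2 d x = dt d x := rfl

theorem eq_fn2 (q : (Fin 2 → ℝ) →ₗ[ℝ] ℝ) (x : Fin 2 → ℝ) :
    q x = dt (fun i => q (Pi.single i 1)) x := by
  have h : x = x 0 • Pi.single (0 : Fin 2) (1 : ℝ) + x 1 • Pi.single (1 : Fin 2) (1 : ℝ) := by
    ext i
    fin_cases i <;> simp
  conv_lhs => rw [h]
  simp only [map_add, map_smul, smul_eq_mul, dt]
  ring

/-- Three functionals such that every face of `L` lies in the open half space of one of them. -/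
def Good3 {V : Type*} [AddCommGroup V] [Module ℝ V] (L : Set V) : Prop :=
  ∃ D : Fin 3 → V →ₗ[ℝ] ℝ, ∀ q : V →ₗ[ℝ] ℝ, (∀ x ∈ L, q x ≤ 1) →
    ∃ k, ∀ x ∈ L, q x = 1 → 0 < D k x

theorem Good3.of_preimage {V W : Type*} [AddCommGroup V] [Module ℝ V] [AddCommGroup W]
    [Module ℝ W] (T : V ≃ₗ[ℝ] W) {L : Set W} (h : Good3 (T ⁻¹' L)) : Good3 L := by
  obtain ⟨D, hD⟩ := h
  refine ⟨fun k => (D k).comp T.symm.toLinearMap, fun q hq => ?_⟩
  obtain ⟨k, hk⟩ := hD (q.comp T.toLinearMap) (fun x hx => hq _ hx)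
  refine ⟨k, fun x hx hqx => ?_⟩
  have := hk (T.symm x) (by simpa using hx) (by simpa using hqx)
  simpa using this

/-- `L` in the position of a basis with maximal determinant. -/
structure Nice2 (L : Set (Fin 2 → ℝ)) : Prop where
  comp : IsCompact L
  symm : ∀ x ∈ L, -x ∈ L
  single : ∀ i, Pi.single i 1 ∈ L
  le_one : ∀ x ∈ L, ∀ i, |x i| ≤ 1
  minor : ∀ x ∈ L, ∀ y ∈ L, |x 0 * y 1 - x 1 * y 0| ≤ 1

/-- The main combinatorial lemma. -/
theorem main_pos {L : Set (Fin 2 → ℝ)} (hL : Nice2 L) {w : Fin 2 → ℝ} (hw : w ∈ L)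
    (h0 : 0 ≤ w 0) (h1 : 0 ≤ w 1) (hs : 1 < w 0 + w 1) : Good3 L := by
  set η : ℝ := w 0 + w 1 - 1 with hη
  have hηp : 0 < η := by linarith
  set β : ℝ := η / (2 * (1 + η)) with hβ
  have hβp : 0 < β := by positivity
  have hβ1 : β * (1 + η) = η / 2 := by
    rw [hβ]; field_simp
  have hβ2 : β < 1 := by nlinarith
  refine ⟨![fn2 ![1, -β], fn2 ![-β, 1], fn2 ![-1, -1]], fun q hq => ?_⟩
  set a : ℝ := q (Pi.single 0 1) with ha
  set b : ℝ := q (Pi.single 1 1) with hb
  have hqx : ∀ x, q x = a * x 0 + b * x 1 := fun x => by rw [eq_fn2]; rfl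
  have ha1 : a ≤ 1 := hq _ (hL.single 0)
  have hb1 : b ≤ 1 := hq _ (hL.single 1)
  have ha2 : -1 ≤ a := by
    have := hq _ (hL.symm _ (hL.single 0)); rw [map_neg] at this; linarith
  have hb2 : -1 ≤ b := by
    have := hq _ (hL.symm _ (hL.single 1)); rw [map_neg] at this; linarith
  have hqw : a * w 0 + b * w 1 ≤ 1 := by rw [← hqx]; exact hq _ hw
  have hD0 : ∀ x : Fin 2 → ℝ, (fn2 ![1, -β]) x = x 0 - β * x 1 := fun x => by
    simp [dt]; ring
  have hD1 : ∀ x : Fin 2 → ℝ, (fn2 ![-β, 1]) x = x 1 - β * x 0 := fun x => by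
    simp [dt]; ring
  have hD2 : ∀ x : Fin 2 → ℝ, (fn2 ![-1, -1]) x = -x 0 - x 1 := fun x => by
    simp [dt]; ring
  -- the third functional
  have third : a ≤ 0 → b ≤ 0 → ∀ x ∈ L, q x = 1 → 0 < -x 0 - x 1 := by
    intro hA hB x hx hx1
    rw [hqx] at hx1
    by_contra hcon
    push Not at hcon
    have e0 := abs_le.1 (hL.le_one x hx 0)
    have e1 := abs_le.1 (hL.le_one x hx 1)
    have hm := abs_le.1 (hL.minor x hx w hw)
    rcases le_or_gt 0 (x 0) with hx0 | hx0
    · -- `x 1 = -1`, `x 0 = 1`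
      have f1 : a * x 0 ≤ 0 := mul_nonpos_of_nonpos_of_nonneg hA hx0
      have f2 : 1 ≤ b * x 1 := by linarith
      have f3 : x 1 ≤ -1 := by nlinarith
      have f4 : x 1 = -1 := le_antisymm f3 e1.1
      have f5 : x 0 = 1 := by linarith [e0.2]
      rw [f4, f5] at hm
      linarith [hm.1, hm.2]
    · have f1 : 0 < x 1 := by linarith
      have f2 : b * x 1 ≤ 0 := mul_nonpos_of_nonpos_of_nonneg hB f1.le
      have f3 : 1 ≤ a * x 0 := by linarith
      have f4 : x 0 ≤ -1 := by nlinarith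
      have f5 : x 0 = -1 := le_antisymm f4 e0.1
      have f6 : x 1 = 1 := by linarith [e1.2]
      rw [f5, f6] at hm
      linarith [hm.1, hm.2]
  -- failure of the first functional
  have fail0 : ∀ x ∈ L, q x = 1 → x 0 - β * x 1 ≤ 0 → 0 ≤ a → 1 - β ≤ b ∨ b = -1 ∧ a = 0 := by
    intro x hx hx1 hle hA
    rw [hqx] at hx1
    have e0 := abs_le.1 (hL.le_one x hx 0)
    have e1 := abs_le.1 (hL.le_one x hx 1)
    rcases lt_or_ge 0 (x 1) with hx1p | hx1n
    · left
      have f1 : a * x 0 ≤ a * (β * x 1) := mul_le_mul_of_nonneg_left (by linarith) hA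
      have f2 : a * (β * x 1) ≤ β * x 1 := by nlinarith [mul_pos hβp hx1p]
      -- `1 ≤ (β + b) x 1`
      have f3 : 1 ≤ (β + b) * x 1 := by nlinarith
      have f4 : 0 < β + b := by
        by_contra hcon
        push Not at hcon
        nlinarith
      nlinarith
    · right
      have f1 : x 0 ≤ 0 := by nlinarith
      have f2 : a * x 0 ≤ 0 := mul_nonpos_of_nonneg_of_nonpos hA f1
      have f3 : 1 ≤ b * x 1 := by linarith
      have f4 : x 1 < 0 := by
        rcases lt_or_eq_of_le hx1n with h | h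
        · exact h
        · rw [h] at f3; linarith
      have f5 : b < 0 := by
        by_contra hcon
        push Not at hcon
        nlinarith
      have f6 : b = -1 := by
        have : b ≤ -1 := by nlinarith
        linarith
      have f7 : x 1 = -1 := by
        have : x 1 ≤ -1 := by rw [f6] at f3; linarith
        linarith [e1.1]
      have f8 : x 0 < 0 := by
        rw [f7] at hle; linarith
      have f9 : a * x 0 = 0 := by
        have : b * x 1 = 1 := by rw [f6, f7]; norm_num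
        linarith
      exact ⟨f6, (mul_eq_zero.1 f9).resolve_right f8.ne⟩
  have fail1 : ∀ x ∈ L, q x = 1 → x 1 - β * x 0 ≤ 0 → 0 ≤ b → 1 - β ≤ a ∨ a = -1 ∧ b = 0 := by
    intro x hx hx1 hle hA
    rw [hqx] at hx1
    have e0 := abs_le.1 (hL.le_one x hx 0)
    have e1 := abs_le.1 (hL.le_one x hx 1)
    rcases lt_or_ge 0 (x 0) with hx1p | hx1n
    · left
      have f1 : b * x 1 ≤ b * (β * x 0) := mul_le_mul_of_nonneg_left (by linarith) hA
      have f2 : b * (β * x 0) ≤ β * x 0 := by nlinarith [mul_pos hβp hx1p]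
      have f3 : 1 ≤ (β + a) * x 0 := by nlinarith
      have f4 : 0 < β + a := by
        by_contra hcon
        push Not at hcon
        nlinarith
      nlinarith
    · right
      have f1 : x 1 ≤ 0 := by nlinarith
      have f2 : b * x 1 ≤ 0 := mul_nonpos_of_nonneg_of_nonpos hA f1
      have f3 : 1 ≤ a * x 0 := by linarith
      have f4 : x 0 < 0 := by
        rcases lt_or_eq_of_le hx1n with h | h
        · exact h
        · rw [h] at f3; linarith
      have f5 : a < 0 := by
        by_contra hcon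
        push Not at hcon
        nlinarith
      have f6 : a = -1 := by
        have : a ≤ -1 := by nlinarith
        linarith
      have f7 : x 0 = -1 := by
        have : x 0 ≤ -1 := by rw [f6] at f3; linarith
        linarith [e0.1]
      have f8 : x 1 < 0 := by
        rw [f7] at hle; linarith
      have f9 : b * x 1 = 0 := by
        have : a * x 0 = 1 := by rw [f6, f7]; norm_num
        linarith
      exact ⟨f6, (mul_eq_zero.1 f9).resolve_right f8.ne⟩
  by_cases hc2 : a ≤ 0 ∧ b ≤ 0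
  · refine ⟨2, fun x hx hx1 => ?_⟩
    show 0 < (fn2 ![-1, -1]) x
    rw [hD2]
    exact third hc2.1 hc2.2 x hx hx1
  by_cases hf0 : ∀ x ∈ L, q x = 1 → 0 < x 0 - β * x 1
  · refine ⟨0, fun x hx hx1 => ?_⟩
    show 0 < (fn2 ![1, -β]) x
    rw [hD0]
    exact hf0 x hx hx1
  by_cases hf1 : ∀ x ∈ L, q x = 1 → 0 < x 1 - β * x 0
  · refine ⟨1, fun x hx hx1 => ?_⟩
    show 0 < (fn2 ![-β, 1]) x
    rw [hD1]
    exact hf1 x hx hx1
  exfalso
  push Not at hf0 hf1
  obtain ⟨x, hx, hx1, hxle⟩ := hf0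
  obtain ⟨y, hy, hy1, hyle⟩ := hf1
  rcases le_or_gt 0 a with hA | hA
  · rcases fail0 x hx hx1 hxle hA with hb3 | ⟨hb3, ha3⟩
    · have hB : 0 ≤ b := by linarith
      rcases fail1 y hy hy1 hyle hB with ha4 | ⟨ha4, hb4⟩
      · -- `q w > 1`
        have g1 : (1 - β) * w 0 ≤ a * w 0 := mul_le_mul_of_nonneg_right ha4 h0
        have g2 : (1 - β) * w 1 ≤ b * w 1 := mul_le_mul_of_nonneg_right hb3 h1
        have g3 : w 0 + w 1 = 1 + η := by rw [hη]; ring
        nlinarith
      · linarith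
    · exact hc2 ⟨ha3.le, by rw [hb3]; norm_num⟩
  · have hB : 0 < b := by
      by_contra hcon
      push Not at hcon
      exact hc2 ⟨hA.le, hcon⟩
    rcases fail1 y hy hy1 hyle hB.le with ha4 | ⟨ha4, hb4⟩
    · linarith
    · linarith

/-- Coordinate signs. -/
noncomputable def sg (s : Fin 2 → ℝ) (hs : ∀ i, s i * s i = 1) :
    (Fin 2 → ℝ) ≃ₗ[ℝ] (Fin 2 → ℝ) where
  toFun x i := s i * x i
  invFun y i := s i * y i
  map_add' x y := by ext i; simp only [Pi.add_apply]; ring
  map_smul' c x := by ext i; simp only [Pi.smul_apply, smul_eq_mul, RingHom.id_apply]; ring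
  left_inv x := by
    ext j
    show s j * (s j * x j) = x j
    rw [← mul_assoc, hs, one_mul]
  right_inv y := by
    ext i
    show s i * (s i * y i) = y i
    rw [← mul_assoc, hs, one_mul]

theorem sg_apply (s : Fin 2 → ℝ) (hs : ∀ i, s i * s i = 1) (x : Fin 2 → ℝ) (i : Fin 2) :
    sg s hs x i = s i * x i := rfl

theorem preimage_compact (T : (Fin 2 → ℝ) ≃ₗ[ℝ] (Fin 2 → ℝ)) {L : Set (Fin 2 → ℝ)}
    (hL : IsCompact L) : IsCompact (T ⁻¹' L) := by
  have h1 : T ⁻¹' L = T.symm '' L := by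
    ext y
    constructor
    · intro hy; exact ⟨_, hy, by simp⟩
    · rintro ⟨x, hx, rfl⟩; simpa using hx
  rw [h1]
  exact hL.image T.symm.toLinearMap.continuous_of_finiteDimensional

theorem main {L : Set (Fin 2 → ℝ)} (hL : Nice2 L) (hw : ∃ w ∈ L, 1 < |w 0| + |w 1|) :
    Good3 L := by
  obtain ⟨w, hwL, hw1⟩ := hw
  have hex : ∀ t : ℝ, ∃ s : ℝ, s * s = 1 ∧ s * t = |t| := by
    intro t
    rcases le_total 0 t with h | h
    · exact ⟨1, by norm_num, by rw [abs_of_nonneg h, one_mul]⟩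
    · exact ⟨-1, by norm_num, by rw [abs_of_nonpos h]; ring⟩
  choose s hs1 hs2 using fun i => hex (w i)
  have habs : ∀ i (t : ℝ), |s i * t| = |t| := by
    intro i t
    have h1 : |s i| = 1 := by
      have : |s i| * |s i| = 1 := by rw [← abs_mul, hs1, abs_one]
      nlinarith [abs_nonneg (s i)]
    rw [abs_mul, h1, one_mul]
  have hsgn : s 0 * s 1 = 1 ∨ s 0 * s 1 = -1 := by
    have : (s 0 * s 1) * (s 0 * s 1) = 1 := by
      calc (s 0 * s 1) * (s 0 * s 1) = (s 0 * s 0) * (s 1 * s 1) := by ring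
        _ = 1 := by rw [hs1, hs1, one_mul]
    exact mul_self_eq_one_iff.1 this
  refine Good3.of_preimage (sg s hs1) ?_
  have hN : Nice2 ((sg s hs1) ⁻¹' L) := by
    refine ⟨preimage_compact _ hL.comp, ?_, ?_, ?_, ?_⟩
    · intro x hx
      rw [Set.mem_preimage, map_neg]; exact hL.symm _ hx
    · intro i
      rw [Set.mem_preimage]
      have h1 : sg s hs1 (Pi.single i 1) = s i • Pi.single i 1 := by
        ext j
        rw [sg_apply, Pi.smul_apply, smul_eq_mul]
        by_cases hj : j = i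
        · subst hj; rfl
        · rw [Pi.single_eq_of_ne hj, mul_zero, mul_zero]
      rw [h1]
      rcases mul_self_eq_one_iff.1 (hs1 i) with h | h
      · rw [h, one_smul]; exact hL.single i
      · rw [h, neg_one_smul]; exact hL.symm _ (hL.single i)
    · intro x hx i
      have := hL.le_one _ hx i
      rwa [sg_apply, habs] at this
    · intro x hx y hy
      have := hL.minor _ hx _ hy
      simp only [sg_apply] at this
      have e : s 0 * x 0 * (s 1 * y 1) - s 1 * x 1 * (s 0 * y 0) =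
          (s 0 * s 1) * (x 0 * y 1 - x 1 * y 0) := by ring
      rw [e, abs_mul] at this
      rcases hsgn with h | h
      · rwa [h, abs_one, one_mul] at this
      · rwa [h, abs_neg, abs_one, one_mul] at this
  refine main_pos hN (w := fun i => |w i|) ?_ (abs_nonneg _) (abs_nonneg _) hw1
  rw [Set.mem_preimage]
  have : sg s hs1 (fun i => |w i|) = w := by
    ext i
    rw [sg_apply, ← hs2, ← mul_assoc, hs1, one_mul]
  rw [this]; exact hwL

/-- The determinant. -/
def det2 (x y : Fin 2 → ℝ) : ℝ := x 0 * y 1 - x 1 * y 0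

/-- The linear map with the columns `a b`. -/
def cols2 (a b : Fin 2 → ℝ) : (Fin 2 → ℝ) →ₗ[ℝ] (Fin 2 → ℝ) where
  toFun x := x 0 • a + x 1 • b
  map_add' x y := by simp only [Pi.add_apply, add_smul]; abel
  map_smul' t x := by
    simp only [Pi.smul_apply, smul_eq_mul, RingHom.id_apply, smul_add, mul_smul]

theorem cols2_apply (a b x : Fin 2 → ℝ) : cols2 a b x = x 0 • a + x 1 • b := rfl

theorem det_cols0 (a b x : Fin 2 → ℝ) : det2 (cols2 a b x) b = x 0 * det2 a b := by
  simp only [det2, cols2_apply, Pi.add_apply, Pi.smul_apply, smul_eq_mul]; ring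

theorem det_cols1 (a b x : Fin 2 → ℝ) : det2 a (cols2 a b x) = x 1 * det2 a b := by
  simp only [det2, cols2_apply, Pi.add_apply, Pi.smul_apply, smul_eq_mul]; ring

theorem det_cols01 (a b x y : Fin 2 → ℝ) : det2 (cols2 a b x) (cols2 a b y) =
    (x 0 * y 1 - x 1 * y 0) * det2 a b := by
  simp only [det2, cols2_apply, Pi.add_apply, Pi.smul_apply, smul_eq_mul]; ring

theorem det_neg0 (a b : Fin 2 → ℝ) : det2 (-a) b = -det2 a b := by
  simp only [det2, Pi.neg_apply]; ring

theorem exists_nice {L : Set (Fin 2 → ℝ)} (hcomp : IsCompact L) (hsymm : ∀ x ∈ L, -x ∈ L)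
    {r : ℝ} (hr : 0 < r) (hsing : ∀ i, r • Pi.single i (1 : ℝ) ∈ L) :
    ∃ T : (Fin 2 → ℝ) ≃ₗ[ℝ] (Fin 2 → ℝ), Nice2 (T ⁻¹' L) := by
  obtain ⟨⟨a, b⟩, ⟨ha, hb⟩, hmax⟩ := (hcomp.prod hcomp).exists_isMaxOn
    ⟨(r • Pi.single 0 1, r • Pi.single 1 1), hsing 0, hsing 1⟩
    (f := fun p : (Fin 2 → ℝ) × (Fin 2 → ℝ) => det2 p.1 p.2)
    (by unfold det2; fun_prop)
  have hmax' : ∀ x ∈ L, ∀ y ∈ L, det2 x y ≤ det2 a b := fun x hx y hy =>
    hmax (show (x, y) ∈ L ×ˢ L from ⟨hx, hy⟩)
  have hpos : 0 < det2 a b := by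
    refine lt_of_lt_of_le ?_ (hmax' _ (hsing 0) _ (hsing 1))
    simp only [det2, Pi.smul_apply, smul_eq_mul]
    simp
    positivity
  have habs : ∀ x ∈ L, ∀ y ∈ L, |det2 x y| ≤ det2 a b := by
    intro x hx y hy
    rw [abs_le]
    have h1 := hmax' _ (hsymm x hx) y hy
    rw [det_neg0] at h1
    exact ⟨by linarith, hmax' x hx y hy⟩
  have hdiv : ∀ t : ℝ, |t * det2 a b| ≤ det2 a b → |t| ≤ 1 := by
    intro t ht
    rw [abs_mul, abs_of_pos hpos] at ht
    by_contra hcon
    have := not_le.1 hcon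
    nlinarith
  have hinj : Function.Injective (cols2 a b) := by
    rw [← LinearMap.ker_eq_bot, LinearMap.ker_eq_bot']
    intro x hx
    have h0 := det_cols0 a b x
    have h1 := det_cols1 a b x
    rw [hx] at h0 h1
    have e0 : det2 (0 : Fin 2 → ℝ) b = 0 := by simp [det2]
    have e1 : det2 a (0 : Fin 2 → ℝ) = 0 := by simp [det2]
    rw [e0] at h0
    rw [e1] at h1
    have f0 : x 0 = 0 := (mul_eq_zero.1 h0.symm).resolve_right hpos.ne'
    have f1 : x 1 = 0 := (mul_eq_zero.1 h1.symm).resolve_right hpos.ne'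
    ext i
    fin_cases i
    · exact f0
    · exact f1
  set T : (Fin 2 → ℝ) ≃ₗ[ℝ] (Fin 2 → ℝ) :=
    LinearEquiv.ofInjectiveEndo (cols2 a b) hinj with hT
  have hTa : ∀ x, T x = cols2 a b x := fun x => rfl
  refine ⟨T, preimage_compact T hcomp, ?_, ?_, ?_, ?_⟩
  · intro x hx
    rw [Set.mem_preimage, map_neg]; exact hsymm _ hx
  · intro i
    rw [Set.mem_preimage, hTa, cols2_apply]
    fin_cases i
    · simpa using ha
    · simpa using hb
  · intro x hx i
    have hx' : cols2 a b x ∈ L := hx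
    have m0 : |x 0| ≤ 1 := hdiv _ (by rw [← det_cols0]; exact habs _ hx' _ hb)
    have m1 : |x 1| ≤ 1 := hdiv _ (by rw [← det_cols1]; exact habs _ ha _ hx')
    fin_cases i
    · exact m0
    · exact m1
  · intro x hx y hy
    have hx' : cols2 a b x ∈ L := hx
    have hy' : cols2 a b y ∈ L := hy
    exact hdiv _ (by rw [← det_cols01]; exact habs _ hx' _ hy')

/-- The polar. -/
def polar2 (K : Set (Fin 2 → ℝ)) : Set (Fin 2 → ℝ) := {x | ∀ y ∈ K, dt x y ≤ 1}

theorem dt_comm (x y : Fin 2 → ℝ) : dt x y = dt y x := by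
  simp only [dt]; ring

theorem dt_neg_left (x y : Fin 2 → ℝ) : dt (-x) y = -dt x y := by
  simp only [dt, Pi.neg_apply]; ring

theorem dt_neg_right (x y : Fin 2 → ℝ) : dt x (-y) = -dt x y := by
  simp only [dt, Pi.neg_apply]; ring

theorem dt_add_left (x y z : Fin 2 → ℝ) : dt (x + y) z = dt x z + dt y z := by
  simp only [dt, Pi.add_apply]; ring

theorem dt_smul_left (t : ℝ) (x z : Fin 2 → ℝ) : dt (t • x) z = t * dt x z := by
  simp only [dt, Pi.smul_apply, smul_eq_mul]; ring

theorem dt_smul_right (t : ℝ) (x z : Fin 2 → ℝ) : dt x (t • z) = t * dt x z := by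
  simp only [dt, Pi.smul_apply, smul_eq_mul]; ring

theorem dt_single (x : Fin 2 → ℝ) (i : Fin 2) : dt x (Pi.single i 1) = x i := by
  fin_cases i <;> simp [dt]

theorem isClosed_polar (K : Set (Fin 2 → ℝ)) : IsClosed (polar2 K) := by
  have : polar2 K = ⋂ y ∈ K, {x | dt x y ≤ 1} := by
    ext x; simp [polar2]
  rw [this]
  refine isClosed_biInter fun y _ => isClosed_le ?_ continuous_const
  unfold dt; fun_prop

theorem isCompact_polar {K : Set (Fin 2 → ℝ)} (h0 : (0 : Fin 2 → ℝ) ∈ interior K) :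
    IsCompact (polar2 K) := by
  obtain ⟨r, hr, hball⟩ := Metric.mem_nhds_iff.1 (mem_interior_iff_mem_nhds.1 h0)
  refine Metric.isCompact_of_isClosed_isBounded (isClosed_polar K) ?_
  refine (Metric.isBounded_closedBall (x := (0 : Fin 2 → ℝ)) (r := 2 / r)).subset fun x hx => ?_
  rw [mem_closedBall_zero_iff, pi_norm_le_iff_of_nonneg (by positivity)]
  intro i
  have hmem : ∀ s : ℝ, |s| = 1 → (r / 2 * s) • Pi.single i (1 : ℝ) ∈ K := by
    intro s hs
    refine hball ?_
    rw [mem_ball_zero_iff, norm_smul, Real.norm_eq_abs, abs_mul, hs, mul_one,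
      abs_of_pos (by positivity), Pi.norm_single, norm_one, mul_one]
    linarith
  have h1 := hx _ (hmem 1 (by norm_num))
  have h2 := hx _ (hmem (-1) (by norm_num))
  rw [dt_smul_right, dt_single] at h1 h2
  rw [Real.norm_eq_abs, abs_le, le_div_iff₀ hr, ← neg_div, div_le_iff₀ hr]
  constructor <;> linarith

theorem polar_symm {K : Set (Fin 2 → ℝ)} (hs : ∀ x ∈ K, -x ∈ K) :
    ∀ x ∈ polar2 K, -x ∈ polar2 K := by
  intro x hx y hy
  rw [dt_neg_left, ← dt_neg_right]
  exact hx _ (hs y hy)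

theorem bipolar {K : Set (Fin 2 → ℝ)} (hc : Convex ℝ K) (hcl : IsClosed K)
    (h0 : (0 : Fin 2 → ℝ) ∈ K) {y : Fin 2 → ℝ} (hy : ∀ x ∈ polar2 K, dt x y ≤ 1) : y ∈ K := by
  by_contra hyK
  obtain ⟨f, u, h1, h2⟩ := geometric_hahn_banach_closed_point hc hcl hyK
  have hu : 0 < u := by have := h1 0 h0; rwa [map_zero] at this
  have hf : ∀ z, f z = dt (fun i => f (Pi.single i 1)) z := fun z => eq_fn2 f.toLinearMap z
  set g : Fin 2 → ℝ := fun i => f (Pi.single i 1) with hg
  have h3 : u⁻¹ • g ∈ polar2 K := by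
    intro z hz
    rw [dt_smul_left, ← hf, inv_mul_le_iff₀ hu, mul_one]
    exact (h1 z hz).le
  have h4 := hy _ h3
  rw [dt_smul_left, ← hf, inv_mul_le_iff₀ hu, mul_one] at h4
  linarith

theorem continuous_dt : Continuous fun p : (Fin 2 → ℝ) × (Fin 2 → ℝ) => dt p.1 p.2 := by
  unfold dt; fun_prop

theorem lit_of_pos {K : Set (Fin 2 → ℝ)} (hc : Convex ℝ K) (hcl : IsClosed K)
    (h0 : (0 : Fin 2 → ℝ) ∈ interior K) {y d : Fin 2 → ℝ} (hy : y ∈ K)
    (hd : ∀ x ∈ polar2 K, dt y x = 1 → 0 < dt d x) :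
    ∃ t : ℝ, 0 < t ∧ y + t • (-d) ∈ interior K := by
  have hL := isCompact_polar h0
  have hint : ∀ z : Fin 2 → ℝ, (∀ x ∈ polar2 K, dt z x < 1) → z ∈ interior K := by
    intro z hz
    rw [mem_interior_iff_mem_nhds]
    have h1 : ∀ᶠ z' in 𝓝 z, ∀ x ∈ polar2 K, dt z' x < 1 := by
      refine hL.eventually_forall_of_forall_eventually fun x hx => ?_
      exact continuous_dt.continuousAt.eventually_lt_const (hz x hx)
    filter_upwards [h1] with z' hz'
    exact bipolar hc hcl (interior_subset h0) fun x hx => by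
      rw [dt_comm]; exact (hz' x hx).le
  have h2 : ∀ᶠ t in 𝓝 (0 : ℝ), ∀ x ∈ polar2 K, 0 < t → x ∈ polar2 K →
      dt (y + t • (-d)) x < 1 := by
    refine hL.eventually_forall_of_forall_eventually
      (P := fun (t : ℝ) (x : Fin 2 → ℝ) => 0 < t → x ∈ polar2 K → dt (y + t • (-d)) x < 1)
      fun x hx => ?_
    have hle : dt y x ≤ 1 := by rw [dt_comm]; exact hx y hy
    rcases hle.lt_or_eq with hlt | heq
    · have hcont : Continuous fun p : ℝ × (Fin 2 → ℝ) => dt (y + p.1 • (-d)) p.2 := by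
        unfold dt; fun_prop
      have h3 : (fun p : ℝ × (Fin 2 → ℝ) => dt (y + p.1 • (-d)) p.2) (0, x) < 1 := by
        simpa using hlt
      filter_upwards [hcont.continuousAt.eventually_lt_const h3] with p hp _ _
      exact hp
    · have hcont : Continuous fun p : ℝ × (Fin 2 → ℝ) => dt d p.2 := by
        unfold dt; fun_prop
      have h3 : 0 < (fun p : ℝ × (Fin 2 → ℝ) => dt d p.2) (0, x) := hd x hx heq
      filter_upwards [hcont.continuousAt.eventually_const_lt h3] with p hp hp0 hpL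
      rw [dt_add_left, dt_smul_left, dt_neg_left]
      have h4 : dt y p.2 ≤ 1 := by rw [dt_comm]; exact hpL y hy
      have h5 : 0 < p.1 * dt d p.2 := mul_pos hp0 hp
      linarith
  have h3 : ∀ᶠ t in 𝓝[>] (0 : ℝ), y + t • (-d) ∈ interior K := by
    filter_upwards [h2.filter_mono nhdsWithin_le_nhds, self_mem_nhdsWithin] with t ht ht0
    exact hint _ fun x hx => ht x hx ht0 hx
  obtain ⟨t, ht, ht0⟩ := (h3.and self_mem_nhdsWithin).exists
  exact ⟨t, ht0, ht⟩

end PLANE

open PLANE in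
theorem blk_PLANE : Stmt_PLANE := by
  classical
  intro K hK hnp
  have hc := hK.conv
  have hcomp := hK.comp
  have hs := hK.symm
  have h0 : (0 : Fin 2 → ℝ) ∈ interior K := zero_mem_interior hc hs hK.int
  have hL := PLANE.isCompact_polar h0
  have hLs := PLANE.polar_symm hs
  obtain ⟨R, hR⟩ := hcomp.isBounded.subset_closedBall (0 : Fin 2 → ℝ)
  have hR1 : 0 < max R 1 := lt_of_lt_of_le one_pos (le_max_right _ _)
  have hsing : ∀ i, (max R 1)⁻¹ • Pi.single i (1 : ℝ) ∈ polar2 K := by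
    intro i y hy
    rw [dt_smul_left, dt_comm, dt_single, inv_mul_le_iff₀ hR1, mul_one]
    have h1 := hR hy
    rw [mem_closedBall_zero_iff] at h1
    exact (le_abs_self _).trans ((norm_le_pi_norm y i).trans (h1.trans (le_max_left _ _)))
  obtain ⟨T, hT⟩ := PLANE.exists_nice hL hLs (inv_pos.2 hR1) hsing
  have hne : ∃ x ∈ T ⁻¹' polar2 K, 1 < |x 0| + |x 1| := by
    by_contra hcon
    push Not at hcon
    refine hnp ?_
    set S₀ : (Fin 2 → ℝ) →ₗ[ℝ] (Fin 2 → ℝ) :=
      LinearMap.pi fun i => fn2 (T (Pi.single i 1)) with hS₀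
    have hS₀a : ∀ y i, S₀ y i = dt (T (Pi.single i 1)) y := fun y i => rfl
    have hrep : ∀ x y : Fin 2 → ℝ, dt (T x) y = x 0 * S₀ y 0 + x 1 * S₀ y 1 := by
      intro x y
      have h : x = x 0 • Pi.single (0 : Fin 2) (1 : ℝ) + x 1 • Pi.single (1 : Fin 2) (1 : ℝ) := by
        ext i
        fin_cases i <;> simp
      conv_lhs => rw [h]
      simp only [map_add, map_smul, dt_add_left, dt_smul_left, hS₀a]
    have hinj : Function.Injective S₀ := by
      rw [← LinearMap.ker_eq_bot, LinearMap.ker_eq_bot']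
      intro y hy
      have h1 : ∀ x, dt x y = 0 := by
        intro x
        have h2 := hrep (T.symm x) y
        rw [hy] at h2
        simpa using h2
      ext i
      rw [← dt_single y i, dt_comm]
      exact h1 _
    refine ⟨LinearEquiv.ofInjectiveEndo S₀ hinj, ?_⟩
    have hSa : ∀ y, LinearEquiv.ofInjectiveEndo S₀ hinj y = S₀ y := fun y => rfl
    ext y
    simp only [Set.mem_ofPred_eq, hSa]
    constructor
    · intro hy i
      rw [hS₀a, abs_le]
      have h1 : dt (T (Pi.single i 1)) y ≤ 1 := hT.single i y hy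
      have h2 : dt (T (Pi.single i 1)) (-y) ≤ 1 := hT.single i _ (hs y hy)
      rw [dt_neg_right] at h2
      exact ⟨by linarith, h1⟩
    · intro hy
      refine PLANE.bipolar hc hcomp.isClosed (interior_subset h0) fun x hx => ?_
      have h1 : T (T.symm x) = x := by simp
      rw [← h1, hrep]
      have h2 := hcon (T.symm x) (by rw [Set.mem_preimage, h1]; exact hx)
      have h3 : ∀ a b : ℝ, |b| ≤ 1 → a * b ≤ |a| := by
        intro a b hb
        calc a * b ≤ |a * b| := le_abs_self _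
          _ = |a| * |b| := abs_mul _ _
          _ ≤ |a| * 1 := mul_le_mul_of_nonneg_left hb (abs_nonneg _)
          _ = |a| := mul_one _
      have a0 := h3 (T.symm x 0) _ (hy 0)
      have a1 := h3 (T.symm x 1) _ (hy 1)
      linarith
  obtain ⟨D, hD⟩ := Good3.of_preimage T (PLANE.main hT hne)
  refine ⟨Finset.univ.image fun k : Fin 3 => -(fun i => D k (Pi.single i 1)), ?_, ?_⟩
  · exact Finset.card_image_le.trans (by simp)
  intro y hy
  obtain ⟨k, hk⟩ := hD (fn2 y) (fun x hx => by rw [fn2_apply, dt_comm]; exact hx y hy)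
  refine ⟨-(fun i => D k (Pi.single i 1)), Finset.mem_image_of_mem _ (Finset.mem_univ k), ?_⟩
  exact PLANE.lit_of_pos hc hcomp.isClosed h0 hy fun x hx hxy => by
    rw [← eq_fn2]; exact hk x hx hxy

end Pool.Agent.Core7
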