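import Pool.Agent.Work.MP_80156a_core7.R_BOOK

/-!
# MP_80156a, CORE7: block RED (the induction on the dimension)
-/

set_option autoImplicit false

namespace Pool.Agent.Core7

open Pool.Agent.Work.MP_80156a_co

/-- transfer of regular points -/
theorem reg_transfer {V W : Type*} [AddCommGroup V] [Module ℝ V] [AddCommGroup W] [Module ℝ W]
    (T : V ≃ₗ[ℝ] W) {K : Set W} {w : V} {F : V →ₗ[ℝ] ℝ} (h : Reg (T ⁻¹' K) w F) :
    Reg K (T w) (F.comp T.symm.toLinearMap) := by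
  refine ⟨h.1, fun z hz => ?_, fun ζ hζ => ?_⟩
  · have h1 := h.2.1 (T.symm z) (by rw [Set.mem_preimage, LinearEquiv.apply_symm_apply]; exact hz)
    simpa using h1
  · obtain ⟨τ, hτ, h1⟩ := h.2.2 (T.symm ζ) (by simpa using hζ)
    refine ⟨τ, hτ, fun t ht ht' => ?_⟩
    have h2 := h1 t ht ht'
    rw [Set.mem_preimage, map_add, map_smul, LinearEquiv.apply_symm_apply] at h2
    exact h2

theorem fnd_single_red {d : ℕ} (u : Fin d → ℝ) (i : Fin d) : fnd u (Pi.single i 1) = u i := by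
  classical
  rw [fnd_apply, Finset.sum_eq_single i]
  · simp
  · intro j _ hj; simp [hj]
  · intro h; exact absurd (Finset.mem_univ i) h

/-- the books in all coordinates -/
theorem red_book (hMAT : Stmt_MAT) (hCIR : Stmt_CIR) (hBAS : Stmt_BAS) (hCON : Stmt_CON)
    (hBOOK : Stmt_BOOK) (hTRA : Stmt_TRA) {d : ℕ} (hd : 4 ≤ d) {K : Set (Fin d → ℝ)}
    (hK : Body K) (hHP : HP K 4) (hD : ¬ Dec K) : LitNum K (2 ^ (d - 1) + 2) := by
  classical
  obtain ⟨T, hT⟩ := hBAS d K hK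
  obtain ⟨t1, t2, t3, -, t5⟩ := hTRA d T K
  refine t5 _ ?_
  have hK' := t1 hK
  have hD' : ¬ Dec (T ⁻¹' K) := fun h => hD (t3 h)
  have hHP' := t2 4 hHP
  generalize T ⁻¹' K = K' at *
  obtain ⟨i₀, p, hp, hN⟩ := hMAT d (Nor K') hd (hCIR d K' hK' hHP' hT) (hCON d K' hK' hD')
  -- the new coordinates
  set T₀ : (Fin d → ℝ) →ₗ[ℝ] (Fin d → ℝ) := LinearMap.id +
    (fnd p - LinearMap.proj i₀).smulRight (Pi.single i₀ (1 : ℝ)) with hT₀
  have hTi : ∀ z, T₀ z i₀ = fnd p z := by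
    intro z; simp [hT₀]
  have hTl : ∀ z l, l ≠ i₀ → T₀ z l = z l := by
    intro z l hl; simp [hT₀, hl]
  have hinj : Function.Injective T₀ := by
    rw [← LinearMap.ker_eq_bot, LinearMap.ker_eq_bot']
    intro z hz
    have h1 : ∀ l, l ≠ i₀ → z l = 0 := fun l hl => by rw [← hTl z l hl, hz]; rfl
    have h2 : fnd p z = 0 := by rw [← hTi z, hz]; rfl
    have h3 : z = z i₀ • Pi.single i₀ 1 := by
      ext l
      by_cases hl : l = i₀
      · subst hl; simp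
      · simp [hl, h1 l hl]
    rw [h3, map_smul, fnd_single_red, smul_eq_mul] at h2
    have h4 : z i₀ = 0 := (mul_eq_zero.1 h2).resolve_right hp
    rw [h3, h4, zero_smul]
  set S := LinearEquiv.ofInjectiveEndo T₀ hinj with hS
  have hSi : ∀ z, S z i₀ = fnd p z := hTi
  have hSl : ∀ z l, l ≠ i₀ → S z l = z l := hTl
  obtain ⟨s1, s2, s3, -, s5⟩ := hTRA d S.symm K'
  refine s5 _ (hBOOK d _ (by omega) (s1 hK') (fun h => hD' (s3 h)) i₀ ?_)
  rintro f ⟨w, hw⟩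
  have h1 := reg_transfer S.symm hw
  rw [eq_fnd ((fnd f).comp S.symm.symm.toLinearMap)] at h1
  obtain ⟨j, hj, s, t, hst⟩ := hN _ ⟨_, h1⟩
  refine ⟨j, hj, fun l hl hlj => ?_⟩
  have h2 : fnd f (Pi.single l 1) =
      ((fnd f).comp S.symm.symm.toLinearMap) (S.symm (Pi.single l 1)) := by simp
  rw [fnd_single_red, eq_fnd ((fnd f).comp S.symm.symm.toLinearMap), hst] at h2
  have h3 : fnd (s • p + t • Pi.single j 1) (S.symm (Pi.single l 1)) =
      s * fnd p (S.symm (Pi.single l 1)) + t * (S.symm (Pi.single l 1)) j := by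
    rw [fnd_apply, fnd_apply, Finset.mul_sum]
    have h4 : t * (S.symm (Pi.single l 1) : Fin d → ℝ) j =
        ∑ k, t * ((Pi.single j 1 : Fin d → ℝ) k * (S.symm (Pi.single l 1) : Fin d → ℝ) k) := by
      rw [← Finset.mul_sum, Finset.sum_eq_single j]
      · simp
      · intro k _ hk; simp [hk]
      · intro h; exact absurd (Finset.mem_univ j) h
    rw [h4, ← Finset.sum_add_distrib]
    refine Finset.sum_congr rfl fun k _ => ?_
    simp only [Pi.add_apply, Pi.smul_apply, smul_eq_mul]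
    ring
  rw [h3, ← hSi, ← hSl (S.symm (Pi.single l 1)) j hj, LinearEquiv.apply_symm_apply] at h2
  rw [h2]
  simp [Ne.symm hl, Ne.symm hlj]

theorem blk_RED (far : FarStmt) (hMAT : Stmt_MAT) (hCIR : Stmt_CIR) (hBAS : Stmt_BAS)
    (hCON : Stmt_CON) (hBOOK : Stmt_BOOK) (hPLANE : Stmt_PLANE) (hPARL : Stmt_PARL)
    (hDEC : Stmt_DEC) (hPROD : Stmt_PROD) (hTRA : Stmt_TRA) (hONE : Stmt_ONE) : Stmt_RED := by
  classical
  intro d
  induction d using Nat.strong_induction_on with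
  | _ d ih =>
  intro K hK hHP
  by_cases hDec : Dec K
  · obtain ⟨d₁, d₂, hsum, T, K₁, K₂, h1, h2, hK₁, hK₂, rfl⟩ := hDEC d K hK hDec
    obtain ⟨p1, p2, p3⟩ := hPROD d d₁ d₂ hsum T K₁ K₂ hK₁ hK₂
    obtain ⟨hHP₁, hHP₂⟩ := p1 4 hHP
    have hpow : 2 ^ d = 2 ^ d₁ * 2 ^ d₂ := by rw [← pow_add, hsum]
    rcases ih d₁ (by omega) K₁ hK₁ hHP₁ with a1 | ⟨m₁, a1, a2⟩ <;>
      rcases ih d₂ (by omega) K₂ hK₂ hHP₂ with b1 | ⟨m₂, b1, b2⟩
    · exact Or.inl (p3 a1 b1)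
    · refine Or.inr ⟨2 ^ d₁ * m₂, ?_, p2 _ _ (hPARL d₁ K₁ a1).1 b2⟩
      rw [hpow]
      calc 8 * (2 ^ d₁ * m₂) = 2 ^ d₁ * (8 * m₂) := by ring
        _ ≤ 2 ^ d₁ * (7 * 2 ^ d₂) := Nat.mul_le_mul_left _ b1
        _ = 7 * (2 ^ d₁ * 2 ^ d₂) := by ring
    · refine Or.inr ⟨m₁ * 2 ^ d₂, ?_, p2 _ _ a2 (hPARL d₂ K₂ b1).1⟩
      rw [hpow]
      calc 8 * (m₁ * 2 ^ d₂) = (8 * m₁) * 2 ^ d₂ := by ring
        _ ≤ (7 * 2 ^ d₁) * 2 ^ d₂ := Nat.mul_le_mul_right _ a1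
        _ = 7 * (2 ^ d₁ * 2 ^ d₂) := by ring
    · refine Or.inr ⟨m₁ * m₂, ?_, p2 _ _ a2 b2⟩
      have h3 : m₂ ≤ 2 ^ d₂ := by omega
      rw [hpow]
      calc 8 * (m₁ * m₂) = (8 * m₁) * m₂ := by ring
        _ ≤ (7 * 2 ^ d₁) * 2 ^ d₂ := Nat.mul_le_mul a1 h3
        _ = 7 * (2 ^ d₁ * 2 ^ d₂) := by ring
  by_cases hPar : Par K
  · exact Or.inl hPar
  rcases Nat.lt_or_ge d 4 with hd | hd
  · interval_cases d
    · -- dimension zero
      refine Or.inl ⟨LinearEquiv.refl ℝ _, ?_⟩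
      obtain ⟨x, hx⟩ := hK.int
      ext y
      simp only [Set.mem_ofPred_eq]
      constructor
      · intro _ i; exact i.elim0
      · intro _
        have : y = x := Subsingleton.elim _ _
        rw [this]; exact interior_subset hx
    · exact Or.inl (hONE K hK)
    · exact Or.inr ⟨3, by norm_num, hPLANE K hK hPar⟩
    · obtain ⟨D, hD⟩ := core7 far hK.conv hK.comp hK.symm hK.int hPar
      refine Or.inr ⟨7, by norm_num, Finset.univ.image D, ?_, fun z hz => ?_⟩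
      · exact Finset.card_image_le.trans (by simp)
      · obtain ⟨k, t, ht, h⟩ := hD z hz
        exact ⟨D k, Finset.mem_image_of_mem _ (Finset.mem_univ _), t, ht, h⟩
  · refine Or.inr ⟨2 ^ (d - 1) + 2, ?_, red_book hMAT hCIR hBAS hCON hBOOK hTRA hd hK hHP hDec⟩
    obtain ⟨n, rfl⟩ : ∃ n, d = n + 4 := ⟨d - 4, by omega⟩
    have h1 : n + 4 - 1 = n + 3 := by omega
    have h2 : 1 ≤ 2 ^ n := Nat.one_le_two_pow
    rw [h1, pow_add, pow_add]
    omega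

end Pool.Agent.Core7
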