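import Pool.Agent.Work.MP_80156a_core7.Red

/-!
# MP_80156a, CORE7-R, block TRA: linear changes of coordinates
-/

set_option autoImplicit false

namespace Pool.Agent.Core7

open Pool.Agent.Work.MP_80156a_co

theorem tra_interior {d : ℕ} (T : (Fin d → ℝ) ≃ₗ[ℝ] (Fin d → ℝ)) (K : Set (Fin d → ℝ)) :
    T ⁻¹' (interior K) = interior (T ⁻¹' K) := by
  have h := T.toContinuousLinearEquiv.toHomeomorph.preimage_interior K
  simpa using h

theorem tra_body {d : ℕ} (T : (Fin d → ℝ) ≃ₗ[ℝ] (Fin d → ℝ)) {K : Set (Fin d → ℝ)}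
    (hK : Body K) : Body (T ⁻¹' K) where
  conv := hK.conv.linear_preimage T.toLinearMap
  comp := by
    have h := T.toContinuousLinearEquiv.toHomeomorph.isCompact_preimage.2 hK.comp
    simpa using h
  int := by
    obtain ⟨x, hx⟩ := hK.int
    refine ⟨T.symm x, ?_⟩
    rw [← tra_interior]
    simpa using hx
  symm := fun x hx => by
    have h := hK.symm (T x) hx
    simpa using h

theorem blk_TRA : Stmt_TRA := by
  intro d T K
  refine ⟨tra_body T, fun n h => ?_, ?_, ?_, ?_⟩
  · have h2 := h.transfer T.toAddEquiv (0 : Fin d → ℝ)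
    have h3 : {x : Fin d → ℝ | (0 : Fin d → ℝ) + T.toAddEquiv x ∈ K} = T ⁻¹' K := by
      ext x
      simp
    rwa [h3] at h2
  · rintro ⟨T1, J, h1, h2, h3⟩
    refine ⟨T.symm.trans T1, J, h1, h2, fun x hx y hy z hz1 hz2 => ?_⟩
    have h4 := h3 (T.symm x) (by simpa using hx) (T.symm y) (by simpa using hy) (T.symm z)
      (by simpa using hz1) (by simpa using hz2)
    simpa using h4
  · rintro ⟨S, hS⟩
    refine ⟨T.symm.trans S, ?_⟩
    ext y
    have h := Set.ext_iff.1 hS (T.symm y)
    simpa using h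
  · rintro m ⟨D, hD, h⟩
    classical
    refine ⟨D.image T, Finset.card_image_le.trans hD, fun z hz => ?_⟩
    obtain ⟨v, hv, t, ht, h2⟩ := h (T.symm z) (by simpa using hz)
    refine ⟨T v, Finset.mem_image_of_mem T hv, t, ht, ?_⟩
    rw [← tra_interior] at h2
    simpa using h2

end Pool.Agent.Core7
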