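import Pool.Agent.Work.MP_80156a_core7.GCore
import Pool.Agent.Work.MP_80156a_core7.R_RED
import Pool.Agent.Work.MP_80156a_core7.R_MAT
import Pool.Agent.Work.MP_80156a_core7.R_CIR
import Pool.Agent.Work.MP_80156a_core7.R_BAS
import Pool.Agent.Work.MP_80156a_core7.R_CON
import Pool.Agent.Work.MP_80156a_core7.R_PLANE
import Pool.Agent.Work.MP_80156a_core7.R_PARL
import Pool.Agent.Work.MP_80156a_core7.R_DEC
import Pool.Agent.Work.MP_80156a_core7.R_PROD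
import Pool.Agent.Work.MP_80156a_core7.R_TRA
import Pool.Agent.Work.MP_80156a_core7.R_ONE
import Pool.Agent.Work.MP_80156a_core7.R_FINAL

/-!
# MP_80156a, CORE7: the final theorem from `Core7Stmt`
-/

set_option autoImplicit false

namespace Pool.Agent.Core7

open Pool.Agent.Work.MP_80156a_co

/-- The reduction with CORE7 as the hypothesis. -/
theorem blk_RED_of (hcore : Core7Stmt) (hMAT : Stmt_MAT) (hCIR : Stmt_CIR) (hBAS : Stmt_BAS)
    (hCON : Stmt_CON) (hBOOK : Stmt_BOOK) (hPLANE : Stmt_PLANE) (hPARL : Stmt_PARL)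
    (hDEC : Stmt_DEC) (hPROD : Stmt_PROD) (hTRA : Stmt_TRA) (hONE : Stmt_ONE) : Stmt_RED := by
  classical
  intro d
  induction d using Nat.strong_induction_on with
  | _ d ih =>
  intro K hK hHP
  by_cases hDec : Dec K
  · obtain ⟨d₁, d₂, hsum, T, K₁, K₂, h1, h2, hK₁, hK₂, rfl⟩ := hDEC d K hK hDec
    obtain ⟨p1, p2, p3⟩ := hPROD d d₁ d₂ hsum T K₁ K₂ hK₁ hK₂
    obtain ⟨hHP₁, hHP₂⟩ := p1 4 hHP
    have hpow : 2 ^ d = 2 ^ d₁ * 2 ^ d₂ := by rw [← pow_add, hsum]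
    rcases ih d₁ (by omega) K₁ hK₁ hHP₁ with a1 | ⟨m₁, a1, a2⟩ <;>
      rcases ih d₂ (by omega) K₂ hK₂ hHP₂ with b1 | ⟨m₂, b1, b2⟩
    · exact Or.inl (p3 a1 b1)
    · refine Or.inr ⟨2 ^ d₁ * m₂, ?_, p2 _ _ (hPARL d₁ K₁ a1).1 b2⟩
      rw [hpow]
      calc 8 * (2 ^ d₁ * m₂) = 2 ^ d₁ * (8 * m₂) := by ring
        _ ≤ 2 ^ d₁ * (7 * 2 ^ d₂) := Nat.mul_le_mul_left _ b1
        _ = 7 * (2 ^ d₁ * 2 ^ d₂) := by ring
    · refine Or.inr ⟨m₁ * 2 ^ d₂, ?_, p2 _ _ a2 (hPARL d₂ K₂ b1).1⟩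
      rw [hpow]
      calc 8 * (m₁ * 2 ^ d₂) = (8 * m₁) * 2 ^ d₂ := by ring
        _ ≤ (7 * 2 ^ d₁) * 2 ^ d₂ := Nat.mul_le_mul_right _ a1
        _ = 7 * (2 ^ d₁ * 2 ^ d₂) := by ring
    · refine Or.inr ⟨m₁ * m₂, ?_, p2 _ _ a2 b2⟩
      have h3 : m₂ ≤ 2 ^ d₂ := by omega
      rw [hpow]
      calc 8 * (m₁ * m₂) = (8 * m₁) * m₂ := by ring
        _ ≤ (7 * 2 ^ d₁) * 2 ^ d₂ := Nat.mul_le_mul a1 h3
        _ = 7 * (2 ^ d₁ * 2 ^ d₂) := by ring
  by_cases hPar : Par K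
  · exact Or.inl hPar
  rcases Nat.lt_or_ge d 4 with hd | hd
  · interval_cases d
    · -- dimension zero
      refine Or.inl ⟨LinearEquiv.refl ℝ _, ?_⟩
      obtain ⟨x, hx⟩ := hK.int
      ext y
      simp only [Set.mem_ofPred_eq]
      constructor
      · intro _ i; exact i.elim0
      · intro _
        have : y = x := Subsingleton.elim _ _
        rw [this]; exact interior_subset hx
    · exact Or.inl (hONE K hK)
    · exact Or.inr ⟨3, by norm_num, hPLANE K hK hPar⟩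
    · obtain ⟨D, hD⟩ := hcore hK.conv hK.comp hK.symm hK.int hPar
      refine Or.inr ⟨7, by norm_num, Finset.univ.image D, ?_, fun z hz => ?_⟩
      · exact Finset.card_image_le.trans (by simp)
      · obtain ⟨k, t, ht, h⟩ := hD z hz
        exact ⟨D k, Finset.mem_image_of_mem _ (Finset.mem_univ _), t, ht, h⟩
  · refine Or.inr ⟨2 ^ (d - 1) + 2, ?_, red_book hMAT hCIR hBAS hCON hBOOK hTRA hd hK hHP hDec⟩
    obtain ⟨n, rfl⟩ : ∃ n, d = n + 4 := ⟨d - 4, by omega⟩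
    have h1 : n + 4 - 1 = n + 3 := by omega
    have h2 : 1 ≤ 2 ^ n := Nat.one_le_two_pow
    rw [h1, pow_add, pow_add]
    omega

/-- The block RED from `Core7Stmt`. -/
theorem red_of_core (hcore : Core7Stmt) : Stmt_RED :=
  blk_RED_of hcore blk_MAT blk_CIR blk_BAS blk_CON blk_BOOK blk_PLANE blk_PARL blk_DEC blk_PROD
    blk_TRA blk_ONE

/-- The question, from `Core7Stmt`. -/
theorem final_of_core (hcore : Core7Stmt) {d : ℕ} (hd : 3 ≤ d)
    {K : Set (EuclideanSpace ℝ (Fin d))} (hconv : Convex ℝ K) (hcomp : IsCompact K)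
    (hint : (interior K).Nonempty) (o : EuclideanSpace ℝ (Fin d)) (hsymm : ∀ x ∈ K, o + o - x ∈ K)
    (hHP : HP K 4) (hnHP : ¬ HP K 3) :
    ∃ L : Finset (EuclideanSpace ℝ (Fin d)), L.card ≤ 2 ^ d - 2 ^ (d - 3) ∧
      ∀ x ∈ K, ∃ v ∈ L, ∃ t : ℝ, 0 < t ∧ x + t • v ∈ interior K :=
  final_q1 (red_of_core hcore) blk_PARL hd hconv hcomp hint o hsymm hHP hnHP

end Pool.Agent.Core7
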