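import Pool.Agent.Work.MP_80156a_core7.Polar

/-!
# MP_80156a, CORE7: the frame of a joint potential of the four determinants

`F` a symmetric, positively homogeneous, continuous function of four numbers (`Pot F`).  A 4-tuple
of points of `L` which maximises `F (dv A)`, `dv A` the absolute values of the four `3 × 3`
determinants, is, after a linear change of coordinates, `(e₀, e₁, e₂, w)` with
`1 ≥ w₀ ≥ w₁ ≥ w₂ ≥ 0` (`GNice`).  In the near regime (with respect to a basis of maximal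
determinant) use `good_near`; otherwise `F (w₀, w₁, w₂, 1) ≥ V₀`.
-/

set_option autoImplicit false

namespace Pool.Agent.Core7

open scoped Topology

/-- The absolute values of the four determinants of a 4-tuple. -/
def dv (A : Fin 4 → Fin 3 → ℝ) : Fin 4 → ℝ :=
  ![|det3 (A 1) (A 2) (A 3)|, |det3 (A 0) (A 2) (A 3)|, |det3 (A 0) (A 1) (A 3)|,
    |det3 (A 0) (A 1) (A 2)|]

/-- A symmetric homogeneous potential. -/
structure Pot (F : (Fin 4 → ℝ) → ℝ) : Prop where
  cont : Continuous F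
  perm : ∀ (π : Equiv.Perm (Fin 4)) (D : Fin 4 → ℝ), F (D ∘ π) = F D
  smul : ∀ (r : ℝ) (D : Fin 4 → ℝ), 0 ≤ r → F (r • D) = r * F D

/-- `(e₀, e₁, e₂, w)` maximises the potential over `L`. -/
structure GNice (F : (Fin 4 → ℝ) → ℝ) (L : Set (Fin 3 → ℝ)) (w : Fin 3 → ℝ) : Prop where
  comp : IsCompact L
  symm : ∀ x ∈ L, -x ∈ L
  single : ∀ i, Pi.single i 1 ∈ L
  wL : w ∈ L
  w0 : w 0 ≤ 1
  w1 : w 1 ≤ w 0
  w2 : w 2 ≤ w 1
  w3 : 0 ≤ w 2
  max : ∀ A : Fin 4 → Fin 3 → ℝ, (∀ k, A k ∈ L) → F (dv A) ≤ F ![w 0, w 1, w 2, 1]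

/-! ### Algebra of the determinants -/

theorem det3_cols (a b c x y z : Fin 3 → ℝ) :
    det3 (cols a b c x) (cols a b c y) (cols a b c z) = det3 a b c * det3 x y z := by
  simp only [det3, cols_apply, Pi.add_apply, Pi.smul_apply, smul_eq_mul]; ring

theorem dv_cols (a b c : Fin 3 → ℝ) (A : Fin 4 → Fin 3 → ℝ) :
    dv (fun k => cols a b c (A k)) = |det3 a b c| • dv A := by
  ext k
  fin_cases k <;> simp [dv, det3_cols, abs_mul]

theorem continuous_dv : Continuous dv := by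
  unfold dv det3
  refine continuous_pi fun k => ?_
  fin_cases k <;> (simp only [Fin.isValue, Fin.zero_eta, Fin.mk_one, Fin.reduceFinMk,
    Matrix.cons_val_zero, Matrix.cons_val_one, Matrix.cons_val]; fun_prop)

theorem dv_swap (A : Fin 4 → Fin 3 → ℝ) (k : Fin 4) :
    dv (A ∘ Equiv.swap k 3) = dv A ∘ Equiv.swap k 3 := by
  have key : ∀ a b c d : Fin 3 → ℝ,
      |det3 a b c| = |det3 b a c| ∧ |det3 a b c| = |det3 a c b| ∧ |det3 a b c| = |det3 c b a| ∧
      |det3 a b c| = |det3 b c a| ∧ |det3 a b c| = |det3 c a b| := by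
    intro a b c d
    refine ⟨?_, ?_, ?_, ?_, ?_⟩
    · rw [← abs_neg]; congr 1; simp only [det3]; ring
    · rw [← abs_neg]; congr 1; simp only [det3]; ring
    · rw [← abs_neg]; congr 1; simp only [det3]; ring
    · congr 1; simp only [det3]; ring
    · congr 1; simp only [det3]; ring
  ext j
  fin_cases k <;> fin_cases j <;>
    simp [dv, Equiv.swap_apply_def] <;>
    first
    | rfl
    | exact (key _ _ _ 0).1
    | exact (key _ _ _ 0).2.1
    | exact (key _ _ _ 0).2.2.1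
    | exact (key _ _ _ 0).2.2.2.1
    | exact (key _ _ _ 0).2.2.2.2

theorem det3_eq_det (x y z : Fin 3 → ℝ) : det3 x y z = (Matrix.of ![x, y, z]).det := by
  rw [Matrix.det_fin_three]
  simp only [det3, Matrix.of_apply, Matrix.cons_val_zero, Matrix.cons_val_one, Matrix.cons_val]
  ring

theorem abs_det3_sp (σ : Equiv.Perm (Fin 3)) (s : Fin 3 → ℝ) (hs : ∀ i, s i * s i = 1)
    (x y z : Fin 3 → ℝ) :
    |det3 (sp σ s hs x) (sp σ s hs y) (sp σ s hs z)| = |det3 x y z| := by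
  have h1 : Matrix.of ![sp σ s hs x, sp σ s hs y, sp σ s hs z]
      = Matrix.of (fun i j => s j * ((Matrix.of ![x, y, z]).submatrix id σ) i j) := by
    ext i j
    fin_cases i <;> simp [sp_apply]
  rw [det3_eq_det, h1, Matrix.det_mul_row, Matrix.det_permute', det3_eq_det, abs_mul, abs_mul,
    Finset.abs_prod]
  have h2 : ∏ i, |s i| = 1 := Finset.prod_eq_one fun i _ => abs_of_sq (hs i)
  have h4 : |(((Equiv.Perm.sign σ : ℤˣ) : ℤ) : ℝ)| = 1 := by
    rcases Int.units_eq_one_or (Equiv.Perm.sign σ) with h | h <;> simp [h]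
  rw [h2, h4, one_mul, one_mul]

theorem dv_sp (σ : Equiv.Perm (Fin 3)) (s : Fin 3 → ℝ) (hs : ∀ i, s i * s i = 1)
    (A : Fin 4 → Fin 3 → ℝ) : dv (fun k => sp σ s hs (A k)) = dv A := by
  ext k
  fin_cases k <;> simp [dv, abs_det3_sp]

theorem dv_std (w : Fin 3 → ℝ) :
    dv ![Pi.single 0 1, Pi.single 1 1, Pi.single 2 1, w] = ![|w 0|, |w 1|, |w 2|, 1] := by
  ext k
  fin_cases k <;> simp [dv, det3]

/-- The extension of a permutation of `Fin 3` to `Fin 4`. -/
def ext4 (σ : Equiv.Perm (Fin 3)) : Equiv.Perm (Fin 4) :=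
  finSuccEquivLast.trans ((Equiv.optionCongr σ).trans finSuccEquivLast.symm)

theorem ext4_castSucc (σ : Equiv.Perm (Fin 3)) (i : Fin 3) :
    ext4 σ i.castSucc = (σ i).castSucc := by
  simp [ext4]

theorem ext4_last (σ : Equiv.Perm (Fin 3)) : ext4 σ (Fin.last 3) = Fin.last 3 := by
  simp only [ext4, Equiv.trans_apply, finSuccEquivLast_last, Equiv.optionCongr_apply,
    Option.map_none, finSuccEquivLast_symm_none]

theorem vec4_castSucc (v : Fin 3 → ℝ) (t : ℝ) (i : Fin 3) :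
    (![v 0, v 1, v 2, t] : Fin 4 → ℝ) i.castSucc = v i := by
  fin_cases i <;> rfl

theorem vec4_perm (σ : Equiv.Perm (Fin 3)) (v : Fin 3 → ℝ) (t : ℝ) :
    (![v (σ 0), v (σ 1), v (σ 2), t] : Fin 4 → ℝ) = ![v 0, v 1, v 2, t] ∘ ext4 σ := by
  ext j
  refine Fin.lastCases ?_ (fun i => ?_) j
  · rw [Function.comp_apply, ext4_last]; rfl
  · rw [Function.comp_apply, ext4_castSucc, vec4_castSucc, vec4_castSucc (fun i => v (σ i))]

theorem cols_injective {a b c : Fin 3 → ℝ} (hpos : det3 a b c ≠ 0) :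
    Function.Injective (cols a b c) := by
  rw [← LinearMap.ker_eq_bot, LinearMap.ker_eq_bot']
  intro x hx
  have h0 := det_cols0 a b c x
  have h1 := det_cols1 a b c x
  have h2 := det_cols2 a b c x
  rw [hx] at h0 h1 h2
  have e0 : det3 (0 : Fin 3 → ℝ) b c = 0 := by simp [det3]
  have e1 : det3 a (0 : Fin 3 → ℝ) c = 0 := by simp [det3]
  have e2 : det3 a b (0 : Fin 3 → ℝ) = 0 := by simp [det3]
  rw [e0] at h0
  rw [e1] at h1
  rw [e2] at h2
  have f0 : x 0 = 0 := (mul_eq_zero.1 h0.symm).resolve_right hpos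
  have f1 : x 1 = 0 := (mul_eq_zero.1 h1.symm).resolve_right hpos
  have f2 : x 2 = 0 := (mul_eq_zero.1 h2.symm).resolve_right hpos
  ext i
  fin_cases i
  · exact f0
  · exact f1
  · exact f2

theorem cols_single0 (a b c : Fin 3 → ℝ) : cols a b c (Pi.single 0 1) = a := by
  simp [cols_apply]

theorem cols_single1 (a b c : Fin 3 → ℝ) : cols a b c (Pi.single 1 1) = b := by
  simp [cols_apply]

theorem cols_single2 (a b c : Fin 3 → ℝ) : cols a b c (Pi.single 2 1) = c := by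
  simp [cols_apply]

theorem dv_nonneg (A : Fin 4 → Fin 3 → ℝ) (k : Fin 4) : 0 ≤ dv A k := by
  fin_cases k <;> simp [dv]

/-! ### The frame -/

/-- A maximal 4-tuple gives the position `GNice`. -/
theorem exists_gnice {F : (Fin 4 → ℝ) → ℝ} (hF : Pot F) {V₀ : ℝ} (hV₀ : 0 < V₀)
    {L : Set (Fin 3 → ℝ)} (hcomp : IsCompact L) (hsymm : ∀ x ∈ L, -x ∈ L)
    (hdet : ∀ x ∈ L, ∀ y ∈ L, ∀ z ∈ L, |det3 x y z| ≤ 1)
    (hB : ∃ B : Fin 4 → Fin 3 → ℝ, (∀ k, B k ∈ L) ∧ V₀ ≤ F (dv B)) :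
    ∃ (T : (Fin 3 → ℝ) ≃ₗ[ℝ] (Fin 3 → ℝ)) (w : Fin 3 → ℝ), GNice F (T ⁻¹' L) w ∧
      V₀ ≤ F ![w 0, w 1, w 2, 1] := by
  obtain ⟨B, hBL, hBV⟩ := hB
  obtain ⟨A, hAL, hmax⟩ := (isCompact_univ_pi (fun _ : Fin 4 => hcomp)).exists_isMaxOn
    ⟨B, fun k _ => hBL k⟩ (f := fun A => F (dv A))
    (hF.cont.comp continuous_dv).continuousOn
  have hAL' : ∀ k, A k ∈ L := fun k => hAL k trivial
  have hmax' : ∀ A' : Fin 4 → Fin 3 → ℝ, (∀ k, A' k ∈ L) → F (dv A') ≤ F (dv A) :=
    fun A' h => hmax (fun k _ => h k)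
  have hFA : V₀ ≤ F (dv A) := hBV.trans (hmax' B hBL)
  obtain ⟨k0, -, hk0⟩ := Finset.exists_max_image (Finset.univ : Finset (Fin 4)) (dv A)
    ⟨0, Finset.mem_univ _⟩
  have hpos0 : 0 < dv A k0 := by
    by_contra hcon
    have h0 : dv A = 0 := by
      ext k
      exact le_antisymm ((hk0 k (Finset.mem_univ _)).trans (not_lt.1 hcon)) (dv_nonneg A k)
    rw [h0] at hFA
    have h1 := hF.smul 0 0 le_rfl
    rw [zero_smul, zero_mul] at h1
    linarith
  -- reorder
  set A' : Fin 4 → Fin 3 → ℝ := A ∘ Equiv.swap k0 3 with hA'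
  have hdv' : dv A' = dv A ∘ Equiv.swap k0 3 := dv_swap A k0
  have hFA' : F (dv A') = F (dv A) := by rw [hdv', hF.perm]
  have hA'L : ∀ k, A' k ∈ L := fun k => hAL' _
  have hM3 : dv A' 3 = dv A k0 := by rw [hdv', Function.comp_apply, Equiv.swap_apply_right]
  set a := A' 0 with ha
  set b := A' 1 with hb
  set c := A' 2 with hc
  set d := A' 3 with hd
  set M := |det3 a b c| with hM
  have hM3' : dv A' 3 = M := rfl
  have hMpos : 0 < M := by rw [← hM3', hM3]; exact hpos0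
  have hMle : M ≤ 1 := hdet _ (hA'L 0) _ (hA'L 1) _ (hA'L 2)
  have hAM : ∀ j, dv A' j ≤ M := by
    intro j
    rw [← hM3', hM3, hdv']
    exact hk0 _ (Finset.mem_univ _)
  have hdne : det3 a b c ≠ 0 := abs_pos.1 hMpos
  set T : (Fin 3 → ℝ) ≃ₗ[ℝ] (Fin 3 → ℝ) :=
    LinearEquiv.ofInjectiveEndo (cols a b c) (cols_injective hdne) with hT
  have hTa : ∀ x, T x = cols a b c x := fun x => rfl
  set w' := T.symm d with hw'
  have hTw : cols a b c w' = d := by rw [← hTa, hw', LinearEquiv.apply_symm_apply]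
  -- the values
  have hdvA : dv A' = M • ![|w' 0|, |w' 1|, |w' 2|, 1] := by
    rw [← dv_std, hM, ← dv_cols]
    congr 1
    ext k : 1
    fin_cases k
    · exact (cols_single0 a b c).symm
    · exact (cols_single1 a b c).symm
    · exact (cols_single2 a b c).symm
    · exact hTw.symm
  have hFw : F (dv A) = M * F ![|w' 0|, |w' 1|, |w' 2|, 1] := by
    rw [← hFA', hdvA, hF.smul _ _ hMpos.le]
  have hw1 : ∀ i : Fin 3, |w' i| ≤ 1 := by
    intro i
    have h1 := hAM i.castSucc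
    rw [hdvA, Pi.smul_apply, vec4_castSucc (fun i => |w' i|), smul_eq_mul] at h1
    by_contra hcon
    have := not_le.1 hcon
    nlinarith
  have hV : V₀ ≤ F ![|w' 0|, |w' 1|, |w' 2|, 1] := by
    have h1 : 0 < F (dv A) := lt_of_lt_of_le hV₀ hFA
    have h2 : 0 < F ![|w' 0|, |w' 1|, |w' 2|, 1] := by
      rw [hFw] at h1
      exact (mul_pos_iff_of_pos_left hMpos).1 h1
    nlinarith
  have hmaxT : ∀ B : Fin 4 → Fin 3 → ℝ, (∀ k, T (B k) ∈ L) →
      F (dv B) ≤ F ![|w' 0|, |w' 1|, |w' 2|, 1] := by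
    intro B hB
    have h1 := hmax' (fun k => T (B k)) hB
    have h2 : dv (fun k => T (B k)) = M • dv B := dv_cols a b c B
    rw [h2, hF.smul _ _ hMpos.le, hFw] at h1
    exact le_of_mul_le_mul_left h1 hMpos
  -- sort
  obtain ⟨σ, s, hs, hs1, hs2, hs3⟩ := exists_sort w'
  set S := sp σ s hs with hS
  set w := S w' with hw
  have hwabs : ∀ i, w i = |w' (σ i)| := by
    intro i
    have h1 : 0 ≤ w i := by
      fin_cases i
      · exact hs3.trans (hs2.trans hs1)
      · exact hs3.trans hs2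
      · exact hs3
    rw [← abs_of_nonneg h1, hw, hS, abs_sp]
  have hFeq : F ![w 0, w 1, w 2, 1] = F ![|w' 0|, |w' 1|, |w' 2|, 1] := by
    rw [hwabs, hwabs, hwabs, vec4_perm σ (fun i => |w' i|) 1, hF.perm]
  refine ⟨S.symm.trans T, w, ⟨?_, ?_, ?_, ?_, ?_, hs1, hs2, hs3, ?_⟩, ?_⟩
  · have h1 : (S.symm.trans T) ⁻¹' L = (S.symm.trans T).symm '' L := by
      ext y
      constructor
      · intro hy; exact ⟨_, hy, LinearEquiv.symm_apply_apply _ _⟩
      · rintro ⟨x, hx, rfl⟩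
        rw [Set.mem_preimage, LinearEquiv.apply_symm_apply]; exact hx
    rw [h1]
    exact hcomp.image (S.symm.trans T).symm.toLinearMap.continuous_of_finiteDimensional
  · intro x hx
    rw [Set.mem_preimage, map_neg]; exact hsymm _ hx
  · intro i
    have h1 : S.symm (Pi.single i 1) = s i • Pi.single (σ i) 1 := by
      rw [LinearEquiv.symm_apply_eq]
      ext j
      rw [hS, sp_apply]
      by_cases hij : j = i
      · subst hij; simp [hs]
      · have : σ j ≠ σ i := fun h => hij (σ.injective h)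
        simp [hij, this]
    have h2 : ∀ j : Fin 3, T (Pi.single j 1) ∈ L := by
      intro j
      rw [hTa]
      fin_cases j
      · simp only [Fin.zero_eta, cols_single0]; exact hA'L 0
      · simp only [Fin.mk_one, cols_single1]; exact hA'L 1
      · simp only [Fin.reduceFinMk, cols_single2]; exact hA'L 2
    rw [Set.mem_preimage, LinearEquiv.trans_apply, h1, map_smul]
    rcases mul_self_eq_one_iff.1 (hs i) with h | h
    · rw [h, one_smul]; exact h2 _
    · rw [h, neg_one_smul]; exact hsymm _ (h2 _)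
  · rw [Set.mem_preimage, LinearEquiv.trans_apply, hw, LinearEquiv.symm_apply_apply, hTa, hTw]
    exact hA'L 3
  · rw [hwabs]; exact hw1 _
  · intro B hB
    have h1 : ∀ k, T (S.symm (B k)) ∈ L := hB
    have h2 := hmaxT (fun k => S.symm (B k)) h1
    have h3 : dv B = dv (fun k => S.symm (B k)) := by
      rw [← dv_sp σ s hs (fun k => S.symm (B k))]
      congr 1
      ext k : 1
      exact (LinearEquiv.apply_symm_apply S (B k)).symm
    rw [h3, hFeq]
    exact h2
  · rw [hFeq]; exact hV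

/-- The near and the far regime together, for the frame of a joint potential. -/
theorem Nice.goodG {F : (Fin 4 → ℝ) → ℝ} (hF : Pot F) {V₀ : ℝ} (hV₀ : 0 < V₀)
    (hnear : ∀ x : Fin 3 → ℝ, (∀ i, |x i| ≤ 1) → 39 / 25 < |x 0| + |x 1| + |x 2| →
      V₀ ≤ F ![|x 0|, |x 1|, |x 2|, 1])
    (far : ∀ (L : Set (Fin 3 → ℝ)) (w : Fin 3 → ℝ), GNice F L w → V₀ ≤ F ![w 0, w 1, w 2, 1] →
      Good L)
    {L : Set (Fin 3 → ℝ)} (hL : Nice L)
    (hdet : ∀ x ∈ L, ∀ y ∈ L, ∀ z ∈ L, |det3 x y z| ≤ 1)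
    (h2 : ∃ x ∈ L, 1 < |x 0| + |x 1| + |x 2|) : Good L := by
  by_cases hn : ∀ x ∈ L, |x 0| + |x 1| + |x 2| ≤ 39 / 25
  · exact good_near hL hn h2
  · push Not at hn
    obtain ⟨x, hx, hx1⟩ := hn
    obtain ⟨T, w, hG, hw⟩ := exists_gnice hF hV₀ hL.comp hL.symm hdet
      ⟨![Pi.single 0 1, Pi.single 1 1, Pi.single 2 1, x], fun k => by
        fin_cases k
        · exact hL.single 0
        · exact hL.single 1
        · exact hL.single 2
        · exact hx, by rw [dv_std]; exact hnear x (hL.le_one x hx) hx1⟩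
    exact Good.of_preimage T (far _ w hG hw)

end Pool.Agent.Core7
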