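import Pool.Agent.Work.MP_80156a_core7.GPot

/-!
# MP_80156a, CORE7: the linear functionals which bound `GCon cs w`, convexity of `Vc`
-/

set_option autoImplicit false

namespace Pool.Agent.Core7

open scoped Topology

variable {ι : Type} [Fintype ι] [Nonempty ι]

theorem mul_le_of_abs {a c y : ℝ} (h : |a| = c) : a * y ≤ c * |y| := by
  rw [← h, ← abs_mul]; exact le_abs_self _

/-- The permutation with the values `f`. -/
def pm (f g : Fin 4 → Fin 4) (h1 : Function.LeftInverse g f) (h2 : Function.RightInverse g f) :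
    Equiv.Perm (Fin 4) := ⟨f, g, h1, h2⟩

theorem gf3 {cs : ι → Fin 4 → ℝ} {w x : Fin 3 → ℝ} (h : GCon cs w x) (i : ι)
    (τ : Equiv.Perm (Fin 4)) {a b c : ℝ} (ha : |a| = cs i (τ 0)) (hb : |b| = cs i (τ 1))
    (hc : |c| = cs i (τ 2)) :
    a * x 0 + b * x 1 + c * x 2 + cs i (τ 3) ≤ Vc cs w := by
  have h1 := h.c3 i τ
  have h2 := mul_le_of_abs (y := x 0) ha
  have h3 := mul_le_of_abs (y := x 1) hb
  have h4 := mul_le_of_abs (y := x 2) hc
  linarith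

theorem gf0 {cs : ι → Fin 4 → ℝ} {w x : Fin 3 → ℝ} (h : GCon cs w x) (i : ι)
    (τ : Equiv.Perm (Fin 4)) {a b c : ℝ} (ha : |a| = cs i (τ 0)) (hb : |b| = cs i (τ 1))
    (hc : |c| = cs i (τ 2)) :
    a * x 0 + b * (w 0 * x 1 - w 1 * x 0) + c * (w 0 * x 2 - w 2 * x 0) + cs i (τ 3) * w 0
      ≤ Vc cs w := by
  have h1 := h.c0 i ((pm ![3, 1, 2, 0] ![3, 1, 2, 0] (by decide) (by decide)).trans τ)
  have h2 := mul_le_of_abs (y := x 0) ha
  have h3 := mul_le_of_abs (y := w 0 * x 1 - w 1 * x 0) hb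
  have h4 := mul_le_of_abs (y := w 0 * x 2 - w 2 * x 0) hc
  have e3 : |w 0 * x 1 - w 1 * x 0| = |x 0 * w 1 - x 1 * w 0| := by
    rw [← abs_neg]; congr 1; ring
  have e4 : |w 0 * x 2 - w 2 * x 0| = |x 0 * w 2 - x 2 * w 0| := by
    rw [← abs_neg]; congr 1; ring
  rw [e3] at h3
  rw [e4] at h4
  simp only [pm, Equiv.trans_apply, Equiv.coe_fn_mk, Matrix.cons_val_zero, Matrix.cons_val_one,
    Matrix.cons_val] at h1
  linarith

theorem gf1 {cs : ι → Fin 4 → ℝ} {w x : Fin 3 → ℝ} (h : GCon cs w x) (i : ι)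
    (τ : Equiv.Perm (Fin 4)) {a b c : ℝ} (ha : |a| = cs i (τ 0)) (hb : |b| = cs i (τ 1))
    (hc : |c| = cs i (τ 2)) :
    a * x 1 + b * (w 1 * x 2 - w 2 * x 1) + c * (w 1 * x 0 - w 0 * x 1) + cs i (τ 3) * w 1
      ≤ Vc cs w := by
  have h1 := h.c1 i ((pm ![2, 3, 1, 0] ![3, 2, 0, 1] (by decide) (by decide)).trans τ)
  have h2 := mul_le_of_abs (y := x 1) ha
  have h3 := mul_le_of_abs (y := w 1 * x 2 - w 2 * x 1) hb
  have h4 := mul_le_of_abs (y := w 1 * x 0 - w 0 * x 1) hc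
  have e3 : |w 1 * x 2 - w 2 * x 1| = |x 1 * w 2 - x 2 * w 1| := by
    rw [← abs_neg]; congr 1; ring
  have e4 : |w 1 * x 0 - w 0 * x 1| = |x 1 * w 0 - x 0 * w 1| := by
    rw [← abs_neg]; congr 1; ring
  rw [e3] at h3
  rw [e4] at h4
  simp only [pm, Equiv.trans_apply, Equiv.coe_fn_mk, Matrix.cons_val_zero, Matrix.cons_val_one,
    Matrix.cons_val] at h1
  linarith

theorem gf2 {cs : ι → Fin 4 → ℝ} {w x : Fin 3 → ℝ} (h : GCon cs w x) (i : ι)
    (τ : Equiv.Perm (Fin 4)) {a b c : ℝ} (ha : |a| = cs i (τ 0)) (hb : |b| = cs i (τ 1))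
    (hc : |c| = cs i (τ 2)) :
    a * x 2 + b * (w 2 * x 0 - w 0 * x 2) + c * (w 2 * x 1 - w 1 * x 2) + cs i (τ 3) * w 2
      ≤ Vc cs w := by
  have h1 := h.c2 i ((pm ![1, 2, 3, 0] ![3, 0, 1, 2] (by decide) (by decide)).trans τ)
  have h2 := mul_le_of_abs (y := x 2) ha
  have h3 := mul_le_of_abs (y := w 2 * x 0 - w 0 * x 2) hb
  have h4 := mul_le_of_abs (y := w 2 * x 1 - w 1 * x 2) hc
  have e3 : |w 2 * x 0 - w 0 * x 2| = |x 2 * w 0 - x 0 * w 2| := by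
    rw [← abs_neg]; congr 1; ring
  have e4 : |w 2 * x 1 - w 1 * x 2| = |x 2 * w 1 - x 1 * w 2| := by
    rw [← abs_neg]; congr 1; ring
  rw [e3] at h3
  rw [e4] at h4
  simp only [pm, Equiv.trans_apply, Equiv.coe_fn_mk, Matrix.cons_val_zero, Matrix.cons_val_one,
    Matrix.cons_val] at h1
  linarith

/-- `Vc cs` is convex. -/
theorem Vc_convex (cs : ι → Fin 4 → ℝ) (l : Fin 4 → ℝ) (hl : ∀ v, 0 ≤ l v) (hl1 : ∑ v, l v = 1)
    (W : Fin 4 → Fin 3 → ℝ) : Vc cs (∑ v, l v • W v) ≤ ∑ v, l v * Vc cs (W v) := by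
  refine Vc_le _ _ fun i => ?_
  have h0 : ∑ v, l v * (cs i 0 + cs i 1 * W v 0 + cs i 2 * W v 1 + cs i 3 * W v 2) ≤
      ∑ v, l v * Vc cs (W v) :=
    Finset.sum_le_sum fun v _ => mul_le_mul_of_nonneg_left (le_Vc cs (W v) i) (hl v)
  refine le_trans (le_of_eq ?_) h0
  simp only [Finset.sum_apply, Pi.smul_apply, smul_eq_mul, Fin.sum_univ_four] at hl1 ⊢
  have : cs i 0 = cs i 0 * (l 0 + l 1 + l 2 + l 3) := by rw [hl1, mul_one]
  nth_rewrite 1 [this]
  ring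

/-- The bound of the coordinates. -/
theorem abs_le_Vc {cs : ι → Fin 4 → ℝ} {w x : Fin 3 → ℝ} (h : GCon cs w x) (n : ι)
    (h0 : cs n 0 = 1) (h1 : cs n 1 = 1) (h2 : 0 ≤ cs n 2) (h3 : 0 ≤ cs n 3) (i : Fin 3) :
    |x i| ≤ Vc cs w - 1 := by
  have a0 := mul_nonneg h2 (abs_nonneg (x 0))
  have a1 := mul_nonneg h2 (abs_nonneg (x 1))
  have b1 := mul_nonneg h3 (abs_nonneg (x 1))
  have b2 := mul_nonneg h3 (abs_nonneg (x 2))
  fin_cases i
  · have h4 := h.c3 n (pm ![0, 2, 3, 1] ![0, 3, 1, 2] (by decide) (by decide))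
    simp only [pm, Equiv.coe_fn_mk, Matrix.cons_val_zero, Matrix.cons_val_one,
      Matrix.cons_val, h0, h1] at h4
    simp only [Fin.zero_eta]
    linarith
  · have h4 := h.c3 n (pm ![2, 0, 3, 1] ![1, 3, 0, 2] (by decide) (by decide))
    simp only [pm, Equiv.coe_fn_mk, Matrix.cons_val_zero, Matrix.cons_val_one,
      Matrix.cons_val, h0, h1] at h4
    simp only [Fin.mk_one]
    linarith
  · have h4 := h.c3 n (pm ![2, 3, 0, 1] ![2, 3, 0, 1] (by decide) (by decide))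
    simp only [pm, Equiv.coe_fn_mk, Matrix.cons_val_zero, Matrix.cons_val_one,
      Matrix.cons_val, h0, h1] at h4
    simp only [Fin.reduceFinMk]
    linarith

/-- The bound of the coordinates, general form: `a |x_i| + b ≤ V` with `a = c₀`, `b = c₁`. -/
theorem abs_le_Vc' {cs : ι → Fin 4 → ℝ} {w x : Fin 3 → ℝ} (h : GCon cs w x) (n : ι)
    (h2 : 0 ≤ cs n 2) (h3 : 0 ≤ cs n 3) (i : Fin 3) :
    cs n 0 * |x i| ≤ Vc cs w - cs n 1 := by
  have a0 := mul_nonneg h2 (abs_nonneg (x 0))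
  have a1 := mul_nonneg h2 (abs_nonneg (x 1))
  have b1 := mul_nonneg h3 (abs_nonneg (x 1))
  have b2 := mul_nonneg h3 (abs_nonneg (x 2))
  fin_cases i
  · have h4 := h.c3 n (pm ![0, 2, 3, 1] ![0, 3, 1, 2] (by decide) (by decide))
    simp only [pm, Equiv.coe_fn_mk, Matrix.cons_val_zero, Matrix.cons_val_one,
      Matrix.cons_val] at h4
    simp only [Fin.zero_eta]
    linarith
  · have h4 := h.c3 n (pm ![2, 0, 3, 1] ![1, 3, 0, 2] (by decide) (by decide))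
    simp only [pm, Equiv.coe_fn_mk, Matrix.cons_val_zero, Matrix.cons_val_one,
      Matrix.cons_val] at h4
    simp only [Fin.mk_one]
    linarith
  · have h4 := h.c3 n (pm ![2, 3, 0, 1] ![2, 3, 0, 1] (by decide) (by decide))
    simp only [pm, Equiv.coe_fn_mk, Matrix.cons_val_zero, Matrix.cons_val_one,
      Matrix.cons_val] at h4
    simp only [Fin.reduceFinMk]
    linarith

end Pool.Agent.Core7
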