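import Pool.Agent.Work.MP_80156a_core7.GFrame

/-!
# MP_80156a, CORE7: maxima of weighted sums of the four determinants

`potC cs D = max` over the weight vectors `cs i` and the permutations `τ` of
`Σ_k cs i (τ k) · D k`.  For antitone weights and `1 ≥ w₀ ≥ w₁ ≥ w₂ ≥ 0` its value at
`(w₀, w₁, w₂, 1)` is `Vc cs w = max_i (c₀ + c₁ w₀ + c₂ w₁ + c₃ w₂)`.
-/

set_option autoImplicit false

namespace Pool.Agent.Core7

open scoped Topology

variable {ι : Type} [Fintype ι] [Nonempty ι]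

/-- The potential of a finite family of weight vectors. -/
noncomputable def potC (cs : ι → Fin 4 → ℝ) (D : Fin 4 → ℝ) : ℝ :=
  (Finset.univ : Finset (ι × Equiv.Perm (Fin 4))).sup' Finset.univ_nonempty
    (fun p => ∑ k, cs p.1 (p.2 k) * D k)

/-- Its value at a sorted point. -/
noncomputable def Vc (cs : ι → Fin 4 → ℝ) (w : Fin 3 → ℝ) : ℝ :=
  (Finset.univ : Finset ι).sup' Finset.univ_nonempty
    (fun i => cs i 0 + cs i 1 * w 0 + cs i 2 * w 1 + cs i 3 * w 2)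

theorem le_potC (cs : ι → Fin 4 → ℝ) (D : Fin 4 → ℝ) (i : ι) (τ : Equiv.Perm (Fin 4)) :
    ∑ k, cs i (τ k) * D k ≤ potC cs D :=
  Finset.le_sup' (fun p : ι × Equiv.Perm (Fin 4) => ∑ k, cs p.1 (p.2 k) * D k)
    (Finset.mem_univ (i, τ))

theorem potC_le (cs : ι → Fin 4 → ℝ) (D : Fin 4 → ℝ) {V : ℝ}
    (h : ∀ (i : ι) (τ : Equiv.Perm (Fin 4)), ∑ k, cs i (τ k) * D k ≤ V) : potC cs D ≤ V :=
  Finset.sup'_le _ _ fun p _ => h p.1 p.2

theorem le_Vc (cs : ι → Fin 4 → ℝ) (w : Fin 3 → ℝ) (i : ι) :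
    cs i 0 + cs i 1 * w 0 + cs i 2 * w 1 + cs i 3 * w 2 ≤ Vc cs w :=
  Finset.le_sup' (fun i => cs i 0 + cs i 1 * w 0 + cs i 2 * w 1 + cs i 3 * w 2)
    (Finset.mem_univ i)

theorem Vc_le (cs : ι → Fin 4 → ℝ) (w : Fin 3 → ℝ) {V : ℝ}
    (h : ∀ i, cs i 0 + cs i 1 * w 0 + cs i 2 * w 1 + cs i 3 * w 2 ≤ V) : Vc cs w ≤ V :=
  Finset.sup'_le _ _ fun i _ => h i

theorem potC_perm_le (cs : ι → Fin 4 → ℝ) (π : Equiv.Perm (Fin 4)) (D : Fin 4 → ℝ) :
    potC cs (D ∘ π) ≤ potC cs D := by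
  refine potC_le _ _ fun i τ => ?_
  have h1 : ∑ k, cs i (τ k) * (D ∘ π) k = ∑ k, cs i ((π.symm.trans τ) k) * D k := by
    rw [← Equiv.sum_comp π (fun k => cs i ((π.symm.trans τ) k) * D k)]
    refine Finset.sum_congr rfl fun k _ => ?_
    simp
  rw [h1]
  exact le_potC cs D i _

theorem pot_potC (cs : ι → Fin 4 → ℝ) : Pot (potC cs) where
  cont := by
    unfold potC
    refine Continuous.finset_sup'_apply _ fun p _ => ?_
    exact continuous_finsetSum _ fun k _ => continuous_const.mul (continuous_apply k)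
  perm π D := by
    refine le_antisymm (potC_perm_le cs π D) ?_
    have h1 := potC_perm_le cs π.symm (D ∘ π)
    have h2 : (D ∘ π) ∘ π.symm = D := by
      ext k; simp
    rwa [h2] at h1
  smul r D hr := by
    refine le_antisymm (potC_le _ _ fun i τ => ?_) ?_
    · have h1 : ∑ k, cs i (τ k) * (r • D) k = r * ∑ k, cs i (τ k) * D k := by
        rw [Finset.mul_sum]
        refine Finset.sum_congr rfl fun k _ => ?_
        simp only [Pi.smul_apply, smul_eq_mul]; ring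
      rw [h1]
      exact mul_le_mul_of_nonneg_left (le_potC cs D i τ) hr
    · obtain ⟨p, -, hp⟩ := Finset.exists_mem_eq_sup'
        (Finset.univ_nonempty : (Finset.univ : Finset (ι × Equiv.Perm (Fin 4))).Nonempty)
        (fun p => ∑ k, cs p.1 (p.2 k) * D k)
      have h2 : potC cs D = ∑ k, cs p.1 (p.2 k) * D k := hp
      rw [h2, Finset.mul_sum]
      refine le_trans (le_of_eq ?_) (le_potC cs (r • D) p.1 p.2)
      refine Finset.sum_congr rfl fun k _ => ?_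
      simp only [Pi.smul_apply, smul_eq_mul]; ring

theorem potC_sorted {cs : ι → Fin 4 → ℝ} (hcs : ∀ i, Antitone (cs i)) {w : Fin 3 → ℝ}
    (h0 : w 0 ≤ 1) (h1 : w 1 ≤ w 0) (h2 : w 2 ≤ w 1) :
    potC cs ![w 0, w 1, w 2, 1] = Vc cs w := by
  have hD : Antitone (![1, w 0, w 1, w 2] : Fin 4 → ℝ) := by
    refine Fin.antitone_iff_succ_le.2 fun i => ?_
    fin_cases i
    · exact h0
    · exact h1
    · exact h2
  have hrot : (![w 0, w 1, w 2, 1] : Fin 4 → ℝ) = ![1, w 0, w 1, w 2] ∘ finRotate 4 := by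
    ext k
    fin_cases k <;> rfl
  rw [hrot, (pot_potC cs).perm]
  refine le_antisymm (potC_le _ _ fun i τ => ?_) (Vc_le _ _ fun i => ?_)
  · have h3 : Monovary (cs i) (![1, w 0, w 1, w 2] : Fin 4 → ℝ) := (hcs i).monovary hD
    refine (h3.sum_comp_perm_mul_le_sum_mul (σ := τ)).trans ?_
    refine le_trans (le_of_eq ?_) (le_Vc cs w i)
    simp [Fin.sum_univ_four]
  · refine le_trans (le_of_eq ?_) (le_potC cs _ i (Equiv.refl _))
    simp [Fin.sum_univ_four]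

/-- The threshold of the near regime. -/
theorem potC_near {cs : ι → Fin 4 → ℝ} (hcs : ∀ i, Antitone (cs i)) (hpos : ∀ i, 0 ≤ cs i 3)
    {V₀ : ℝ} (hV : ∃ i, V₀ ≤ cs i 0 + 13 / 25 * (cs i 1 + cs i 2 + cs i 3))
    (x : Fin 3 → ℝ) (hx : ∀ i, |x i| ≤ 1) (h : 39 / 25 < |x 0| + |x 1| + |x 2|) :
    V₀ ≤ potC cs ![|x 0|, |x 1|, |x 2|, 1] := by
  obtain ⟨i, hi⟩ := hV
  refine hi.trans ?_
  -- sort
  obtain ⟨σ, s, hs, hs1, hs2, hs3⟩ := exists_sort x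
  set w := sp σ s hs x with hw
  have hwabs : ∀ i, w i = |x (σ i)| := by
    intro i
    have h1 : 0 ≤ w i := by
      fin_cases i
      · exact hs3.trans (hs2.trans hs1)
      · exact hs3.trans hs2
      · exact hs3
    rw [← abs_of_nonneg h1, hw, abs_sp]
  have hFeq : potC cs ![w 0, w 1, w 2, 1] = potC cs ![|x 0|, |x 1|, |x 2|, 1] := by
    rw [hwabs, hwabs, hwabs, vec4_perm σ (fun i => |x i|) 1, (pot_potC cs).perm]
  have hw0 : w 0 ≤ 1 := by rw [hwabs]; exact hx _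
  rw [← hFeq, potC_sorted hcs hw0 hs1 hs2]
  refine le_trans ?_ (le_Vc cs w i)
  have hsum : 39 / 25 < w 0 + w 1 + w 2 := by
    have h2 := l1_sp σ s hs x
    rw [← hw, abs_of_nonneg (hs3.trans (hs2.trans hs1)), abs_of_nonneg (hs3.trans hs2),
      abs_of_nonneg hs3] at h2
    rw [h2]; exact h
  have c12 : cs i 2 ≤ cs i 1 := hcs i (by decide)
  have c23 : cs i 3 ≤ cs i 2 := hcs i (by decide)
  have c3 := hpos i
  -- Chebyshev
  have e1 : 0 ≤ (cs i 1 - cs i 2) * (w 0 - w 1) := mul_nonneg (by linarith) (by linarith)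
  have e2 : 0 ≤ (cs i 2 - cs i 3) * (w 1 - w 2) := mul_nonneg (by linarith) (by linarith)
  have e3 : 0 ≤ (cs i 1 - cs i 3) * (w 0 - w 2) := mul_nonneg (by linarith) (by linarith)
  have e4 : 0 ≤ (cs i 1 + cs i 2 + cs i 3) * (w 0 + w 1 + w 2 - 39 / 25) :=
    mul_nonneg (by linarith) (by linarith)
  nlinarith

/-! ### The constraints -/

theorem GNice.potC_le {cs : ι → Fin 4 → ℝ} (hcs : ∀ i, Antitone (cs i))
    {L : Set (Fin 3 → ℝ)} {w : Fin 3 → ℝ} (h : GNice (potC cs) L w)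
    (A : Fin 4 → Fin 3 → ℝ) (hA : ∀ k, A k ∈ L) (i : ι) (τ : Equiv.Perm (Fin 4)) :
    cs i (τ 0) * |det3 (A 1) (A 2) (A 3)| + cs i (τ 1) * |det3 (A 0) (A 2) (A 3)|
      + cs i (τ 2) * |det3 (A 0) (A 1) (A 3)| + cs i (τ 3) * |det3 (A 0) (A 1) (A 2)|
      ≤ Vc cs w := by
  have h1 := (le_potC cs (dv A) i τ).trans (h.max A hA)
  rw [potC_sorted hcs h.w0 h.w1 h.w2, Fin.sum_univ_four] at h1
  exact h1

/-- `(e₀, e₁, e₂, x)`. -/
theorem GNice.con3 {cs : ι → Fin 4 → ℝ} (hcs : ∀ i, Antitone (cs i))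
    {L : Set (Fin 3 → ℝ)} {w : Fin 3 → ℝ} (h : GNice (potC cs) L w) {x : Fin 3 → ℝ} (hx : x ∈ L)
    (i : ι) (τ : Equiv.Perm (Fin 4)) :
    cs i (τ 0) * |x 0| + cs i (τ 1) * |x 1| + cs i (τ 2) * |x 2| + cs i (τ 3) ≤ Vc cs w := by
  have h1 := h.potC_le hcs ![Pi.single 0 1, Pi.single 1 1, Pi.single 2 1, x] (fun k => by
    fin_cases k
    · exact h.single 0
    · exact h.single 1
    · exact h.single 2
    · exact hx) i τ
  simpa [det3] using h1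

/-- `(x, e₁, e₂, w)`, and the same with `e₁`, `e₂` replaced. `(i, j, k)` is a cyclic permutation
of `(0, 1, 2)`. -/
theorem GNice.con0 {cs : ι → Fin 4 → ℝ} (hcs : ∀ i, Antitone (cs i))
    {L : Set (Fin 3 → ℝ)} {w : Fin 3 → ℝ} (h : GNice (potC cs) L w) {x : Fin 3 → ℝ} (hx : x ∈ L)
    (i : ι) (τ : Equiv.Perm (Fin 4)) :
    cs i (τ 0) * w 0 + cs i (τ 1) * |x 0 * w 1 - x 1 * w 0|
      + cs i (τ 2) * |x 0 * w 2 - x 2 * w 0| + cs i (τ 3) * |x 0| ≤ Vc cs w := by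
  have h1 := h.potC_le hcs ![x, Pi.single 1 1, Pi.single 2 1, w] (fun k => by
    fin_cases k
    · exact hx
    · exact h.single 1
    · exact h.single 2
    · exact h.wL) i τ
  have hw : |w 0| = w 0 := abs_of_nonneg (h.w3.trans (h.w2.trans h.w1))
  have e1 : |det3 x (Pi.single 2 1) w| = |x 0 * w 1 - x 1 * w 0| := by
    rw [← abs_neg]; congr 1; simp [det3]; ring
  have e2 : |det3 x (Pi.single 1 1) w| = |x 0 * w 2 - x 2 * w 0| := by
    congr 1; simp [det3]; ring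
  have e3 : |det3 x (Pi.single 1 1) (Pi.single 2 1)| = |x 0| := by
    congr 1; simp [det3]
  have e0 : |det3 (Pi.single 1 1) (Pi.single 2 1) w| = w 0 := by
    rw [← hw]; congr 1; simp [det3]
  simp only [Matrix.cons_val_zero, Matrix.cons_val_one, Matrix.cons_val] at h1
  rw [e0, e1, e2, e3] at h1
  exact h1

theorem GNice.con1 {cs : ι → Fin 4 → ℝ} (hcs : ∀ i, Antitone (cs i))
    {L : Set (Fin 3 → ℝ)} {w : Fin 3 → ℝ} (h : GNice (potC cs) L w) {x : Fin 3 → ℝ} (hx : x ∈ L)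
    (i : ι) (τ : Equiv.Perm (Fin 4)) :
    cs i (τ 0) * |x 1 * w 0 - x 0 * w 1| + cs i (τ 1) * w 1
      + cs i (τ 2) * |x 1 * w 2 - x 2 * w 1| + cs i (τ 3) * |x 1| ≤ Vc cs w := by
  have h1 := h.potC_le hcs ![Pi.single 0 1, x, Pi.single 2 1, w] (fun k => by
    fin_cases k
    · exact h.single 0
    · exact hx
    · exact h.single 2
    · exact h.wL) i τ
  have hw : |w 1| = w 1 := abs_of_nonneg (h.w3.trans h.w2)
  have e0 : |det3 x (Pi.single 2 1) w| = |x 1 * w 0 - x 0 * w 1| := by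
    congr 1; simp [det3]; ring
  have e1 : |det3 (Pi.single 0 1) (Pi.single 2 1) w| = w 1 := by
    rw [← hw, ← abs_neg]; congr 1; simp [det3]
  have e2 : |det3 (Pi.single 0 1) x w| = |x 1 * w 2 - x 2 * w 1| := by
    congr 1; simp [det3]
  have e3 : |det3 (Pi.single 0 1) x (Pi.single 2 1)| = |x 1| := by
    congr 1; simp [det3]
  simp only [Matrix.cons_val_zero, Matrix.cons_val_one, Matrix.cons_val] at h1
  rw [e0, e1, e2, e3] at h1
  exact h1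

theorem GNice.con2 {cs : ι → Fin 4 → ℝ} (hcs : ∀ i, Antitone (cs i))
    {L : Set (Fin 3 → ℝ)} {w : Fin 3 → ℝ} (h : GNice (potC cs) L w) {x : Fin 3 → ℝ} (hx : x ∈ L)
    (i : ι) (τ : Equiv.Perm (Fin 4)) :
    cs i (τ 0) * |x 2 * w 0 - x 0 * w 2| + cs i (τ 1) * |x 2 * w 1 - x 1 * w 2|
      + cs i (τ 2) * w 2 + cs i (τ 3) * |x 2| ≤ Vc cs w := by
  have h1 := h.potC_le hcs ![Pi.single 0 1, Pi.single 1 1, x, w] (fun k => by
    fin_cases k
    · exact h.single 0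
    · exact h.single 1
    · exact hx
    · exact h.wL) i τ
  have hw : |w 2| = w 2 := abs_of_nonneg h.w3
  have e0 : |det3 (Pi.single 1 1) x w| = |x 2 * w 0 - x 0 * w 2| := by
    congr 1; simp [det3]
  have e1 : |det3 (Pi.single 0 1) x w| = |x 2 * w 1 - x 1 * w 2| := by
    rw [← abs_neg]; congr 1; simp [det3]
  have e2 : |det3 (Pi.single 0 1) (Pi.single 1 1) w| = w 2 := by
    rw [← hw]; congr 1; simp [det3]
  have e3 : |det3 (Pi.single 0 1) (Pi.single 1 1) x| = |x 2| := by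
    congr 1; simp [det3]
  simp only [Matrix.cons_val_zero, Matrix.cons_val_one, Matrix.cons_val] at h1
  rw [e0, e1, e2, e3] at h1
  exact h1

/-- The functionals of `L` are bounded on the frame. -/
theorem GNice.dual_le {F : (Fin 4 → ℝ) → ℝ} {L : Set (Fin 3 → ℝ)} {w : Fin 3 → ℝ}
    (h : GNice F L w) (q : (Fin 3 → ℝ) →ₗ[ℝ] ℝ) (hq : ∀ x ∈ L, q x ≤ 1) :
    (∀ i, |q (Pi.single i 1)| ≤ 1) ∧ |q w| ≤ 1 := by
  have h3 : ∀ y ∈ L, |q y| ≤ 1 := by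
    intro y hy
    have h1 := hq _ hy
    have h2 := hq _ (h.symm _ hy)
    rw [map_neg] at h2
    rw [abs_le]
    exact ⟨by linarith, h1⟩
  exact ⟨fun i => h3 _ (h.single i), h3 _ h.wL⟩

/-- The constraints on the points of `L`, in terms of `w`. -/
structure GCon (cs : ι → Fin 4 → ℝ) (w x : Fin 3 → ℝ) : Prop where
  c3 : ∀ (i : ι) (τ : Equiv.Perm (Fin 4)),
    cs i (τ 0) * |x 0| + cs i (τ 1) * |x 1| + cs i (τ 2) * |x 2| + cs i (τ 3) ≤ Vc cs w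
  c0 : ∀ (i : ι) (τ : Equiv.Perm (Fin 4)),
    cs i (τ 0) * w 0 + cs i (τ 1) * |x 0 * w 1 - x 1 * w 0|
      + cs i (τ 2) * |x 0 * w 2 - x 2 * w 0| + cs i (τ 3) * |x 0| ≤ Vc cs w
  c1 : ∀ (i : ι) (τ : Equiv.Perm (Fin 4)),
    cs i (τ 0) * |x 1 * w 0 - x 0 * w 1| + cs i (τ 1) * w 1
      + cs i (τ 2) * |x 1 * w 2 - x 2 * w 1| + cs i (τ 3) * |x 1| ≤ Vc cs w
  c2 : ∀ (i : ι) (τ : Equiv.Perm (Fin 4)),
    cs i (τ 0) * |x 2 * w 0 - x 0 * w 2| + cs i (τ 1) * |x 2 * w 1 - x 1 * w 2|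
      + cs i (τ 2) * w 2 + cs i (τ 3) * |x 2| ≤ Vc cs w

theorem GNice.con {cs : ι → Fin 4 → ℝ} (hcs : ∀ i, Antitone (cs i))
    {L : Set (Fin 3 → ℝ)} {w : Fin 3 → ℝ} (h : GNice (potC cs) L w) {x : Fin 3 → ℝ}
    (hx : x ∈ L) : GCon cs w x :=
  ⟨h.con3 hcs hx, h.con0 hcs hx, h.con1 hcs hx, h.con2 hcs hx⟩

/-- The far regime with the information on `w` only. -/
def FarG (cs : ι → Fin 4 → ℝ) (V₀ : ℝ) : Prop :=
  ∀ w : Fin 3 → ℝ, w 0 ≤ 1 → w 1 ≤ w 0 → w 2 ≤ w 1 → 0 ≤ w 2 → V₀ ≤ Vc cs w →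
  ∃ D : Fin 7 → Fin 3 → ℝ, ∀ q : Fin 3 → ℝ, (∀ i, |q i| ≤ 1) → |dot q w| ≤ 1 →
    ∃ k, ∀ x : Fin 3 → ℝ, GCon cs w x → dot q x = 1 → 0 < dot (D k) x

/-- From the far regime to the seven functionals. -/
theorem FarG.good {cs : ι → Fin 4 → ℝ} (hcs : ∀ i, Antitone (cs i)) {V₀ : ℝ} (far : FarG cs V₀)
    (L : Set (Fin 3 → ℝ)) (w : Fin 3 → ℝ) (h : GNice (potC cs) L w)
    (hV : V₀ ≤ potC cs ![w 0, w 1, w 2, 1]) : Good L := by
  rw [potC_sorted hcs h.w0 h.w1 h.w2] at hV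
  obtain ⟨D, hD⟩ := far w h.w0 h.w1 h.w2 h.w3 hV
  refine ⟨fun k => fn3 (D k), fun q hq => ?_⟩
  obtain ⟨hq1, hq2⟩ := h.dual_le q hq
  obtain ⟨k, hk⟩ := hD (fun i => q (Pi.single i 1)) hq1 (by rw [← eq_fn3]; exact hq2)
  refine ⟨k, fun x hx hqx => ?_⟩
  rw [fn3_apply]
  refine hk x (h.con hcs hx) ?_
  rw [← eq_fn3]
  exact hqx

end Pool.Agent.Core7
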