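import Pool.Agent.Work.MP_80156a_core7.GCore
import Pool.Agent.Work.MP_80156a_core7.FarTree

/-!
# MP_80156a, CORE7: trees of tetrahedra for the far regime `FarG`

The weights of the final table are `cs2`.  A tree of tetrahedra bisects edges at midpoints; the
leaves are either outside of the far regime or cells, for which a checker `chk` is given.
-/

set_option autoImplicit false

namespace Pool.Agent.Core7.G

open Pool.Agent.Core7.Far

/-- The weights, `100` times. -/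
def aw : List (ℕ × ℕ × ℕ × ℕ) := [(100, 37, 31, 13)]

/-- The weights. -/
noncomputable def cs2 : Fin 1 → Fin 4 → ℝ :=
  ![![1, 37 / 100, 31 / 100, 13 / 100]]

theorem cs2_antitone : ∀ i, Antitone (cs2 i) := by
  intro i
  refine Fin.antitone_iff_succ_le.2 fun j => ?_
  fin_cases i <;> fin_cases j <;> simp [cs2] <;> norm_num

theorem cs2_pos : ∀ i, 0 ≤ cs2 i 3 := by
  intro i
  fin_cases i <;> simp [cs2] <;> norm_num

theorem cs2_near : ∃ i, (14212 / 10000 : ℝ) ≤ cs2 i 0 + 13 / 25 * (cs2 i 1 + cs2 i 2 + cs2 i 3) :=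
  ⟨0, by simp [cs2]; norm_num⟩

theorem aw_eq : ∀ i : Fin 1, ∃ a ∈ aw, cs2 i = ![(a.1 : ℝ) / 100, (a.2.1 : ℝ) / 100,
    (a.2.2.1 : ℝ) / 100, (a.2.2.2 : ℝ) / 100] := by
  intro i
  fin_cases i
  refine ⟨(100, 37, 31, 13), by simp [aw], ?_⟩
  ext j
  fin_cases j <;> simp [cs2] <;> norm_num

/-- The conclusion of the far regime at the point `w`. -/
def Concl (w : Fin 3 → ℝ) : Prop :=
  ∃ D : Fin 7 → Fin 3 → ℝ, ∀ q : Fin 3 → ℝ, (∀ i, |q i| ≤ 1) → |dot q w| ≤ 1 →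
    ∃ k, ∀ x : Fin 3 → ℝ, GCon cs2 w x → dot q x = 1 → 0 < dot (D k) x

/-- The conclusion, in the far regime. -/
def ConclF (w : Fin 3 → ℝ) : Prop := (14212 / 10000 : ℝ) ≤ Vc cs2 w → Concl w

/-- A property of all points of a tetrahedron. -/
def Good4P (P : (Fin 3 → ℝ) → Prop) (v0 v1 v2 v3 : V3) : Prop :=
  ∀ l : Fin 4 → ℝ, (∀ v, 0 ≤ l v) → l 0 + l 1 + l 2 + l 3 = 1 → P (pt v0 v1 v2 v3 l)

section split

variable {P : (Fin 3 → ℝ) → Prop} {v0 v1 v2 v3 : V3}

theorem gsplit0 (h : evn v0 v1 = true)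
    (h1 : Good4P P v0 (mid v0 v1) v2 v3) (h2 : Good4P P (mid v0 v1) v1 v2 v3) :
    Good4P P v0 v1 v2 v3 := by
  intro l hl hs
  have l0 := hl 0
  have l1 := hl 1
  have l2 := hl 2
  have l3 := hl 3
  rcases le_total (l 1) (l 0) with hle | hle
  · have e : pt v0 v1 v2 v3 l = pt v0 (mid v0 v1) v2 v3 ![l 0 - l 1, 2 * l 1, l 2, l 3] := by
      funext i
      simp only [pt, Matrix.cons_val_zero, Matrix.cons_val_one, Matrix.cons_val, mid_pos h i]
      ring
    rw [e]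
    refine h1 _ (fun v => ?_) ?_
    · fin_cases v <;> simp <;> linarith
    · simp only [Matrix.cons_val_zero, Matrix.cons_val_one, Matrix.cons_val]; linarith
  · have e : pt v0 v1 v2 v3 l = pt (mid v0 v1) v1 v2 v3 ![2 * l 0, l 1 - l 0, l 2, l 3] := by
      funext i
      simp only [pt, Matrix.cons_val_zero, Matrix.cons_val_one, Matrix.cons_val, mid_pos h i]
      ring
    rw [e]
    refine h2 _ (fun v => ?_) ?_
    · fin_cases v <;> simp <;> linarith
    · simp only [Matrix.cons_val_zero, Matrix.cons_val_one, Matrix.cons_val]; linarith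

theorem Good4P.perm {w0 w1 w2 w3 : V3} (f : (Fin 4 → ℝ) → (Fin 4 → ℝ))
    (hf : ∀ l, pt w0 w1 w2 w3 l = pt v0 v1 v2 v3 (f l))
    (hp : ∀ l : Fin 4 → ℝ, (∀ v, 0 ≤ l v) → ∀ v, 0 ≤ f l v)
    (hs : ∀ l : Fin 4 → ℝ, f l 0 + f l 1 + f l 2 + f l 3 = l 0 + l 1 + l 2 + l 3)
    (h : Good4P P v0 v1 v2 v3) : Good4P P w0 w1 w2 w3 := by
  intro l hl h1
  rw [hf]
  exact h _ (hp l hl) ((hs l).trans h1)

/-- cyclic permutation of the last three vertices -/
theorem Good4P.rot (h : Good4P P v0 v1 v2 v3) : Good4P P v0 v2 v3 v1 := by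
  refine h.perm (fun l => ![l 0, l 3, l 1, l 2]) (fun l => ?_) (fun l hl v => ?_) (fun l => ?_)
  · funext i
    simp only [pt, Matrix.cons_val_zero, Matrix.cons_val_one, Matrix.cons_val]
    ring
  · fin_cases v
    · exact hl 0
    · exact hl 3
    · exact hl 1
    · exact hl 2
  · simp only [Matrix.cons_val_zero, Matrix.cons_val_one, Matrix.cons_val]; ring

/-- transposition of the first two vertices -/
theorem Good4P.swap (h : Good4P P v0 v1 v2 v3) : Good4P P v1 v0 v2 v3 := by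
  refine h.perm (fun l => ![l 1, l 0, l 2, l 3]) (fun l => ?_) (fun l hl v => ?_) (fun l => ?_)
  · funext i
    simp only [pt, Matrix.cons_val_zero, Matrix.cons_val_one, Matrix.cons_val]
    ring
  · fin_cases v
    · exact hl 1
    · exact hl 0
    · exact hl 2
    · exact hl 3
  · simp only [Matrix.cons_val_zero, Matrix.cons_val_one, Matrix.cons_val]; ring

theorem gsplit1 (h : evn v0 v2 = true)
    (h1 : Good4P P v0 v1 (mid v0 v2) v3) (h2 : Good4P P (mid v0 v2) v1 v2 v3) :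
    Good4P P v0 v1 v2 v3 :=
  (gsplit0 (v0 := v0) (v1 := v2) (v2 := v3) (v3 := v1) h h1.rot h2.rot).rot.rot

theorem gsplit2 (h : evn v0 v3 = true)
    (h1 : Good4P P v0 v1 v2 (mid v0 v3)) (h2 : Good4P P (mid v0 v3) v1 v2 v3) :
    Good4P P v0 v1 v2 v3 :=
  (gsplit0 (v0 := v0) (v1 := v3) (v2 := v1) (v3 := v2) h h1.rot.rot h2.rot.rot).rot

theorem gsplit3 (h : evn v1 v2 = true)
    (h1 : Good4P P v0 v1 (mid v1 v2) v3) (h2 : Good4P P v0 (mid v1 v2) v2 v3) :
    Good4P P v0 v1 v2 v3 :=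
  (gsplit1 (v0 := v1) (v1 := v0) (v2 := v2) (v3 := v3) h h1.swap h2.swap).swap

theorem gsplit4 (h : evn v1 v3 = true)
    (h1 : Good4P P v0 v1 v2 (mid v1 v3)) (h2 : Good4P P v0 (mid v1 v3) v2 v3) :
    Good4P P v0 v1 v2 v3 :=
  (gsplit2 (v0 := v1) (v1 := v0) (v2 := v2) (v3 := v3) h h1.swap h2.swap).swap

theorem gsplit5 (h : evn v2 v3 = true)
    (h1 : Good4P P v0 v1 v2 (mid v2 v3)) (h2 : Good4P P v0 v1 (mid v2 v3) v3) :
    Good4P P v0 v1 v2 v3 :=
  (gsplit3 (v0 := v0) (v1 := v2) (v2 := v3) (v3 := v1) h h1.rot h2.rot).rot.rot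

end split

/-! ## Outside of the far regime -/

/-- the threshold, `102400 * 14212 / 10000 = 145530.88` -/
def thr : ℕ := 145530

/-- `102400 Vc` at a vertex is at most `thr` -/
def outL : List (ℕ × ℕ × ℕ × ℕ) → V3 → Bool
  | [], _ => true
  | a :: s, w => and (Nat.ble (Nat.add (Nat.mul 1024 a.1) (Nat.add (Nat.mul a.2.1 w.x)
      (Nat.add (Nat.mul a.2.2.1 w.y) (Nat.mul a.2.2.2 w.z)))) thr) (outL s w)

/-- `102400 Vc` at a vertex is at most `thr` -/
def outG (w : V3) : Bool := outL aw w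

theorem outL_sound {w : V3} : ∀ s : List (ℕ × ℕ × ℕ × ℕ), outL s w = true → ∀ a ∈ s,
    (1024 * (a.1 : ℝ) + (a.2.1 * w.pos 0 + (a.2.2.1 * w.pos 1 + a.2.2.2 * w.pos 2)) : ℝ) ≤ thr
  | [], _, a, ha => by simp at ha
  | b :: s, h, a, ha => by
    unfold outL at h
    simp only [Bool.and_eq_true, Nat.ble_eq, Nat.add_eq, Nat.mul_eq] at h
    rcases List.mem_cons.1 ha with rfl | ha
    · simp only [V3.pos, Matrix.cons_val_zero, Matrix.cons_val_one, Matrix.cons_val]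
      exact_mod_cast h.1
    · exact outL_sound s h.2 a ha

theorem good_outG {v0 v1 v2 v3 : V3} (h0 : outG v0 = true) (h1 : outG v1 = true)
    (h2 : outG v2 = true) (h3 : outG v3 = true) : Good4P ConclF v0 v1 v2 v3 := by
  intro l hl hs hV
  exfalso
  have l0 := hl 0
  have l1 := hl 1
  have l2 := hl 2
  have l3 := hl 3
  have hlt : Vc cs2 (pt v0 v1 v2 v3 l) ≤ thr / 102400 := by
    refine Vc_le _ _ fun i => ?_
    obtain ⟨a, ha, e⟩ := aw_eq i
    have b0 := mul_le_mul_of_nonneg_left (outL_sound aw h0 a ha) l0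
    have b1 := mul_le_mul_of_nonneg_left (outL_sound aw h1 a ha) l1
    have b2 := mul_le_mul_of_nonneg_left (outL_sound aw h2 a ha) l2
    have b3 := mul_le_mul_of_nonneg_left (outL_sound aw h3 a ha) l3
    have e1 : l 0 * (thr : ℝ) + l 1 * thr + l 2 * thr + l 3 * thr = thr := by
      linear_combination (thr : ℝ) * hs
    have e2 : (a.1 : ℝ) / 100 + (a.2.1 : ℝ) / 100 * pt v0 v1 v2 v3 l 0
        + (a.2.2.1 : ℝ) / 100 * pt v0 v1 v2 v3 l 1 + (a.2.2.2 : ℝ) / 100 * pt v0 v1 v2 v3 l 2 =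
        (l 0 * (1024 * (a.1 : ℝ) + (a.2.1 * v0.pos 0 + (a.2.2.1 * v0.pos 1 + a.2.2.2 * v0.pos 2)))
        + l 1 * (1024 * (a.1 : ℝ) + (a.2.1 * v1.pos 0 + (a.2.2.1 * v1.pos 1 + a.2.2.2 * v1.pos 2)))
        + l 2 * (1024 * (a.1 : ℝ) + (a.2.1 * v2.pos 0 + (a.2.2.1 * v2.pos 1 + a.2.2.2 * v2.pos 2)))
        + l 3 * (1024 * (a.1 : ℝ) + (a.2.1 * v3.pos 0 + (a.2.2.1 * v3.pos 1 + a.2.2.2 * v3.pos 2))))
          / 102400 := by
      simp only [pt]
      linear_combination (-(a.1 : ℝ) / 100) * hs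
    rw [e]
    simp only [Matrix.cons_val_zero, Matrix.cons_val_one, Matrix.cons_val]
    rw [e2]
    refine div_le_div_of_nonneg_right ?_ (by norm_num)
    linarith
  have : (14212 / 10000 : ℝ) ≤ thr / 102400 := hV.trans hlt
  unfold thr at this
  norm_num at this

/-! ## Trees -/

/-- trees of tetrahedra with cell data -/
inductive GT (γ : Type) where
  | O
  | S (e : ℕ) (l r : GT γ)
  | C (c : γ)

/-- the check of a tree -/
def chkT {γ : Type} (chk : V3 → V3 → V3 → V3 → γ → Bool) : GT γ → V3 → V3 → V3 → V3 → Bool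
  | .O, v0, v1, v2, v3 => and (outG v0) (and (outG v1) (and (outG v2) (outG v3)))
  | .C c, v0, v1, v2, v3 => chk v0 v1 v2 v3 c
  | .S e l r, v0, v1, v2, v3 =>
    match e with
    | 0 => and (evn v0 v1) (and (chkT chk l v0 (mid v0 v1) v2 v3)
        (chkT chk r (mid v0 v1) v1 v2 v3))
    | 1 => and (evn v0 v2) (and (chkT chk l v0 v1 (mid v0 v2) v3)
        (chkT chk r (mid v0 v2) v1 v2 v3))
    | 2 => and (evn v0 v3) (and (chkT chk l v0 v1 v2 (mid v0 v3))
        (chkT chk r (mid v0 v3) v1 v2 v3))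
    | 3 => and (evn v1 v2) (and (chkT chk l v0 v1 (mid v1 v2) v3)
        (chkT chk r v0 (mid v1 v2) v2 v3))
    | 4 => and (evn v1 v3) (and (chkT chk l v0 v1 v2 (mid v1 v3))
        (chkT chk r v0 (mid v1 v3) v2 v3))
    | _ => and (evn v2 v3) (and (chkT chk l v0 v1 v2 (mid v2 v3))
        (chkT chk r v0 v1 (mid v2 v3) v3))

theorem good_T {γ : Type} {chk : V3 → V3 → V3 → V3 → γ → Bool}
    (hchk : ∀ v0 v1 v2 v3 c, chk v0 v1 v2 v3 c = true → Good4P ConclF v0 v1 v2 v3) (t : GT γ) :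
    ∀ v0 v1 v2 v3 : V3, chkT chk t v0 v1 v2 v3 = true → Good4P ConclF v0 v1 v2 v3 := by
  induction t with
  | O =>
    intro v0 v1 v2 v3 h
    unfold chkT at h
    simp only [Bool.and_eq_true] at h
    exact good_outG h.1 h.2.1 h.2.2.1 h.2.2.2
  | C c =>
    intro v0 v1 v2 v3 h
    unfold chkT at h
    exact hchk _ _ _ _ _ h
  | S e l r ihl ihr =>
    intro v0 v1 v2 v3 h
    unfold chkT at h
    match e, h with
    | 0, h =>
      simp only [Bool.and_eq_true] at h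
      exact gsplit0 h.1 (ihl _ _ _ _ h.2.1) (ihr _ _ _ _ h.2.2)
    | 1, h =>
      simp only [Bool.and_eq_true] at h
      exact gsplit1 h.1 (ihl _ _ _ _ h.2.1) (ihr _ _ _ _ h.2.2)
    | 2, h =>
      simp only [Bool.and_eq_true] at h
      exact gsplit2 h.1 (ihl _ _ _ _ h.2.1) (ihr _ _ _ _ h.2.2)
    | 3, h =>
      simp only [Bool.and_eq_true] at h
      exact gsplit3 h.1 (ihl _ _ _ _ h.2.1) (ihr _ _ _ _ h.2.2)
    | 4, h =>
      simp only [Bool.and_eq_true] at h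
      exact gsplit4 h.1 (ihl _ _ _ _ h.2.1) (ihr _ _ _ _ h.2.2)
    | (n + 5), h =>
      simp only [Bool.and_eq_true] at h
      exact gsplit5 h.1 (ihl _ _ _ _ h.2.1) (ihr _ _ _ _ h.2.2)

/-- the root tetrahedron gives the far regime -/
theorem farG_of_good (h : Good4P ConclF ⟨0, 0, 0⟩ ⟨1024, 0, 0⟩ ⟨1024, 1024, 0⟩
    ⟨1024, 1024, 1024⟩) : FarG cs2 (14212 / 10000) := by
  intro w hw0 hw1 hw2 hw3 hV
  have e : pt ⟨0, 0, 0⟩ ⟨1024, 0, 0⟩ ⟨1024, 1024, 0⟩ ⟨1024, 1024, 1024⟩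
      ![1 - w 0, w 0 - w 1, w 1 - w 2, w 2] = w := by
    funext i
    fin_cases i <;> simp [pt, V3.pos] <;> ring
  have h1 := h ![1 - w 0, w 0 - w 1, w 1 - w 2, w 2] (fun v => by
    fin_cases v <;> simp <;> linarith) (by
      simp only [Matrix.cons_val_zero, Matrix.cons_val_one, Matrix.cons_val]; ring)
  rw [e] at h1
  exact h1 hV

/-- CORE7 from the table. -/
theorem core7_of_good4 (h : Good4P ConclF ⟨0, 0, 0⟩ ⟨1024, 0, 0⟩ ⟨1024, 1024, 0⟩
    ⟨1024, 1024, 1024⟩) : Core7Stmt :=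
  core7_of_farG cs2_antitone cs2_pos (by norm_num) cs2_near (farG_of_good h)

end Pool.Agent.Core7.G
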