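import Mathlib

/-!
# MP_80156a, CORE7: the near regime (note 2536 of helper58)

Only linear arithmetic: a set `L` of points of the cube with `l1` norm at most `1 + eta`, a point
`w` of the positive octant with `l1` norm `1 + eta` and a `q` of the cube with `q.w ≤ 1`.
Then one of the seven functionals `DNear b` is positive on `{x ∈ L : q.x = 1}`.
-/

namespace Pool.Agent.Core7

/-- The seven functionals of the near regime. -/
def DNear (b : ℝ) : Fin 7 → Fin 3 → ℝ :=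
  ![![-1, -1, -1], ![1, -1, -1], ![-1, 1, -1], ![-1, -1, 1], ![-b, 1, 1], ![1, -b, 1], ![1, 1, -b]]

/-- Positive part estimate: `q x ≤ (x + |x|)/2` for `0 ≤ q ≤ 1`. -/
theorem qx_le {q x : ℝ} (h0 : 0 ≤ q) (h1 : q ≤ 1) : q * x ≤ (x + |x|) / 2 := by
  rcases le_total 0 x with hx | hx
  · rw [abs_of_nonneg hx]; nlinarith
  · rw [abs_of_nonpos hx]; nlinarith

/-- The octants with at most one positive coordinate (after flipping signs). -/
theorem octant {η q1 q2 q3 x1 x2 x3 : ℝ} (hη : η < 1)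
    (h1 : 0 ≤ q1) (h1' : q1 ≤ 1) (h2 : 0 ≤ q2) (h2' : q2 ≤ 1) (h3 : 0 ≤ q3) (h3' : q3 ≤ 1)
    (hx : |x1| + |x2| + |x3| ≤ 1 + η) (hq : q1 * x1 + q2 * x2 + q3 * x3 = 1) :
    0 < x1 + x2 + x3 := by
  have a1 := qx_le (x := x1) h1 h1'
  have a2 := qx_le (x := x2) h2 h2'
  have a3 := qx_le (x := x3) h3 h3'
  linarith

/-- The bound `(1 - η) ≤ r (1 + η)` from the point `y`. -/
theorem y_bound {η a p r y1 y2 y3 : ℝ}
    (ha : 0 ≤ a) (ha' : a ≤ 1) (hp : 0 ≤ p) (hp' : p ≤ 1) (hr : 0 ≤ r) (hr' : r ≤ 1)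
    (hy : |y1| + |y2| + |y3| ≤ 1 + η) (hq : -a * y1 + p * y2 + r * y3 = 1)
    (hneg : y2 ≤ y1 + y3) : 1 - η ≤ r * (1 + η) := by
  have e1 : ((1 - r) / 2 - a) * y1 ≤ (1 + r) / 2 * |y1| := by
    have h1 : |((1 - r) / 2 - a) * y1| ≤ (1 + r) / 2 * |y1| := by
      rw [abs_mul]
      apply mul_le_mul_of_nonneg_right _ (abs_nonneg _)
      rw [abs_le]; constructor <;> linarith
    exact (le_abs_self _).trans h1
  have e2 : (p - (1 - r) / 2) * y2 ≤ (1 + r) / 2 * |y2| := by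
    have h1 : |(p - (1 - r) / 2) * y2| ≤ (1 + r) / 2 * |y2| := by
      rw [abs_mul]
      apply mul_le_mul_of_nonneg_right _ (abs_nonneg _)
      rw [abs_le]; constructor <;> linarith
    exact (le_abs_self _).trans h1
  have e3 : (r + (1 - r) / 2) * y3 ≤ (1 + r) / 2 * |y3| := by
    have : (r + (1 - r) / 2) = (1 + r) / 2 := by ring
    rw [this]
    exact mul_le_mul_of_nonneg_left (le_abs_self _) (by linarith)
  have e4 : (1 - r) / 2 * (y1 + y3 - y2) ≥ 0 := mul_nonneg (by linarith) (by linarith)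
  have e5 : (1 + r) / 2 * (|y1| + |y2| + |y3|) ≤ (1 + r) / 2 * (1 + η) :=
    mul_le_mul_of_nonneg_left hy (by linarith)
  nlinarith

/-- Case `x3 < 0` of an octant with one negative coordinate. -/
theorem B_half {η b a p r x1 x2 x3 : ℝ} (h0 : 0 < η) (hη : η < 1) (hb : η ^ 2 < b) (hb1 : b < 1)
    (_ha : 0 ≤ a) (ha' : a ≤ 1) (hp : 0 ≤ p) (hp' : p ≤ 1) (hr : 0 ≤ r) (hr' : r ≤ 1)
    (hrr : 1 - η ≤ r * (1 + η))
    (hx : |x1| + |x2| + |x3| ≤ 1 + η) (hx1 : |x1| ≤ 1)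
    (hq : -a * x1 + p * x2 + r * x3 = 1)
    (hn1 : x1 < 0) (hn3 : x3 < 0) (hneg : -b * x1 + x2 + x3 ≤ 0) : False := by
  have hb0 : 0 < b := lt_of_le_of_lt (sq_nonneg _) hb
  have hr0 : 0 < r := by
    by_contra h
    have : r = 0 := le_antisymm (not_lt.mp h) hr
    rw [this] at hrr; linarith
  rw [abs_of_neg hn1] at hx hx1
  rw [abs_of_neg hn3] at hx
  -- `a * U ≤ U`
  have haU : a * (-x1) ≤ -x1 := by nlinarith
  rcases lt_or_ge x2 0 with h2 | h2
  · have : p * x2 ≤ 0 := mul_nonpos_of_nonneg_of_nonpos hp h2.le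
    have : r * x3 < 0 := mul_neg_of_pos_of_neg hr0 hn3
    linarith
  · rw [abs_of_nonneg h2] at hx
    have hp2 : p * x2 ≤ x2 := by nlinarith
    -- U + t ≥ 1 + r t'
    have hUt : 1 - r * x3 ≤ -x1 + x2 := by linarith
    have hs0 : 0 ≤ x2 + r * x3 := by linarith
    have ht' : (1 + r) * (-x3) ≤ η := by linarith
    have hbU : b * (-x1) ≤ -x3 - x2 := by linarith
    have hb2 : b * (1 - (x2 + r * x3)) ≤ b * (-x1) :=
      mul_le_mul_of_nonneg_left (by linarith) hb0.le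
    have hb3 : b * (x2 + r * x3) ≤ x2 + r * x3 := by nlinarith
    have hb4 : b ≤ (1 - r) * (-x3) := by linarith
    have hb5 : (1 - r) * (-x3) ≤ η * (1 + r) * (-x3) :=
      mul_le_mul_of_nonneg_right (by linarith) (by linarith)
    have hb6 : η * (1 + r) * (-x3) ≤ η * η := by
      have := mul_le_mul_of_nonneg_left ht' h0.le
      linarith
    nlinarith

/-- An octant with one negative coordinate. -/
theorem B_full {η b a p r x1 x2 x3 y1 y2 y3 z1 z2 z3 : ℝ}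
    (h0 : 0 < η) (hη : η < 1) (hb : η ^ 2 < b) (hb1 : b < 1)
    (ha : 0 ≤ a) (ha' : a ≤ 1) (hp : 0 ≤ p) (hp' : p ≤ 1) (hr : 0 ≤ r) (hr' : r ≤ 1)
    (hx : |x1| + |x2| + |x3| ≤ 1 + η) (hx1 : |x1| ≤ 1)
    (hq : -a * x1 + p * x2 + r * x3 = 1) (hneg : -b * x1 + x2 + x3 ≤ 0)
    (hy : |y1| + |y2| + |y3| ≤ 1 + η) (hqy : -a * y1 + p * y2 + r * y3 = 1)
    (hyneg : y2 ≤ y1 + y3)
    (hz : |z1| + |z2| + |z3| ≤ 1 + η) (hqz : -a * z1 + p * z2 + r * z3 = 1)
    (hzneg : z3 ≤ z1 + z2) : False := by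
  have hb0 : 0 < b := lt_of_le_of_lt (sq_nonneg _) hb
  have hrr : 1 - η ≤ r * (1 + η) := y_bound ha ha' hp hp' hr hr' hy hqy hyneg
  have hpp : 1 - η ≤ p * (1 + η) :=
    y_bound ha ha' hr hr' hp hp' (y1 := z1) (y2 := z3) (y3 := z2) (by linarith) (by linarith)
      (by linarith)
  have hx1n : x1 < 0 := by
    by_contra hge
    have hge : 0 ≤ x1 := not_lt.mp hge
    have a2 := qx_le (x := x2) hp hp'
    have a3 := qx_le (x := x3) hr hr'
    rw [abs_of_nonneg hge] at hx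
    have : 0 ≤ a * x1 := mul_nonneg ha hge
    nlinarith
  rcases lt_or_ge x3 0 with h3 | h3
  · exact B_half h0 hη hb hb1 ha ha' hp hp' hr hr' hrr hx hx1 hq hx1n h3 hneg
  · have h2 : x2 < 0 := by nlinarith
    exact B_half h0 hη hb hb1 ha ha' hr hr' hp hp' hpp (x1 := x1) (x2 := x3) (x3 := x2)
      (by linarith) hx1 (by linarith) hx1n h2 (by linarith)

/-- The inequality `N_i`, `q_j ≥ q_k`. -/
theorem N_ineq {η b qi qj qk s α β : ℝ} (h0 : 0 < η) (hη : η < 1) (hb0 : 0 < b) (_hb1 : b < 1)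
    (hi : 0 ≤ qi) (hi' : qi ≤ 1) (hj : 0 ≤ qj) (hj' : qj ≤ 1) (hk : 0 ≤ qk) (hk' : qk ≤ 1)
    (hjk : qk ≤ qj) (hs1 : |s| ≤ 1)
    (hx : |s| + |α| + |β| ≤ 1 + η) (hq : qi * s + qj * α + qk * β = 1)
    (hneg : -b * s + α + β ≤ 0) :
    1 ≤ qi + b * (qj + qk) / 2 + η * (qj - qk) / 2 := by
  have hs : 0 < s := by
    by_contra hle
    have hle : s ≤ 0 := not_lt.mp hle
    have a2 := qx_le (x := α) hj hj'
    have a3 := qx_le (x := β) hk hk'
    rw [abs_of_nonpos hle] at hx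
    have : qi * s ≤ 0 := mul_nonpos_of_nonneg_of_nonpos hi hle
    nlinarith
  rw [abs_of_pos hs] at hs1 hx
  have h2a : 2 * α ≤ 1 + η - (1 - b) * s := by
    have e1 : α ≤ |α| := le_abs_self _
    have e2 : -β ≤ |β| := neg_le_abs _
    nlinarith
  have h3 : qk * β ≤ qk * (b * s - α) := mul_le_mul_of_nonneg_left (by linarith) hk
  have h4 : (qj - qk) * (2 * α) ≤ (qj - qk) * (1 + η - (1 - b) * s) :=
    mul_le_mul_of_nonneg_left h2a (by linarith)
  -- `1 ≤ s C + (qj - qk) (1 + η) / 2`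
  have h5 : 1 ≤ s * (qi + b * (qj + qk) / 2 - (qj - qk) / 2) + (qj - qk) * (1 + η) / 2 := by
    nlinarith
  have h6 : (qj - qk) * (1 + η) / 2 ≤ (1 + η) / 2 := by nlinarith
  have hC : 0 < qi + b * (qj + qk) / 2 - (qj - qk) / 2 := by
    by_contra hle
    have hle := not_lt.mp hle
    have := mul_nonpos_of_nonneg_of_nonpos hs.le hle
    linarith
  have h7 : s * (qi + b * (qj + qk) / 2 - (qj - qk) / 2) ≤
      1 * (qi + b * (qj + qk) / 2 - (qj - qk) / 2) :=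
    mul_le_mul_of_nonneg_right hs1 hC.le
  nlinarith

/-- The positive octant when `q1` is the smallest coordinate and `q3 ≤ q2`. -/
theorem A_half {η b q1 q2 q3 w1 w2 w3 s α β : ℝ}
    (h0 : 0 < η) (hη : η < 1) (hb0 : 0 < b) (hb1 : b < 1) (hb' : (2 + η) * b < η * (2 - η))
    (hq1 : 0 ≤ q1) (hq1' : q1 ≤ 1) (hq2 : 0 ≤ q2) (hq2' : q2 ≤ 1) (hq3 : 0 ≤ q3) (hq3' : q3 ≤ 1)
    (h12 : q1 ≤ q2) (h13 : q1 ≤ q3) (h32 : q3 ≤ q2)
    (hw1 : 0 ≤ w1) (hw1' : w1 ≤ 1) (hw2 : 0 ≤ w2) (hw3 : 0 ≤ w3)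
    (hws : w1 + w2 + w3 = 1 + η) (hqw : q1 * w1 + q2 * w2 + q3 * w3 ≤ 1)
    (hs1 : |s| ≤ 1) (hx : |s| + |α| + |β| ≤ 1 + η) (hq : q1 * s + q2 * α + q3 * β = 1)
    (hneg : -b * s + α + β ≤ 0) : False := by
  have hN := N_ineq h0 hη hb0 hb1 hq1 hq1' hq2 hq2' hq3 hq3' h32 hs1 hx hq hneg
  have hbη : b < η := by nlinarith
  -- d1 (1 - (η - b)/2) ≤ b
  have hd1 : (1 - q1) * (1 - (η - b) / 2) ≤ b := by
    have e1 : 0 ≤ (η - b) * ((1 - q1) - (1 - q3)) := mul_nonneg (by linarith) (by linarith)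
    have e2 : 0 ≤ (η + b) * (1 - q2) := mul_nonneg (by linarith) (by linarith)
    nlinarith
  have hd2 : η ≤ (1 + η) * (1 - q1) := by
    have e1 : (1 - q2) * w2 ≤ (1 - q1) * w2 := mul_le_mul_of_nonneg_right (by linarith) hw2
    have e2 : (1 - q3) * w3 ≤ (1 - q1) * w3 := mul_le_mul_of_nonneg_right (by linarith) hw3
    nlinarith
  have h8 : η * (1 - (η - b) / 2) ≤ (1 + η) * b := by
    have hpos : 0 ≤ 1 - (η - b) / 2 := by linarith
    have e1 := mul_le_mul_of_nonneg_right hd2 hpos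
    have e2 := mul_le_mul_of_nonneg_left hd1 (show (0:ℝ) ≤ 1 + η by linarith)
    linarith
  nlinarith

/-- The positive octant when `q1` is the smallest coordinate. -/
theorem A_full {η b q1 q2 q3 w1 w2 w3 s α β : ℝ}
    (h0 : 0 < η) (hη : η < 1) (hb0 : 0 < b) (hb1 : b < 1) (hb' : (2 + η) * b < η * (2 - η))
    (hq1 : 0 ≤ q1) (hq1' : q1 ≤ 1) (hq2 : 0 ≤ q2) (hq2' : q2 ≤ 1) (hq3 : 0 ≤ q3) (hq3' : q3 ≤ 1)
    (h12 : q1 ≤ q2) (h13 : q1 ≤ q3)
    (hw1 : 0 ≤ w1) (hw1' : w1 ≤ 1) (hw2 : 0 ≤ w2) (hw3 : 0 ≤ w3)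
    (hws : w1 + w2 + w3 = 1 + η) (hqw : q1 * w1 + q2 * w2 + q3 * w3 ≤ 1)
    (hs1 : |s| ≤ 1) (hx : |s| + |α| + |β| ≤ 1 + η) (hq : q1 * s + q2 * α + q3 * β = 1)
    (hneg : -b * s + α + β ≤ 0) : False := by
  rcases le_total q3 q2 with h | h
  · exact A_half h0 hη hb0 hb1 hb' hq1 hq1' hq2 hq2' hq3 hq3' h12 h13 h hw1 hw1' hw2 hw3 hws hqw
      hs1 hx hq hneg
  · exact A_half h0 hη hb0 hb1 hb' hq1 hq1' hq3 hq3' hq2 hq2' h13 h12 h hw1 hw1' hw3 hw2
      (by linarith) (by linarith) hs1 (α := β) (β := α) (by linarith) (by linarith) (by linarith)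

/-- **Near regime.** -/
theorem near {η b : ℝ} (h0 : 0 < η) (hb : η ^ 2 < b) (hb' : (2 + η) * b < η * (2 - η))
    (L : Set (Fin 3 → ℝ)) (hL : ∀ x ∈ L, ∀ i, |x i| ≤ 1)
    (hL1 : ∀ x ∈ L, |x 0| + |x 1| + |x 2| ≤ 1 + η)
    (w : Fin 3 → ℝ) (hw : ∀ i, 0 ≤ w i) (hw1 : ∀ i, w i ≤ 1) (hws : w 0 + w 1 + w 2 = 1 + η)
    (q : Fin 3 → ℝ) (hq : ∀ i, |q i| ≤ 1) (hqw : q 0 * w 0 + q 1 * w 1 + q 2 * w 2 ≤ 1) :
    ∃ k : Fin 7, ∀ x ∈ L, q 0 * x 0 + q 1 * x 1 + q 2 * x 2 = 1 →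
      0 < DNear b k 0 * x 0 + DNear b k 1 * x 1 + DNear b k 2 * x 2 := by
  have hb0 : 0 < b := lt_of_le_of_lt (sq_nonneg _) hb
  have hη : η < 1 := by
    by_contra h
    have h1 : 1 ≤ η := not_lt.mp h
    nlinarith
  have hbη : b < η := by nlinarith
  have hb1 : b < 1 := hbη.trans hη
  by_contra hcon
  push Not at hcon
  obtain ⟨x0, hx0L, hx0q, hx0⟩ := hcon 0
  obtain ⟨x1, hx1L, hx1q, hx1⟩ := hcon 1
  obtain ⟨x2, hx2L, hx2q, hx2⟩ := hcon 2
  obtain ⟨x3, hx3L, hx3q, hx3⟩ := hcon 3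
  obtain ⟨x4, hx4L, hx4q, hx4⟩ := hcon 4
  obtain ⟨x5, hx5L, hx5q, hx5⟩ := hcon 5
  obtain ⟨x6, hx6L, hx6q, hx6⟩ := hcon 6
  simp only [DNear, Matrix.cons_val_zero, Matrix.cons_val_one, Matrix.cons_val,
    Matrix.cons_val_fin_one] at hx0 hx1 hx2 hx3 hx4 hx5 hx6
  have q0 := abs_le.mp (hq 0)
  have q1 := abs_le.mp (hq 1)
  have q2 := abs_le.mp (hq 2)
  have l0 := hL1 _ hx0L
  have l1 := hL1 _ hx1L
  have l2 := hL1 _ hx2L
  have l3 := hL1 _ hx3L
  have l4 := hL1 _ hx4L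
  have l5 := hL1 _ hx5L
  have l6 := hL1 _ hx6L
  have aneg : ∀ t : ℝ, |(-t)| = |t| := fun t => abs_neg t
  rcases le_total (q 0) 0 with s0 | s0 <;> rcases le_total (q 1) 0 with s1 | s1 <;>
    rcases le_total (q 2) 0 with s2 | s2
  · -- signs (n, n, n)
    have := octant hη (q1 := -q 0) (q2 := -q 1) (q3 := -q 2) (x1 := -x0 0) (x2 := -x0 1)
      (x3 := -x0 2) (by linarith) (by linarith) (by linarith) (by linarith) (by linarith)
      (by linarith) (by simp only [aneg]; linarith) (by linarith)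
    linarith
  · -- signs (n, n, p)
    have := octant hη (q1 := -q 0) (q2 := -q 1) (q3 := q 2) (x1 := -x3 0) (x2 := -x3 1)
      (x3 := x3 2) (by linarith) (by linarith) (by linarith) (by linarith) (by linarith)
      (by linarith) (by simp only [aneg]; linarith) (by linarith)
    linarith
  · -- signs (n, p, n)
    have := octant hη (q1 := -q 0) (q2 := q 1) (q3 := -q 2) (x1 := -x2 0) (x2 := x2 1)
      (x3 := -x2 2) (by linarith) (by linarith) (by linarith) (by linarith) (by linarith)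
      (by linarith) (by simp only [aneg]; linarith) (by linarith)
    linarith
  · -- signs (n, p, p)
    exact B_full h0 hη hb hb1 (a := -q 0) (p := q 1) (r := q 2)
      (by linarith) (by linarith) (by linarith) (by linarith) (by linarith) (by linarith)
      l4 (hL _ hx4L 0) (by linarith) (by linarith)
      l2 (by linarith) (by linarith) l3 (by linarith) (by linarith)
  · -- signs (p, n, n)
    have := octant hη (q1 := q 0) (q2 := -q 1) (q3 := -q 2) (x1 := x1 0) (x2 := -x1 1)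
      (x3 := -x1 2) (by linarith) (by linarith) (by linarith) (by linarith) (by linarith)
      (by linarith) (by simp only [aneg]; linarith) (by linarith)
    linarith
  · -- signs (p, n, p)
    exact B_full h0 hη hb hb1 (a := -q 1) (p := q 0) (r := q 2)
      (x1 := x5 1) (x2 := x5 0) (x3 := x5 2) (y1 := x1 1) (y2 := x1 0) (y3 := x1 2)
      (z1 := x3 1) (z2 := x3 0) (z3 := x3 2)
      (by linarith) (by linarith) (by linarith) (by linarith) (by linarith) (by linarith)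
      (by linarith) (hL _ hx5L 1) (by linarith) (by linarith)
      (by linarith) (by linarith) (by linarith) (by linarith) (by linarith) (by linarith)
  · -- signs (p, p, n)
    exact B_full h0 hη hb hb1 (a := -q 2) (p := q 0) (r := q 1)
      (x1 := x6 2) (x2 := x6 0) (x3 := x6 1) (y1 := x1 2) (y2 := x1 0) (y3 := x1 1)
      (z1 := x2 2) (z2 := x2 0) (z3 := x2 1)
      (by linarith) (by linarith) (by linarith) (by linarith) (by linarith) (by linarith)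
      (by linarith) (hL _ hx6L 2) (by linarith) (by linarith)
      (by linarith) (by linarith) (by linarith) (by linarith) (by linarith) (by linarith)
  · -- signs (p, p, p)
    have m4 := hL _ hx4L 0
    have m5 := hL _ hx5L 1
    have m6 := hL _ hx6L 2
    rcases le_total (q 0) (q 1) with t01 | t01
    · rcases le_total (q 0) (q 2) with t02 | t02
      · exact A_full h0 hη hb0 hb1 hb' s0 q0.2 s1 q1.2 s2 q2.2 t01 t02 (hw 0) (hw1 0) (hw 1) (hw 2)
          hws hqw m4 l4 hx4q (by linarith)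
      · exact A_full h0 hη hb0 hb1 hb' s2 q2.2 s0 q0.2 s1 q1.2 t02 (by linarith) (hw 2) (hw1 2)
          (hw 0) (hw 1) (by linarith) (by linarith) m6 (α := x6 0) (β := x6 1) (by linarith)
          (by linarith) (by linarith)
    · rcases le_total (q 1) (q 2) with t12 | t12
      · exact A_full h0 hη hb0 hb1 hb' s1 q1.2 s0 q0.2 s2 q2.2 t01 t12 (hw 1) (hw1 1)
          (hw 0) (hw 2) (by linarith) (by linarith) m5 (α := x5 0) (β := x5 2) (by linarith)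
          (by linarith) (by linarith)
      · exact A_full h0 hη hb0 hb1 hb' s2 q2.2 s0 q0.2 s1 q1.2 (by linarith) t12 (hw 2) (hw1 2)
          (hw 0) (hw 1) (by linarith) (by linarith) m6 (α := x6 0) (β := x6 1) (by linarith)
          (by linarith) (by linarith)

/-- Near regime for every `0 < η ≤ 14/25`, with an explicit `b`. -/
theorem near' {η : ℝ} (h0 : 0 < η) (h1 : η ≤ 14 / 25)
    (L : Set (Fin 3 → ℝ)) (hL : ∀ x ∈ L, ∀ i, |x i| ≤ 1)
    (hL1 : ∀ x ∈ L, |x 0| + |x 1| + |x 2| ≤ 1 + η)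
    (w : Fin 3 → ℝ) (hw : ∀ i, 0 ≤ w i) (hw1 : ∀ i, w i ≤ 1) (hws : w 0 + w 1 + w 2 = 1 + η) :
    ∃ D : Fin 7 → Fin 3 → ℝ, ∀ q : Fin 3 → ℝ, (∀ i, |q i| ≤ 1) →
      q 0 * w 0 + q 1 * w 1 + q 2 * w 2 ≤ 1 →
      ∃ k : Fin 7, ∀ x ∈ L, q 0 * x 0 + q 1 * x 1 + q 2 * x 2 = 1 →
        0 < D k 0 * x 0 + D k 1 * x 1 + D k 2 * x 2 := by
  have h2 : 0 < 2 + η := by linarith
  have key : η ^ 2 < η * (2 - η) / (2 + η) := by
    rw [lt_div_iff₀ h2]
    have : 0 < η * (2 - 3 * η - η ^ 2) := by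
      apply mul_pos h0
      nlinarith
    nlinarith
  obtain ⟨b, hb, hb'⟩ := exists_between key
  refine ⟨DNear b, fun q hq hqw => ?_⟩
  refine near h0 hb ?_ L hL hL1 w hw hw1 hws q hq hqw
  rw [lt_div_iff₀ h2] at hb'
  linarith

end Pool.Agent.Core7
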