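import Mathlib

/-!
# MP_80156a, CORE7: packed polynomials

A form in the barycentric coordinates `β 0, …, β 3` with integer coefficients is represented by the
number which arises for `β v = 2 ^ (96 * pp v)`, modulo `2 ^ 3264`.  The positions `pp` are such that
all sums of three positions are different, so the coefficients can be read off.
-/

set_option autoImplicit false

namespace Pool.Agent.Core7.Pk

/-- the positions -/
def pp : Fin 4 → ℕ := ![0, 1, 7, 11]

/-- the modulus -/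
abbrev md : ℤ := 2 ^ 3264

/-- `x` represents the form `F`, with coefficients bounded by `M` -/
def Rep {ι : Type} [Fintype ι] (pos : ι → ℕ) (mon : ι → (Fin 4 → ℝ) → ℝ) (x : ℕ)
    (F : (Fin 4 → ℝ) → ℝ) (M : ℕ) : Prop :=
  ∃ a : ι → ℤ, (x : ℤ) ≡ ∑ i, a i * 2 ^ (96 * pos i) [ZMOD md] ∧ (∀ i, |a i| ≤ M) ∧
    ∀ β, F β = ∑ i, (a i : ℝ) * mon i β

section general

variable {ι κ : Type} [Fintype ι] [Fintype κ] {pos : ι → ℕ} {mon : ι → (Fin 4 → ℝ) → ℝ}
  {pos' : κ → ℕ} {mon' : κ → (Fin 4 → ℝ) → ℝ}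

theorem Rep.congr {x : ℕ} {F G : (Fin 4 → ℝ) → ℝ} {M : ℕ} (h : Rep pos mon x F M)
    (hG : ∀ β, G β = F β) : Rep pos mon x G M := by
  obtain ⟨a, h1, h2, h3⟩ := h
  exact ⟨a, h1, h2, fun β => by rw [hG, h3]⟩

theorem Rep.mono {x : ℕ} {F : (Fin 4 → ℝ) → ℝ} {M N : ℕ} (h : Rep pos mon x F M)
    (hMN : M ≤ N) : Rep pos mon x F N := by
  obtain ⟨a, h1, h2, h3⟩ := h
  exact ⟨a, h1, fun i => (h2 i).trans (by exact_mod_cast hMN), h3⟩

theorem Rep.zero : Rep pos mon 0 (fun _ => 0) 0 :=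
  ⟨fun _ => 0, by simp, fun _ => by simp, fun β => by simp⟩

theorem Rep.add {x y : ℕ} {F G : (Fin 4 → ℝ) → ℝ} {M N : ℕ} (h : Rep pos mon x F M)
    (h' : Rep pos mon y G N) : Rep pos mon (x + y) (fun β => F β + G β) (M + N) := by
  obtain ⟨a, h1, h2, h3⟩ := h
  obtain ⟨b, g1, g2, g3⟩ := h'
  refine ⟨fun i => a i + b i, ?_, fun i => ?_, fun β => ?_⟩
  · have h4 := h1.add g1
    rw [← Finset.sum_add_distrib] at h4
    push_cast
    simp only [add_mul]
    exact h4
  · push_cast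
    exact (abs_add_le _ _).trans (add_le_add (h2 i) (g2 i))
  · simp only [h3, g3, ← Finset.sum_add_distrib, Int.cast_add, add_mul]

/-- multiplication by a number which is congruent to `z` -/
theorem Rep.smul {x c : ℕ} {z : ℤ} {F : (Fin 4 → ℝ) → ℝ} {M Z : ℕ} (hc : (c : ℤ) ≡ z [ZMOD md])
    (hz : |z| ≤ Z) (h : Rep pos mon x F M) :
    Rep pos mon (c * x) (fun β => z * F β) (Z * M) := by
  obtain ⟨a, h1, h2, h3⟩ := h
  refine ⟨fun i => z * a i, ?_, fun i => ?_, fun β => ?_⟩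
  · have h4 := hc.mul h1
    rw [Finset.mul_sum] at h4
    push_cast
    simp only [mul_assoc]
    exact h4
  · rw [abs_mul]
    push_cast
    exact mul_le_mul hz (h2 i) (abs_nonneg _) ((abs_nonneg _).trans hz)
  · simp only [h3, Finset.mul_sum, Int.cast_mul, mul_assoc]

/-- the product of two forms -/
theorem Rep.mul {x y : ℕ} {F G : (Fin 4 → ℝ) → ℝ} {M N : ℕ} (h : Rep pos mon x F M)
    (h' : Rep pos' mon' y G N) : Rep (ι := ι × κ) (fun p => pos p.1 + pos' p.2)
      (fun p β => mon p.1 β * mon' p.2 β) (x * y) (fun β => F β * G β) (M * N) := by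
  obtain ⟨a, h1, h2, h3⟩ := h
  obtain ⟨b, g1, g2, g3⟩ := h'
  refine ⟨fun p => a p.1 * b p.2, ?_, fun p => ?_, fun β => ?_⟩
  · have h4 := h1.mul g1
    rw [Finset.sum_mul_sum, ← Fintype.sum_prod_type'] at h4
    push_cast
    have h5 : ∀ p : ι × κ, a p.1 * b p.2 * 2 ^ (96 * (pos p.1 + pos' p.2)) =
        a p.1 * 2 ^ (96 * pos p.1) * (b p.2 * 2 ^ (96 * pos' p.2)) := by
      intro p
      rw [mul_add, pow_add]
      ring
    simp only [h5]
    exact h4
  · rw [abs_mul]
    push_cast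
    exact mul_le_mul (h2 _) (g2 _) (abs_nonneg _) ((abs_nonneg _).trans (h2 p.1))
  · show F β * G β = _
    rw [h3, g3, Finset.sum_mul_sum, ← Fintype.sum_prod_type']
    refine Finset.sum_congr rfl fun p _ => ?_
    push_cast
    ring

/-- subtraction from a constant which is congruent to a form -/
theorem Rep.neg {x c : ℕ} {F : (Fin 4 → ℝ) → ℝ} {M : ℕ} (h : Rep pos mon x F M)
    (hc : (c : ℤ) ≡ 0 [ZMOD md]) (hx : x ≤ c) : Rep pos mon (c - x) (fun β => - F β) M := by
  obtain ⟨a, h1, h2, h3⟩ := h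
  refine ⟨fun i => - a i, ?_, fun i => ?_, fun β => ?_⟩
  · rw [Nat.cast_sub hx]
    have h4 := hc.sub h1
    simpa [Finset.sum_neg_distrib, neg_mul] using h4
  · rw [abs_neg]; exact h2 i
  · simp [h3, Finset.sum_neg_distrib]

/-! ### Reading off the coefficients -/

theorem sum_digits_lt (d : ℕ → ℕ) (hd : ∀ m, d m < 2 ^ 96) (n : ℕ) :
    ∑ i ∈ Finset.range n, d i * 2 ^ (96 * i) < 2 ^ (96 * n) := by
  induction n with
  | zero => simp
  | succ n ih =>
    rw [Finset.sum_range_succ]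
    have h1 : 2 ^ (96 * (n + 1)) = 2 ^ 96 * 2 ^ (96 * n) := by rw [← pow_add]; congr 1; ring
    rw [h1]
    have h2 : d n + 1 ≤ 2 ^ 96 := hd n
    calc ∑ i ∈ Finset.range n, d i * 2 ^ (96 * i) + d n * 2 ^ (96 * n)
        < 2 ^ (96 * n) + d n * 2 ^ (96 * n) := by gcongr
      _ = (d n + 1) * 2 ^ (96 * n) := by ring
      _ ≤ 2 ^ 96 * 2 ^ (96 * n) := Nat.mul_le_mul_right _ h2

theorem testBit_digits (d : ℕ → ℕ) (hd : ∀ m, d m < 2 ^ 96) (n : ℕ) : ∀ m < n, ∀ j < 96,
    (∑ i ∈ Finset.range n, d i * 2 ^ (96 * i)).testBit (96 * m + j) = (d m).testBit j := by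
  induction n with
  | zero => intro m hm; omega
  | succ n ih =>
    intro m hm j hj
    rw [Finset.sum_range_succ, add_comm, mul_comm (d n)]
    rw [Nat.testBit_two_pow_mul_add _ (sum_digits_lt d hd n)]
    rcases Nat.lt_or_ge m n with h | h
    · rw [if_pos (by omega)]
      exact ih m h j hj
    · have hmn : m = n := by omega
      subst hmn
      rw [if_neg (by omega)]
      congr 1
      omega

/-- the offset -/
def offs (s : Finset ℕ) : ℤ := ∑ m ∈ s, (2 ^ 95 - 1) * 2 ^ (96 * m)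

theorem rep_pos [DecidableEq ι] {x y : ℕ} {F : (Fin 4 → ℝ) → ℝ} {M : ℕ} (h : Rep pos mon x F M)
    (hpos : ∀ i, pos i < 34) (hmon : ∀ i j, pos i = pos j → mon i = mon j)
    (hnn : ∀ i (β : Fin 4 → ℝ), (∀ v, 0 ≤ β v) → 0 ≤ mon i β)
    (hM : Fintype.card ι * M < 2 ^ 95 - 1)
    (hy : (y : ℤ) ≡ x + offs (Finset.univ.image pos) [ZMOD md])
    (ht : ∀ i, y.testBit (96 * pos i + 95) = true) :
    ∀ β : Fin 4 → ℝ, (∀ v, 0 ≤ β v) → ∀ i, mon i β ≤ F β := by
  obtain ⟨a, h1, h2, h3⟩ := h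
  set s := Finset.univ.image pos with hs
  -- the symmetrised coefficients
  set c : ℕ → ℤ := fun m => ∑ i ∈ Finset.univ.filter (fun i => pos i = m), a i with hc
  have hcb : ∀ m, |c m| < 2 ^ 95 - 1 := by
    intro m
    have h4 : |c m| ≤ Fintype.card ι * M := by
      refine (Finset.abs_sum_le_sum_abs _ _).trans ?_
      refine (Finset.sum_le_sum fun i _ => h2 i).trans ?_
      rw [Finset.sum_const, nsmul_eq_mul]
      have : ((Finset.univ.filter (fun i => pos i = m)).card : ℤ) ≤ Fintype.card ι := by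
        exact_mod_cast Finset.card_filter_le _ _
      exact mul_le_mul_of_nonneg_right this (by positivity)
    have h5 : ((Fintype.card ι * M : ℕ) : ℤ) < ((2 ^ 95 - 1 : ℕ) : ℤ) := by exact_mod_cast hM
    push_cast at h5
    norm_num at h5 ⊢
    linarith
  -- the digits
  set d : ℕ → ℕ := fun m => if m ∈ s then (2 ^ 95 - 1 + c m).toNat else 0 with hd
  have hd1 : ∀ m ∈ s, (d m : ℤ) = 2 ^ 95 - 1 + c m := by
    intro m hm
    rw [hd]
    simp only [hm, if_true]
    rw [Int.toNat_of_nonneg]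
    have := (abs_lt.1 (hcb m)).1
    linarith
  have hdlt : ∀ m, d m < 2 ^ 96 := by
    intro m
    by_cases hm : m ∈ s
    · have h4 := hd1 m hm
      have h5 := (abs_lt.1 (hcb m)).2
      have h6 : (d m : ℤ) < 2 ^ 96 := by
        rw [h4]
        norm_num at h5 ⊢
        linarith
      exact_mod_cast h6
    · simp [hd, hm]
  have hsub : s ⊆ Finset.range 34 := by
    intro m hm
    obtain ⟨i, -, rfl⟩ := Finset.mem_image.1 hm
    exact Finset.mem_range.2 (hpos i)
  set z : ℕ := ∑ m ∈ Finset.range 34, d m * 2 ^ (96 * m) with hz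
  have hzx : (z : ℤ) = ∑ i, a i * 2 ^ (96 * pos i) + offs s := by
    have e1 : (z : ℤ) = ∑ m ∈ s, (d m : ℤ) * 2 ^ (96 * m) := by
      rw [hz]
      push_cast
      refine (Finset.sum_subset hsub fun m _ hm => ?_).symm
      simp [hd, hm]
    have e2 : ∑ i, a i * 2 ^ (96 * pos i) = ∑ m ∈ s, c m * 2 ^ (96 * m) := by
      rw [← Finset.sum_fiberwise_of_maps_to (s := Finset.univ) (t := s) (g := pos)
        (fun i hi => Finset.mem_image_of_mem _ hi)]
      refine Finset.sum_congr rfl fun m _ => ?_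
      rw [hc, Finset.sum_mul]
      refine Finset.sum_congr rfl fun i hi => ?_
      rw [(Finset.mem_filter.1 hi).2]
    rw [e1, e2, offs, ← Finset.sum_add_distrib]
    refine Finset.sum_congr rfl fun m hm => ?_
    rw [hd1 m hm]
    ring
  have hzlt : z < 2 ^ 3264 := sum_digits_lt d hdlt 34
  have hyz : y % 2 ^ 3264 = z := by
    have h4 : (y : ℤ) ≡ z [ZMOD md] := by
      refine hy.trans ?_
      rw [hzx]
      exact h1.add_right _
    have h5 : y ≡ z [MOD 2 ^ 3264] := by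
      have h6 : ((2 ^ 3264 : ℕ) : ℤ) = md := by push_cast; rfl
      rw [← Int.natCast_modEq_iff, h6]
      exact h4
    have h7 := h5
    unfold Nat.ModEq at h7
    rw [h7, Nat.mod_eq_of_lt hzlt]
  have hc1 : ∀ m ∈ s, 1 ≤ c m := by
    intro m hm
    obtain ⟨i, -, hi⟩ := Finset.mem_image.1 hm
    have h4 := ht i
    have h5 : z.testBit (96 * pos i + 95) = true := by
      rw [← hyz, Nat.testBit_mod_two_pow, h4]
      have := hpos i
      simp only [Bool.and_true, decide_eq_true_eq]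
      omega
    rw [hz, testBit_digits d hdlt 34 _ (hpos i) 95 (by norm_num), hi] at h5
    have h6 : 2 ^ 95 ≤ d m := Nat.ge_two_pow_of_testBit h5
    have h7 : (2 ^ 95 : ℤ) ≤ d m := by exact_mod_cast h6
    rw [hd1 m hm] at h7
    linarith
  intro β hβ i
  have e3 : F β = ∑ m ∈ s, ∑ j ∈ Finset.univ.filter (fun j => pos j = m), (a j : ℝ) * mon j β := by
    rw [h3, ← Finset.sum_fiberwise_of_maps_to (s := Finset.univ) (t := s) (g := pos)
        (fun i hi => Finset.mem_image_of_mem _ hi)]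
  have e4 : ∀ j, ∑ l ∈ Finset.univ.filter (fun l => pos l = pos j), (a l : ℝ) * mon l β =
      c (pos j) * mon j β := by
    intro j
    rw [hc]
    push_cast
    rw [Finset.sum_mul]
    refine Finset.sum_congr rfl fun l hl => ?_
    rw [hmon l j (Finset.mem_filter.1 hl).2]
  have e5 : ∀ m ∈ s, 0 ≤ ∑ j ∈ Finset.univ.filter (fun j => pos j = m), (a j : ℝ) * mon j β := by
    intro m hm
    obtain ⟨j, -, rfl⟩ := Finset.mem_image.1 hm
    rw [e4]
    have h4 : (1 : ℝ) ≤ c (pos j) := by exact_mod_cast hc1 _ hm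
    exact mul_nonneg (by linarith) (hnn j β hβ)
  have hi : pos i ∈ s := Finset.mem_image_of_mem _ (Finset.mem_univ i)
  rw [e3]
  refine le_trans ?_ (Finset.single_le_sum e5 hi)
  rw [e4]
  have h4 : (1 : ℝ) ≤ c (pos i) := by exact_mod_cast hc1 _ hi
  exact le_mul_of_one_le_left (hnn i β hβ) h4

end general

end Pool.Agent.Core7.Pk
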