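import Pool.Agent.Work.MP_80156a_core7.PkGo
import Pool.Agent.Work.MP_80156a_core7.FanCover

/-!
# MP_80156a, CORE7: the bit sets of the packed checker
-/

set_option autoImplicit false
set_option maxRecDepth 100000

namespace Pool.Agent.Core7.Pk

attribute [local irreducible] OFF2 OFF3 TOP2 TOP3 cML nOS pOS nNS c1S c2S nO nC TAB K16 K19 M16 M19

theorem lor_bit {a b j : ℕ} : (Nat.lor a b).testBit j = (a.testBit j || b.testBit j) :=
  Nat.testBit_or _ _ _

theorem one_bit {i j : ℕ} : (Nat.shiftLeft 1 i).testBit j = true ↔ j = i := by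
  have h1 : Nat.shiftLeft 1 i = 2 ^ i := by
    have := Nat.one_shiftLeft i
    exact this
  rw [h1, Nat.testBit_two_pow]
  simp [eq_comm]

/-- the set of the incidences -/
theorem incs_sound {T : Cell} {f : ℕ → Bool} : ∀ (l : LL) (acc : ℕ), incs T f l acc = true →
    ∃ I, f I = true ∧ ∀ j, I.testBit j = true → acc.testBit j = true ∨
      ∃ v, inc T v = true ∧ Nat.land v 16383 = j := by
  intro l
  induction l with
  | n =>
    intro acc h
    rw [incs] at h
    exact ⟨acc, h, fun j hj => Or.inl hj⟩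
  | c v l ih =>
    intro acc h
    rw [incs, Bool.and_eq_true] at h
    obtain ⟨I, h1, h2⟩ := ih _ h.2
    refine ⟨I, h1, fun j hj => ?_⟩
    rcases h2 j hj with h3 | h3
    · rw [lor_bit, Bool.or_eq_true] at h3
      rcases h3 with h3 | h3
      · exact Or.inl h3
      · exact Or.inr ⟨v, h.1, (one_bit.1 h3).symm⟩
    · exact Or.inr h3

/-- what is known on a triangle -/
def TriOK (R I : ℕ) (t : ℕ × ℕ × ℕ) : Prop :=
  t.1 < 256 ∧ t.2.1 < 256 ∧ t.2.2 < 256 ∧ ∃ lab < 64, tri R I t.1 t.2.1 t.2.2 (256 * lab) = true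

theorem and255_lt (a : ℕ) : Nat.land a 255 < 256 := Nat.lt_succ_of_le Nat.and_le_right

theorem and63_lt (a : ℕ) : Nat.land a 63 < 64 := Nat.lt_succ_of_le Nat.and_le_right

theorem tris_zero {R I rest E F : ℕ} : tris R I 0 rest E F = false := by rw [tris]

theorem tris_succ {R I n rest E F : ℕ} (h : tris R I (n + 1) rest E F = true) :
    (1 ≤ E ∧ E = Nat.land E F) ∨ tris2 (tris R I n) R I rest E F (Nat.land rest 255)
        (Nat.land (Nat.shiftRight rest 8) 255) (Nat.land (Nat.shiftRight rest 16) 255) = true := by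
  rw [tris] at h
  cases hb : Nat.beq rest 0 with
  | true =>
    rw [hb, cond_true, Bool.and_eq_true] at h
    exact Or.inl ⟨Nat.ble_eq ▸ h.1, Nat.eq_of_beq_eq_true h.2⟩
  | false => rw [hb, cond_false] at h; exact Or.inr h

theorem edge_iff {i j l a b : ℕ} : Edge (i, j, l) a b ↔
    (a = i ∧ b = j) ∨ (a = j ∧ b = l) ∨ (a = l ∧ b = i) := by
  unfold Edge
  constructor
  · rintro (⟨h1, h2⟩ | ⟨h1, h2⟩ | ⟨h1, h2⟩)
    · exact Or.inl ⟨h1.symm, h2.symm⟩
    · exact Or.inr (Or.inl ⟨h1.symm, h2.symm⟩)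
    · exact Or.inr (Or.inr ⟨h1.symm, h2.symm⟩)
  · rintro (⟨h1, h2⟩ | ⟨h1, h2⟩ | ⟨h1, h2⟩)
    · exact Or.inl ⟨h1.symm, h2.symm⟩
    · exact Or.inr (Or.inl ⟨h1.symm, h2.symm⟩)
    · exact Or.inr (Or.inr ⟨h1.symm, h2.symm⟩)

theorem tris_sound {R I : ℕ} : ∀ n rest E F, tris R I n rest E F = true →
    ∃ (L : List (ℕ × ℕ × ℕ)) (E' F' : ℕ), (∀ t ∈ L, TriOK R I t) ∧ 1 ≤ E' ∧ E' = Nat.land E' F' ∧
      (∀ e, E'.testBit e = true ↔ E.testBit e = true ∨
        ∃ t ∈ L, ∃ a b, Edge t a b ∧ e = 256 * a + b) ∧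
      (∀ e, F'.testBit e = true ↔ F.testBit e = true ∨
        ∃ t ∈ L, ∃ a b, Edge t a b ∧ e = 256 * b + a) := by
  intro n
  induction n with
  | zero =>
    intro rest E F h
    rw [tris_zero] at h
    exact absurd h (by simp)
  | succ n ih =>
    intro rest E F h
    rcases tris_succ h with ⟨h1, h2⟩ | h
    · exact ⟨[], E, F, by simp, h1, h2, by simp, by simp⟩
    · unfold tris2 at h
      rw [Bool.and_eq_true] at h
      obtain ⟨hT, h⟩ := h
      obtain ⟨L, E', F', hL, h1, h2, h3, h4⟩ := ih _ _ _ h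
      set i := Nat.land rest 255 with hi
      set j := Nat.land (Nat.shiftRight rest 8) 255 with hj
      set l := Nat.land (Nat.shiftRight rest 16) 255 with hl
      refine ⟨(i, j, l) :: L, E', F', ?_, h1, h2, ?_, ?_⟩
      · intro t ht
        rcases List.mem_cons.1 ht with rfl | ht
        · exact ⟨and255_lt _, and255_lt _, and255_lt _, _, and63_lt _, hT⟩
        · exact hL t ht
      · intro e
        rw [h3]
        simp only [List.mem_cons, exists_eq_or_imp, edge_iff, lor_bit, Bool.or_eq_true, one_bit,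
          Nat.add_eq, Nat.mul_eq]
        constructor
        · rintro ((h5 | h5 | h5 | h5) | h5)
          · exact Or.inl h5
          · exact Or.inr (Or.inl ⟨i, j, Or.inl ⟨rfl, rfl⟩, h5⟩)
          · exact Or.inr (Or.inl ⟨j, l, Or.inr (Or.inl ⟨rfl, rfl⟩), h5⟩)
          · exact Or.inr (Or.inl ⟨l, i, Or.inr (Or.inr ⟨rfl, rfl⟩), h5⟩)
          · exact Or.inr (Or.inr h5)
        · rintro (h5 | ⟨a, b, (⟨rfl, rfl⟩ | ⟨rfl, rfl⟩ | ⟨rfl, rfl⟩), h6⟩ | h5)
          · exact Or.inl (Or.inl h5)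
          · exact Or.inl (Or.inr (Or.inl h6))
          · exact Or.inl (Or.inr (Or.inr (Or.inl h6)))
          · exact Or.inl (Or.inr (Or.inr (Or.inr h6)))
          · exact Or.inr h5
      · intro e
        rw [h4]
        simp only [List.mem_cons, exists_eq_or_imp, edge_iff, lor_bit, Bool.or_eq_true, one_bit,
          Nat.add_eq, Nat.mul_eq]
        constructor
        · rintro ((h5 | h5 | h5 | h5) | h5)
          · exact Or.inl h5
          · exact Or.inr (Or.inl ⟨i, j, Or.inl ⟨rfl, rfl⟩, h5⟩)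
          · exact Or.inr (Or.inl ⟨j, l, Or.inr (Or.inl ⟨rfl, rfl⟩), h5⟩)
          · exact Or.inr (Or.inl ⟨l, i, Or.inr (Or.inr ⟨rfl, rfl⟩), h5⟩)
          · exact Or.inr (Or.inr h5)
        · rintro (h5 | ⟨a, b, (⟨rfl, rfl⟩ | ⟨rfl, rfl⟩ | ⟨rfl, rfl⟩), h6⟩ | h5)
          · exact Or.inl (Or.inl h5)
          · exact Or.inl (Or.inr (Or.inl h6))
          · exact Or.inl (Or.inr (Or.inr (Or.inl h6)))
          · exact Or.inl (Or.inr (Or.inr (Or.inr h6)))
          · exact Or.inr h5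

theorem edge_lt {R I : ℕ} {t : ℕ × ℕ × ℕ} (h : TriOK R I t) {a b : ℕ} (he : Edge t a b) :
    a < 256 ∧ b < 256 := by
  obtain ⟨h1, h2, h3, -⟩ := h
  obtain ⟨i, j, l⟩ := t
  rcases edge_iff.1 he with ⟨rfl, rfl⟩ | ⟨rfl, rfl⟩ | ⟨rfl, rfl⟩
  · exact ⟨h1, h2⟩
  · exact ⟨h2, h3⟩
  · exact ⟨h3, h1⟩

/-- the triangles form a closed fan -/
theorem tris_fan {R I n rest : ℕ} (h : tris R I n rest 0 0 = true) :
    ∃ L : List (ℕ × ℕ × ℕ), (∀ t ∈ L, TriOK R I t) ∧ L ≠ [] ∧
      ∀ t ∈ L, ∀ i j, Edge t i j → ∃ t' ∈ L, Edge t' j i := by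
  obtain ⟨L, E, F, hL, h1, h2, h3, h4⟩ := tris_sound _ _ _ _ h
  refine ⟨L, hL, ?_, ?_⟩
  · rintro rfl
    have h5 : E ≠ 0 := by omega
    obtain ⟨i, hi⟩ := Nat.exists_testBit_of_ne_zero h5
    rw [h3] at hi
    simp at hi
  · intro t ht i j hij
    have h5 : E.testBit (256 * i + j) = true := by
      rw [h3]; exact Or.inr ⟨t, ht, i, j, hij, rfl⟩
    rw [h2] at h5
    have h6 := (land_bit h5).2
    rw [h4] at h6
    rcases h6 with h6 | ⟨t', ht', a, b, hab, he⟩
    · simp at h6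
    · have l1 := edge_lt (hL t ht) hij
      have l2 := edge_lt (hL t' ht') hab
      have e1 : i = b := by omega
      have e2 : j = a := by omega
      subst e1; subst e2
      exact ⟨t', ht', hab⟩

/-- the three bits of a triangle -/
theorem tri_bits {I lab i j l : ℕ} (h : Nat.beq 1 (Nat.land 1 (Nat.land
    (Nat.shiftRight I (Nat.add lab i)) (Nat.land (Nat.shiftRight I (Nat.add lab j))
      (Nat.shiftRight I (Nat.add lab l))))) = true) :
    I.testBit (lab + i) = true ∧ I.testBit (lab + j) = true ∧ I.testBit (lab + l) = true := by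
  have h1 := Nat.eq_of_beq_eq_true h
  have h2 : (1 : ℕ).testBit 0 = true := by decide
  rw [h1] at h2
  have h3 := (land_bit h2).2
  have h4 := land_bit h3
  have h5 := land_bit h4.2
  have key : ∀ a : ℕ, (Nat.shiftRight I a).testBit 0 = I.testBit a := by
    intro a
    have := Nat.testBit_shiftRight (i := a) (j := 0) I
    simpa using this
  rw [key] at h4 h5
  rw [key] at h5
  exact ⟨h4.1, h5.1, h5.2⟩

end Pool.Agent.Core7.Pk
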