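import Pool.Agent.Work.MP_80156a_core7.PkGo

/-!
# MP_80156a, CORE7: soundness of the packed test of a determinant
-/

set_option autoImplicit false
set_option maxRecDepth 100000
set_option exponentiation.threshold 5000

namespace Pool.Agent.Core7.Pk

theorem offs3 : offs (Finset.univ.image (fun p : Fin 4 × (Fin 4 × Fin 4) =>
    pp p.1 + (pp p.2.1 + pp p.2.2))) = (OFF3 : ℤ) := by
  decide +kernel

theorem inj3 : ∀ i j : Fin 4 × (Fin 4 × Fin 4),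
    pp i.1 + (pp i.2.1 + pp i.2.2) = pp j.1 + (pp j.2.1 + pp j.2.2) →
    (i.1 = j.1 ∧ i.2.1 = j.2.1 ∧ i.2.2 = j.2.2) ∨ (i.1 = j.1 ∧ i.2.1 = j.2.2 ∧ i.2.2 = j.2.1) ∨
    (i.1 = j.2.1 ∧ i.2.1 = j.1 ∧ i.2.2 = j.2.2) ∨ (i.1 = j.2.1 ∧ i.2.1 = j.2.2 ∧ i.2.2 = j.1) ∨
    (i.1 = j.2.2 ∧ i.2.1 = j.1 ∧ i.2.2 = j.2.1) ∨ (i.1 = j.2.2 ∧ i.2.1 = j.2.1 ∧ i.2.2 = j.1) := by
  decide +kernel

theorem lt3 : ∀ i : Fin 4 × (Fin 4 × Fin 4), pp i.1 + (pp i.2.1 + pp i.2.2) < 34 := by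
  decide +kernel

theorem top3 : ∀ i : Fin 4 × (Fin 4 × Fin 4),
    TOP3.testBit (96 * (pp i.1 + (pp i.2.1 + pp i.2.2)) + 95) = true := by decide +kernel

attribute [local irreducible] OFF2 OFF3 TOP2 TOP3 cML nOS pOS nNS c1S c2S nO nC TAB K16 K19 M16 M19

/-- the value is positive if all top bits are set -/
theorem pos3 {x y : ℕ} {F : (Fin 4 → ℝ) → ℝ} {M : ℕ} (h : R3 x F M) (hM : 64 * M < 2 ^ 95 - 1)
    (hy : y = x + OFF3) (ht : ∀ i : Fin 4 × (Fin 4 × Fin 4),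
      y.testBit (96 * (pp i.1 + (pp i.2.1 + pp i.2.2)) + 95) = true)
    {β : Fin 4 → ℝ} (hβ : ∀ v, 0 ≤ β v) (hs : β 0 + β 1 + β 2 + β 3 = 1) : 0 < F β := by
  have h1 := rep_pos (y := y) h lt3 (fun i j hij => by
      funext β
      rcases inj3 i j hij with ⟨e1, e2, e3⟩ | ⟨e1, e2, e3⟩ | ⟨e1, e2, e3⟩ | ⟨e1, e2, e3⟩ |
        ⟨e1, e2, e3⟩ | ⟨e1, e2, e3⟩ <;>
      · simp only [e1, e2, e3]
        try ring)
    (fun i β hβ => mul_nonneg (hβ _) (mul_nonneg (hβ _) (hβ _))) (by simpa using hM)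
    (by rw [offs3, hy]; push_cast; exact Int.ModEq.refl _) ht β hβ
  obtain ⟨v, hv⟩ : ∃ v, 0 < β v := by
    by_contra hcon
    push Not at hcon
    have h0 : ∀ v, β v = 0 := fun v => le_antisymm (hcon v) (hβ v)
    rw [h0, h0, h0, h0] at hs
    norm_num at hs
  exact lt_of_lt_of_le (mul_pos hv (mul_pos hv hv)) (h1 (v, (v, v)))

theorem dt_sound {x0 x1 x2 y0 y1 y2 m0 m1 m2 z0 z1 z2 : ℕ} {x y z : Fin 3 → (Fin 4 → ℝ) → ℝ}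
    (h : Nat.beq TOP3 (Nat.land TOP3 (dt x0 x1 x2 y0 y1 y2 m0 m1 m2 z0 z1 z2)) = true)
    (hx0 : R1 x0 (x 0) 98303) (hx1 : R1 x1 (x 1) 98303) (hx2 : R1 x2 (x 2) 98303)
    (hy0 : R1 y0 (y 0) 98303) (hy1 : R1 y1 (y 1) 98303) (hy2 : R1 y2 (y 2) 98303)
    (hm0 : R1 m0 (fun β => - y 0 β) 98303) (hm1 : R1 m1 (fun β => - y 1 β) 98303)
    (hm2 : R1 m2 (fun β => - y 2 β) 98303)
    (hz0 : R1 z0 (z 0) 98303) (hz1 : R1 z1 (z 1) 98303) (hz2 : R1 z2 (z 2) 98303)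
    {β : Fin 4 → ℝ} (hβ : ∀ v, 0 ≤ β v) (hs : β 0 + β 1 + β 2 + β 3 = 1) :
    0 < det3 (fun c => x c β) (fun c => y c β) (fun c => z c β) := by
  have h0 := hx0.mul2 (Rep.add (hy1.mul hz2) (hm2.mul hz1))
  have h1 := hx1.mul2 (Rep.add (hy2.mul hz0) (hm0.mul hz2))
  have h2 := hx2.mul2 (Rep.add (hy0.mul hz1) (hm1.mul hz0))
  have h3 := Rep.add h0 (Rep.add h1 h2)
  have h4 := pos3 (y := dt x0 x1 x2 y0 y1 y2 m0 m1 m2 z0 z1 z2) h3 (by norm_num)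
    (by unfold dt; simp only [Nat.add_eq, Nat.mul_eq]; rw [add_comm OFF3]) (fun i => by
      have h5 := Nat.eq_of_beq_eq_true h
      have h6 := top3 i
      rw [h5] at h6
      exact (land_bit h6).2) hβ hs
  unfold det3
  nlinarith [h4]

theorem dtT_sound {A B C : ℕ} (h : dtT A B C = true) {β : Fin 4 → ℝ} (hβ : ∀ v, 0 ≤ β v)
    (hs : β 0 + β 1 + β 2 + β 3 = 1) :
    0 < det3 (fun c => ry A c β) (fun c => ry B c β) (fun c => ry C c β) := by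
  unfold dtT at h
  exact dt_sound (x := ry A) (y := ry B) (z := ry C) h (sg_R1 A 0) (sg_R1 A 64) (sg_R1 A 128)
    (sg_R1 B 0) (sg_R1 B 64) (sg_R1 B 128) (ng_R1 B 0) (ng_R1 B 64) (ng_R1 B 128)
    (sg_R1 C 0) (sg_R1 C 64) (sg_R1 C 128) hβ hs

end Pool.Agent.Core7.Pk
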