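import Pool.Agent.Work.MP_80156a_core7.PkGo
import Pool.Agent.Work.MP_80156a_core7.GFun
import Pool.Agent.Work.MP_80156a_core7.GTree

/-!
# MP_80156a, CORE7: the functionals of the table are valid
-/

set_option autoImplicit false
set_option maxRecDepth 100000
set_option exponentiation.threshold 5000

namespace Pool.Agent.Core7.Pk

attribute [local irreducible] OFF2 OFF3 TOP2 TOP3 cML nOS pOS nNS c1S c2S nO nC TAB K16 K19 M16 M19

/-- the weights of the table are those of the tree -/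
theorem cw_eq : (cw : Fin 1 → Fin 4 → ℝ) = G.cs2 := by
  funext n k
  fin_cases n
  fin_cases k <;> simp [cw, aw, G.cs2]

theorem fv_of_gcon {w x : Fin 3 → ℝ} (h : GCon cw w x) {W : Fin 3 → ℝ} {V : ℝ}
    (hw : ∀ i, W i = 1024 * w i) (hV : 102400 * Vc cw w ≤ V) {n : Fin 1}
    {τ : Equiv.Perm (Fin 4)} {za zb zc : ℤ} {d : ℕ} (ha : |za| = aw n (τ 0))
    (hb : |zb| = aw n (τ 1)) (hc : |zc| = aw n (τ 2)) (hd : d = aw n (τ 3)) :
    FV W V x za zb zc ((d : ℤ) : ℝ) := by
  have key : ∀ {z : ℤ} {k : Fin 4}, |z| = aw n k → |(z : ℝ) / 100| = cw n k := by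
    intro z k hz
    unfold cw
    rw [abs_div, ← Int.cast_abs, hz, abs_of_pos (by norm_num : (0 : ℝ) < 100)]
    push_cast
    rfl
  have ka := key ha
  have kb := key hb
  have kc := key hc
  have kd : cw n (τ 3) = (d : ℝ) / 100 := by
    unfold cw
    rw [hd]
  have g3 := gf3 h n τ ka kb kc
  have g0 := gf0 h n τ ka kb kc
  have g1 := gf1 h n τ ka kb kc
  have g2 := gf2 h n τ ka kb kc
  rw [kd] at g3 g0 g1 g2
  have w0 := hw 0
  have w1 := hw 1
  have w2 := hw 2
  constructor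
  · push_cast
    nlinarith [g3]
  · rw [w0, w1, w2]
    push_cast
    nlinarith [g0]
  · rw [w0, w1, w2]
    push_cast
    nlinarith [g1]
  · rw [w0, w1, w2]
    push_cast
    nlinarith [g2]

theorem allFV_of_gcon {w x : Fin 3 → ℝ} (h : GCon cw w x) {W : Fin 3 → ℝ} {V : ℝ}
    (hw : ∀ i, W i = 1024 * w i) (hV : 102400 * Vc cw w ≤ V) : AllFV W V x := by
  intro c hc
  obtain ⟨n, τ, h0, h1, h2, h3⟩ := ent_sound c hc
  exact fv_of_gcon h hw hV h0 h1 h2 h3

theorem abs_of_gcon {w x : Fin 3 → ℝ} (h : GCon cw w x) (i : Fin 3) :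
    102400 * |x i| ≤ 102400 * Vc cw w - 37888 := by
  have e0 : cw 0 0 = 1 := by simp [cw, aw]
  have e1 : cw 0 1 = 37 / 100 := by simp [cw, aw]
  have e2 : cw 0 2 = 31 / 100 := by simp [cw, aw]
  have e3 : cw 0 3 = 13 / 100 := by simp [cw, aw]
  have h1 := abs_le_Vc' h 0 (by rw [e2]; norm_num) (by rw [e3]; norm_num) i
  rw [e0, e1] at h1
  linarith

end Pool.Agent.Core7.Pk
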