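import Pool.Agent.Work.MP_80156a_core7.PkBits
import Pool.Agent.Work.MP_80156a_core7.PkDet
import Pool.Agent.Work.MP_80156a_core7.GFun
import Pool.Agent.Work.MP_80156a_core7.GTree
import Pool.Agent.Work.MP_80156a_core7.PkVal

/-!
# MP_80156a, CORE7: soundness of the packed checker of a cell
-/

set_option autoImplicit false
set_option maxRecDepth 100000
set_option exponentiation.threshold 5000

namespace Pool.Agent.Core7.Pk

open Pool.Agent.Core7.Far (V3 mx mx_cast pt)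

attribute [local irreducible] OFF2 OFF3 TOP2 TOP3 cML nOS pOS nNS c1S c2S nO nC TAB K16 K19 M16 M19

/-! ### The right side as a linear functional -/

/-- the functional of a label at the vector `q` -/
noncomputable def rl (W q : Fin 3 → ℝ) (c : ℕ) : ℝ :=
  match c with
  | 0 => 102400 * q 0
  | 1 => 102400 * q 1
  | 2 => 102400 * q 2
  | 3 => - (102400 * q 0)
  | 4 => - (102400 * q 1)
  | 5 => - (102400 * q 2)
  | 6 => 100 * (W 0 * q 0 + W 1 * q 1 + W 2 * q 2)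
  | _ => - (100 * (W 0 * q 0 + W 1 * q 1 + W 2 * q 2))

theorem rhoF_eq (W r : Fin 3 → (Fin 4 → ℝ) → ℝ) (c : ℕ) (β : Fin 4 → ℝ) :
    rhoF W r c β = rl (fun i => W i β) (fun i => r i β) c := by
  unfold rhoF rl
  rfl

theorem rl_comb (W : Fin 3 → ℝ) (a b c : ℝ) (x y z : Fin 3 → ℝ) (n : ℕ) :
    rl W (fun i => a * x i + b * y i + c * z i) n = a * rl W x n + b * rl W y n + c * rl W z n := by
  unfold rl
  split <;> ring

theorem rl_le {W q : Fin 3 → ℝ} (hq : ∀ i, |q i| ≤ 1)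
    (hW : |W 0 * q 0 + W 1 * q 1 + W 2 * q 2| ≤ 1024) (n : ℕ) : rl W q n ≤ 102400 := by
  have a0 := abs_le.1 (hq 0)
  have a1 := abs_le.1 (hq 1)
  have a2 := abs_le.1 (hq 2)
  have a3 := abs_le.1 hW
  unfold rl
  split <;> linarith

/-! ### The incidences -/

theorem land_field {v i lab : ℕ} (hi : i < 256)
    (h : Nat.land v 16383 = 256 * lab + i) :
    Nat.land v 255 = i ∧ Nat.land (Nat.shiftRight v 8) 63 = lab := by
  have h1 : Nat.land v 16383 = v % 2 ^ 14 := Nat.and_two_pow_sub_one_eq_mod v 14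
  have h2 : Nat.land v 255 = v % 2 ^ 8 := Nat.and_two_pow_sub_one_eq_mod v 8
  have h3 : Nat.land (Nat.shiftRight v 8) 63 = (Nat.shiftRight v 8) % 2 ^ 6 :=
    Nat.and_two_pow_sub_one_eq_mod _ 6
  have h4 : Nat.shiftRight v 8 = v / 2 ^ 8 := Nat.shiftRight_eq_div_pow v 8
  rw [h1] at h
  rw [h2, h3, h4]
  omega

/-- the data of ray number `i` -/
def rd (R i : ℕ) : ℕ := Nat.shiftRight R (Nat.mul 192 i)

/-- the ray number `i` -/
noncomputable def rv (R : ℕ) (β : Fin 4 → ℝ) (i : ℕ) : Fin 3 → ℝ := fun c => ry (rd R i) c β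

/-- what an incidence gives -/
theorem inc_sound {T : Cell} {v i lab : ℕ} (hi : i < 256)
    (hv' : Nat.land v 16383 = 256 * lab + i) (h : inc T v = true)
    {W : Fin 3 → (Fin 4 → ℝ) → ℝ} {Vf : (Fin 4 → ℝ) → ℝ} (hT : TOK T W Vf) :
    lab ≤ 55 ∧ ∃ t : (Fin 4 → ℝ) → ℝ, (∀ β : Fin 4 → ℝ, (∀ v, 0 ≤ β v) → 0 ≤ t β) ∧
      ∀ {β : Fin 4 → ℝ}, (∀ v, 0 ≤ β v) → β 0 + β 1 + β 2 + β 3 = 1 → ∀ {x : Fin 3 → ℝ},
      (∀ i, 102400 * |x i| ≤ T.X) → AllFV (fun i => W i β) (Vf β) x →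
      102400 * dot (rv T.R β i) x <
        t β * dot (rv T.D β (Nat.shiftRight lab 3)) x +
          rl (fun i => W i β) (rv T.R β i) (Nat.land lab 7) := by
  obtain ⟨e1, e2⟩ := land_field hi hv'
  unfold inc at h
  rw [e1, e2] at h
  unfold inc1 at h
  rw [Bool.and_eq_true, Nat.ble_eq] at h
  refine ⟨h.1, lf (x19 (Nat.land (Nat.shiftRight v 16) m76)), fun β hβ => lf_nonneg _ hβ, ?_⟩
  intro β hβ hs x hx hv
  have h1 := inc2_sound h.2 hT hβ hs hx hv
  rw [rhoF_eq] at h1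
  exact h1

/-! ### The cell -/

theorem pk4_R1 {a b c d M : ℕ} (ha : a ≤ M) (hb : b ≤ M) (hc : c ≤ M) (hd : d ≤ M) :
    R1 (pk4 a b c d) (fun β => a * β 0 + b * β 1 + c * β 2 + d * β 3) M := by
  refine ⟨![(a : ℤ), b, c, d], ?_, fun v => ?_, fun β => ?_⟩
  · have h1 : B1 = 2 ^ 96 := by decide +kernel
    have h7 : B7 = 2 ^ (96 * 7) := by decide +kernel
    have h11 : B11 = 2 ^ (96 * 11) := by decide +kernel
    have e : ((pk4 a b c d : ℕ) : ℤ) = ∑ v, (![(a : ℤ), b, c, d] v) * 2 ^ (96 * pp v) := by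
      unfold pk4
      rw [Fin.sum_univ_four]
      simp only [Nat.add_eq, Nat.mul_eq, h1, h7, h11, pp,
        Matrix.cons_val_zero, Matrix.cons_val_one, Matrix.cons_val]
      push_cast
      ring
    rw [e]
  · fin_cases v
    · simp; exact_mod_cast ha
    · simp; exact_mod_cast hb
    · simp; exact_mod_cast hc
    · simp; exact_mod_cast hd
  · simp [Fin.sum_univ_four]

/-- the value at a vertex, as a real number -/
theorem vv_le {v : V3} (hx : v.x ≤ 1024) (hy : v.y ≤ 1024) (hz : v.z ≤ 1024) :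
    vv v ≤ 1048575 ∧ 102400 ≤ vv v := by
  unfold vv
  simp only [Nat.add_eq, Nat.mul_eq]
  omega

theorem bnd_sound {v : V3} (h : bnd v = true) : v.x ≤ 1024 ∧ v.y ≤ 1024 ∧ v.z ≤ 1024 := by
  unfold bnd at h
  simp only [Bool.and_eq_true, Nat.ble_eq] at h
  exact ⟨h.1, h.2.1, h.2.2⟩

theorem cw_val : cw 0 0 = 1 ∧ cw 0 1 = 37 / 100 ∧ cw 0 2 = 31 / 100 ∧ cw 0 3 = 13 / 100 := by
  have a0 : aw 0 0 = 100 := rfl
  have a1 : aw 0 1 = 37 := rfl
  have a2 : aw 0 2 = 31 := rfl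
  have a3 : aw 0 3 = 13 := rfl
  unfold cw
  rw [a0, a1, a2, a3]
  refine ⟨?_, ?_, ?_, ?_⟩ <;> norm_num

theorem vv_cast (v : V3) :
    (vv v : ℝ) = 102400 + (37 * (v.x : ℝ) + (31 * (v.y : ℝ) + 13 * (v.z : ℝ))) := by
  have h : vv v = 102400 + (37 * v.x + (31 * v.y + 13 * v.z)) := rfl
  rw [h]
  push_cast
  ring

/-- the value of the potential at a vertex -/
theorem vv_eq (v : V3) : 102400 * Vc cw (fun i => v.pos i / 1024) = vv v := by
  obtain ⟨c0, c1, c2, c3⟩ := cw_val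
  have e : cw 0 0 + cw 0 1 * (v.pos 0 / 1024) + cw 0 2 * (v.pos 1 / 1024) +
      cw 0 3 * (v.pos 2 / 1024) = (vv v : ℝ) / 102400 := by
    rw [c0, c1, c2, c3, vv_cast]
    have p0 : v.pos 0 = (v.x : ℝ) := rfl
    have p1 : v.pos 1 = (v.y : ℝ) := rfl
    have p2 : v.pos 2 = (v.z : ℝ) := rfl
    rw [p0, p1, p2]
    ring
  have h1 : Vc cw (fun i => v.pos i / 1024) = (vv v : ℝ) / 102400 := by
    refine le_antisymm (Vc_le _ _ fun i => ?_) ?_
    · have hi : i = 0 := Subsingleton.elim _ _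
      rw [hi]
      exact e.le
    · rw [← e]; exact le_Vc cw (fun i => v.pos i / 1024) 0
  rw [h1]; ring

/-- the fan and the incidences give the conclusion at `w` -/
theorem fan_concl {R D : ℕ} {β : Fin 4 → ℝ} {w : Fin 3 → ℝ} {W : Fin 3 → ℝ}
    (hW : ∀ i, W i = 1024 * w i) {L : List (ℕ × ℕ × ℕ)} (hne : L ≠ [])
    (hadj : ∀ t ∈ L, ∀ i j, Edge t i j → ∃ t' ∈ L, Edge t' j i)
    (hpos : ∀ t ∈ L, 0 < det3 (rv R β t.1) (rv R β t.2.1) (rv R β t.2.2))
    (hlab : ∀ t ∈ L, ∃ lab : ℕ, lab ≤ 55 ∧ ∀ i, (i = t.1 ∨ i = t.2.1 ∨ i = t.2.2) →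
      ∃ tt : ℝ, 0 ≤ tt ∧ ∀ x : Fin 3 → ℝ, GCon cw w x →
        102400 * dot (rv R β i) x < tt * dot (rv D β (Nat.shiftRight lab 3)) x +
          rl W (rv R β i) (Nat.land lab 7)) :
    ∃ Dd : Fin 7 → Fin 3 → ℝ, ∀ q : Fin 3 → ℝ, (∀ i, |q i| ≤ 1) → |dot q w| ≤ 1 →
      ∃ k, ∀ x : Fin 3 → ℝ, GCon cw w x → dot q x = 1 → 0 < dot (Dd k) x := by
  refine ⟨fun k => rv D β k, fun q hq hqw => ?_⟩
  obtain ⟨t, ht, a, b, c, ha, hb, hc, hqe⟩ := fan_cover (rv R β) L hne hpos hadj q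
  obtain ⟨lab, hl, hinc⟩ := hlab t ht
  have hk : Nat.shiftRight lab 3 < 7 := by
    have : Nat.shiftRight lab 3 = lab / 2 ^ 3 := Nat.shiftRight_eq_div_pow lab 3
    rw [this]; omega
  refine ⟨⟨Nat.shiftRight lab 3, hk⟩, fun x hx hqx => ?_⟩
  obtain ⟨t0, h00, h0⟩ := hinc _ (Or.inl rfl)
  obtain ⟨t1, h10, h1⟩ := hinc _ (Or.inr (Or.inl rfl))
  obtain ⟨t2, h20, h2⟩ := hinc _ (Or.inr (Or.inr rfl))
  have i0 := h0 x hx
  have i1 := h1 x hx
  have i2 := h2 x hx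
  set dd := dot (rv D β (Nat.shiftRight lab 3)) x with hdd
  by_contra hcon
  have hdd0 : dd ≤ 0 := not_lt.1 hcon
  -- the right side
  have hr : rl W q (Nat.land lab 7) ≤ 102400 := by
    refine rl_le hq ?_ _
    have e : W 0 * q 0 + W 1 * q 1 + W 2 * q 2 = 1024 * dot q w := by
      simp only [dot, hW]; ring
    rw [e, abs_mul, abs_of_pos (by norm_num : (0 : ℝ) < 1024)]
    nlinarith
  have hqf : q = fun i => a * rv R β t.1 i + b * rv R β t.2.1 i + c * rv R β t.2.2 i := by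
    rw [hqe]; ext i; simp [smul_eq_mul]
  have hr2 : rl W q (Nat.land lab 7) = a * rl W (rv R β t.1) (Nat.land lab 7) +
      b * rl W (rv R β t.2.1) (Nat.land lab 7) + c * rl W (rv R β t.2.2) (Nat.land lab 7) := by
    rw [hqf, rl_comb]
  have hdq : dot q x = a * dot (rv R β t.1) x + b * dot (rv R β t.2.1) x +
      c * dot (rv R β t.2.2) x := by
    rw [hqf]; simp only [dot]; ring
  have hsum : 0 < a + b + c := by
    by_contra h
    have a0 : a = 0 := by linarith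
    have b0 : b = 0 := by linarith
    have c0 : c = 0 := by linarith
    rw [hdq, a0, b0, c0] at hqx
    norm_num at hqx
  have m0 : t0 * dd ≤ 0 := mul_nonpos_of_nonneg_of_nonpos h00 hdd0
  have m1 : t1 * dd ≤ 0 := mul_nonpos_of_nonneg_of_nonpos h10 hdd0
  have m2 : t2 * dd ≤ 0 := mul_nonpos_of_nonneg_of_nonpos h20 hdd0
  have j0 : 102400 * dot (rv R β t.1) x < rl W (rv R β t.1) (Nat.land lab 7) := by linarith
  have j1 : 102400 * dot (rv R β t.2.1) x < rl W (rv R β t.2.1) (Nat.land lab 7) := by linarith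
  have j2 : 102400 * dot (rv R β t.2.2) x < rl W (rv R β t.2.2) (Nat.land lab 7) := by linarith
  have k0 := mul_le_mul_of_nonneg_left j0.le ha
  have k1 := mul_le_mul_of_nonneg_left j1.le hb
  have k2 := mul_le_mul_of_nonneg_left j2.le hc
  have hlt : 102400 * dot q x < rl W q (Nat.land lab 7) := by
    rw [hdq, hr2]
    rcases lt_or_eq_of_le ha with ha' | ha'
    · have := mul_lt_mul_of_pos_left j0 ha'
      linarith
    · rcases lt_or_eq_of_le hb with hb' | hb'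
      · have := mul_lt_mul_of_pos_left j1 hb'
        linarith
      · have hc' : 0 < c := by linarith
        have := mul_lt_mul_of_pos_left j2 hc'
        linarith
  rw [hqx] at hlt
  linarith

/-- the linear form of a coordinate of `w`, 1024 times -/
noncomputable def Wf (v0 v1 v2 v3 : V3) (i : Fin 3) (β : Fin 4 → ℝ) : ℝ :=
  v0.pos i * β 0 + v1.pos i * β 1 + v2.pos i * β 2 + v3.pos i * β 3

theorem le_mx_left (a b : ℕ) : a ≤ mx a b := by
  unfold mx; simp only [Nat.add_eq, Nat.sub_eq]; omega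

theorem le_mx_right (a b : ℕ) : b ≤ mx a b := by
  unfold mx; simp only [Nat.add_eq, Nat.sub_eq]; omega

theorem mx_le {a b c : ℕ} (ha : a ≤ c) (hb : b ≤ c) : mx a b ≤ c := by
  unfold mx; simp only [Nat.add_eq, Nat.sub_eq]; omega

theorem pk4_le {a b c d : ℕ} (ha : a ≤ 1024) (hb : b ≤ 1024) (hc : c ≤ 1024) (hd : d ≤ 1024) :
    pk4 a b c d ≤ cML := by
  have h1 : pk4 a b c d ≤ pk4 1024 1024 1024 1024 := by
    unfold pk4
    simp only [Nat.add_eq, Nat.mul_eq]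
    gcongr
  exact h1.trans (by decide +kernel)

theorem X_cast {M : ℕ} (h : 37888 ≤ M) : ((Nat.sub M 37888 : ℕ) : ℝ) = M - 37888 := by
  rw [Nat.sub_eq, Nat.cast_sub h]
  norm_num

/-- soundness of the check of a cell -/
theorem chkCell_sound (v0 v1 v2 v3 : V3) (c : CD) (h : chkCell v0 v1 v2 v3 c = true) :
    G.Good4P G.ConclF v0 v1 v2 v3 := by
  intro β hβ hs _
  unfold chkCell at h
  simp only [Bool.and_eq_true] at h
  obtain ⟨⟨⟨b0, b1⟩, ⟨b2, b3⟩⟩, h⟩ := h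
  obtain ⟨x0, y0, z0⟩ := bnd_sound b0
  obtain ⟨x1, y1, z1⟩ := bnd_sound b1
  obtain ⟨x2, y2, z2⟩ := bnd_sound b2
  obtain ⟨x3, y3, z3⟩ := bnd_sound b3
  have m0 := vv_le x0 y0 z0
  have m1 := vv_le x1 y1 z1
  have m2 := vv_le x2 y2 z2
  have m3 := vv_le x3 y3 z3
  set M := mx (mx (vv v0) (vv v1)) (mx (vv v2) (vv v3)) with hM
  have hM1 : M ≤ 1048575 := mx_le (mx_le m0.1 m1.1) (mx_le m2.1 m3.1)
  have M0 : vv v0 ≤ M := (le_mx_left _ _).trans (le_mx_left _ _)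
  have M1 : vv v1 ≤ M := (le_mx_right _ _).trans (le_mx_left _ _)
  have M2 : vv v2 ≤ M := (le_mx_left _ _).trans (le_mx_right _ _)
  have M3 : vv v3 ≤ M := (le_mx_right _ _).trans (le_mx_right _ _)
  generalize hX : Nat.sub M 37888 = X at h
  have hXle : X ≤ 1048575 := by
    rw [← hX]; exact (Nat.sub_le _ _).trans hM1
  set T : Cell := ⟨pk4 v0.x v1.x v2.x v3.x, pk4 v0.y v1.y v2.y v3.y, pk4 v0.z v1.z v2.z v3.z,
      pk4 (vv v0) (vv v1) (vv v2) (vv v3), X, c.R, c.D⟩ with hTdef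
  set Vf : (Fin 4 → ℝ) → ℝ := fun β => vv v0 * β 0 + vv v1 * β 1 + vv v2 * β 2 + vv v3 * β 3
    with hVf
  have hT : TOK T (Wf v0 v1 v2 v3) Vf := by
    refine ⟨pk4_R1 x0 x1 x2 x3, pk4_R1 y0 y1 y2 y3, pk4_R1 z0 z1 z2 z3, pk4_le x0 x1 x2 x3,
      pk4_le y0 y1 y2 y3, pk4_le z0 z1 z2 z3, pk4_R1 m0.1 m1.1 m2.1 m3.1, hXle⟩
  -- the point `w`
  set w : Fin 3 → ℝ := pt v0 v1 v2 v3 β with hw
  have hW : ∀ i, Wf v0 v1 v2 v3 i β = 1024 * w i := by
    intro i
    simp only [hw, pt, Wf]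
    ring
  have hV : 102400 * Vc cw w ≤ Vf β := by
    have h1 := Vc_convex cw β hβ (by rw [Fin.sum_univ_four]; exact hs)
      ![fun i => v0.pos i / 1024, fun i => v1.pos i / 1024, fun i => v2.pos i / 1024,
        fun i => v3.pos i / 1024]
    rw [Fin.sum_univ_four, Fin.sum_univ_four] at h1
    simp only [Matrix.cons_val_zero, Matrix.cons_val_one, Matrix.cons_val] at h1
    have e1 : (β 0 • (fun i => v0.pos i / 1024) + β 1 • (fun i => v1.pos i / 1024) +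
        β 2 • (fun i => v2.pos i / 1024) + β 3 • (fun i => v3.pos i / 1024) : Fin 3 → ℝ) = w := by
      ext i
      simp only [hw, pt, Pi.add_apply, Pi.smul_apply, smul_eq_mul]
      ring
    rw [e1] at h1
    have g0 := vv_eq v0
    have g1 := vv_eq v1
    have g2 := vv_eq v2
    have g3 := vv_eq v3
    simp only [hVf]
    rw [← g0, ← g1, ← g2, ← g3]
    linarith
  have hVM : Vf β ≤ M := by
    have k0 : (vv v0 : ℝ) ≤ M := by exact_mod_cast M0
    have k1 : (vv v1 : ℝ) ≤ M := by exact_mod_cast M1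
    have k2 : (vv v2 : ℝ) ≤ M := by exact_mod_cast M2
    have k3 : (vv v3 : ℝ) ≤ M := by exact_mod_cast M3
    have j0 := mul_le_mul_of_nonneg_right k0 (hβ 0)
    have j1 := mul_le_mul_of_nonneg_right k1 (hβ 1)
    have j2 := mul_le_mul_of_nonneg_right k2 (hβ 2)
    have j3 := mul_le_mul_of_nonneg_right k3 (hβ 3)
    have e : (M : ℝ) * β 0 + M * β 1 + M * β 2 + M * β 3 = M := by
      linear_combination (M : ℝ) * hs
    simp only [hVf]
    linarith
  have hle : 37888 ≤ M := le_trans (by norm_num) (m0.2.trans M0)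
  have hXr : (X : ℝ) = M - 37888 := by rw [← hX]; exact X_cast hle
  have hx : ∀ x : Fin 3 → ℝ, GCon cw w x → ∀ i, 102400 * |x i| ≤ (X : ℝ) := by
    intro x hx i
    have h1 := abs_of_gcon hx i
    rw [hXr]
    exact h1.trans (sub_le_sub_right (hV.trans hVM) _)
  have hall : ∀ x : Fin 3 → ℝ, GCon cw w x → AllFV (fun i => Wf v0 v1 v2 v3 i β) (Vf β) x :=
    fun x hx => allFV_of_gcon hx hW hV
  -- the incidences and the triangles
  unfold chkC at h
  obtain ⟨I, hI, hbits⟩ := incs_sound _ _ h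
  obtain ⟨L, hL, hne, hadj⟩ := tris_fan hI
  have hpos : ∀ t ∈ L, 0 < det3 (rv c.R β t.1) (rv c.R β t.2.1) (rv c.R β t.2.2) := by
    intro t ht
    obtain ⟨-, -, -, lab, hlab, htri⟩ := hL t ht
    unfold tri at htri
    rw [Bool.and_eq_true] at htri
    exact dtT_sound htri.2 hβ hs
  have hlab : ∀ t ∈ L, ∃ lab : ℕ, lab ≤ 55 ∧ ∀ i, (i = t.1 ∨ i = t.2.1 ∨ i = t.2.2) →
      ∃ tt : ℝ, 0 ≤ tt ∧ ∀ x : Fin 3 → ℝ, GCon cw w x →
        102400 * dot (rv c.R β i) x < tt * dot (rv c.D β (Nat.shiftRight lab 3)) x +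
          rl (fun i => Wf v0 v1 v2 v3 i β) (rv c.R β i) (Nat.land lab 7) := by
    intro t ht
    obtain ⟨l1, l2, l3, lab, hlab, htri⟩ := hL t ht
    unfold tri at htri
    rw [Bool.and_eq_true] at htri
    have hb := tri_bits htri.1
    have key : ∀ i, i < 256 → I.testBit (256 * lab + i) = true → lab ≤ 55 ∧
        ∃ tt : ℝ, 0 ≤ tt ∧ ∀ x : Fin 3 → ℝ, GCon cw w x →
        102400 * dot (rv c.R β i) x < tt * dot (rv c.D β (Nat.shiftRight lab 3)) x +
          rl (fun i => Wf v0 v1 v2 v3 i β) (rv c.R β i) (Nat.land lab 7) := by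
      intro i hi hbit
      rcases hbits _ hbit with h1 | ⟨v, hv, hv'⟩
      · simp at h1
      · obtain ⟨g1, tf, g2, g3⟩ := inc_sound hi hv' hv hT
        exact ⟨g1, tf β, g2 β hβ, fun x hxc => g3 hβ hs (hx x hxc) (hall x hxc)⟩
    refine ⟨lab, (key _ l1 hb.1).1, ?_⟩
    rintro i (rfl | rfl | rfl)
    · exact (key _ l1 hb.1).2
    · exact (key _ l2 hb.2.1).2
    · exact (key _ l3 hb.2.2).2
  have := fan_concl (R := c.R) (D := c.D) hW hne hadj hpos hlab
  rw [cw_eq] at this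
  exact this

end Pool.Agent.Core7.Pk
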