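import Pool.Agent.Work.MP_80156a_core7.PkTab

/-!
# MP_80156a, CORE7: soundness of the list of functionals and of an incidence
-/

set_option autoImplicit false
set_option maxRecDepth 100000
set_option exponentiation.threshold 5000

namespace Pool.Agent.Core7.Pk

open Pool.Agent.Core7.Far (V3 mx)

attribute [local irreducible] OFF2 OFF3 TOP2 TOP3 cML nOS pOS nNS c1S c2S nO nC TAB K16 K19 M16 M19

/-- all functionals of the table are valid -/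
def AllFV (W : Fin 3 → ℝ) (V : ℝ) (x : Fin 3 → ℝ) : Prop :=
  ∀ c < 1024, FV W V x (((Nat.land (ent c) m16 : ℕ) : ℤ) - 1024 : ℤ)
    (((f16 (ent c) 16 : ℕ) : ℤ) - 1024 : ℤ) (((f16 (ent c) 32 : ℕ) : ℤ) - 1024 : ℤ)
    ((f16 (ent c) 48 : ℕ) : ℤ)

theorem fin_sound {T : Cell} {W : Fin 3 → (Fin 4 → ℝ) → ℝ} {Vf P F0 F1 F2 G : (Fin 4 → ℝ) → ℝ}
    {rho e0 e1 e2 K M : ℕ} (h : fin T rho e0 e1 e2 K = true) (hT : TOK T W Vf)
    (hr : R2 rho P (2 ^ 64)) (hM : M ≤ 9 * 2 ^ 60) (h0 : R2 e0 F0 M) (h1 : R2 e1 F1 M)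
    (h2 : R2 e2 F2 M) (hK : R2 K G M) {β : Fin 4 → ℝ} (hβ : ∀ v, 0 ≤ β v)
    (hs : β 0 + β 1 + β 2 + β 3 = 1) {x : Fin 3 → ℝ} (hx : ∀ i, 102400 * |x i| ≤ T.X) :
    Claim P F0 F1 F2 G β x := by
  have hk : R2 (nC * K) (fun β => ((-102400 : ℤ) : ℝ) * G β) (102400 * M) :=
    Rep.smul (by
      have h1 := res_neg (c := nC) (n := 102400) (by decide +kernel)
      exact h1) (by norm_num) hK
  have h3 := fin8_sound (N := 2 ^ 64 + 102400 * (9 * 2 ^ 60)) (M := 9 * 2 ^ 60)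
    (r := rho + nC * K) h hT.X (by simp only [Nat.add_eq, Nat.mul_eq])
    ((Rep.add hr hk).mono (by omega)) (h0.mono hM) (h1.mono hM) (h2.mono hM) (by norm_num) hβ hs
  unfold Claim
  have key : ∀ (f y : ℝ), 102400 * |y| ≤ T.X → 102400 * (f * y) ≤ T.X * |f| := by
    intro f y hy
    have h4 := mul_le_mul_of_nonneg_left hy (abs_nonneg f)
    have h5 : f * y ≤ |f| * |y| := by rw [← abs_mul]; exact le_abs_self _
    nlinarith
  have k0 := key (F0 β) (x 0) (hx 0)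
  have k1 := key (F1 β) (x 1) (hx 1)
  have k2 := key (F2 β) (x 2) (hx 2)
  push_cast at h3
  nlinarith [h3, k0, k1, k2]

theorem goF_succ {T : Cell} {rho n rest e0 e1 e2 K : ℕ}
    (h : goF T rho (n + 1) rest e0 e1 e2 K = true) :
    fin T rho e0 e1 e2 K = true ∨
      stp2 (goF T rho n) T (Nat.shiftRight TAB (Nat.mul 64 (Nat.land rest 1023)))
        (Nat.land (Nat.shiftRight rest 10) 3)
        (x19 (Nat.land (Nat.shiftRight rest 16) m76)) (Nat.shiftRight rest 96)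
        e0 e1 e2 K = true := by
  rw [goF] at h
  cases hb : Nat.beq rest 0 with
  | true => rw [hb, cond_true] at h; exact Or.inl h
  | false => rw [hb, cond_false] at h; exact Or.inr h

theorem goF_zero {T : Cell} {rho rest e0 e1 e2 K : ℕ}
    (h : goF T rho 0 rest e0 e1 e2 K = true) : fin T rho e0 e1 e2 K = true := by
  rw [goF] at h
  exact h

theorem goF_sound {T : Cell} {W : Fin 3 → (Fin 4 → ℝ) → ℝ} {Vf P : (Fin 4 → ℝ) → ℝ}
    {rho : ℕ} (hT : TOK T W Vf) (hr : R2 rho P (2 ^ 64)) {β : Fin 4 → ℝ} (hβ : ∀ v, 0 ≤ β v)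
    (hs : β 0 + β 1 + β 2 + β 3 = 1) {x : Fin 3 → ℝ} (hx : ∀ i, 102400 * |x i| ≤ T.X)
    (hv : AllFV (fun i => W i β) (Vf β) x) : ∀ n ≤ 8,
    GoOK (goF T rho n) P ((9 - n) * 2 ^ 60) β x := by
  intro n
  induction n with
  | zero =>
    intro _ rest e0 e1 e2 K F0 F1 F2 G h h0 h1 h2 hK
    exact fin_sound (goF_zero h) hT hr (by norm_num) h0 h1 h2 hK hβ hs hx
  | succ n ih =>
    intro hn rest e0 e1 e2 K F0 F1 F2 G h h0 h1 h2 hK
    rcases goF_succ h with h | h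
    · exact fin_sound h hT hr (Nat.mul_le_mul_right _ (Nat.sub_le _ _)) h0 h1 h2 hK hβ hs hx
    · unfold stp2 at h
      have hc : Nat.land rest 1023 < 1024 := Nat.lt_succ_of_le Nat.and_le_right
      refine stp_sound (M := (9 - (n + 1)) * 2 ^ 60) h hT ?_ (SR.entry (land16_le _))
        (SR.entry (f16_le _ _)) (SR.entry (f16_le _ _)) (SR.nat (f16_le _ _))
        (x19_R1 _) (lf_nonneg _ hβ) hs (hv _ hc) h0 h1 h2 hK
      have e1 : (9 - (n + 1)) * 2 ^ 60 + 2 ^ 60 = (9 - n) * 2 ^ 60 := by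
        have : 9 - n = (9 - (n + 1)) + 1 := by omega
        rw [this]; ring
      rw [e1]
      exact ih (by omega)

/-- the right side -/
noncomputable def rhoF (W : Fin 3 → (Fin 4 → ℝ) → ℝ) (r : Fin 3 → (Fin 4 → ℝ) → ℝ) (c : ℕ)
    (β : Fin 4 → ℝ) : ℝ :=
  match c with
  | 0 => 102400 * r 0 β
  | 1 => 102400 * r 1 β
  | 2 => 102400 * r 2 β
  | 3 => - (102400 * r 0 β)
  | 4 => - (102400 * r 1 β)
  | 5 => - (102400 * r 2 β)
  | 6 => 100 * (W 0 β * r 0 β + W 1 β * r 1 β + W 2 β * r 2 β)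
  | _ => - (100 * (W 0 β * r 0 β + W 1 β * r 1 β + W 2 β * r 2 β))

/-- the coordinates of a ray or of a direction with the data `X` -/
noncomputable def ry (X : ℕ) : Fin 3 → (Fin 4 → ℝ) → ℝ := ![sv X 0, sv X 64, sv X 128]

/-- the right side, packed -/
theorem rho_R2 {T : Cell} {r0 r1 r2 n0 n1 n2 : ℕ} {W r : Fin 3 → (Fin 4 → ℝ) → ℝ}
    {Vf : (Fin 4 → ℝ) → ℝ} (hT : TOK T W Vf)
    (r0' : R1 r0 (r 0) 98303) (r1' : R1 r1 (r 1) 98303) (r2' : R1 r2 (r 2) 98303)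
    (s0 : R1 n0 (fun β => - r 0 β) 98303) (s1 : R1 n1 (fun β => - r 1 β) 98303)
    (s2 : R1 n2 (fun β => - r 2 β) 98303) (c : ℕ) :
    ∃ P, R2 (rhoV T r0 r1 r2 n0 n1 n2 c) P (2 ^ 64) ∧
      ∀ β : Fin 4 → ℝ, β 0 + β 1 + β 2 + β 3 = 1 → P β = 102400 * rhoF W r c β := by
  match c with
  | 0 =>
    refine ⟨_, (c2S_R1.mul r0').mono (by norm_num), fun β hs => ?_⟩
    simp only [hs, rhoF]; push_cast; ring
  | 1 =>
    refine ⟨_, (c2S_R1.mul r1').mono (by norm_num), fun β hs => ?_⟩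
    simp only [hs, rhoF]; push_cast; ring
  | 2 =>
    refine ⟨_, (c2S_R1.mul r2').mono (by norm_num), fun β hs => ?_⟩
    simp only [hs, rhoF]; push_cast; ring
  | 3 =>
    refine ⟨_, (c2S_R1.mul s0).mono (by norm_num), fun β hs => ?_⟩
    simp only [hs, rhoF]; push_cast; ring
  | 4 =>
    refine ⟨_, (c2S_R1.mul s1).mono (by norm_num), fun β hs => ?_⟩
    simp only [hs, rhoF]; push_cast; ring
  | 5 =>
    refine ⟨_, (c2S_R1.mul s2).mono (by norm_num), fun β hs => ?_⟩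
    simp only [hs, rhoF]; push_cast; ring
  | 6 =>
    refine ⟨_, (Rep.nsmul' 10240000 (Rep.add (hT.w0.mul r0')
      (Rep.add (hT.w1.mul r1') (hT.w2.mul r2')))).mono (by norm_num), fun β hs => ?_⟩
    simp only [rhoF]; push_cast; ring
  | n + 7 =>
    refine ⟨_, (Rep.nsmul' 10240000 (Rep.add (hT.w0.mul s0)
      (Rep.add (hT.w1.mul s1) (hT.w2.mul s2)))).mono (by norm_num), fun β hs => ?_⟩
    simp only [rhoF]; push_cast; ring

/-- an incidence, start values -/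
theorem inc3_sound {T : Cell} {v lab t r0 r1 r2 n0 n1 n2 d0 d1 d2 : ℕ}
    {W r d : Fin 3 → (Fin 4 → ℝ) → ℝ} {Vf tf : (Fin 4 → ℝ) → ℝ}
    (h : inc3 T v lab t r0 r1 r2 n0 n1 n2 d0 d1 d2 = true) (hT : TOK T W Vf)
    (r0' : R1 r0 (r 0) 98303) (r1' : R1 r1 (r 1) 98303) (r2' : R1 r2 (r 2) 98303)
    (s0 : R1 n0 (fun β => - r 0 β) 98303) (s1 : R1 n1 (fun β => - r 1 β) 98303)
    (s2 : R1 n2 (fun β => - r 2 β) 98303)
    (d0' : R1 d0 (fun β => - d 0 β) 98303) (d1' : R1 d1 (fun β => - d 1 β) 98303)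
    (d2' : R1 d2 (fun β => - d 2 β) 98303) (ht : R1 t tf 524287)
    {β : Fin 4 → ℝ} (hβ : ∀ v, 0 ≤ β v)
    (hs : β 0 + β 1 + β 2 + β 3 = 1) {x : Fin 3 → ℝ} (hx : ∀ i, 102400 * |x i| ≤ T.X)
    (hv : AllFV (fun i => W i β) (Vf β) x) :
    102400 * (r 0 β * x 0 + r 1 β * x 1 + r 2 β * x 2) <
      tf β * (d 0 β * x 0 + d 1 β * x 1 + d 2 β * x 2) + rhoF W r (Nat.land lab 7) β := by
  have e0 := Rep.add (c1S_R1.mul r0') (ht.mul d0')
  have e1 := Rep.add (c1S_R1.mul r1') (ht.mul d1')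
  have e2 := Rep.add (c1S_R1.mul r2') (ht.mul d2')
  obtain ⟨P, hP, hPβ⟩ := rho_R2 hT r0' r1' r2' s0 s1 s2 (Nat.land lab 7)
  unfold inc3 at h
  have h3 := goF_sound hT hP hβ hs hx hv 8 le_rfl _ _ _ _ _ _ _ _ _ h (e0.mono (by norm_num))
    (e1.mono (by norm_num)) (e2.mono (by norm_num)) (Rep.zero.mono (by norm_num))
  unfold Claim at h3
  rw [hPβ β hs] at h3
  simp only [hs] at h3
  push_cast at h3
  nlinarith [h3]

/-- an incidence: bound for the ray `R` in terms of the direction `D` -/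
theorem inc2_sound {T : Cell} {v lab R D t : ℕ} {W : Fin 3 → (Fin 4 → ℝ) → ℝ}
    {Vf : (Fin 4 → ℝ) → ℝ}
    (h : inc2 T v lab R D (x19 t) = true) (hT : TOK T W Vf) {β : Fin 4 → ℝ} (hβ : ∀ v, 0 ≤ β v)
    (hs : β 0 + β 1 + β 2 + β 3 = 1) {x : Fin 3 → ℝ} (hx : ∀ i, 102400 * |x i| ≤ T.X)
    (hv : AllFV (fun i => W i β) (Vf β) x) :
    102400 * (ry R 0 β * x 0 + ry R 1 β * x 1 + ry R 2 β * x 2) <
      lf (x19 t) β * (ry D 0 β * x 0 + ry D 1 β * x 1 + ry D 2 β * x 2) +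
        rhoF W (ry R) (Nat.land lab 7) β :=
  inc3_sound (r := ry R) (d := ry D) (tf := lf (x19 t)) h hT (sg_R1 R 0) (sg_R1 R 64) (sg_R1 R 128)
    (ng_R1 R 0) (ng_R1 R 64) (ng_R1 R 128) (ng_R1 D 0) (ng_R1 D 64) (ng_R1 D 128) (x19_R1 t)
    hβ hs hx hv

end Pool.Agent.Core7.Pk
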