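import Pool.Agent.Work.MP_80156a_core7.PkLin

/-!
# MP_80156a, CORE7: soundness of the packed check of an incidence
-/

set_option autoImplicit false
set_option maxRecDepth 100000
set_option exponentiation.threshold 5000

namespace Pool.Agent.Core7.Pk

open Pool.Agent.Core7.Far (V3 mx)

/-! ### The test of a quadratic form -/

theorem offs2 : offs (Finset.univ.image (fun p : Fin 4 × Fin 4 => pp p.1 + pp p.2)) = (OFF2 : ℤ) := by
  decide +kernel

theorem inj2 : ∀ i j : Fin 4 × Fin 4, pp i.1 + pp i.2 = pp j.1 + pp j.2 →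
    (i.1 = j.1 ∧ i.2 = j.2) ∨ (i.1 = j.2 ∧ i.2 = j.1) := by decide

theorem lt2 : ∀ i : Fin 4 × Fin 4, pp i.1 + pp i.2 < 34 := by decide

theorem top2 : ∀ u v : Fin 4, TOP2.testBit (96 * (pp u + pp v) + 95) = true := by decide +kernel

/-- the value is positive if all top bits are set -/
theorem pos2 {x y : ℕ} {F : (Fin 4 → ℝ) → ℝ} {M : ℕ} (h : R2 x F M) (hM : 16 * M < 2 ^ 95 - 1)
    (hy : y = x + OFF2) (ht : ∀ u v : Fin 4, y.testBit (96 * (pp u + pp v) + 95) = true)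
    {β : Fin 4 → ℝ} (hβ : ∀ v, 0 ≤ β v) (hs : β 0 + β 1 + β 2 + β 3 = 1) : 0 < F β := by
  have h1 := rep_pos (y := y) h lt2 (fun i j hij => by
      funext β
      rcases inj2 i j hij with ⟨e1, e2⟩ | ⟨e1, e2⟩
      · simp only [e1, e2]
      · simp only [e1, e2]; ring)
    (fun i β hβ => mul_nonneg (hβ _) (hβ _)) (by simpa using hM)
    (by rw [offs2, hy]; push_cast; exact Int.ModEq.refl _) (fun i => ht _ _) β hβ
  obtain ⟨v, hv⟩ : ∃ v, 0 < β v := by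
    by_contra hcon
    push Not at hcon
    have h0 : ∀ v, β v = 0 := fun v => le_antisymm (hcon v) (hβ v)
    rw [h0, h0, h0, h0] at hs
    norm_num at hs
  exact lt_of_lt_of_le (mul_pos hv hv) (h1 (v, v))

theorem land_bit {a b : ℕ} {j : ℕ} (h : (Nat.land a b).testBit j = true) :
    a.testBit j = true ∧ b.testBit j = true := by
  have h1 : (Nat.land a b).testBit j = (a.testBit j && b.testBit j) := Nat.testBit_and _ _ _
  rw [h1, Bool.and_eq_true] at h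
  exact h

/-- a scalar -/
theorem Rep.nsmul' {ι : Type} [Fintype ι] {pos : ι → ℕ} {mon : ι → (Fin 4 → ℝ) → ℝ} {x : ℕ}
    {F : (Fin 4 → ℝ) → ℝ} {M : ℕ} (X : ℕ) (h : Rep pos mon x F M) :
    Rep pos mon (X * x) (fun β => X * F β) (X * M) := by
  have h1 := Rep.smul (c := X) (z := (X : ℤ)) (Z := X) (Int.ModEq.refl _) (by simp) h
  refine Rep.congr h1 fun β => by push_cast; ring

/-- minus a scalar -/
theorem Rep.nsmulNeg {ι : Type} [Fintype ι] {pos : ι → ℕ} {mon : ι → (Fin 4 → ℝ) → ℝ} {x : ℕ}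
    {F : (Fin 4 → ℝ) → ℝ} {M : ℕ} (X : ℕ) (hX : X ≤ cML) (h : Rep pos mon x F M) :
    Rep pos mon ((cML - X) * x) (fun β => - (X * F β)) (X * M) := by
  have h1 := Rep.smul (c := cML - X) (z := -(X : ℤ)) (Z := X)
    (res_neg (Nat.sub_add_cancel hX)) (by simp) h
  refine Rep.congr h1 fun β => by push_cast; ring

/-- minus a form -/
theorem Rep.nsmulNeg' {x : ℕ} {F : (Fin 4 → ℝ) → ℝ} {M : ℕ} (hx : x ≤ cML) (h : R1 x F M) :
    R1 (cML - x) (fun β => - F β) M := Rep.neg h cML_mod hx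

/-- soundness of the eight tests -/
theorem fin8_sound {X base r e0 e1 e2 M N : ℕ} {P F0 F1 F2 : (Fin 4 → ℝ) → ℝ}
    (h : fin8 X base e0 e1 e2 = true) (hX : X ≤ 1048575) (hbase : base = r + OFF2)
    (hr : R2 r P N) (h0 : R2 e0 F0 M) (h1 : R2 e1 F1 M) (h2 : R2 e2 F2 M)
    (hM : 16 * (N + 3 * (1048575 * M)) < 2 ^ 95 - 1)
    {β : Fin 4 → ℝ} (hβ : ∀ v, 0 ≤ β v) (hs : β 0 + β 1 + β 2 + β 3 = 1) :
    X * (|F0 β| + |F1 β| + |F2 β|) < P β := by
  have hXc : X ≤ cML := hX.trans (by decide +kernel)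
  have hXM : X * M ≤ 1048575 * M := Nat.mul_le_mul_right _ hX
  have bits : ∀ u v : Fin 4,
      (Nat.land (Nat.land
        (Nat.land (Nat.add (Nat.add (Nat.add base (Nat.mul X e0)) (Nat.mul X e1)) (Nat.mul X e2))
          (Nat.add (Nat.add (Nat.add base (Nat.mul X e0)) (Nat.mul X e1)) (Nat.mul (Nat.sub cML X) e2)))
        (Nat.land (Nat.add (Nat.add (Nat.add base (Nat.mul X e0)) (Nat.mul (Nat.sub cML X) e1)) (Nat.mul X e2))
          (Nat.add (Nat.add (Nat.add base (Nat.mul X e0)) (Nat.mul (Nat.sub cML X) e1)) (Nat.mul (Nat.sub cML X) e2))))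
        (Nat.land
        (Nat.land (Nat.add (Nat.add (Nat.add base (Nat.mul (Nat.sub cML X) e0)) (Nat.mul X e1)) (Nat.mul X e2))
          (Nat.add (Nat.add (Nat.add base (Nat.mul (Nat.sub cML X) e0)) (Nat.mul X e1)) (Nat.mul (Nat.sub cML X) e2)))
        (Nat.land (Nat.add (Nat.add (Nat.add base (Nat.mul (Nat.sub cML X) e0)) (Nat.mul (Nat.sub cML X) e1)) (Nat.mul X e2))
          (Nat.add (Nat.add (Nat.add base (Nat.mul (Nat.sub cML X) e0)) (Nat.mul (Nat.sub cML X) e1))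
            (Nat.mul (Nat.sub cML X) e2))))).testBit (96 * (pp u + pp v) + 95) = true := by
    intro u v
    unfold fin8 fX fA fB at h
    have h3 := Nat.eq_of_beq_eq_true h
    have h4 := top2 u v
    rw [h3] at h4
    exact (land_bit h4).2
  -- the eight inequalities
  have p0 := Rep.nsmul' X h0
  have n0 := Rep.nsmulNeg X hXc h0
  have p1 := Rep.nsmul' X h1
  have n1 := Rep.nsmulNeg X hXc h1
  have p2 := Rep.nsmul' X h2
  have n2 := Rep.nsmulNeg X hXc h2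
  have hb : 16 * (N + X * M + X * M + X * M) < 2 ^ 95 - 1 := by
    refine lt_of_le_of_lt (Nat.mul_le_mul_left _ ?_) hM
    omega
  have key : ∀ (a b c : ℕ) (A B C : (Fin 4 → ℝ) → ℝ), R2 a A (X * M) → R2 b B (X * M) →
      R2 c C (X * M) → (∀ u v : Fin 4, (Nat.add (Nat.add (Nat.add base a) b) c).testBit
        (96 * (pp u + pp v) + 95) = true) → 0 < P β + A β + B β + C β := by
    intro a b c A B C ha hb' hc ht
    exact pos2 (Rep.add (Rep.add (Rep.add hr ha) hb') hc) hb (by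
      simp only [Nat.add_eq]; rw [hbase]; ring) ht hβ hs
  have q1 := key _ _ _ _ _ _ p0 p1 p2 fun u v => (land_bit (land_bit (land_bit (bits u v)).1).1).1
  have q2 := key _ _ _ _ _ _ p0 p1 n2 fun u v => (land_bit (land_bit (land_bit (bits u v)).1).1).2
  have q3 := key _ _ _ _ _ _ p0 n1 p2 fun u v => (land_bit (land_bit (land_bit (bits u v)).1).2).1
  have q4 := key _ _ _ _ _ _ p0 n1 n2 fun u v => (land_bit (land_bit (land_bit (bits u v)).1).2).2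
  have q5 := key _ _ _ _ _ _ n0 p1 p2 fun u v => (land_bit (land_bit (land_bit (bits u v)).2).1).1
  have q6 := key _ _ _ _ _ _ n0 p1 n2 fun u v => (land_bit (land_bit (land_bit (bits u v)).2).1).2
  have q7 := key _ _ _ _ _ _ n0 n1 p2 fun u v => (land_bit (land_bit (land_bit (bits u v)).2).2).1
  have q8 := key _ _ _ _ _ _ n0 n1 n2 fun u v => (land_bit (land_bit (land_bit (bits u v)).2).2).2
  rcases abs_cases (F0 β) with ⟨g0, -⟩ | ⟨g0, -⟩ <;> rcases abs_cases (F1 β) with ⟨g1, -⟩ | ⟨g1, -⟩ <;>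
    rcases abs_cases (F2 β) with ⟨g2, -⟩ | ⟨g2, -⟩ <;> rw [g0, g1, g2] <;> linarith

/-! ### One functional -/

/-- the validity of a functional at the point `β` (scaled) -/
structure FV (W : Fin 3 → ℝ) (V : ℝ) (x : Fin 3 → ℝ) (a b c d : ℝ) : Prop where
  t3 : 1024 * (a * x 0 + b * x 1 + c * x 2) + 1024 * d ≤ V
  t0 : 1024 * a * x 0 + b * (W 0 * x 1 - W 1 * x 0) + c * (W 0 * x 2 - W 2 * x 0) + d * W 0 ≤ V
  t1 : 1024 * a * x 1 + b * (W 1 * x 2 - W 2 * x 1) + c * (W 1 * x 0 - W 0 * x 1) + d * W 1 ≤ V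
  t2 : 1024 * a * x 2 + b * (W 2 * x 0 - W 0 * x 2) + c * (W 2 * x 1 - W 1 * x 2) + d * W 2 ≤ V

/-- the packed numbers of the cell represent the forms `W` and `V` -/
structure TOK (T : Cell) (W : Fin 3 → (Fin 4 → ℝ) → ℝ) (Vf : (Fin 4 → ℝ) → ℝ) : Prop where
  w0 : R1 T.w0 (W 0) 1024
  w1 : R1 T.w1 (W 1) 1024
  w2 : R1 T.w2 (W 2) 1024
  l0 : T.w0 ≤ cML
  l1 : T.w1 ≤ cML
  l2 : T.w2 ≤ cML
  V : R1 T.V Vf 1048575
  X : T.X ≤ 1048575

/-- a residue scalar -/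
def SR (c : ℕ) (z : ℤ) : Prop := (c : ℤ) ≡ z [ZMOD md] ∧ |z| ≤ 65536

theorem SR.mul2 {c : ℕ} {z : ℤ} (h : SR c z) {x : ℕ} {F : (Fin 4 → ℝ) → ℝ} {M : ℕ}
    (hx : R2 x F M) : R2 (c * x) (fun β => z * F β) (65536 * M) :=
  Rep.smul h.1 (by exact_mod_cast h.2) hx

theorem SR.mul1 {c : ℕ} {z : ℤ} (h : SR c z) {x : ℕ} {F : (Fin 4 → ℝ) → ℝ} {M : ℕ}
    (hx : R1 x F M) : R1 (c * x) (fun β => z * F β) (65536 * M) :=
  Rep.smul h.1 (by exact_mod_cast h.2) hx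

/-- the claim on the state `F0 F1 F2 G` -/
def Claim (P F0 F1 F2 G : (Fin 4 → ℝ) → ℝ) (β : Fin 4 → ℝ) (x : Fin 3 → ℝ) : Prop :=
  102400 * (F0 β * x 0 + F1 β * x 1 + F2 β * x 2) + 102400 * G β < P β

/-- what is assumed on the continuation -/
def GoOK (go : ℕ → ℕ → ℕ → ℕ → ℕ → Bool) (P : (Fin 4 → ℝ) → ℝ) (M : ℕ) (β : Fin 4 → ℝ)
    (x : Fin 3 → ℝ) : Prop :=
  ∀ rest e0 e1 e2 K F0 F1 F2 G, go rest e0 e1 e2 K = true → R2 e0 F0 M → R2 e1 F1 M →
    R2 e2 F2 M → R2 K G M → Claim P F0 F1 F2 G β x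

theorem stp_sound {go : ℕ → ℕ → ℕ → ℕ → ℕ → Bool} {T : Cell} {ty nu rest a b c d e0 e1 e2 K : ℕ}
    {W : Fin 3 → (Fin 4 → ℝ) → ℝ} {Vf P F0 F1 F2 G N : (Fin 4 → ℝ) → ℝ} {M : ℕ} {za zb zc zd : ℤ}
    {β : Fin 4 → ℝ} {x : Fin 3 → ℝ}
    (h : stp go T ty nu rest a b c d e0 e1 e2 K = true) (hT : TOK T W Vf)
    (hgo : GoOK go P (M + 2 ^ 60) β x) (ha : SR a za) (hb : SR b zb) (hc : SR c zc) (hd : SR d zd)
    (hnu : R1 nu N 524287) (hN : 0 ≤ N β) (hs : β 0 + β 1 + β 2 + β 3 = 1)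
    (hv : FV (fun i => W i β) (Vf β) x za zb zc zd)
    (h0 : R2 e0 F0 M) (h1 : R2 e1 F1 M) (h2 : R2 e2 F2 M) (hK : R2 K G M) :
    Claim P F0 F1 F2 G β x := by
  obtain ⟨v3, v0, v1, v2⟩ := hv
  have m3 := mul_nonneg hN (sub_nonneg.2 v3)
  have m0 := mul_nonneg hN (sub_nonneg.2 v0)
  have m1 := mul_nonneg hN (sub_nonneg.2 v1)
  have m2 := mul_nonneg hN (sub_nonneg.2 v2)
  have hV := hnu.mul hT.V
  have q0 := hnu.mul (Rep.nsmulNeg' hT.l0 hT.w0)
  have q1 := hnu.mul (Rep.nsmulNeg' hT.l1 hT.w1)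
  have q2 := hnu.mul (Rep.nsmulNeg' hT.l2 hT.w2)
  have q3 := hnu.mul nNS_R1
  unfold stp at h
  split at h
  · have r0 := hnu.mul (Rep.add (ha.mul1 nNS_R1) (Rep.add (hb.mul1 hT.w1) (hc.mul1 hT.w2)))
    have hcl := hgo _ _ _ _ _ _ _ _ _ h ((Rep.add h0 r0).mono (by norm_num))
      ((Rep.add h1 (hb.mul2 q0)).mono (by norm_num)) ((Rep.add h2 (hc.mul2 q0)).mono (by norm_num))
      ((Rep.add hK (Rep.add hV (hd.mul2 q0))).mono (by norm_num))
    unfold Claim at hcl ⊢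
    simp only [hs] at hcl m0
    push_cast at hcl
    nlinarith [hcl, m0]
  · have r0 := hnu.mul (Rep.add (ha.mul1 nNS_R1) (Rep.add (hb.mul1 hT.w2) (hc.mul1 hT.w0)))
    have hcl := hgo _ _ _ _ _ _ _ _ _ h ((Rep.add h0 (hc.mul2 q1)).mono (by norm_num))
      ((Rep.add h1 r0).mono (by norm_num)) ((Rep.add h2 (hb.mul2 q1)).mono (by norm_num))
      ((Rep.add hK (Rep.add hV (hd.mul2 q1))).mono (by norm_num))
    unfold Claim at hcl ⊢
    simp only [hs] at hcl m1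
    push_cast at hcl
    nlinarith [hcl, m1]
  · have r0 := hnu.mul (Rep.add (ha.mul1 nNS_R1) (Rep.add (hb.mul1 hT.w0) (hc.mul1 hT.w1)))
    have hcl := hgo _ _ _ _ _ _ _ _ _ h ((Rep.add h0 (hb.mul2 q2)).mono (by norm_num))
      ((Rep.add h1 (hc.mul2 q2)).mono (by norm_num)) ((Rep.add h2 r0).mono (by norm_num))
      ((Rep.add hK (Rep.add hV (hd.mul2 q2))).mono (by norm_num))
    unfold Claim at hcl ⊢
    simp only [hs] at hcl m2
    push_cast at hcl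
    nlinarith [hcl, m2]
  · have hcl := hgo _ _ _ _ _ _ _ _ _ h ((Rep.add h0 (ha.mul2 q3)).mono (by norm_num))
      ((Rep.add h1 (hb.mul2 q3)).mono (by norm_num)) ((Rep.add h2 (hc.mul2 q3)).mono (by norm_num))
      ((Rep.add hK (Rep.add hV (hd.mul2 q3))).mono (by norm_num))
    unfold Claim at hcl ⊢
    simp only [hs] at hcl m3
    push_cast at hcl
    nlinarith [hcl, m3]

end Pool.Agent.Core7.Pk
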