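import Pool.Agent.Work.MP_80156a_core7.PkBase
import Pool.Agent.Work.MP_80156a_core7.PkChk

/-!
# MP_80156a, CORE7: packed linear forms, constants and the tests
-/

set_option autoImplicit false
set_option maxRecDepth 100000




namespace Pool.Agent.Core7.Pk

open Pool.Agent.Core7.Far (V3 mx)

/-! ### Constants -/

theorem cML_eq : cML = 2 ^ 3264 := by decide +kernel

theorem cML_mod : (cML : ℤ) ≡ 0 [ZMOD md] := by
  rw [cML_eq]
  exact (Int.modEq_zero_iff_dvd.2 (by push_cast; exact dvd_refl _))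

/-- a residue `2 ^ 3264 - n` -/
theorem res_neg {c n : ℕ} (h : c + n = cML) : (c : ℤ) ≡ -(n : ℤ) [ZMOD md] := by
  have h1 : (c : ℤ) = cML - n := by rw [← h]; push_cast; ring
  rw [h1]
  have h2 := cML_mod.sub_right (n : ℤ)
  simpa using h2

/-- the form with the digits of `Y` -/
noncomputable def lf (Y : ℕ) (β : Fin 4 → ℝ) : ℝ :=
  ∑ v, ((Y / 2 ^ (96 * pp v) % 2 ^ 96 : ℕ) : ℝ) * β v

/-- linear forms -/
def R1 (x : ℕ) (F : (Fin 4 → ℝ) → ℝ) (M : ℕ) : Prop := Rep pp (fun v β => β v) x F M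

/-- quadratic forms -/
def R2 (x : ℕ) (F : (Fin 4 → ℝ) → ℝ) (M : ℕ) : Prop :=
  Rep (ι := Fin 4 × Fin 4) (fun p => pp p.1 + pp p.2) (fun p β => β p.1 * β p.2) x F M

/-- cubic forms -/
def R3 (x : ℕ) (F : (Fin 4 → ℝ) → ℝ) (M : ℕ) : Prop :=
  Rep (ι := Fin 4 × (Fin 4 × Fin 4)) (fun p => pp p.1 + (pp p.2.1 + pp p.2.2))
    (fun p β => β p.1 * (β p.2.1 * β p.2.2)) x F M

theorem R1.mul {x y : ℕ} {F G : (Fin 4 → ℝ) → ℝ} {M N : ℕ} (h : R1 x F M) (h' : R1 y G N) :
    R2 (x * y) (fun β => F β * G β) (M * N) := Rep.mul h h'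

theorem R1.mul2 {x y : ℕ} {F G : (Fin 4 → ℝ) → ℝ} {M N : ℕ} (h : R1 x F M) (h' : R2 y G N) :
    R3 (x * y) (fun β => F β * G β) (M * N) := by
  have h1 := Rep.mul (pos := pp) (mon := fun v β => β v) h
    (Rep.congr h' (G := G) fun _ => rfl)
  exact h1

/-! ### Masks -/

/-- digits of a masked number -/
theorem land_digits (μ : ℕ → ℕ) (hμ : ∀ m, μ m < 2 ^ 96) (n Z : ℕ) :
    Nat.land Z (∑ m ∈ Finset.range n, μ m * 2 ^ (96 * m)) =
      ∑ m ∈ Finset.range n, Nat.land (Z / 2 ^ (96 * m) % 2 ^ 96) (μ m) * 2 ^ (96 * m) := by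
  have hd : ∀ m, Nat.land (Z / 2 ^ (96 * m) % 2 ^ 96) (μ m) < 2 ^ 96 := fun m =>
    lt_of_le_of_lt Nat.and_le_right (hμ m)
  refine Nat.eq_of_testBit_eq fun j => ?_
  have h1 : (Nat.land Z (∑ m ∈ Finset.range n, μ m * 2 ^ (96 * m))).testBit j =
      (Z.testBit j && (∑ m ∈ Finset.range n, μ m * 2 ^ (96 * m)).testBit j) :=
    Nat.testBit_and _ _ _
  rw [h1]
  rcases Nat.lt_or_ge j (96 * n) with hj | hj
  · have e1 : j = 96 * (j / 96) + j % 96 := by omega
    have e2 : j / 96 < n := by omega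
    have e3 : j % 96 < 96 := by omega
    have e4 : (∑ m ∈ Finset.range n, μ m * 2 ^ (96 * m)).testBit j =
        (μ (j / 96)).testBit (j % 96) := by
      conv_lhs => rw [e1]
      exact testBit_digits μ hμ n _ e2 _ e3
    have e5 : (∑ m ∈ Finset.range n, Nat.land (Z / 2 ^ (96 * m) % 2 ^ 96) (μ m) *
        2 ^ (96 * m)).testBit j =
        (Nat.land (Z / 2 ^ (96 * (j / 96)) % 2 ^ 96) (μ (j / 96))).testBit (j % 96) := by
      conv_lhs => rw [e1]
      exact testBit_digits _ hd n _ e2 _ e3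
    have e6 : (Nat.land (Z / 2 ^ (96 * (j / 96)) % 2 ^ 96) (μ (j / 96))).testBit (j % 96) =
        ((Z / 2 ^ (96 * (j / 96)) % 2 ^ 96).testBit (j % 96) && (μ (j / 96)).testBit (j % 96)) :=
      Nat.testBit_and _ _ _
    rw [e4, e5, e6, Nat.testBit_mod_two_pow, Nat.testBit_div_two_pow]
    have e7 : j % 96 + 96 * (j / 96) = j := by omega
    rw [e7]
    simp [e3]
  · have e1 : (∑ m ∈ Finset.range n, μ m * 2 ^ (96 * m)).testBit j = false :=
      Nat.testBit_lt_two_pow (lt_of_lt_of_le (sum_digits_lt μ hμ n)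
        (Nat.pow_le_pow_right (by norm_num) hj))
    have e2 : (∑ m ∈ Finset.range n, Nat.land (Z / 2 ^ (96 * m) % 2 ^ 96) (μ m) *
        2 ^ (96 * m)).testBit j = false :=
      Nat.testBit_lt_two_pow (lt_of_lt_of_le (sum_digits_lt _ hd n)
        (Nat.pow_le_pow_right (by norm_num) hj))
    rw [e1, e2, Bool.and_false]

/-- digit number `m` -/
theorem digit_sum (d : ℕ → ℕ) (hd : ∀ m, d m < 2 ^ 96) (n m : ℕ) (hm : m < n) :
    (∑ i ∈ Finset.range n, d i * 2 ^ (96 * i)) / 2 ^ (96 * m) % 2 ^ 96 = d m := by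
  refine Nat.eq_of_testBit_eq fun j => ?_
  rw [Nat.testBit_mod_two_pow, Nat.testBit_div_two_pow]
  rcases Nat.lt_or_ge j 96 with hj | hj
  · have e1 : j + 96 * m = 96 * m + j := by omega
    rw [e1, testBit_digits d hd n m hm j hj]
    simp [hj]
  · rw [Nat.testBit_lt_two_pow (lt_of_lt_of_le (hd m) (Nat.pow_le_pow_right (by norm_num) hj))]
    have : ¬ j < 96 := by omega
    simp [this]

/-- the sum over the used positions -/
theorem sum_pp (f : ℕ → ℕ) (hf : ∀ m < 12, m ≠ 0 → m ≠ 1 → m ≠ 7 → m ≠ 11 → f m = 0) :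
    ∑ m ∈ Finset.range 12, f m * 2 ^ (96 * m) = ∑ v, f (pp v) * 2 ^ (96 * pp v) := by
  simp only [Finset.sum_range_succ, Finset.sum_range_zero, Fin.sum_univ_four, pp,
    Matrix.cons_val_zero, Matrix.cons_val_one, Matrix.cons_val]
  rw [hf 2 (by norm_num) (by norm_num) (by norm_num) (by norm_num) (by norm_num),
    hf 3 (by norm_num) (by norm_num) (by norm_num) (by norm_num) (by norm_num),
    hf 4 (by norm_num) (by norm_num) (by norm_num) (by norm_num) (by norm_num),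
    hf 5 (by norm_num) (by norm_num) (by norm_num) (by norm_num) (by norm_num),
    hf 6 (by norm_num) (by norm_num) (by norm_num) (by norm_num) (by norm_num),
    hf 8 (by norm_num) (by norm_num) (by norm_num) (by norm_num) (by norm_num),
    hf 9 (by norm_num) (by norm_num) (by norm_num) (by norm_num) (by norm_num),
    hf 10 (by norm_num) (by norm_num) (by norm_num) (by norm_num) (by norm_num)]
  ring

theorem pp_lt (v : Fin 4) : pp v < 12 := by fin_cases v <;> decide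

/-- a masked number is a linear form -/
theorem mask_R1 {Z M b : ℕ} (hb : b < 2 ^ 96) (hM : M = ∑ m ∈ Finset.range 12,
    (if m = 0 ∨ m = 1 ∨ m = 7 ∨ m = 11 then b else 0) * 2 ^ (96 * m)) :
    R1 (Nat.land Z M) (lf (Nat.land Z M)) b := by
  set μ : ℕ → ℕ := fun m => if m = 0 ∨ m = 1 ∨ m = 7 ∨ m = 11 then b else 0 with hμ
  have hμlt : ∀ m, μ m < 2 ^ 96 := by
    intro m
    by_cases h : m = 0 ∨ m = 1 ∨ m = 7 ∨ m = 11
    · simp only [hμ, h, if_true]; exact hb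
    · simp only [hμ, h, if_false]; positivity
  have h1 := land_digits μ hμlt 12 Z
  rw [← hM] at h1
  set d : ℕ → ℕ := fun m => Nat.land (Z / 2 ^ (96 * m) % 2 ^ 96) (μ m) with hd
  have hdb : ∀ m, d m ≤ μ m := fun m => Nat.and_le_right
  have hdlt : ∀ m, d m < 2 ^ 96 := fun m => lt_of_le_of_lt (hdb m) (hμlt m)
  have h2 : ∀ v : Fin 4, Nat.land Z M / 2 ^ (96 * pp v) % 2 ^ 96 = d (pp v) := by
    intro v
    rw [h1]
    exact digit_sum d hdlt 12 _ (pp_lt v)
  have hμle : ∀ m, μ m ≤ b := by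
    intro m
    by_cases h : m = 0 ∨ m = 1 ∨ m = 7 ∨ m = 11
    · simp [hμ, h]
    · simp [hμ, h]
  refine ⟨fun v => (d (pp v) : ℤ), ?_, fun v => ?_, fun β => ?_⟩
  · rw [h1]
    change ((∑ m ∈ Finset.range 12, d m * 2 ^ (96 * m) : ℕ) : ℤ) ≡ _ [ZMOD md]
    rw [sum_pp d ?_]
    · push_cast
      exact Int.ModEq.refl _
    · intro m _ m0 m1 m7 m11
      have : μ m = 0 := by simp [hμ, m0, m1, m7, m11]
      exact Nat.le_zero.1 (this ▸ hdb m)
  · have h3 : d (pp v) ≤ b := (hdb _).trans (hμle _)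
    show |(d (pp v) : ℤ)| ≤ b
    rw [abs_of_nonneg (by positivity)]
    exact_mod_cast h3
  · unfold lf
    refine Finset.sum_congr rfl fun v _ => ?_
    rw [h2]
    push_cast
    rfl

theorem x16_R1 (c : ℕ) : R1 (x16 c) (lf (x16 c)) 65535 :=
  mask_R1 (by norm_num) (by decide +kernel)

theorem x19_R1 (c : ℕ) : R1 (x19 c) (lf (x19 c)) 524287 :=
  mask_R1 (by norm_num) (by decide +kernel)

theorem lf_nonneg (Y : ℕ) {β : Fin 4 → ℝ} (hβ : ∀ v, 0 ≤ β v) : 0 ≤ lf Y β :=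
  Finset.sum_nonneg fun v _ => mul_nonneg (by positivity) (hβ v)

/-- a constant form, `c ≡ z * (sum of the variables)` -/
theorem const_R1 {c Z : ℕ} (z : ℤ) (hz : |z| ≤ Z) (h : (c : ℤ) ≡ z * (cS : ℤ) [ZMOD md]) :
    R1 c (fun β => z * (β 0 + β 1 + β 2 + β 3)) Z := by
  refine ⟨fun _ => z, ?_, fun _ => hz, fun β => ?_⟩
  · refine h.trans ?_
    have h1 : (cS : ℤ) = 2 ^ (96 * 0) + 2 ^ (96 * 1) + 2 ^ (96 * 7) + 2 ^ (96 * 11) := by
      have : cS = 2 ^ (96 * 0) + 2 ^ (96 * 1) + 2 ^ (96 * 7) + 2 ^ (96 * 11) := by decide +kernel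
      rw [this]; push_cast; ring
    rw [h1]
    simp only [Fin.sum_univ_four, pp, Matrix.cons_val_zero, Matrix.cons_val_one, Matrix.cons_val]
    have h2 : z * (2 ^ (96 * 0) + 2 ^ (96 * 1) + 2 ^ (96 * 7) + 2 ^ (96 * 11)) =
      z * 2 ^ (96 * 0) + z * 2 ^ (96 * 1) + z * 2 ^ (96 * 7) + z * 2 ^ (96 * 11) := by ring
    rw [h2]
  · simp only [Fin.sum_univ_four]; ring

theorem nOS_R1 : R1 nOS (fun β => ((-32768 : ℤ) : ℝ) * (β 0 + β 1 + β 2 + β 3)) 32768 := by
  refine const_R1 (-32768) (by norm_num) ?_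
  have h1 := res_neg (c := nOS) (n := 32768 * cS) (by decide +kernel)
  refine h1.trans ?_
  push_cast
  rw [neg_mul]

theorem nNS_R1 : R1 nNS (fun β => ((-1024 : ℤ) : ℝ) * (β 0 + β 1 + β 2 + β 3)) 1024 := by
  refine const_R1 (-1024) (by norm_num) ?_
  have h1 := res_neg (c := nNS) (n := 1024 * cS) (by decide +kernel)
  refine h1.trans ?_
  push_cast
  rw [neg_mul]

theorem c1S_R1 : R1 c1S (fun β => ((102400 : ℤ) : ℝ) * (β 0 + β 1 + β 2 + β 3)) 102400 := by
  refine const_R1 102400 (by norm_num) ?_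
  have h1 : c1S = 102400 * cS := by decide +kernel
  rw [h1]; push_cast; exact Int.ModEq.refl _

theorem c2S_R1 : R1 c2S (fun β => ((10485760000 : ℤ) : ℝ) * (β 0 + β 1 + β 2 + β 3))
    10485760000 := by
  refine const_R1 10485760000 (by norm_num) ?_
  have h1 : c2S = 10485760000 * cS := by decide +kernel
  rw [h1]; push_cast; exact Int.ModEq.refl _

theorem pOS_R1 : R1 pOS (fun β => ((32768 : ℤ) : ℝ) * (β 0 + β 1 + β 2 + β 3)) 32768 := by
  refine const_R1 32768 (by norm_num) ?_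
  have h1 : pOS = cML + 32768 * cS := by decide +kernel
  rw [h1]
  push_cast
  have h2 := cML_mod.add_right (32768 * (cS : ℤ))
  simpa using h2

/-! ### Signed coordinates -/

/-- the value of a signed coordinate -/
noncomputable def sv (X i : ℕ) (β : Fin 4 → ℝ) : ℝ :=
  lf (x16 (f64 X i)) β - 32768 * (β 0 + β 1 + β 2 + β 3)

theorem sg_R1 (X i : ℕ) : R1 (sg X i) (sv X i) 98303 := by
  have h := Rep.add (x16_R1 (f64 X i)) nOS_R1
  refine Rep.congr h fun β => ?_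
  unfold sv
  push_cast
  ring

theorem ng_R1 (X i : ℕ) : R1 (ng X i) (fun β => - sv X i β) 98303 := by
  obtain ⟨a, h1, h2, h3⟩ := x16_R1 (f64 X i)
  obtain ⟨b, g1, g2, g3⟩ := pOS_R1
  have hle : x16 (f64 X i) ≤ pOS := by
    have : x16 (f64 X i) ≤ M16 := Nat.and_le_right
    refine this.trans (by decide +kernel)
  refine ⟨fun v => b v - a v, ?_, fun v => ?_, fun β => ?_⟩
  · have h4 := g1.sub h1
    rw [← Finset.sum_sub_distrib] at h4
    change ((pOS - x16 (f64 X i) : ℕ) : ℤ) ≡ _ [ZMOD md]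
    rw [Nat.cast_sub hle]
    simp only [sub_mul]
    exact h4
  · refine (abs_sub _ _).trans ?_
    have := h2 v
    have := g2 v
    push_cast at *
    linarith
  · show -(lf (x16 (f64 X i)) β - 32768 * (β 0 + β 1 + β 2 + β 3)) = _
    have e1 := h3 β
    have e2 := g3 β
    have e3 : ∑ v, ((b v - a v : ℤ) : ℝ) * β v = ∑ v, (b v : ℝ) * β v - ∑ v, (a v : ℝ) * β v := by
      rw [← Finset.sum_sub_distrib]
      refine Finset.sum_congr rfl fun v _ => ?_
      push_cast; ring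
    rw [e3]
    rw [← e1]
    have e4 : ∑ v, (b v : ℝ) * β v = ((32768 : ℤ) : ℝ) * (β 0 + β 1 + β 2 + β 3) := e2.symm
    rw [e4]
    push_cast
    ring

end Pool.Agent.Core7.Pk
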