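import Pool.Agent.Work.MP_80156a_core7.PkInc
import Pool.Agent.Work.MP_80156a_core7.GCore

/-!
# MP_80156a, CORE7: the table of the weights
-/

set_option autoImplicit false
set_option maxRecDepth 100000

namespace Pool.Agent.Core7.Pk

/-- the integer weights of the norms -/
def aw : Fin 1 → Fin 4 → ℕ := ![![100, 37, 31, 13]]

/-- the weights of the norms -/
noncomputable def cw : Fin 1 → Fin 4 → ℝ := fun n k => (aw n k : ℝ) / 100

/-- permutation number 0 -/
def pm0 : Equiv.Perm (Fin 4) where
  toFun := ![0, 1, 2, 3]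
  invFun := ![0, 1, 2, 3]
  left_inv := by decide
  right_inv := by decide

/-- permutation number 1 -/
def pm1 : Equiv.Perm (Fin 4) where
  toFun := ![0, 1, 3, 2]
  invFun := ![0, 1, 3, 2]
  left_inv := by decide
  right_inv := by decide

/-- permutation number 2 -/
def pm2 : Equiv.Perm (Fin 4) where
  toFun := ![0, 2, 1, 3]
  invFun := ![0, 2, 1, 3]
  left_inv := by decide
  right_inv := by decide

/-- permutation number 3 -/
def pm3 : Equiv.Perm (Fin 4) where
  toFun := ![0, 2, 3, 1]
  invFun := ![0, 3, 1, 2]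
  left_inv := by decide
  right_inv := by decide

/-- permutation number 4 -/
def pm4 : Equiv.Perm (Fin 4) where
  toFun := ![0, 3, 1, 2]
  invFun := ![0, 2, 3, 1]
  left_inv := by decide
  right_inv := by decide

/-- permutation number 5 -/
def pm5 : Equiv.Perm (Fin 4) where
  toFun := ![0, 3, 2, 1]
  invFun := ![0, 3, 2, 1]
  left_inv := by decide
  right_inv := by decide

/-- permutation number 6 -/
def pm6 : Equiv.Perm (Fin 4) where
  toFun := ![1, 0, 2, 3]
  invFun := ![1, 0, 2, 3]
  left_inv := by decide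
  right_inv := by decide

/-- permutation number 7 -/
def pm7 : Equiv.Perm (Fin 4) where
  toFun := ![1, 0, 3, 2]
  invFun := ![1, 0, 3, 2]
  left_inv := by decide
  right_inv := by decide

/-- permutation number 8 -/
def pm8 : Equiv.Perm (Fin 4) where
  toFun := ![1, 2, 0, 3]
  invFun := ![2, 0, 1, 3]
  left_inv := by decide
  right_inv := by decide

/-- permutation number 9 -/
def pm9 : Equiv.Perm (Fin 4) where
  toFun := ![1, 2, 3, 0]
  invFun := ![3, 0, 1, 2]
  left_inv := by decide
  right_inv := by decide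

/-- permutation number 10 -/
def pm10 : Equiv.Perm (Fin 4) where
  toFun := ![1, 3, 0, 2]
  invFun := ![2, 0, 3, 1]
  left_inv := by decide
  right_inv := by decide

/-- permutation number 11 -/
def pm11 : Equiv.Perm (Fin 4) where
  toFun := ![1, 3, 2, 0]
  invFun := ![3, 0, 2, 1]
  left_inv := by decide
  right_inv := by decide

/-- permutation number 12 -/
def pm12 : Equiv.Perm (Fin 4) where
  toFun := ![2, 0, 1, 3]
  invFun := ![1, 2, 0, 3]
  left_inv := by decide
  right_inv := by decide

/-- permutation number 13 -/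
def pm13 : Equiv.Perm (Fin 4) where
  toFun := ![2, 0, 3, 1]
  invFun := ![1, 3, 0, 2]
  left_inv := by decide
  right_inv := by decide

/-- permutation number 14 -/
def pm14 : Equiv.Perm (Fin 4) where
  toFun := ![2, 1, 0, 3]
  invFun := ![2, 1, 0, 3]
  left_inv := by decide
  right_inv := by decide

/-- permutation number 15 -/
def pm15 : Equiv.Perm (Fin 4) where
  toFun := ![2, 1, 3, 0]
  invFun := ![3, 1, 0, 2]
  left_inv := by decide
  right_inv := by decide

/-- permutation number 16 -/
def pm16 : Equiv.Perm (Fin 4) where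
  toFun := ![2, 3, 0, 1]
  invFun := ![2, 3, 0, 1]
  left_inv := by decide
  right_inv := by decide

/-- permutation number 17 -/
def pm17 : Equiv.Perm (Fin 4) where
  toFun := ![2, 3, 1, 0]
  invFun := ![3, 2, 0, 1]
  left_inv := by decide
  right_inv := by decide

/-- permutation number 18 -/
def pm18 : Equiv.Perm (Fin 4) where
  toFun := ![3, 0, 1, 2]
  invFun := ![1, 2, 3, 0]
  left_inv := by decide
  right_inv := by decide

/-- permutation number 19 -/
def pm19 : Equiv.Perm (Fin 4) where
  toFun := ![3, 0, 2, 1]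
  invFun := ![1, 3, 2, 0]
  left_inv := by decide
  right_inv := by decide

/-- permutation number 20 -/
def pm20 : Equiv.Perm (Fin 4) where
  toFun := ![3, 1, 0, 2]
  invFun := ![2, 1, 3, 0]
  left_inv := by decide
  right_inv := by decide

/-- permutation number 21 -/
def pm21 : Equiv.Perm (Fin 4) where
  toFun := ![3, 1, 2, 0]
  invFun := ![3, 1, 2, 0]
  left_inv := by decide
  right_inv := by decide

/-- permutation number 22 -/
def pm22 : Equiv.Perm (Fin 4) where
  toFun := ![3, 2, 0, 1]
  invFun := ![2, 3, 1, 0]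
  left_inv := by decide
  right_inv := by decide

/-- permutation number 23 -/
def pm23 : Equiv.Perm (Fin 4) where
  toFun := ![3, 2, 1, 0]
  invFun := ![3, 2, 1, 0]
  left_inv := by decide
  right_inv := by decide

/-- the permutations -/
def pm : Fin 24 → Equiv.Perm (Fin 4) :=
  ![pm0, pm1, pm2, pm3, pm4, pm5, pm6, pm7, pm8, pm9, pm10, pm11, pm12, pm13, pm14, pm15, pm16, pm17, pm18, pm19, pm20, pm21, pm22, pm23]

/-- an entry of the table -/
def ent (c : ℕ) : ℕ := Nat.shiftRight TAB (Nat.mul 64 c)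

/-- the check of an entry -/
def entOK (c : ℕ) : Bool :=
  let n : Fin 1 := Fin.ofNat 1 (c / 192)
  let p : Fin 24 := Fin.ofNat 24 (c / 8)
  let f : ℕ → ℕ → Bool := fun a w => or (Nat.beq a (1024 + w)) (Nat.beq (a + w) 1024)
  and (f (Nat.land (ent c) m16) (aw n (pm p 0))) (and (f (f16 (ent c) 16) (aw n (pm p 1)))
    (and (f (f16 (ent c) 32) (aw n (pm p 2))) (Nat.beq (f16 (ent c) 48) (aw n (pm p 3)))))

theorem tab_ok : ∀ c < 1024, entOK c = true := by decide +kernel

theorem aw_le : ∀ n k, aw n k ≤ 1000 := by decide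

/-- a signed entry -/
theorem sgn_ent {a w : ℕ} (h : or (Nat.beq a (1024 + w)) (Nat.beq (a + w) 1024) = true) :
    |((a : ℤ) - 1024 : ℤ)| = w := by
  rw [Bool.or_eq_true] at h
  rcases h with h | h
  · have := Nat.eq_of_beq_eq_true h
    rw [this]; push_cast; rw [add_sub_cancel_left]; exact abs_of_nonneg (by positivity)
  · have h1 := Nat.eq_of_beq_eq_true h
    have h2 : (a : ℤ) - 1024 = -w := by omega
    rw [h2, abs_neg]; exact abs_of_nonneg (by positivity)

theorem ent_sound (c : ℕ) (hc : c < 1024) : ∃ (n : Fin 1) (τ : Equiv.Perm (Fin 4)),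
    |((Nat.land (ent c) m16 : ℕ) : ℤ) - 1024| = aw n (τ 0) ∧
    |((f16 (ent c) 16 : ℕ) : ℤ) - 1024| = aw n (τ 1) ∧
    |((f16 (ent c) 32 : ℕ) : ℤ) - 1024| = aw n (τ 2) ∧ f16 (ent c) 48 = aw n (τ 3) := by
  have h := tab_ok c hc
  unfold entOK at h
  simp only [Bool.and_eq_true] at h
  obtain ⟨h0, h1, h2, h3⟩ := h
  exact ⟨_, _, sgn_ent h0, sgn_ent h1, sgn_ent h2, Nat.eq_of_beq_eq_true h3⟩

theorem land16_le (a : ℕ) : Nat.land a m16 ≤ 65535 := by
  have : Nat.land a m16 ≤ m16 := Nat.and_le_right
  exact this.trans (by decide +kernel)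

theorem SR.entry {a : ℕ} (ha : a ≤ 65535) : SR (Nat.add a nO) ((a : ℤ) - 1024) := by
  refine ⟨?_, ?_⟩
  · have h1 := res_neg (c := nO) (n := 1024) (by decide +kernel)
    have h2 := h1.add_left (a : ℤ)
    have h3 : ((Nat.add a nO : ℕ) : ℤ) = (a : ℤ) + nO := by simp [Nat.add_eq]
    rw [h3]
    push_cast at h2
    exact h2
  · rw [abs_le]; omega

theorem SR.nat {a : ℕ} (ha : a ≤ 65535) : SR a (a : ℤ) := by
  refine ⟨Int.ModEq.refl _, ?_⟩
  rw [abs_le]; omega

theorem f16_le (X i : ℕ) : f16 X i ≤ 65535 := land16_le _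

end Pool.Agent.Core7.Pk
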