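import Pool.Agent.Work.MP_80156a_core7.Frame

/-!
# MP_80156a, CORE7: polar body, maximal determinant basis, illumination
-/

set_option autoImplicit false

namespace Pool.Agent.Core7

open scoped Topology

/-- The determinant of three vectors. -/
def det3 (x y z : Fin 3 → ℝ) : ℝ :=
  x 0 * (y 1 * z 2 - y 2 * z 1) - x 1 * (y 0 * z 2 - y 2 * z 0) + x 2 * (y 0 * z 1 - y 1 * z 0)

/-- The linear map with the columns `a b c`. -/
def cols (a b c : Fin 3 → ℝ) : (Fin 3 → ℝ) →ₗ[ℝ] (Fin 3 → ℝ) where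
  toFun x := x 0 • a + x 1 • b + x 2 • c
  map_add' x y := by simp only [Pi.add_apply, add_smul]; abel
  map_smul' t x := by
    simp only [Pi.smul_apply, smul_eq_mul, RingHom.id_apply, smul_add, mul_smul]

theorem cols_apply (a b c x : Fin 3 → ℝ) : cols a b c x = x 0 • a + x 1 • b + x 2 • c := rfl

theorem det_cols0 (a b c x : Fin 3 → ℝ) : det3 (cols a b c x) b c = x 0 * det3 a b c := by
  simp only [det3, cols_apply, Pi.add_apply, Pi.smul_apply, smul_eq_mul]; ring

theorem det_cols1 (a b c x : Fin 3 → ℝ) : det3 a (cols a b c x) c = x 1 * det3 a b c := by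
  simp only [det3, cols_apply, Pi.add_apply, Pi.smul_apply, smul_eq_mul]; ring

theorem det_cols2 (a b c x : Fin 3 → ℝ) : det3 a b (cols a b c x) = x 2 * det3 a b c := by
  simp only [det3, cols_apply, Pi.add_apply, Pi.smul_apply, smul_eq_mul]; ring

theorem det_cols01 (a b c x y : Fin 3 → ℝ) : det3 (cols a b c x) (cols a b c y) c =
    (x 0 * y 1 - x 1 * y 0) * det3 a b c := by
  simp only [det3, cols_apply, Pi.add_apply, Pi.smul_apply, smul_eq_mul]; ring

theorem det_cols02 (a b c x y : Fin 3 → ℝ) : det3 (cols a b c x) b (cols a b c y) =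
    (x 0 * y 2 - x 2 * y 0) * det3 a b c := by
  simp only [det3, cols_apply, Pi.add_apply, Pi.smul_apply, smul_eq_mul]; ring

theorem det_cols12 (a b c x y : Fin 3 → ℝ) : det3 a (cols a b c x) (cols a b c y) =
    (x 1 * y 2 - x 2 * y 1) * det3 a b c := by
  simp only [det3, cols_apply, Pi.add_apply, Pi.smul_apply, smul_eq_mul]; ring

theorem det_neg0 (a b c : Fin 3 → ℝ) : det3 (-a) b c = -det3 a b c := by
  simp only [det3, Pi.neg_apply]; ring

/-- A compact symmetric set which contains a multiple of the standard basis has a basis with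
respect to which it is in the position `Nice`. -/
theorem exists_nice {L : Set (Fin 3 → ℝ)} (hcomp : IsCompact L) (hsymm : ∀ x ∈ L, -x ∈ L)
    {r : ℝ} (hr : 0 < r) (hsing : ∀ i, r • Pi.single i (1 : ℝ) ∈ L) :
    ∃ T : (Fin 3 → ℝ) ≃ₗ[ℝ] (Fin 3 → ℝ), Nice (T ⁻¹' L) := by
  obtain ⟨⟨a, b, c⟩, ⟨ha, hb, hc⟩, hmax⟩ := (hcomp.prod (hcomp.prod hcomp)).exists_isMaxOn
    ⟨(r • Pi.single 0 1, r • Pi.single 1 1, r • Pi.single 2 1), hsing 0, hsing 1, hsing 2⟩
    (f := fun p : (Fin 3 → ℝ) × (Fin 3 → ℝ) × (Fin 3 → ℝ) => det3 p.1 p.2.1 p.2.2)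
    (by unfold det3; fun_prop)
  have hmax' : ∀ x ∈ L, ∀ y ∈ L, ∀ z ∈ L, det3 x y z ≤ det3 a b c := fun x hx y hy z hz =>
    hmax (show (x, y, z) ∈ L ×ˢ L ×ˢ L from ⟨hx, hy, hz⟩)
  have hpos : 0 < det3 a b c := by
    refine lt_of_lt_of_le ?_ (hmax' _ (hsing 0) _ (hsing 1) _ (hsing 2))
    simp only [det3, Pi.smul_apply, smul_eq_mul]
    simp
    positivity
  have habs : ∀ x ∈ L, ∀ y ∈ L, ∀ z ∈ L, |det3 x y z| ≤ det3 a b c := by
    intro x hx y hy z hz
    rw [abs_le]
    have h1 := hmax' _ (hsymm x hx) y hy z hz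
    rw [det_neg0] at h1
    exact ⟨by linarith, hmax' x hx y hy z hz⟩
  have hdiv : ∀ t : ℝ, |t * det3 a b c| ≤ det3 a b c → |t| ≤ 1 := by
    intro t ht
    rw [abs_mul, abs_of_pos hpos] at ht
    by_contra hcon
    have := not_le.1 hcon
    nlinarith
  have hinj : Function.Injective (cols a b c) := by
    rw [← LinearMap.ker_eq_bot, LinearMap.ker_eq_bot']
    intro x hx
    have h0 := det_cols0 a b c x
    have h1 := det_cols1 a b c x
    have h2 := det_cols2 a b c x
    rw [hx] at h0 h1 h2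
    have e0 : det3 (0 : Fin 3 → ℝ) b c = 0 := by simp [det3]
    have e1 : det3 a (0 : Fin 3 → ℝ) c = 0 := by simp [det3]
    have e2 : det3 a b (0 : Fin 3 → ℝ) = 0 := by simp [det3]
    rw [e0] at h0
    rw [e1] at h1
    rw [e2] at h2
    have f0 : x 0 = 0 := (mul_eq_zero.1 h0.symm).resolve_right hpos.ne'
    have f1 : x 1 = 0 := (mul_eq_zero.1 h1.symm).resolve_right hpos.ne'
    have f2 : x 2 = 0 := (mul_eq_zero.1 h2.symm).resolve_right hpos.ne'
    ext i
    fin_cases i
    · exact f0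
    · exact f1
    · exact f2
  set T : (Fin 3 → ℝ) ≃ₗ[ℝ] (Fin 3 → ℝ) :=
    LinearEquiv.ofInjectiveEndo (cols a b c) hinj with hT
  have hTa : ∀ x, T x = cols a b c x := fun x => rfl
  refine ⟨T, ?_, ?_, ?_, ?_, ?_⟩
  · have h1 : T ⁻¹' L = T.symm '' L := by
      ext y
      constructor
      · intro hy; exact ⟨_, hy, by simp⟩
      · rintro ⟨x, hx, rfl⟩; simpa using hx
    rw [h1]
    exact hcomp.image T.symm.toLinearMap.continuous_of_finiteDimensional
  · intro x hx
    rw [Set.mem_preimage, map_neg]; exact hsymm _ hx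
  · intro i
    rw [Set.mem_preimage, hTa, cols_apply]
    fin_cases i
    · simpa using ha
    · simpa using hb
    · simpa using hc
  · intro x hx i
    have hx' : cols a b c x ∈ L := hx
    have m0 : |x 0| ≤ 1 := hdiv _ (by rw [← det_cols0]; exact habs _ hx' _ hb _ hc)
    have m1 : |x 1| ≤ 1 := hdiv _ (by rw [← det_cols1]; exact habs _ ha _ hx' _ hc)
    have m2 : |x 2| ≤ 1 := hdiv _ (by rw [← det_cols2]; exact habs _ ha _ hb _ hx')
    fin_cases i
    · exact m0
    · exact m1
    · exact m2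
  · intro x hx y hy
    have hx' : cols a b c x ∈ L := hx
    have hy' : cols a b c y ∈ L := hy
    have m01 : |x 0 * y 1 - x 1 * y 0| ≤ 1 :=
      hdiv _ (by rw [← det_cols01]; exact habs _ hx' _ hy' _ hc)
    have m02 : |x 0 * y 2 - x 2 * y 0| ≤ 1 :=
      hdiv _ (by rw [← det_cols02]; exact habs _ hx' _ hb _ hy')
    have m12 : |x 1 * y 2 - x 2 * y 1| ≤ 1 :=
      hdiv _ (by rw [← det_cols12]; exact habs _ ha _ hx' _ hy')
    have hsw : ∀ u v : ℝ, |u - v| = |v - u| := fun u v => abs_sub_comm u v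
    intro i j
    fin_cases i <;> fin_cases j <;> simp only [Fin.zero_eta, Fin.mk_one, Fin.reduceFinMk,
      sub_self, abs_zero, zero_le_one] <;>
      first
      | exact m01
      | exact m02
      | exact m12
      | (rw [hsw]; exact m01)
      | (rw [hsw]; exact m02)
      | (rw [hsw]; exact m12)

/-- The polar. -/
def polar (K : Set (Fin 3 → ℝ)) : Set (Fin 3 → ℝ) := {x | ∀ y ∈ K, dot x y ≤ 1}

theorem dot_comm (x y : Fin 3 → ℝ) : dot x y = dot y x := by
  simp only [dot]; ring

theorem dot_neg_left (x y : Fin 3 → ℝ) : dot (-x) y = -dot x y := by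
  simp only [dot, Pi.neg_apply]; ring

theorem dot_neg_right (x y : Fin 3 → ℝ) : dot x (-y) = -dot x y := by
  simp only [dot, Pi.neg_apply]; ring

theorem dot_add_left (x y z : Fin 3 → ℝ) : dot (x + y) z = dot x z + dot y z := by
  simp only [dot, Pi.add_apply]; ring

theorem dot_smul_left (t : ℝ) (x z : Fin 3 → ℝ) : dot (t • x) z = t * dot x z := by
  simp only [dot, Pi.smul_apply, smul_eq_mul]; ring

theorem dot_smul_right (t : ℝ) (x z : Fin 3 → ℝ) : dot x (t • z) = t * dot x z := by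
  simp only [dot, Pi.smul_apply, smul_eq_mul]; ring

theorem dot_single (x : Fin 3 → ℝ) (i : Fin 3) : dot x (Pi.single i 1) = x i := by
  fin_cases i <;> simp [dot]

theorem zero_mem_interior {V : Type*} [NormedAddCommGroup V] [NormedSpace ℝ V] {K : Set V}
    (hc : Convex ℝ K) (hs : ∀ x ∈ K, -x ∈ K) (hi : (interior K).Nonempty) :
    (0 : V) ∈ interior K := by
  obtain ⟨x, hx⟩ := hi
  have h1 : -x ∈ interior K := by
    have h2 : (Neg.neg : V → V) ⁻¹' K = K := by
      ext y
      constructor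
      · intro hy
        have := hs _ hy
        rwa [neg_neg] at this
      · intro hy; exact hs _ hy
    have h3 : interior ((Neg.neg : V → V) ⁻¹' K) = (Neg.neg : V → V) ⁻¹' interior K :=
      ((Homeomorph.neg V).preimage_interior K).symm
    rw [h2] at h3
    have h4 : x ∈ (Neg.neg : V → V) ⁻¹' interior K := by rw [← h3]; exact hx
    exact h4
  have h5 := hc.interior hx h1 (a := 1 / 2) (b := 1 / 2) (by norm_num) (by norm_num) (by norm_num)
  simpa using h5

theorem isClosed_polar (K : Set (Fin 3 → ℝ)) : IsClosed (polar K) := by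
  have : polar K = ⋂ y ∈ K, {x | dot x y ≤ 1} := by
    ext x; simp [polar]
  rw [this]
  refine isClosed_biInter fun y _ => isClosed_le ?_ continuous_const
  unfold dot; fun_prop

theorem isCompact_polar {K : Set (Fin 3 → ℝ)} (h0 : (0 : Fin 3 → ℝ) ∈ interior K) :
    IsCompact (polar K) := by
  obtain ⟨r, hr, hball⟩ := Metric.mem_nhds_iff.1 (mem_interior_iff_mem_nhds.1 h0)
  refine Metric.isCompact_of_isClosed_isBounded (isClosed_polar K) ?_
  refine (Metric.isBounded_closedBall (x := (0 : Fin 3 → ℝ)) (r := 2 / r)).subset fun x hx => ?_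
  rw [mem_closedBall_zero_iff, pi_norm_le_iff_of_nonneg (by positivity)]
  intro i
  have hmem : ∀ s : ℝ, |s| = 1 → (r / 2 * s) • Pi.single i (1 : ℝ) ∈ K := by
    intro s hs
    refine hball ?_
    rw [mem_ball_zero_iff, norm_smul, Real.norm_eq_abs, abs_mul, hs, mul_one,
      abs_of_pos (by positivity), Pi.norm_single, norm_one, mul_one]
    linarith
  have h1 := hx _ (hmem 1 (by norm_num))
  have h2 := hx _ (hmem (-1) (by norm_num))
  rw [dot_smul_right, dot_single] at h1 h2
  rw [Real.norm_eq_abs, abs_le, le_div_iff₀ hr, ← neg_div, div_le_iff₀ hr]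
  constructor <;> linarith

theorem polar_symm {K : Set (Fin 3 → ℝ)} (hs : ∀ x ∈ K, -x ∈ K) : ∀ x ∈ polar K, -x ∈ polar K := by
  intro x hx y hy
  rw [dot_neg_left, ← dot_neg_right]
  exact hx _ (hs y hy)

theorem bipolar {K : Set (Fin 3 → ℝ)} (hc : Convex ℝ K) (hcl : IsClosed K)
    (h0 : (0 : Fin 3 → ℝ) ∈ K) {y : Fin 3 → ℝ} (hy : ∀ x ∈ polar K, dot x y ≤ 1) : y ∈ K := by
  by_contra hyK
  obtain ⟨f, u, h1, h2⟩ := geometric_hahn_banach_closed_point hc hcl hyK
  have hu : 0 < u := by have := h1 0 h0; rwa [map_zero] at this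
  have hf : ∀ z, f z = dot (fun i => f (Pi.single i 1)) z := fun z => eq_fn3 f.toLinearMap z
  set g : Fin 3 → ℝ := fun i => f (Pi.single i 1) with hg
  have h3 : u⁻¹ • g ∈ polar K := by
    intro z hz
    rw [dot_smul_left, ← hf, inv_mul_le_iff₀ hu, mul_one]
    exact (h1 z hz).le
  have h4 := hy _ h3
  rw [dot_smul_left, ← hf, inv_mul_le_iff₀ hu, mul_one] at h4
  linarith

theorem continuous_dot : Continuous fun p : (Fin 3 → ℝ) × (Fin 3 → ℝ) => dot p.1 p.2 := by
  unfold dot; fun_prop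

/-- A functional which is positive on the face of `y` in the polar lights `y`. -/
theorem lit_of_pos {K : Set (Fin 3 → ℝ)} (hc : Convex ℝ K) (hcl : IsClosed K)
    (h0 : (0 : Fin 3 → ℝ) ∈ interior K) {y d : Fin 3 → ℝ} (hy : y ∈ K)
    (hd : ∀ x ∈ polar K, dot y x = 1 → 0 < dot d x) :
    ∃ t : ℝ, 0 < t ∧ y + t • (-d) ∈ interior K := by
  have hL := isCompact_polar h0
  -- the open set of points with `dot < 1` on the polar is in the interior
  have hint : ∀ z : Fin 3 → ℝ, (∀ x ∈ polar K, dot z x < 1) → z ∈ interior K := by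
    intro z hz
    rw [mem_interior_iff_mem_nhds]
    have h1 : ∀ᶠ z' in 𝓝 z, ∀ x ∈ polar K, dot z' x < 1 := by
      refine hL.eventually_forall_of_forall_eventually fun x hx => ?_
      exact continuous_dot.continuousAt.eventually_lt_const (hz x hx)
    filter_upwards [h1] with z' hz'
    exact bipolar hc hcl (interior_subset h0) fun x hx => by
      rw [dot_comm]; exact (hz' x hx).le
  have h2 : ∀ᶠ t in 𝓝 (0 : ℝ), ∀ x ∈ polar K, 0 < t → x ∈ polar K →
      dot (y + t • (-d)) x < 1 := by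
    refine hL.eventually_forall_of_forall_eventually
      (P := fun (t : ℝ) (x : Fin 3 → ℝ) => 0 < t → x ∈ polar K → dot (y + t • (-d)) x < 1)
      fun x hx => ?_
    have hle : dot y x ≤ 1 := by rw [dot_comm]; exact hx y hy
    rcases hle.lt_or_eq with hlt | heq
    · have hcont : Continuous fun p : ℝ × (Fin 3 → ℝ) => dot (y + p.1 • (-d)) p.2 := by
        unfold dot; fun_prop
      have h3 : (fun p : ℝ × (Fin 3 → ℝ) => dot (y + p.1 • (-d)) p.2) (0, x) < 1 := by
        simpa using hlt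
      filter_upwards [hcont.continuousAt.eventually_lt_const h3] with p hp _ _
      exact hp
    · have hcont : Continuous fun p : ℝ × (Fin 3 → ℝ) => dot d p.2 := by
        unfold dot; fun_prop
      have h3 : 0 < (fun p : ℝ × (Fin 3 → ℝ) => dot d p.2) (0, x) := hd x hx heq
      filter_upwards [hcont.continuousAt.eventually_const_lt h3] with p hp hp0 hpL
      rw [dot_add_left, dot_smul_left, dot_neg_left]
      have h4 : dot y p.2 ≤ 1 := by rw [dot_comm]; exact hpL y hy
      have h5 : 0 < p.1 * dot d p.2 := mul_pos hp0 hp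
      linarith
  have h3 : ∀ᶠ t in 𝓝[>] (0 : ℝ), y + t • (-d) ∈ interior K := by
    filter_upwards [h2.filter_mono nhdsWithin_le_nhds, self_mem_nhdsWithin] with t ht ht0
    exact hint _ fun x hx => ht x hx ht0 hx
  obtain ⟨t, ht, ht0⟩ := (h3.and self_mem_nhdsWithin).exists
  exact ⟨t, ht0, ht⟩

/-- **CORE7** modulo the far regime. -/
theorem core7 (far : FarStmt) {K : Set (Fin 3 → ℝ)} (hc : Convex ℝ K) (hcomp : IsCompact K)
    (hs : ∀ x ∈ K, -x ∈ K) (hi : (interior K).Nonempty)
    (hnp : ¬ ∃ S : (Fin 3 → ℝ) ≃ₗ[ℝ] (Fin 3 → ℝ), K = {y | ∀ i, |S y i| ≤ 1}) :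
    ∃ D : Fin 7 → Fin 3 → ℝ, ∀ y ∈ K, ∃ k, ∃ t : ℝ, 0 < t ∧ y + t • D k ∈ interior K := by
  have h0 := zero_mem_interior hc hs hi
  have hL := isCompact_polar h0
  have hLs := polar_symm hs
  -- a multiple of the standard basis lies in the polar
  obtain ⟨R, hR⟩ := hcomp.isBounded.subset_closedBall (0 : Fin 3 → ℝ)
  have hR1 : 0 < max R 1 := lt_of_lt_of_le one_pos (le_max_right _ _)
  have hsing : ∀ i, (max R 1)⁻¹ • Pi.single i (1 : ℝ) ∈ polar K := by
    intro i y hy
    rw [dot_smul_left, dot_comm, dot_single, inv_mul_le_iff₀ hR1, mul_one]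
    have h1 := hR hy
    rw [mem_closedBall_zero_iff] at h1
    exact (le_abs_self _).trans ((norm_le_pi_norm y i).trans (h1.trans (le_max_left _ _)))
  obtain ⟨T, hT⟩ := exists_nice hL hLs (inv_pos.2 hR1) hsing
  have hne : ∃ x ∈ T ⁻¹' polar K, 1 < |x 0| + |x 1| + |x 2| := by
    by_contra hcon
    push Not at hcon
    refine hnp ?_
    -- the map `y ↦ dot (T e_i) y`
    set S₀ : (Fin 3 → ℝ) →ₗ[ℝ] (Fin 3 → ℝ) :=
      LinearMap.pi fun i => fn3 (T (Pi.single i 1)) with hS₀
    have hS₀a : ∀ y i, S₀ y i = dot (T (Pi.single i 1)) y := fun y i => rfl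
    have hrep : ∀ x y : Fin 3 → ℝ, dot (T x) y = x 0 * S₀ y 0 + x 1 * S₀ y 1 + x 2 * S₀ y 2 := by
      intro x y
      have h : x = x 0 • Pi.single (0 : Fin 3) (1 : ℝ) + x 1 • Pi.single (1 : Fin 3) (1 : ℝ)
          + x 2 • Pi.single (2 : Fin 3) (1 : ℝ) := by
        ext i
        fin_cases i <;> simp
      conv_lhs => rw [h]
      simp only [map_add, map_smul, dot_add_left, dot_smul_left, hS₀a]
    have hinj : Function.Injective S₀ := by
      rw [← LinearMap.ker_eq_bot, LinearMap.ker_eq_bot']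
      intro y hy
      have h1 : ∀ x, dot x y = 0 := by
        intro x
        have h2 := hrep (T.symm x) y
        rw [hy] at h2
        simpa using h2
      ext i
      rw [← dot_single y i, dot_comm]
      exact h1 _
    refine ⟨LinearEquiv.ofInjectiveEndo S₀ hinj, ?_⟩
    have hSa : ∀ y, LinearEquiv.ofInjectiveEndo S₀ hinj y = S₀ y := fun y => rfl
    ext y
    simp only [Set.mem_ofPred_eq, hSa]
    constructor
    · intro hy i
      rw [hS₀a, abs_le]
      have h1 : dot (T (Pi.single i 1)) y ≤ 1 := hT.single i y hy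
      have h2 : dot (T (Pi.single i 1)) (-y) ≤ 1 := hT.single i _ (hs y hy)
      rw [dot_neg_right] at h2
      exact ⟨by linarith, h1⟩
    · intro hy
      refine bipolar hc hcomp.isClosed (interior_subset h0) fun x hx => ?_
      have h1 : T (T.symm x) = x := by simp
      rw [← h1, hrep]
      have h2 := hcon (T.symm x) (by rw [Set.mem_preimage, h1]; exact hx)
      have h3 : ∀ a b : ℝ, |b| ≤ 1 → a * b ≤ |a| := by
        intro a b hb
        calc a * b ≤ |a * b| := le_abs_self _
          _ = |a| * |b| := abs_mul _ _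
          _ ≤ |a| * 1 := mul_le_mul_of_nonneg_left hb (abs_nonneg _)
          _ = |a| := mul_one _
      have a0 := h3 (T.symm x 0) _ (hy 0)
      have a1 := h3 (T.symm x 1) _ (hy 1)
      have a2 := h3 (T.symm x 2) _ (hy 2)
      linarith
  obtain ⟨D, hD⟩ := Good.of_preimage T (hT.good far hne)
  refine ⟨fun k => -(fun i => D k (Pi.single i 1)), fun y hy => ?_⟩
  obtain ⟨k, hk⟩ := hD (fn3 y) (fun x hx => by rw [fn3_apply, dot_comm]; exact hx y hy)
  refine ⟨k, ?_⟩
  exact lit_of_pos hc hcomp.isClosed h0 hy fun x hx hxy => by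
    rw [← eq_fn3]; exact hk x hx hxy

end Pool.Agent.Core7
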