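import Pool.Agent.Work.MP_80156a_core7.Red

/-!
# MP_80156a, CORE7: block BOOK
-/

set_option autoImplicit false

namespace Pool.Agent.Core7

open Pool.Agent.Work.MP_80156a_co
open scoped Topology

theorem eq_fnd {d : ℕ} (f : (Fin d → ℝ) →ₗ[ℝ] ℝ) : f = fnd (fun k => f (Pi.single k 1)) := by
  refine LinearMap.ext fun x => ?_
  rw [fnd_apply]
  conv_lhs => rw [← Finset.univ_sum_single x]
  rw [map_sum]
  refine Finset.sum_congr rfl fun k _ => ?_
  have : (Pi.single k (x k) : Fin d → ℝ) = x k • Pi.single k 1 := by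
    rw [← Pi.single_smul, smul_eq_mul, mul_one]
  rw [this, map_smul, smul_eq_mul, mul_comm]

theorem reg_neg {V : Type*} [AddCommGroup V] [Module ℝ V] {K : Set V} (hs : ∀ x ∈ K, -x ∈ K)
    {w : V} {f : V →ₗ[ℝ] ℝ} (h : Reg K w f) : Reg K (-w) (-f) := by
  refine ⟨hs _ h.1, fun z hz => ?_, fun ζ hζ => ?_⟩
  · have := h.2.1 _ (hs _ hz)
    simp only [LinearMap.neg_apply, map_neg] at this ⊢
    linarith
  · simp only [LinearMap.neg_apply] at hζ
    obtain ⟨τ, hτ, h1⟩ := h.2.2 (-ζ) (by rw [map_neg]; exact hζ)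
    refine ⟨τ, hτ, fun t ht ht' => ?_⟩
    have := hs _ (h1 t ht ht')
    simpa [neg_add_rev, add_comm] using this

theorem neg_mem_interior {V : Type*} [NormedAddCommGroup V] [NormedSpace ℝ V] {K : Set V}
    (hs : ∀ x ∈ K, -x ∈ K) {x : V} (hx : x ∈ interior K) : -x ∈ interior K := by
  have h2 : (Neg.neg : V → V) ⁻¹' K = K := by
    ext y
    constructor
    · intro hy
      have := hs _ hy
      rwa [neg_neg] at this
    · intro hy; exact hs _ hy
  have h3 : interior ((Neg.neg : V → V) ⁻¹' K) = (Neg.neg : V → V) ⁻¹' interior K :=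
    ((Homeomorph.neg V).preimage_interior K).symm
  rw [h2] at h3
  have h4 : x ∈ (Neg.neg : V → V) ⁻¹' interior K := by rw [← h3]; exact hx
  exact h4

section BOOK

variable {d : ℕ}

/-- the page number `i` -/
def Page (K : Set (Fin d → ℝ)) (i₀ i : Fin d) : Set (Fin d → ℝ) :=
  {x | ∀ w u, Reg K w (fnd u) → (∀ l, l ≠ i₀ → l ≠ i → u l = 0) → fnd u x ≤ fnd u w}

variable {K : Set (Fin d → ℝ)} {i₀ : Fin d}

theorem page_convex (K : Set (Fin d → ℝ)) (i₀ i : Fin d) : Convex ℝ (Page K i₀ i) := by
  intro x hx y hy α β hα hβ hαβ w u hw hu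
  have h1 := hx w u hw hu
  have h2 := hy w u hw hu
  rw [map_add, map_smul, map_smul, smul_eq_mul, smul_eq_mul]
  have h3 : fnd u w = α * fnd u w + β * fnd u w := by rw [← add_mul, hαβ, one_mul]
  rw [h3]
  exact add_le_add (mul_le_mul_of_nonneg_left h1 hα) (mul_le_mul_of_nonneg_left h2 hβ)

theorem subset_page (K : Set (Fin d → ℝ)) (i₀ i : Fin d) : K ⊆ Page K i₀ i :=
  fun x hx _ _ hw _ => hw.2.1 x hx

theorem page_neg (hs : ∀ x ∈ K, -x ∈ K) {i : Fin d} {x : Fin d → ℝ} (hx : x ∈ Page K i₀ i) :
    -x ∈ Page K i₀ i := by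
  intro w u hw hu
  have h1 : (-fnd u) = fnd (-u) := by
    refine LinearMap.ext fun y => ?_
    simp [fnd_apply]
  have h2 := hx (-w) (-u) (by rw [← h1]; exact reg_neg hs hw)
    (fun l h3 h4 => by rw [Pi.neg_apply, hu l h3 h4, neg_zero])
  rw [← h1] at h2
  simpa using h2

theorem page_congr {i : Fin d} {x x' : Fin d → ℝ} (hx : x ∈ Page K i₀ i) (h0 : x' i₀ = x i₀)
    (hi : x' i = x i) : x' ∈ Page K i₀ i := by
  intro w u hw hu
  have h1 : fnd u x' = fnd u x := by
    rw [fnd_apply, fnd_apply]
    refine Finset.sum_congr rfl fun l _ => ?_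
    by_cases h2 : l = i₀
    · rw [h2, h0]
    · by_cases h3 : l = i
      · rw [h3, hi]
      · rw [hu l h2 h3, zero_mul, zero_mul]
  rw [h1]
  exact hx w u hw hu

theorem page_interior_congr {i : Fin d} {x x' : Fin d → ℝ} (hx : x ∈ interior (Page K i₀ i))
    (h0 : x' i₀ = x i₀) (hi : x' i = x i) : x' ∈ interior (Page K i₀ i) := by
  rw [mem_interior_iff_mem_nhds] at hx ⊢
  have h1 : Filter.Tendsto (fun y => y + (x - x')) (𝓝 x') (𝓝 x) := by
    have h2 : Continuous fun y : Fin d → ℝ => y + (x - x') := by fun_prop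
    have h3 := h2.tendsto x'
    simpa using h3
  filter_upwards [h1 hx] with y hy
  refine page_congr hy ?_ ?_
  · simp [h0]
  · simp [hi]

theorem mem_of_page (hK : Body K)
    (hf : ∀ f ∈ Nor K, ∃ j, j ≠ i₀ ∧ ∀ l, l ≠ i₀ → l ≠ j → f l = 0) {x : Fin d → ℝ}
    (hx : ∀ i, i ≠ i₀ → x ∈ Page K i₀ i) : x ∈ K := by
  by_contra hxK
  obtain ⟨w, f, hw, hlt⟩ := exists_reg hK.conv hK.comp.isClosed hK.int hxK
  rw [eq_fnd f] at hw hlt
  obtain ⟨j, hj, hsupp⟩ := hf _ ⟨w, hw⟩
  have := hx j hj w _ hw hsupp
  linarith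

theorem interior_of_page (hK : Body K)
    (hf : ∀ f ∈ Nor K, ∃ j, j ≠ i₀ ∧ ∀ l, l ≠ i₀ → l ≠ j → f l = 0) {x : Fin d → ℝ}
    (hx : ∀ i, i ≠ i₀ → x ∈ interior (Page K i₀ i)) : x ∈ interior K := by
  rw [mem_interior_iff_mem_nhds]
  have h1 : ∀ᶠ y in 𝓝 x, ∀ i, i ≠ i₀ → y ∈ Page K i₀ i := by
    rw [Filter.eventually_all]
    intro i
    by_cases hi : i = i₀
    · exact Filter.Eventually.of_forall fun y h => absurd hi h
    · filter_upwards [mem_interior_iff_mem_nhds.1 (hx i hi)] with y hy _
      exact hy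
  filter_upwards [h1] with y hy
  exact mem_of_page hK hf hy

/-- the parallelogram argument -/
theorem page_strict (hK : Body K) (hD : ¬ Dec K)
    (hf : ∀ f ∈ Nor K, ∃ j, j ≠ i₀ ∧ ∀ l, l ≠ i₀ → l ≠ j → f l = 0) {a : ℝ} (ha : 0 < a)
    (hamax : ∀ z ∈ K, z i₀ ≤ a) {i : Fin d} (hi : i ≠ i₀) {p q : Fin d → ℝ} (hp : p ∈ K)
    (hq : q ∈ K) (hpa : p i₀ = a) (hqa : q i₀ = a) (hpq : q i ≤ p i) {x : Fin d → ℝ}
    (hx0 : x i₀ = 0) (hxi : |x i| ≤ (p i - q i) / 2) : x ∈ interior (Page K i₀ i) := by
  classical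
  by_contra hcon
  have h0K : (0 : Fin d → ℝ) ∈ interior K := zero_mem_interior hK.conv hK.symm hK.int
  have h0P : (0 : Fin d → ℝ) ∈ interior (Page K i₀ i) := interior_mono (subset_page K i₀ i) h0K
  have hconv := page_convex K i₀ i
  set u : Fin d → ℝ := (1 / 2 : ℝ) • p + (1 / 2 : ℝ) • (-q) with hu
  have hu0 : u i₀ = 0 := by simp [hu, hpa, hqa]
  have hui : u i = (p i - q i) / 2 := by simp [hu]; ring
  have huP : u ∉ interior (Page K i₀ i) := by
    intro h1
    have h2 : -u ∈ interior (Page K i₀ i) :=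
      neg_mem_interior (fun y hy => page_neg hK.symm hy) h1
    rcases (abs_nonneg (x i)).trans hxi |>.eq_or_lt with h3 | h3
    · refine hcon (page_interior_congr h0P ?_ ?_)
      · simp [hx0]
      · rw [← h3] at hxi
        have := abs_nonpos_iff.1 hxi
        simp [this]
    · set ℓ := (p i - q i) / 2 with hℓ
      have h4 := abs_le.1 hxi
      have h5 : ((x i / ℓ + 1) / 2) • u + ((1 - x i / ℓ) / 2) • (-u) ∈
          interior (Page K i₀ i) := by
        refine hconv.interior h1 h2 ?_ ?_ (by ring)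
        · have : -1 ≤ x i / ℓ := by rw [le_div_iff₀ h3]; linarith
          linarith
        · have : x i / ℓ ≤ 1 := by rw [div_le_iff₀ h3]; linarith
          linarith
      refine hcon (page_interior_congr h5 ?_ ?_)
      · simp [hx0, hu0]
      · simp only [Pi.add_apply, Pi.smul_apply, Pi.neg_apply, smul_eq_mul, hui]
        field_simp
        ring
  -- the functional
  obtain ⟨f, hfu⟩ := geometric_hahn_banach_open_point hconv.interior isOpen_interior huP
  have hfle : ∀ z ∈ Page K i₀ i, f z ≤ f u := by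
    intro z hz
    have h3 : z ∈ closure (interior (Page K i₀ i)) := by
      rw [hconv.closure_interior_eq_closure_of_nonempty_interior ⟨0, h0P⟩]
      exact subset_closure hz
    have h4 : IsClosed {x | f x ≤ f u} := isClosed_le f.continuous continuous_const
    exact closure_minimal (fun x hx => (hfu x hx).le) h4 h3
  have hγ : 0 < f u := by
    have := hfu 0 h0P
    rwa [map_zero] at this
  have hfpq : f p = f u ∧ f (-q) = f u := by
    have h1 := hfle p (subset_page K i₀ i hp)
    have h2 := hfle (-q) (subset_page K i₀ i (hK.symm q hq))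
    have h3 : f u = 1 / 2 * f p + 1 / 2 * f (-q) := by
      conv_lhs => rw [hu]
      rw [map_add, map_smul, map_smul, smul_eq_mul, smul_eq_mul]
    constructor <;> linarith
  have hcyl : ∀ v : Fin d → ℝ, v i₀ = 0 → v i = 0 → f v = 0 := by
    intro v hv0 hvi
    have h1 : ∀ t : ℝ, t * f v ≤ f u := by
      intro t
      have h2 : t • v ∈ Page K i₀ i :=
        page_congr (interior_subset h0P) (by simp [hv0]) (by simp [hvi])
      have := hfle _ h2
      rwa [map_smul, smul_eq_mul] at this
    by_contra hne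
    have h2 := h1 ((f u + 1) / f v)
    rw [div_mul_cancel₀ _ hne] at h2
    linarith
  have hrep : ∀ z z' : Fin d → ℝ, z i₀ = z' i₀ →
      f z - f z' = f (Pi.single i 1) * (z i - z' i) := by
    intro z z' h1
    have h2 := hcyl (z - z' - (z i - z' i) • Pi.single i 1) (by simp [h1, Ne.symm hi])
      (by simp)
    rw [map_sub, map_sub, map_smul, smul_eq_mul] at h2
    linarith
  have hfi : f (Pi.single i 1) ≠ 0 := by
    intro h1
    have h2 := hrep u 0 (by simp [hu0])
    rw [h1, zero_mul, map_zero] at h2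
    linarith
  -- the change of coordinates
  set T₀ : (Fin d → ℝ) →ₗ[ℝ] (Fin d → ℝ) := LinearMap.id +
    ((f : (Fin d → ℝ) →ₗ[ℝ] ℝ) - LinearMap.proj i).smulRight (Pi.single i (1 : ℝ)) with hT₀
  have hTi : ∀ z, T₀ z i = f z := by
    intro z; simp [hT₀]
  have hTl : ∀ z l, l ≠ i → T₀ z l = z l := by
    intro z l hl; simp [hT₀, hl]
  have hinj : Function.Injective T₀ := by
    rw [← LinearMap.ker_eq_bot, LinearMap.ker_eq_bot']
    intro z hz
    have h1 : ∀ l, l ≠ i → z l = 0 := fun l hl => by rw [← hTl z l hl, hz]; rfl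
    have h2 : f z = 0 := by rw [← hTi z, hz]; rfl
    have h3 := hrep z 0 (by rw [h1 i₀ (Ne.symm hi)]; rfl)
    rw [h2, map_zero, sub_zero, Pi.zero_apply, sub_zero] at h3
    have h4 : z i = 0 := (mul_eq_zero.1 h3.symm).resolve_left hfi
    ext l
    by_cases hl : l = i
    · rw [hl, h4]; rfl
    · rw [h1 l hl]; rfl
  refine hD ⟨LinearEquiv.ofInjectiveEndo T₀ hinj, {i}, by simp, ?_, ?_⟩
  · intro h1
    have : i₀ ∈ ({i} : Finset (Fin d)) := by rw [h1]; exact Finset.mem_univ _
    exact hi (Finset.mem_singleton.1 this).symm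
  · intro x' hx' y hy z hz1 hz2
    have e1 : f z = f x' := by
      have := hz1 i (Finset.mem_singleton_self i)
      rw [LinearEquiv.coe_ofInjectiveEndo, hTi, hTi] at this
      exact this
    have e2 : ∀ l, l ≠ i → z l = y l := by
      intro l hl
      have := hz2 l (by simpa using hl)
      rw [LinearEquiv.coe_ofInjectiveEndo, hTl z l hl, hTl y l hl] at this
      exact this
    refine mem_of_page hK hf fun j hj => ?_
    by_cases hji : j = i
    · subst hji
      -- the parallelogram
      have hfz : |f z| ≤ f u := by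
        rw [e1, abs_le]
        have h1 := hfle x' (subset_page K i₀ j hx')
        have h2 := hfle (-x') (subset_page K i₀ j (hK.symm x' hx'))
        rw [map_neg] at h2
        exact ⟨by linarith, h1⟩
      have hza : |z i₀| ≤ a := by
        rw [e2 i₀ (Ne.symm hi), abs_le]
        have h1 := hamax y hy
        have h2 := hamax (-y) (hK.symm y hy)
        rw [Pi.neg_apply] at h2
        exact ⟨by linarith, h1⟩
      set τ := z i₀ / a with hτ
      set ρ := f z / f u with hρ
      have hτ1 : |τ| ≤ 1 := by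
        rw [hτ, abs_div, abs_of_pos ha, div_le_one ha]; exact hza
      have hρ1 : |ρ| ≤ 1 := by
        rw [hρ, abs_div, abs_of_pos hγ, div_le_one hγ]; exact hfz
      have hτ2 := abs_le.1 hτ1
      have hρ2 := abs_le.1 hρ1
      have hτa : a * τ = z i₀ := by rw [hτ]; field_simp
      have hργ : f u * ρ = f z := by rw [hρ]; field_simp
      set c : Fin d → ℝ := ((1 + τ) * (1 + ρ) / 4) • p + ((1 + τ) * (1 - ρ) / 4) • q +
        ((1 - τ) * (1 + ρ) / 4) • (-q) + ((1 - τ) * (1 - ρ) / 4) • (-p) with hc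
      have hcP : c ∈ Page K i₀ j := by
        have k1 : 0 ≤ (1 + τ) * (1 + ρ) / 4 :=
          div_nonneg (mul_nonneg (by linarith) (by linarith)) (by norm_num)
        have k2 : 0 ≤ (1 + τ) * (1 - ρ) / 4 :=
          div_nonneg (mul_nonneg (by linarith) (by linarith)) (by norm_num)
        have k3 : 0 ≤ (1 - τ) * (1 + ρ) / 4 :=
          div_nonneg (mul_nonneg (by linarith) (by linarith)) (by norm_num)
        have k4 : 0 ≤ (1 - τ) * (1 - ρ) / 4 :=
          div_nonneg (mul_nonneg (by linarith) (by linarith)) (by norm_num)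
        have hp' := subset_page K i₀ j hp
        have hq' := subset_page K i₀ j hq
        have hp'' := page_neg hK.symm hp'
        have hq'' := page_neg hK.symm hq'
        intro w v hw hv
        have l1 := hp' w v hw hv
        have l2 := hq' w v hw hv
        have l3 := hq'' w v hw hv
        have l4 := hp'' w v hw hv
        rw [hc]
        simp only [map_add, map_smul, smul_eq_mul]
        have m1 := mul_le_mul_of_nonneg_left l1 k1
        have m2 := mul_le_mul_of_nonneg_left l2 k2
        have m3 := mul_le_mul_of_nonneg_left l3 k3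
        have m4 := mul_le_mul_of_nonneg_left l4 k4
        have m5 : (1 + τ) * (1 + ρ) / 4 * fnd v w + (1 + τ) * (1 - ρ) / 4 * fnd v w +
          (1 - τ) * (1 + ρ) / 4 * fnd v w + (1 - τ) * (1 - ρ) / 4 * fnd v w = fnd v w := by ring
        linarith
      have hc0 : z i₀ = c i₀ := by
        rw [hc]
        simp only [Pi.add_apply, Pi.smul_apply, Pi.neg_apply, smul_eq_mul, hpa, hqa]
        linear_combination -hτa
      have hfq : f q = -f u := by
        have := hfpq.2
        rw [map_neg] at this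
        linarith
      have hfc : f c = f z := by
        rw [hc]
        simp only [map_add, map_smul, map_neg, smul_eq_mul, hfpq.1, hfq]
        linear_combination hργ
      have hci : z j = c j := by
        have h1 := hrep z c hc0
        rw [hfc, sub_self] at h1
        have := (mul_eq_zero.1 h1.symm).resolve_left hfi
        linarith
      exact page_congr hcP hc0 hci
    · exact page_congr (subset_page K i₀ j hy) (e2 i₀ (Ne.symm hi)) (e2 j hji)

end BOOK

theorem blk_BOOK : Stmt_BOOK := by
  classical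
  intro d K hd hK hD i₀ hf
  have h0K : (0 : Fin d → ℝ) ∈ interior K := zero_mem_interior hK.conv hK.symm hK.int
  have hne : K.Nonempty := ⟨0, interior_subset h0K⟩
  obtain ⟨y, hyK, hymax⟩ := hK.comp.exists_isMaxOn hne (f := fun x : Fin d → ℝ => x i₀)
    (continuous_apply i₀).continuousOn
  set a := y i₀ with haDef
  have hamax : ∀ z ∈ K, z i₀ ≤ a := fun z hz => hymax hz
  have hamin : ∀ z ∈ K, -a ≤ z i₀ := fun z hz => by
    have := hamax _ (hK.symm z hz)
    rw [Pi.neg_apply] at this
    linarith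
  have ha : 0 < a := by
    obtain ⟨r, hr, hball⟩ := Metric.mem_nhds_iff.1 (mem_interior_iff_mem_nhds.1 h0K)
    have h1 : (r / 2) • Pi.single i₀ (1 : ℝ) ∈ K := by
      refine hball ?_
      rw [mem_ball_zero_iff, norm_smul, Real.norm_eq_abs, abs_of_pos (by positivity),
        Pi.norm_single, norm_one, mul_one]
      linarith
    have h2 := hamax _ h1
    simp at h2
    linarith
  -- the fibre at `a`
  set F : Set (Fin d → ℝ) := K ∩ {x | x i₀ = a} with hF
  have hFc : IsCompact F := hK.comp.inter_right (isClosed_eq (continuous_apply i₀)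
    continuous_const)
  have hFne : F.Nonempty := ⟨y, hyK, rfl⟩
  have hmaxi : ∀ i : Fin d, ∃ p ∈ F, ∀ z ∈ F, z i ≤ p i := fun i => by
    obtain ⟨p, hp, hp'⟩ := hFc.exists_isMaxOn hFne (f := fun x : Fin d → ℝ => x i)
      (continuous_apply i).continuousOn
    exact ⟨p, hp, fun z hz => hp' hz⟩
  have hmini : ∀ i : Fin d, ∃ p ∈ F, ∀ z ∈ F, p i ≤ z i := fun i => by
    obtain ⟨p, hp, hp'⟩ := hFc.exists_isMinOn hFne (f := fun x : Fin d → ℝ => x i)
      (continuous_apply i).continuousOn
    exact ⟨p, hp, fun z hz => hp' hz⟩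
  choose p hpF hp using hmaxi
  choose q hqF hq using hmini
  set c : Fin d → ℝ := fun i => (p i i + q i i) / 2 with hc
  have hc0 : c i₀ = a := by
    have h1 : p i₀ i₀ = a := (hpF i₀).2
    have h2 : q i₀ i₀ = a := (hqF i₀).2
    rw [hc]; simp only [h1, h2]; ring
  -- the directions
  set dir : Finset (Fin d) → Fin d → ℝ := fun s i => if i = i₀ then 0 else
    if i ∈ s then 1 else -1 with hdir
  set D : Finset (Fin d → ℝ) := ((Finset.univ.erase i₀).powerset.image dir) ∪ {c, -c} with hDdef
  refine ⟨D, ?_, fun z hz => ?_⟩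
  · refine (Finset.card_union_le _ _).trans (Nat.add_le_add (Finset.card_image_le.trans ?_)
      Finset.card_le_two)
    rw [Finset.card_powerset, Finset.card_erase_of_mem (Finset.mem_univ _), Finset.card_univ,
      Fintype.card_fin]
  -- light at the end `a`
  have hend : ∀ z ∈ K, z i₀ = a → z - c ∈ interior K := by
    intro z hz hza
    refine interior_of_page hK hf fun i hi => ?_
    have h1 := hp i z ⟨hz, hza⟩
    have h2 := hq i z ⟨hz, hza⟩
    refine page_strict hK hD hf ha hamax hi (hpF i).1 (hqF i).1 (hpF i).2 (hqF i).2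
      (h2.trans h1) ?_ ?_
    · rw [Pi.sub_apply, hza, hc0, sub_self]
    · rw [Pi.sub_apply, hc, abs_le]
      constructor <;> simp only <;> linarith
  rcases (hamax z hz).eq_or_lt with hza | hza
  · refine ⟨-c, by simp [hDdef], 1, one_pos, ?_⟩
    rw [one_smul, ← sub_eq_add_neg]
    exact hend z hz hza
  rcases (hamin z hz).eq_or_lt with hza' | hza'
  · refine ⟨c, by simp [hDdef], 1, one_pos, ?_⟩
    have h1 := hend (-z) (hK.symm z hz) (by rw [Pi.neg_apply, ← hza', neg_neg])
    have h2 := neg_mem_interior hK.symm h1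
    have h4 : -(-z - c) = z + (1 : ℝ) • c := by rw [one_smul]; abel
    rwa [h4] at h2
  -- the middle part
  set m : Fin d → ℝ := (z i₀ / a) • y with hm
  have hm0 : m i₀ = z i₀ := by
    rw [hm, Pi.smul_apply, smul_eq_mul, ← haDef]; field_simp
  have hmP : ∀ i, m ∈ interior (Page K i₀ i) := by
    intro i
    have h0P : (0 : Fin d → ℝ) ∈ interior (Page K i₀ i) := interior_mono (subset_page K i₀ i) h0K
    have hyP := subset_page K i₀ i hyK
    have hyP' := page_neg hK.symm hyP
    rcases le_total 0 (z i₀ / a) with h1 | h1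
    · have h2 : z i₀ / a < 1 := by rw [div_lt_one ha]; exact hza
      have h3 := (page_convex K i₀ i).add_smul_sub_mem_interior hyP h0P
        (t := 1 - z i₀ / a) ⟨by linarith, by linarith⟩
      have h4 : y + (1 - z i₀ / a) • (0 - y) = m := by
        rw [hm]; module
      rwa [h4] at h3
    · have h2 : -1 < z i₀ / a := by rw [lt_div_iff₀ ha]; linarith
      have h3 := (page_convex K i₀ i).add_smul_sub_mem_interior hyP' h0P
        (t := 1 + z i₀ / a) ⟨by linarith, by linarith⟩
      have h4 : -y + (1 + z i₀ / a) • (0 - -y) = m := by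
        rw [hm]; module
      rwa [h4] at h3
  set s : Finset (Fin d) := (Finset.univ.erase i₀).filter fun i => z i ≤ m i with hs
  refine ⟨dir s, ?_, ?_⟩
  · rw [hDdef, Finset.mem_union]
    exact Or.inl (Finset.mem_image_of_mem _ (Finset.mem_powerset.2 (Finset.filter_subset _ _)))
  have hv0 : dir s i₀ = 0 := by simp [hdir]
  have hev : ∀ᶠ t in 𝓝[>] (0 : ℝ), ∀ i, i ≠ i₀ → z + t • dir s ∈ interior (Page K i₀ i) := by
    rw [Filter.eventually_all]
    intro i
    by_cases hi : i = i₀
    · exact Filter.Eventually.of_forall fun y h => absurd hi h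
    have hzP := subset_page K i₀ i hz
    rcases lt_trichotomy (z i) (m i) with h1 | h1 | h1
    · have hvi : dir s i = 1 := by simp [hdir, hi, hs, h1.le]
      have h2 : ∀ᶠ t in 𝓝[>] (0 : ℝ), t < m i - z i :=
        nhdsWithin_le_nhds (gt_mem_nhds (by linarith))
      filter_upwards [h2, self_mem_nhdsWithin] with t ht ht0 _
      have ht0' : (0 : ℝ) < t := ht0
      have h3 : 0 < m i - z i := by linarith
      have h4 := (page_convex K i₀ i).add_smul_sub_mem_interior hzP (hmP i)
        (t := t / (m i - z i)) ⟨by positivity, by rw [div_le_one h3]; exact ht.le⟩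
      refine page_interior_congr h4 ?_ ?_
      · simp [hv0, hm0]
      · simp only [Pi.add_apply, Pi.smul_apply, Pi.sub_apply, smul_eq_mul, hvi]
        field_simp
    · have h2 : z ∈ interior (Page K i₀ i) := page_interior_congr (hmP i) hm0.symm h1
      have h3 : Filter.Tendsto (fun t : ℝ => z + t • dir s) (𝓝[>] 0) (𝓝 z) := by
        have h4 : Continuous fun t : ℝ => z + t • dir s := by fun_prop
        have h5 := h4.tendsto 0
        simp only [zero_smul, add_zero] at h5
        exact h5.mono_left nhdsWithin_le_nhds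
      filter_upwards [h3 (isOpen_interior.mem_nhds h2)] with t ht _
      exact ht
    · have hvi : dir s i = -1 := by simp [hdir, hi, hs, not_le.2 h1]
      have h2 : ∀ᶠ t in 𝓝[>] (0 : ℝ), t < z i - m i :=
        nhdsWithin_le_nhds (gt_mem_nhds (by linarith))
      filter_upwards [h2, self_mem_nhdsWithin] with t ht ht0 _
      have ht0' : (0 : ℝ) < t := ht0
      have h3 : 0 < z i - m i := by linarith
      have h4 := (page_convex K i₀ i).add_smul_sub_mem_interior hzP (hmP i)
        (t := t / (z i - m i)) ⟨by positivity, by rw [div_le_one h3]; exact ht.le⟩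
      refine page_interior_congr h4 ?_ ?_
      · simp [hv0, hm0]
      · simp only [Pi.add_apply, Pi.smul_apply, Pi.sub_apply, smul_eq_mul, hvi]
        field_simp
        ring
  obtain ⟨t, ht, ht0⟩ := (hev.and self_mem_nhdsWithin).exists
  exact ⟨t, ht0, interior_of_page hK hf ht⟩

end Pool.Agent.Core7
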