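import Pool.Agent.Work.MP_80156a_core7.Red

/-!
# MP_80156a, CORE7: products
-/

set_option autoImplicit false

namespace Pool.Agent.Core7

open Pool.Agent.Work.MP_80156a_co

theorem preimage_interior_prod {d d₁ d₂ : ℕ}
    (T : (Fin d → ℝ) ≃ₗ[ℝ] (Fin d₁ → ℝ) × (Fin d₂ → ℝ))
    (K₁ : Set (Fin d₁ → ℝ)) (K₂ : Set (Fin d₂ → ℝ)) :
    interior (T ⁻¹' (K₁ ×ˢ K₂)) = T ⁻¹' (interior K₁ ×ˢ interior K₂) := by
  have h := T.toContinuousLinearEquiv.toHomeomorph.preimage_interior (K₁ ×ˢ K₂)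
  rw [interior_prod_eq] at h
  exact h.symm

theorem blk_PROD : Stmt_PROD := by
  classical
  intro d d₁ d₂ hd T K₁ K₂ hK₁ hK₂
  obtain ⟨k₁, hk₁⟩ : K₁.Nonempty := hK₁.int.mono interior_subset
  obtain ⟨k₂, hk₂⟩ : K₂.Nonempty := hK₂.int.mono interior_subset
  refine ⟨fun n hn => ⟨?_, ?_⟩, ?_, ?_⟩
  · intro A hA
    obtain ⟨x, hx⟩ := hn (A.image fun t => T.symm (t, 0)) fun S hS hc => by
      obtain ⟨y, hy⟩ := hA (S.image fun x => (T x).1) (by
        intro t ht
        obtain ⟨s, hs, rfl⟩ := Finset.mem_image.1 ht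
        obtain ⟨t', ht', rfl⟩ := Finset.mem_image.1 (hS hs)
        simpa using ht') (Finset.card_image_le.trans hc)
      refine ⟨T.symm (y, k₂), fun s hs => ?_⟩
      obtain ⟨t', ht', rfl⟩ := Finset.mem_image.1 (hS hs)
      have h1 := hy t' (Finset.mem_image.2 ⟨_, hs, by simp⟩)
      rw [Set.mem_preimage, map_sub, LinearEquiv.apply_symm_apply, LinearEquiv.apply_symm_apply]
      exact ⟨h1, by simpa using hk₂⟩
    refine ⟨(T x).1, fun t ht => ?_⟩
    have h1 := hx _ (Finset.mem_image_of_mem _ ht)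
    rw [Set.mem_preimage, map_sub, LinearEquiv.apply_symm_apply] at h1
    exact h1.1
  · intro A hA
    obtain ⟨x, hx⟩ := hn (A.image fun t => T.symm (0, t)) fun S hS hc => by
      obtain ⟨y, hy⟩ := hA (S.image fun x => (T x).2) (by
        intro t ht
        obtain ⟨s, hs, rfl⟩ := Finset.mem_image.1 ht
        obtain ⟨t', ht', rfl⟩ := Finset.mem_image.1 (hS hs)
        simpa using ht') (Finset.card_image_le.trans hc)
      refine ⟨T.symm (k₁, y), fun s hs => ?_⟩
      obtain ⟨t', ht', rfl⟩ := Finset.mem_image.1 (hS hs)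
      have h1 := hy t' (Finset.mem_image.2 ⟨_, hs, by simp⟩)
      rw [Set.mem_preimage, map_sub, LinearEquiv.apply_symm_apply, LinearEquiv.apply_symm_apply]
      exact ⟨by simpa using hk₁, h1⟩
    refine ⟨(T x).2, fun t ht => ?_⟩
    have h1 := hx _ (Finset.mem_image_of_mem _ ht)
    rw [Set.mem_preimage, map_sub, LinearEquiv.apply_symm_apply] at h1
    exact h1.2
  · rintro m₁ m₂ ⟨D₁, hD₁, hl₁⟩ ⟨D₂, hD₂, hl₂⟩
    refine ⟨(D₁ ×ˢ D₂).image T.symm, ?_, fun z hz => ?_⟩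
    · refine Finset.card_image_le.trans ?_
      rw [Finset.card_product]
      exact Nat.mul_le_mul hD₁ hD₂
    · obtain ⟨v₁, hv₁, t₁, ht₁, h₁⟩ := hl₁ _ hz.1
      obtain ⟨v₂, hv₂, t₂, ht₂, h₂⟩ := hl₂ _ hz.2
      refine ⟨T.symm (v₁, v₂), Finset.mem_image_of_mem _ (Finset.mk_mem_product hv₁ hv₂),
        min t₁ t₂, lt_min ht₁ ht₂, ?_⟩
      rw [preimage_interior_prod, Set.mem_preimage, map_add, map_smul,
        LinearEquiv.apply_symm_apply]
      have hm : 0 < min t₁ t₂ := lt_min ht₁ ht₂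
      constructor
      · have h3 := hK₁.conv.add_smul_mem_interior hz.1 h₁
          (t := min t₁ t₂ / t₁) ⟨by positivity, (div_le_one ht₁).2 (min_le_left _ _)⟩
        rw [smul_smul, div_mul_cancel₀ _ ht₁.ne'] at h3
        exact h3
      · have h3 := hK₂.conv.add_smul_mem_interior hz.2 h₂
          (t := min t₁ t₂ / t₂) ⟨by positivity, (div_le_one ht₂).2 (min_le_right _ _)⟩
        rw [smul_smul, div_mul_cancel₀ _ ht₂.ne'] at h3
        exact h3
  · rintro ⟨S₁, hS₁⟩ ⟨S₂, hS₂⟩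
    subst hd
    refine ⟨(T.trans (S₁.prodCongr S₂)).trans
      ((LinearEquiv.sumArrowLequivProdArrow (Fin d₁) (Fin d₂) ℝ ℝ).symm.trans
        (LinearEquiv.funCongrLeft ℝ ℝ finSumFinEquiv.symm)), ?_⟩
    ext y
    rw [Set.mem_preimage, Set.mem_prod, hS₁, hS₂]
    simp only [Set.mem_ofPred_eq]
    constructor
    · rintro ⟨h1, h2⟩ i
      obtain ⟨i, rfl⟩ := finSumFinEquiv.surjective i
      rcases i with i | i
      · simpa [LinearEquiv.funCongrLeft] using h1 i
      · simpa [LinearEquiv.funCongrLeft] using h2 i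
    · intro h
      exact ⟨fun i => by simpa [LinearEquiv.funCongrLeft] using h (finSumFinEquiv (Sum.inl i)),
        fun i => by simpa [LinearEquiv.funCongrLeft] using h (finSumFinEquiv (Sum.inr i))⟩

end Pool.Agent.Core7
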