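import Pool.Agent.Work.MP_80156a_co.Transfer
import Pool.Agent.Work.MP_80156a_core7.Polar

/-!
# MP_80156a, CORE7: the reduction of the theorem for all dimensions to dimension 3

Definitions and statements of the blocks.  `Stmt_X` is proved in the file `R_X.lean`, theorem
`Pool.Agent.Core7.blk_X`.
-/

set_option autoImplicit false

namespace Pool.Agent.Core7

open Pool.Agent.Work.MP_80156a_co

/-- Centrally symmetric convex body. -/
structure Body {V : Type*} [NormedAddCommGroup V] [NormedSpace ℝ V] (K : Set V) : Prop where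
  conv : Convex ℝ K
  comp : IsCompact K
  int : (interior K).Nonempty
  symm : ∀ x ∈ K, -x ∈ K

/-- All points of `K` are lit by at most `m` directions. -/
def LitNum {V : Type*} [NormedAddCommGroup V] [NormedSpace ℝ V] (K : Set V) (m : ℕ) : Prop :=
  ∃ D : Finset V, D.card ≤ m ∧ ∀ z ∈ K, ∃ v ∈ D, ∃ t : ℝ, 0 < t ∧ z + t • v ∈ interior K

/-- Centrally symmetric parallelotope. -/
def Par {d : ℕ} (K : Set (Fin d → ℝ)) : Prop :=
  ∃ S : (Fin d → ℝ) ≃ₗ[ℝ] (Fin d → ℝ), K = {y | ∀ i, |S y i| ≤ 1}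

/-- `K` is a direct sum of two bodies of positive dimension: in some linear coordinates points of
`K` can be mixed. -/
def Dec {d : ℕ} (K : Set (Fin d → ℝ)) : Prop :=
  ∃ (T : (Fin d → ℝ) ≃ₗ[ℝ] (Fin d → ℝ)) (J : Finset (Fin d)), J.Nonempty ∧ J ≠ Finset.univ ∧
    ∀ x ∈ K, ∀ y ∈ K, ∀ z, (∀ i ∈ J, T z i = T x i) → (∀ i ∉ J, T z i = T y i) → z ∈ K

/-- The functional with coefficient vector `u`. -/
noncomputable def fnd {d : ℕ} (u : Fin d → ℝ) : (Fin d → ℝ) →ₗ[ℝ] ℝ :=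
  ∑ k, u k • LinearMap.proj (R := ℝ) (φ := fun _ : Fin d => ℝ) k

theorem fnd_apply {d : ℕ} (u x : Fin d → ℝ) : fnd u x = ∑ k, u k * x k := by
  simp [fnd, LinearMap.sum_apply]

/-- The coefficient vectors of the regular normals of `K`. -/
def Nor {d : ℕ} (K : Set (Fin d → ℝ)) : Set (Fin d → ℝ) := {u | ∃ w, Reg K w (fnd u)}

/-- The linear algebra of a set `N` of vectors, which contains the standard basis, is symmetric and
has no circuit with more than four elements: the consequences which are used.  `supp ≤ 3`, pivot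
with one coordinate, pivot with two coordinates, connectedness. -/
structure Small {d : ℕ} (N : Set (Fin d → ℝ)) : Prop where
  supp : ∀ f ∈ N, {l | f l ≠ 0}.ncard ≤ 3
  piv : ∀ f ∈ N, ∀ g ∈ N, ∀ i, f i ≠ 0 → g i ≠ 0 → {l | g i * f l - f i * g l ≠ 0}.ncard ≤ 2
  piv2 : ∀ f ∈ N, ∀ g ∈ N, ∀ h ∈ N, ∀ i j, g i * h j - g j * h i ≠ 0 → h i * f j - h j * f i ≠ 0 →
    f i * g j - f j * g i ≠ 0 →
    {l | (g i * h j - g j * h i) * f l + (h i * f j - h j * f i) * g l +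
      (f i * g j - f j * g i) * h l ≠ 0}.ncard ≤ 1

/-- Connectedness. -/
def Conn {d : ℕ} (N : Set (Fin d → ℝ)) : Prop :=
  ∀ J : Finset (Fin d), J.Nonempty → J ≠ Finset.univ →
    ∃ f ∈ N, (∃ i ∈ J, f i ≠ 0) ∧ ∃ i, i ∉ J ∧ f i ≠ 0

/-- **MAT**: the structure of the set of normals (proof in note [CORE7-R] of helper72). -/
def Stmt_MAT : Prop := ∀ (d : ℕ) (N : Set (Fin d → ℝ)), 4 ≤ d → Small N → Conn N →
  ∃ (i₀ : Fin d) (p : Fin d → ℝ), p i₀ ≠ 0 ∧ ∀ f ∈ N, ∃ j, j ≠ i₀ ∧ ∃ s t : ℝ,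
    f = s • p + t • Pi.single j 1

/-- **CIR**: circuits of regular normals.  PROOF.  Tool: `circuit` of
`Work/MP_80156a_co/Helly.lean` (positive relation, and for every `a` a `ζ a` with `F b (ζ a) < 0`
for all `b ≠ a`; conclusion `card α ≤ 4`); `Reg K w f → Reg K (-w) (-f)` as `K = -K`.
LEMMA LIN: if `∑ c a • F a = 0`, all `c a ≠ 0`, and every relation `∑ c' a • F a = 0` is a multiple
of `c`, then for all `a` and all targets `t` there is `ζ` with `F b ζ = t b` for `b ≠ a` (the map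
`V → (α \ a → ℝ)` is onto: a functional vanishing on its range is a relation with `c' a = 0`).
Replace `F a` by `-F a` if `c a < 0`.
`supp`: relation `f - ∑_{j ∈ supp f} f j • e_j`.  `piv`: if `m = g i • f - f i • g`, relation
`g i • f - f i • g - ∑_{j ∈ supp m} m j • e_j = 0` among `2 + |supp m|` functionals (look at the
coordinate `i`: it gives that relations are multiples).  `piv2`: the same with `f, g, h` and the
coordinates `i, j` (`3 + |supp m| ≤ 4`).  (If `m = 0` or `f = 0` there is nothing to prove.) -/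
def Stmt_CIR : Prop := ∀ (d : ℕ) (K : Set (Fin d → ℝ)), Body K → HP K 4 →
  (∀ i, Pi.single i 1 ∈ Nor K) → Small (Nor K)

/-- **BAS**: coordinates in which the coordinate functionals are regular normals.  PROOF.  The
functionals `f` with `Reg K w f` for some `w` span the dual space: else there is `v ≠ 0` with
`f v = 0` for all of them, and then `K + ℝ v ⊆ K` by `exists_reg`, but `K` is bounded.  Take a basis
`b i` of the dual space out of this set, `S x = (b i x)_i`, `T = S.symm`; `T ⁻¹' K = S '' K`, and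
`b i ∘ S.symm` is the coordinate `i`. -/
def Stmt_BAS : Prop := ∀ (d : ℕ) (K : Set (Fin d → ℝ)), Body K →
  ∃ T : (Fin d → ℝ) ≃ₗ[ℝ] (Fin d → ℝ), ∀ i, Pi.single i 1 ∈ Nor (T ⁻¹' K)

/-- **CON**: an indecomposable body has a connected set of normals.  PROOF.  If `J` violates
`Conn`, then `Dec` with `T = refl` and `J`: if the mixed point `z ∉ K`, `exists_reg` gives `Reg K w f`
with `f w < f z`; the support of `f` is in `J` or off `J`, so `f z = f x` or `f z = f y`, both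
`≤ f w`. -/
def Stmt_CON : Prop := ∀ (d : ℕ) (K : Set (Fin d → ℝ)), Body K → ¬ Dec K → Conn (Nor K)

/-- **BOOK**: bodies all of whose regular normals depend on the coordinate `i₀` and one more
coordinate.  PROOF.  `P i` (`i ≠ i₀`) = points satisfying all inequalities `f z ≤ f w`, `Reg K w f`,
`supp f ⊆ {i₀, i}`: closed convex symmetric, depends on the coordinates `i₀, i` only;
`K = ⋂ P i`, and `⋂ interior (P i) ⊆ interior K`.  `a = max x i₀` on `K`, attained at `y`.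
(A) `|z i₀| < a`: `m = (z i₀ / a) • y` is in all `interior (P i)`; direction `v i₀ = 0`,
`v i = sign (m i - z i)`: `2 ^ (d - 1)` directions.  (B) `|z i₀| = a`: `c` = centre of the box
`K ∩ {x i₀ = a}`, half widths `ℓ i`; directions `-c` and `c`, `t = 1`: `z - c` has coordinates
`0, s i`, `|s i| ≤ ℓ i`, and it is in `interior (P i)`: else there is a functional `g ≠ 0` in the
coordinates `i₀, i` with `|g| ≤ γ` on `P i`, `g (0, ℓ i) = γ`, so `g (a, M i) = γ`,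
`g (a, m i) = -γ`, so `P i ∩ {|x i₀| ≤ a}` is the parallelogram `{|x i₀| ≤ a, |g x| ≤ γ}` and `K`
is decomposable (`T x i = g x`, `T x l = x l` else, `J = {i}`). -/
def Stmt_BOOK : Prop := ∀ (d : ℕ) (K : Set (Fin d → ℝ)), 2 ≤ d → Body K → ¬ Dec K → ∀ i₀ : Fin d,
  (∀ f ∈ Nor K, ∃ j, j ≠ i₀ ∧ ∀ l, l ≠ i₀ → l ≠ j → f l = 0) → LitNum K (2 ^ (d - 1) + 2)

/-- **PLANE**: planar bodies.  PROOF.  As in `Polar.lean`/`Frame.lean`, in the plane: polar `L`,
basis of maximal determinant, so `L ⊆ [-1,1]²`, `|x 0 * y 1 - x 1 * y 0| ≤ 1` on `L`; `w ∈ L`,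
after changing signs `w ≥ 0`, `w 0 + w 1 = 1 + η > 1` (not a parallelogram).  The functionals
`(1,-β)`, `(-β,1)`, `(-1,-1)` with `0 < β < η/(1+η)`: for `|q i| ≤ 1`, `q.w ≤ 1` one of them is
positive on `{x ∈ L : q.x = 1}`.  `q ≥ 0`: if both `(1,-β)`, `(-β,1)` fail, `q 0 ≥ 1 - β`,
`q 1 ≥ 1 - β`, so `q.w > 1`.  `q = (a,-b)`: `(1,-β)` works unless `q = (0,-1)`; `q = (-a,-b)`
(and `(0,-1)`, `(-1,0)`): `(-1,-1)` works, else `±(1,-1) ∈ L`, whose determinant with `w` is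
`w 0 + w 1 > 1`. -/
def Stmt_PLANE : Prop := ∀ K : Set (Fin 2 → ℝ), Body K → ¬ Par K → LitNum K 3

/-- **PARL**: parallelotopes: the directions `S.symm (ε)`, `ε ∈ {1,-1}^d` (light `z` with
`ε i = -sign (S z i)`); `hp_box` and `HP.transfer` of `Work/MP_80156a_co/Transfer.lean` (or directly:
`x i` = the mean of the largest and the smallest coordinate `i` of the translation vectors). -/
def Stmt_PARL : Prop := ∀ (d : ℕ) (K : Set (Fin d → ℝ)), Par K → LitNum K (2 ^ d) ∧ HP K 2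

/-- **DEC**: the factors of a decomposable body: `K₁`, `K₂` = projections of `T '' K` to the
coordinates in `J` and off `J` (`d₁ = J.card`, `d₂ = d - J.card`, with `J ≃ Fin d₁` etc.). -/
def Stmt_DEC : Prop := ∀ (d : ℕ) (K : Set (Fin d → ℝ)), Body K → Dec K →
  ∃ (d₁ d₂ : ℕ) (_ : d₁ + d₂ = d) (T : (Fin d → ℝ) ≃ₗ[ℝ] (Fin d₁ → ℝ) × (Fin d₂ → ℝ))
    (K₁ : Set (Fin d₁ → ℝ)) (K₂ : Set (Fin d₂ → ℝ)), 0 < d₁ ∧ 0 < d₂ ∧ Body K₁ ∧ Body K₂ ∧
      K = T ⁻¹' (K₁ ×ˢ K₂)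

/-- **PROD**: products: translates `(t, 0)` for `HP`; `LitNum`: pairs of directions and
the smaller of the two `t` (if `z ∈ K₁`, `z + t v ∈ interior K₁`, then also for `0 < t' ≤ t`);
`T` is a homeomorphism. -/
def Stmt_PROD : Prop := ∀ (d d₁ d₂ : ℕ) (_ : d₁ + d₂ = d)
  (T : (Fin d → ℝ) ≃ₗ[ℝ] (Fin d₁ → ℝ) × (Fin d₂ → ℝ))
  (K₁ : Set (Fin d₁ → ℝ)) (K₂ : Set (Fin d₂ → ℝ)), Body K₁ → Body K₂ →
    (∀ n, HP (T ⁻¹' (K₁ ×ˢ K₂)) n → HP K₁ n ∧ HP K₂ n) ∧
    (∀ m₁ m₂, LitNum K₁ m₁ → LitNum K₂ m₂ → LitNum (T ⁻¹' (K₁ ×ˢ K₂)) (m₁ * m₂)) ∧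
    (Par K₁ → Par K₂ → Par (T ⁻¹' (K₁ ×ˢ K₂)))

/-- **TRA**: linear changes of coordinates. -/
def Stmt_TRA : Prop := ∀ (d : ℕ) (T : (Fin d → ℝ) ≃ₗ[ℝ] (Fin d → ℝ)) (K : Set (Fin d → ℝ)),
  (Body K → Body (T ⁻¹' K)) ∧ (∀ n, HP K n → HP (T ⁻¹' K) n) ∧ (Dec (T ⁻¹' K) → Dec K) ∧
    (Par (T ⁻¹' K) → Par K) ∧ (∀ m, LitNum (T ⁻¹' K) m → LitNum K m)

/-- **ONE**: dimension one. -/
def Stmt_ONE : Prop := ∀ K : Set (Fin 1 → ℝ), Body K → Par K

/-- **RED**: the induction. -/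
def Stmt_RED : Prop := ∀ (d : ℕ) (K : Set (Fin d → ℝ)), Body K → HP K 4 →
  Par K ∨ ∃ m, 8 * m ≤ 7 * 2 ^ d ∧ LitNum K m

end Pool.Agent.Core7
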